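import Pool.Agent.Helper556_sys.PropADef

/-!
# Yu's form of Property A, and coarse embeddings
-/

set_option autoImplicit false

universe u

namespace Pool.Agent.H169Q

open SimpleGraph Filter Pool.Agent.Helper556_sys

theorem ncard_fib {V : Type*} {T : Finset V} {lo hi : V → ℕ} (hT : ∀ z, lo z < hi z → z ∈ T) :
    {p : V × ℕ | lo p.1 ≤ p.2 ∧ p.2 < hi p.1}.Finite ∧
    {p : V × ℕ | lo p.1 ≤ p.2 ∧ p.2 < hi p.1}.ncard = ∑ z ∈ T, (hi z - lo z) := by
  classical
  have h1 : {p : V × ℕ | lo p.1 ≤ p.2 ∧ p.2 < hi p.1} =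
      ↑((T.sigma fun z => Finset.Ico (lo z) (hi z)).image fun s => ((s.1, s.2) : V × ℕ)) := by
    ext ⟨z, n⟩
    simp only [Set.mem_ofPred_eq, Finset.coe_image, Set.mem_image, Finset.mem_coe,
      Finset.mem_sigma, Finset.mem_Ico, Prod.mk.injEq]
    constructor
    · rintro ⟨h1, h2⟩
      exact ⟨⟨z, n⟩, ⟨hT z (by omega), h1, h2⟩, rfl, rfl⟩
    · rintro ⟨⟨z', n'⟩, ⟨_, h1, h2⟩, rfl, rfl⟩
      exact ⟨h1, h2⟩
  rw [h1]
  refine ⟨Finset.finite_toSet _, ?_⟩
  rw [Set.ncard_coe_finset, Finset.card_image_of_injOn, Finset.card_sigma]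
  · simp
  · rintro ⟨z, n⟩ _ ⟨z', n'⟩ _ h
    simp only [Prod.mk.injEq] at h
    obtain ⟨rfl, rfl⟩ := h
    rfl

/-- The conversion of measures into sets. -/
theorem yu_of_propertyA {V : Type*} {G : SimpleGraph V} (hc : G.Connected) {Δ : ℕ}
    (hΔ : ∀ (v : V) (T : Finset V), (∀ t ∈ T, G.dist v t ≤ 1) → T.card ≤ Δ)
    (hA : PropertyA G) (R ε : ℝ) (hR : 0 < R) (hε : 0 < ε) :
    ∃ S : ℝ, 0 < S ∧ ∃ A : V → Set (V × ℕ),
      (∀ x, (A x).Finite ∧ (A x).Nonempty ∧ ∀ p ∈ A x, (G.dist x p.1 : ℝ) ≤ S) ∧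
      ∀ x y, (G.dist x y : ℝ) ≤ R →
        ((symmDiff (A x) (A y)).ncard : ℝ) < ε * ((A x ∩ A y).ncard : ℝ) := by
  classical
  obtain ⟨δ, hδ0, hδ1, hδ2⟩ : ∃ δ : ℝ, 0 < δ ∧ δ ≤ 1 / 4 ∧ 8 * δ ≤ ε :=
    ⟨min (1 / 4) (ε / 8), by positivity, min_le_left _ _, by
      have := min_le_right (1 / 4) (ε / 8)
      linarith⟩
  obtain ⟨S, hS, ξ, h1, h2, h3⟩ := hA R δ hR hδ0
  choose bl hbl1 hbl2 using fun x => ball_finset hc hΔ x ⌊S⌋₊
  set B := Δ ^ ⌊S⌋₊ with hB
  obtain ⟨M, hM⟩ := exists_nat_gt (2 * (B : ℝ) / δ)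
  have hMpos : (0 : ℝ) < M := lt_of_le_of_lt (by positivity) hM
  have hMB : 2 * (B : ℝ) ≤ M * δ := by
    rw [div_lt_iff₀ hδ0] at hM
    exact hM.le
  have hmem : ∀ x z, ξ x z ≠ 0 → z ∈ bl x := by
    intro x z h
    rw [hbl1]
    exact Nat.le_floor (h2 x z h)
  let f : V → V → ℕ := fun x z => ⌈(M : ℝ) * |ξ x z|⌉₊
  have hf0 : ∀ x z, z ∉ bl x → f x z = 0 := by
    intro x z hz
    have : ξ x z = 0 := by
      by_contra h
      exact hz (hmem x z h)
    simp [f, this]
  have hsum : ∀ x (T : Finset V), bl x ⊆ T → ∑ z ∈ T, |ξ x z| = 1 := by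
    intro x T hT
    rw [← h1 x]
    refine (hasSum_sum_of_ne_finset_zero fun z hz => ?_).unique (hasSum_norm_one (ξ x))
    rw [abs_eq_zero]
    by_contra h
    exact hz (hT (hmem x z h))
  let A : V → Set (V × ℕ) := fun x => {p | p.2 < f x p.1}
  have hAf : ∀ x, A x = {p : V × ℕ | (0 : ℕ) ≤ p.2 ∧ p.2 < f x p.1} := by
    intro x
    ext p
    simp [A]
  have hcard : ∀ x (T : Finset V), bl x ⊆ T → (M : ℝ) ≤ ∑ z ∈ T, (f x z : ℝ) := by
    intro x T hT
    calc (M : ℝ) = ∑ z ∈ T, (M : ℝ) * |ξ x z| := by rw [← Finset.mul_sum, hsum x T hT, mul_one]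
      _ ≤ ∑ z ∈ T, (f x z : ℝ) := Finset.sum_le_sum fun z _ => Nat.le_ceil _
  refine ⟨S, hS, A, fun x => ⟨?_, ?_, ?_⟩, fun x y hxy => ?_⟩
  · rw [hAf]
    refine (ncard_fib (T := bl x) (lo := fun _ => 0) (hi := f x) fun z hz => ?_).1
    by_contra h
    rw [hf0 x z h] at hz
    exact lt_irrefl _ hz
  · by_contra hne
    rw [Set.not_nonempty_iff_eq_empty] at hne
    have h4 := hcard x (bl x) subset_rfl
    have h5 : ∀ z ∈ bl x, (f x z : ℝ) = 0 := by
      intro z _
      have h6 : (z, 0) ∉ A x := by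
        rw [hne]
        exact Set.notMem_empty _
      have h7 : ¬ 0 < f x z := h6
      have h8 : f x z = 0 := by omega
      rw [h8]
      simp
    rw [Finset.sum_eq_zero h5] at h4
    linarith
  · intro p hp
    have h4 : p.1 ∈ bl x := by
      by_contra h
      have h5 : p.2 < f x p.1 := hp
      rw [hf0 x p.1 h] at h5
      omega
    rw [hbl1] at h4
    exact (Nat.le_floor_iff hS.le).1 h4
  · set T := bl x ∪ bl y with hT
    have hTx : bl x ⊆ T := Finset.subset_union_left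
    have hTy : bl y ⊆ T := Finset.subset_union_right
    have hsd : symmDiff (A x) (A y) = {p : V × ℕ | min (f x p.1) (f y p.1) ≤ p.2 ∧
        p.2 < max (f x p.1) (f y p.1)} := by
      ext p
      rw [Set.mem_symmDiff]
      show (p.2 < f x p.1 ∧ ¬ p.2 < f y p.1 ∨ p.2 < f y p.1 ∧ ¬ p.2 < f x p.1) ↔
        (min (f x p.1) (f y p.1) ≤ p.2 ∧ p.2 < max (f x p.1) (f y p.1))
      omega
    have hin : A x ∩ A y = {p : V × ℕ | (0 : ℕ) ≤ p.2 ∧ p.2 < min (f x p.1) (f y p.1)} := by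
      ext p
      show (p.2 < f x p.1 ∧ p.2 < f y p.1) ↔ (0 ≤ p.2 ∧ p.2 < min (f x p.1) (f y p.1))
      omega
    have e1 := (ncard_fib (T := T) (lo := fun z => min (f x z) (f y z))
      (hi := fun z => max (f x z) (f y z)) (by
        intro z hz
        by_contra h
        rw [hT, Finset.mem_union] at h
        push Not at h
        rw [hf0 x z h.1, hf0 y z h.2] at hz
        simp at hz)).2
    have e2 := (ncard_fib (T := T) (lo := fun _ => 0)
      (hi := fun z => min (f x z) (f y z)) (by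
        intro z hz
        by_contra h
        rw [hT, Finset.mem_union] at h
        push Not at h
        rw [hf0 x z h.1, hf0 y z h.2] at hz
        simp at hz)).2
    rw [hsd, hin, e1, e2]
    have e3 : ∀ z, ((max (f x z) (f y z) - min (f x z) (f y z) : ℕ) : ℝ) ≤
        M * |(ξ x - ξ y) z| + 1 := by
      intro z
      have key : ∀ a b : ℝ, 0 ≤ a → 0 ≤ b → a ≤ b →
          ((max ⌈a⌉₊ ⌈b⌉₊ - min ⌈a⌉₊ ⌈b⌉₊ : ℕ) : ℝ) ≤ |a - b| + 1 := by
        intro a b ha hb hab
        have k1 : ⌈a⌉₊ ≤ ⌈b⌉₊ := Nat.ceil_mono hab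
        rw [max_eq_right k1, min_eq_left k1, Nat.cast_sub k1, abs_sub_comm, abs_of_nonneg
          (sub_nonneg.2 hab)]
        have k2 := Nat.ceil_lt_add_one hb
        have k3 := Nat.le_ceil a
        linarith
      have key2 : ((max (f x z) (f y z) - min (f x z) (f y z) : ℕ) : ℝ) ≤
          abs ((M : ℝ) * abs (ξ x z) - M * abs (ξ y z)) + 1 := by
        rcases le_total ((M : ℝ) * abs (ξ x z)) (M * abs (ξ y z)) with h | h
        · exact key _ _ (by positivity) (by positivity) h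
        · have := key _ _ (by positivity) (by positivity) h
          rw [max_comm, min_comm, abs_sub_comm]
          exact this
      refine key2.trans ?_
      rw [← mul_sub, abs_mul, abs_of_pos hMpos]
      have e4 : (ξ x - ξ y) z = ξ x z - ξ y z := by
        rw [lp.coeFn_sub, Pi.sub_apply]
      rw [e4]
      have := abs_abs_sub_abs_le_abs_sub (ξ x z) (ξ y z)
      gcongr
    have hT2 : (T.card : ℝ) ≤ 2 * B := by
      have k1 := Finset.card_union_le (bl x) (bl y)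
      have k2 := hbl2 x
      have k3 := hbl2 y
      rw [← hT] at k1
      have k4 : T.card ≤ 2 * B := by omega
      exact_mod_cast k4
    have e5 : ((∑ z ∈ T, (max (f x z) (f y z) - min (f x z) (f y z)) : ℕ) : ℝ) ≤
        2 * (M * δ) := by
      push_cast
      calc ∑ z ∈ T, ((max (f x z) (f y z) - min (f x z) (f y z) : ℕ) : ℝ)
          ≤ ∑ z ∈ T, (M * |(ξ x - ξ y) z| + 1) := Finset.sum_le_sum fun z _ => e3 z
        _ = M * ∑ z ∈ T, |(ξ x - ξ y) z| + T.card := by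
            rw [Finset.sum_add_distrib, ← Finset.mul_sum, Finset.sum_const, nsmul_eq_mul, mul_one]
        _ ≤ M * δ + 2 * B := by
            have k1 : ∑ z ∈ T, |(ξ x - ξ y) z| ≤ ‖ξ x - ξ y‖ :=
              sum_le_hasSum T (fun _ _ => abs_nonneg _) (hasSum_norm_one _)
            have k2 := h3 x y hxy
            have k3 : (M : ℝ) * ∑ z ∈ T, |(ξ x - ξ y) z| ≤ M * δ :=
              mul_le_mul_of_nonneg_left (k1.trans k2) hMpos.le
            linarith
        _ ≤ 2 * (M * δ) := by linarith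
    have e6 : (M : ℝ) - 2 * (M * δ) ≤ ((∑ z ∈ T, (min (f x z) (f y z) - 0) : ℕ) : ℝ) := by
      have k1 : ∑ z ∈ T, f x z ≤ ∑ z ∈ T, (min (f x z) (f y z) - 0) +
          ∑ z ∈ T, (max (f x z) (f y z) - min (f x z) (f y z)) := by
        rw [← Finset.sum_add_distrib]
        refine Finset.sum_le_sum fun z _ => ?_
        omega
      have k2 := hcard x T hTx
      have k3 : ((∑ z ∈ T, f x z : ℕ) : ℝ) ≤ ((∑ z ∈ T, (min (f x z) (f y z) - 0) : ℕ) : ℝ) +
          ((∑ z ∈ T, (max (f x z) (f y z) - min (f x z) (f y z)) : ℕ) : ℝ) := by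
        exact_mod_cast k1
      have k4 : ((∑ z ∈ T, f x z : ℕ) : ℝ) = ∑ z ∈ T, (f x z : ℝ) := by push_cast; rfl
      rw [k4] at k3
      linarith
    have e7 : 2 * (M * δ) < ε * (M - 2 * (M * δ)) := by
      have k1 : (M : ℝ) / 2 ≤ M - 2 * (M * δ) := by nlinarith
      have k2 : ε * (M / 2) ≤ ε * (M - 2 * (M * δ)) := mul_le_mul_of_nonneg_left k1 hε.le
      nlinarith
    calc ((∑ z ∈ T, (max (f x z) (f y z) - min (f x z) (f y z)) : ℕ) : ℝ)
        ≤ 2 * (M * δ) := e5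
      _ < ε * (M - 2 * (M * δ)) := e7
      _ ≤ _ := mul_le_mul_of_nonneg_left e6 hε.le

/-- Coarse embedding from almost invariant probability measures. -/
theorem coarse_of_measures' {V : Type u} {G : SimpleGraph V} (hc : G.Connected)
    (hA : ∀ ε : ℝ, 0 < ε → ∃ S : ℕ, ∃ ξ : V → lp (fun _ : V => ℝ) 1, (∀ x, ξ x ∈ Sx G x S) ∧
      ∀ x y, G.Adj x y → ‖ξ x - ξ y‖ ≤ ε) :
    ∃ (H : Type u) (_ : NormedAddCommGroup H) (_ : InnerProductSpace ℝ H)
      (_ : CompleteSpace H) (f : V → H) (ρm ρp : ℝ → ℝ),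
        Monotone ρm ∧ Monotone ρp ∧ (∀ t, 0 ≤ ρm t) ∧ (∀ t, 0 ≤ ρp t) ∧
        Tendsto ρm atTop atTop ∧
        ∀ x y : V,
          ρm (G.dist x y : ℝ) ≤ ‖f x - f y‖ ∧
          ‖f x - f y‖ ≤ ρp (G.dist x y : ℝ) := by
  classical
  obtain ⟨o⟩ := hc.nonempty
  choose S ξ hξ1 hξ2 using fun n : ℕ => hA ((1 / 2) ^ n) (by positivity)
  choose η hη using fun (n : ℕ) (x : V) => exists_sqrt (ξ n x) (hξ1 n x).1
  -- variation along paths
  have hvar1 : ∀ (n : ℕ) (k : ℕ) (x y : V), G.dist x y = k →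
      ‖ξ n x - ξ n y‖ ≤ k * (1 / 2) ^ n := by
    intro n k
    induction k with
    | zero =>
      intro x y h
      rw [hc.dist_eq_zero_iff.1 h]
      simp
    | succ k ih =>
      intro x y h
      obtain ⟨u, hu1, hu2⟩ := Pool.Agent.Q255.Bridged.exists_parent (G := G) (z := x) (v := y)
        (k := k) h
      have h1 := ih x u hu2
      have h2 := hξ2 n u y hu1
      have h3 : ‖ξ n x - ξ n y‖ ≤ ‖ξ n x - ξ n u‖ + ‖ξ n u - ξ n y‖ :=
        norm_sub_le_norm_sub_add_norm_sub _ _ _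
      push_cast
      linarith
  have hvar : ∀ (n : ℕ) (x y : V), ‖η n x - η n y‖ ^ 2 ≤ G.dist x y * (1 / 2) ^ n := by
    intro n x y
    exact (sqrt_norm_le (hξ1 n x).1 (hξ1 n y).1 (hη n x) (hη n y)).trans (hvar1 n _ x y rfl)
  have hgeo : HasSum (fun n : ℕ => ((1 : ℝ) / 2) ^ n) 2 := hasSum_geometric_two
  have hsum : ∀ x y : V, Summable fun n => ‖η n x - η n y‖ ^ 2 := by
    intro x y
    exact Summable.of_nonneg_of_le (fun n => by positivity) (fun n => hvar n x y)
      (hgeo.summable.mul_left _)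
  have hmem : ∀ x : V, Memℓp (fun n => η n x - η n o) 2 := fun x => memlp_two (hsum x o)
  let f : V → lp (fun _ : ℕ => lp (fun _ : V => ℝ) 2) 2 := fun x => ⟨_, hmem x⟩
  have hf : ∀ x y n, (f x - f y) n = η n x - η n y := by
    intro x y n
    rw [lp.coeFn_sub, Pi.sub_apply]
    show (η n x - η n o) - (η n y - η n o) = η n x - η n y
    abel
  have hfs : ∀ x y, HasSum (fun n => ‖η n x - η n y‖ ^ 2) (‖f x - f y‖ ^ 2) := by
    intro x y
    have h := hasSum_sq (f x - f y)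
    simp only [hf] at h
    exact h
  let N : ℝ → ℕ := fun t => ((Finset.range ⌊t⌋₊).filter fun n => (2 * (S n : ℝ)) < t).card
  have hNmono : Monotone N := by
    intro s t hst
    refine Finset.card_le_card fun n hn => ?_
    rw [Finset.mem_filter, Finset.mem_range] at hn ⊢
    exact ⟨lt_of_lt_of_le hn.1 (Nat.floor_mono hst), lt_of_lt_of_le hn.2 hst⟩
  have hNtend : Tendsto N atTop atTop := by
    rw [tendsto_atTop]
    intro m
    obtain ⟨T, hT⟩ : ∃ T : ℕ, ∀ n, n < m → 2 * S n < T := by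
      refine ⟨(∑ n ∈ Finset.range m, 2 * S n) + 1, fun n hn => ?_⟩
      have := Finset.single_le_sum (f := fun n => 2 * S n) (fun _ _ => Nat.zero_le _)
        (Finset.mem_range.2 hn)
      omega
    filter_upwards [eventually_ge_atTop (max (m : ℝ) T)] with t ht
    have h1 : (m : ℝ) ≤ t := le_trans (le_max_left _ _) ht
    have h2 : (T : ℝ) ≤ t := le_trans (le_max_right _ _) ht
    have h3 : Finset.range m ⊆ (Finset.range ⌊t⌋₊).filter fun n => (2 * (S n : ℝ)) < t := by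
      intro n hn
      rw [Finset.mem_range] at hn
      rw [Finset.mem_filter, Finset.mem_range]
      refine ⟨lt_of_lt_of_le hn (Nat.le_floor h1), ?_⟩
      have h4 : ((2 * S n : ℕ) : ℝ) < (T : ℝ) := by exact_mod_cast hT n hn
      push_cast at h4
      linarith
    have h5 := Finset.card_le_card h3
    rwa [Finset.card_range] at h5
  refine ⟨lp (fun _ : ℕ => lp (fun _ : V => ℝ) 2) 2, inferInstance, inferInstance, inferInstance,
    f, fun t => Real.sqrt (2 * N t), fun t => Real.sqrt (2 * t), ?_, ?_,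
    fun t => Real.sqrt_nonneg _, fun t => Real.sqrt_nonneg _, ?_, ?_⟩
  · intro s t hst
    refine Real.sqrt_le_sqrt ?_
    have : (N s : ℝ) ≤ N t := by exact_mod_cast hNmono hst
    linarith
  · intro s t hst
    exact Real.sqrt_le_sqrt (by linarith)
  · refine Real.tendsto_sqrt_atTop.comp ?_
    exact (tendsto_natCast_atTop_atTop.comp hNtend).const_mul_atTop (by norm_num)
  · intro x y
    constructor
    · refine Real.sqrt_le_iff.2 ⟨norm_nonneg _, ?_⟩
      have h1 : ∀ n ∈ (Finset.range ⌊(G.dist x y : ℝ)⌋₊).filter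
          fun n => (2 * (S n : ℝ)) < (G.dist x y : ℝ), ‖η n x - η n y‖ ^ 2 = 2 := by
        intro n hn
        rw [Finset.mem_filter] at hn
        have h2 : 2 * S n < G.dist x y := by exact_mod_cast hn.2
        refine sqrt_norm_eq (hξ1 n x).1 (hξ1 n y).1 (hη n x) (hη n y) (hξ1 n x).2.1
          (hξ1 n y).2.1 fun v => ?_
        have h3 := hc.dist_triangle (u := x) (v := v) (w := y)
        rw [SimpleGraph.dist_comm (u := v) (v := y)] at h3
        rcases Nat.lt_or_ge (S n) (G.dist x v) with h4 | h4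
        · exact Or.inl ((hξ1 n x).2.2 v h4)
        · exact Or.inr ((hξ1 n y).2.2 v (by omega))
      have h2 := sum_le_hasSum ((Finset.range ⌊(G.dist x y : ℝ)⌋₊).filter
          fun n => (2 * (S n : ℝ)) < (G.dist x y : ℝ)) (fun n _ => by positivity) (hfs x y)
      rw [Finset.sum_congr rfl h1, Finset.sum_const, nsmul_eq_mul] at h2
      show 2 * (N (G.dist x y : ℝ) : ℝ) ≤ ‖f x - f y‖ ^ 2
      rw [mul_comm]
      exact h2
    · apply Real.le_sqrt_of_sq_le
      have h1 := hasSum_le (fun n => hvar n x y) (hfs x y) (hgeo.mul_left (G.dist x y : ℝ))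
      linarith

end Pool.Agent.H169Q
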