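import Pool.Agent.Helper556_sys.PropADef

/-!
# Combination of measures and a compactness argument
-/

set_option autoImplicit false

namespace Pool.Agent.H169Q

open SimpleGraph Pool.Agent.Helper556_sys

variable {U W : Type*} {H : SimpleGraph U} {G : SimpleGraph W}

theorem sum_abs_le (f : lp (fun _ : U => ℝ) 1) (T : Finset U) : ∑ u ∈ T, |f u| ≤ ‖f‖ :=
  sum_le_hasSum T (fun _ _ => abs_nonneg _) (hasSum_norm_one f)

theorem norm_of_Sx {x : U} {S : ℕ} {f : lp (fun _ : U => ℝ) 1} (h : f ∈ Sx H x S) : ‖f‖ = 1 := by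
  have h3 := hasSum_norm_one f
  have h4 : (fun v => |f v|) = fun v => f v := by
    funext v
    exact abs_of_nonneg (h.1 v)
  rw [h4] at h3
  exact h3.unique h.2.1

theorem sum_of_Sx {x : U} {S : ℕ} {f : lp (fun _ : U => ℝ) 1} (h : f ∈ Sx H x S) {T : Finset U}
    (hT : ∀ u, H.dist x u ≤ S → u ∈ T) : ∑ u ∈ T, f u = 1 := by
  refine (hasSum_sum_of_ne_finset_zero fun u hu => ?_).unique h.2.1
  apply h.2.2
  by_contra hcon
  exact hu (hT u (by omega))

theorem combine {ι : U → W} {S0 S1 c : ℕ} {ξ : U → lp (fun _ : W => ℝ) 1}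
    (hc : G.Connected)
    (hξ : ∀ x, ξ x ∈ Sx G (ι x) S0) (hfin : ∀ w n, {w' | G.dist w w' ≤ n}.Finite)
    (hι : ∀ x y, H.Adj x y → G.dist (ι x) (ι y) ≤ c) {ε1 ε2 : ℝ} (hε2 : 0 ≤ ε2)
    (hξv : ∀ x y, H.Adj x y → ‖ξ x - ξ y‖ ≤ ε1) (F : Finset U)
    (hη : ∀ w, ∃ η : U → lp (fun _ : U => ℝ) 1, (∀ x, η x ∈ Sx H x S1) ∧
      ∀ x ∈ F, ∀ y ∈ F, H.Adj x y → G.dist (ι x) w ≤ S0 + c → G.dist (ι y) w ≤ S0 + c →
        ‖η x - η y‖ ≤ ε2) :
    ∃ ζ : U → lp (fun _ : U => ℝ) 1, (∀ x, ζ x ∈ Sx H x S1) ∧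
      ∀ x ∈ F, ∀ y ∈ F, H.Adj x y → ‖ζ x - ζ y‖ ≤ ε1 + ε2 := by
  classical
  choose η hη1 hη2 using hη
  let T : U → Finset W := fun x => (hfin (ι x) S0).toFinset
  have hT : ∀ x w, w ∈ T x ↔ G.dist (ι x) w ≤ S0 := fun x w => by
    simp only [T, Set.Finite.mem_toFinset, Set.mem_ofPred_eq]
  have hz : ∀ x w, w ∉ T x → ξ x w = 0 := by
    intro x w h
    rw [hT] at h
    exact (hξ x).2.2 w (by omega)
  refine ⟨fun x => ∑ w ∈ T x, ξ x w • η w x, fun x => ?_, fun x hx y hy hxy => ?_⟩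
  · exact (Sx_convex x S1).sum_mem (fun w _ => (hξ x).1 w)
      (sum_of_Sx (hξ x) fun w hw => (hT x w).2 hw) fun w _ => hη1 w x
  · have e : ∀ a : U, a = x ∨ a = y → ∑ w ∈ T a, ξ a w • η w a =
        ∑ w ∈ T x ∪ T y, ξ a w • η w a := by
      intro a ha
      apply Finset.sum_subset
      · rcases ha with rfl | rfl
        · exact Finset.subset_union_left
        · exact Finset.subset_union_right
      · intro w _ hw
        rw [hz a w hw, zero_smul]
    show ‖∑ w ∈ T x, ξ x w • η w x - ∑ w ∈ T y, ξ y w • η w y‖ ≤ ε1 + ε2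
    rw [e x (Or.inl rfl), e y (Or.inr rfl), ← Finset.sum_sub_distrib]
    have hterm : ∀ w, ‖ξ x w • η w x - ξ y w • η w y‖ ≤
        |(ξ x - ξ y) w| + ε2 * |ξ y w| := by
      intro w
      have e1 : ξ x w • η w x - ξ y w • η w y =
          (ξ x w - ξ y w) • η w x + ξ y w • (η w x - η w y) := by
        rw [sub_smul, smul_sub]
        abel
      rw [e1]
      refine (norm_add_le _ _).trans ?_
      rw [norm_smul, norm_smul, norm_of_Sx (hη1 w x), mul_one, Real.norm_eq_abs,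
        Real.norm_eq_abs]
      have e2 : (ξ x - ξ y) w = ξ x w - ξ y w := by
        rw [lp.coeFn_sub, Pi.sub_apply]
      rw [e2, mul_comm ε2]
      refine add_le_add le_rfl ?_
      by_cases h0 : ξ y w = 0
      · rw [h0]
        simp
      · have h1 : G.dist (ι y) w ≤ S0 := by
          by_contra h
          exact h0 ((hξ y).2.2 w (by omega))
        have h2 := hc.dist_triangle (u := ι x) (v := ι y) (w := w)
        have h3 := hι x y hxy
        have h4 := hη2 w x hx y hy hxy (by omega) (by omega)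
        gcongr
    calc ‖∑ w ∈ T x ∪ T y, (ξ x w • η w x - ξ y w • η w y)‖
        ≤ ∑ w ∈ T x ∪ T y, (|(ξ x - ξ y) w| + ε2 * |ξ y w|) :=
          (norm_sum_le _ _).trans (Finset.sum_le_sum fun w _ => hterm w)
      _ = ∑ w ∈ T x ∪ T y, |(ξ x - ξ y) w| + ε2 * ∑ w ∈ T x ∪ T y, |ξ y w| := by
          rw [Finset.sum_add_distrib, Finset.mul_sum]
      _ ≤ ε1 + ε2 * 1 := by
          have h1 := sum_abs_le (ξ x - ξ y) (T x ∪ T y)
          have h2 := sum_abs_le (ξ y) (T x ∪ T y)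
          rw [norm_of_Sx (hξ y)] at h2
          have h3 := hξv x y hxy
          gcongr
          exact h1.trans h3
      _ = ε1 + ε2 := by ring

theorem compactness {S : ℕ} {ε : ℝ} (hfin : ∀ x n, {y | H.dist x y ≤ n}.Finite)
    (h : ∀ F : Finset U, ∃ ζ : U → lp (fun _ : U => ℝ) 1, (∀ x, ζ x ∈ Sx H x S) ∧
      ∀ x ∈ F, ∀ y ∈ F, H.Adj x y → ‖ζ x - ζ y‖ ≤ ε) :
    ∃ ζ : U → lp (fun _ : U => ℝ) 1, (∀ x, ζ x ∈ Sx H x S) ∧
      ∀ x y, H.Adj x y → ‖ζ x - ζ y‖ ≤ ε := by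
  classical
  choose ζ hζ1 hζ2 using h
  let 𝒰 : Ultrafilter (Finset U) := Ultrafilter.of Filter.atTop
  have h𝒰 : (𝒰 : Filter (Finset U)) ≤ Filter.atTop := Ultrafilter.of_le _
  have hle : ∀ F x z, 0 ≤ ζ F x z ∧ ζ F x z ≤ 1 := by
    intro F x z
    refine ⟨(hζ1 F x).1 z, ?_⟩
    have h1 := sum_abs_le (ζ F x) {z}
    rw [Finset.sum_singleton, norm_of_Sx (hζ1 F x)] at h1
    exact (le_abs_self _).trans h1
  have hlim : ∀ x z, ∃ c : ℝ, Filter.Tendsto (fun F => ζ F x z) 𝒰 (nhds c) := by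
    intro x z
    obtain ⟨c, _, hc⟩ := (isCompact_Icc (a := (0 : ℝ)) (b := 1)).ultrafilter_le_nhds
      (𝒰.map fun F => ζ F x z) (by
        rw [Filter.le_principal_iff, Ultrafilter.coe_map, Filter.mem_map]
        exact Filter.univ_mem' fun F => hle F x z)
    exact ⟨c, hc⟩
  choose c hc using hlim
  let B : U → Finset U := fun x => (hfin x S).toFinset
  have hB : ∀ x z, z ∈ B x ↔ H.dist x z ≤ S := fun x z => by
    simp only [B, Set.Finite.mem_toFinset, Set.mem_ofPred_eq]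
  have hc0 : ∀ x z, 0 ≤ c x z := fun x z => ge_of_tendsto' (hc x z) fun F => (hle F x z).1
  have hcz : ∀ x z, z ∉ B x → c x z = 0 := by
    intro x z hz
    have h1 : (fun F => ζ F x z) = fun _ => 0 := by
      funext F
      apply (hζ1 F x).2.2
      rw [hB] at hz
      omega
    have h2 := hc x z
    rw [h1] at h2
    exact (tendsto_nhds_unique h2 tendsto_const_nhds)
  have hsum : ∀ x, ∑ z ∈ B x, c x z = 1 := by
    intro x
    have h1 : Filter.Tendsto (fun F => ∑ z ∈ B x, ζ F x z) 𝒰 (nhds (∑ z ∈ B x, c x z)) :=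
      tendsto_finsetSum _ fun z _ => hc x z
    have h2 : (fun F => ∑ z ∈ B x, ζ F x z) = fun _ => 1 := by
      funext F
      exact sum_of_Sx (hζ1 F x) fun z hz => (hB x z).2 hz
    rw [h2] at h1
    exact (tendsto_nhds_unique h1 tendsto_const_nhds)
  refine ⟨fun x => ∑ z ∈ B x, c x z • dl z, fun x => ?_, fun x y hxy => ?_⟩
  · exact (Sx_convex x S).sum_mem (fun z _ => hc0 x z) (hsum x) fun z hz =>
      dl_mem ((hB x z).1 hz)
  · have e : ∀ a : U, a = x ∨ a = y → ∑ z ∈ B a, c a z • (dl z : lp (fun _ : U => ℝ) 1) =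
        ∑ z ∈ B x ∪ B y, c a z • dl z := by
      intro a ha
      apply Finset.sum_subset
      · rcases ha with rfl | rfl
        · exact Finset.subset_union_left
        · exact Finset.subset_union_right
      · intro z _ hz
        rw [hcz a z hz, zero_smul]
    show ‖∑ z ∈ B x, c x z • dl z - ∑ z ∈ B y, c y z • dl z‖ ≤ ε
    rw [e x (Or.inl rfl), e y (Or.inr rfl), ← Finset.sum_sub_distrib]
    have h1 : ‖∑ z ∈ B x ∪ B y, (c x z • (dl z : lp (fun _ : U => ℝ) 1) - c y z • dl z)‖ ≤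
        ∑ z ∈ B x ∪ B y, |c x z - c y z| := by
      refine (norm_sum_le _ _).trans (Finset.sum_le_sum fun z _ => ?_)
      rw [← sub_smul, norm_smul, Real.norm_eq_abs]
      have := dl_norm z
      nlinarith [abs_nonneg (c x z - c y z)]
    refine h1.trans ?_
    have h2 : Filter.Tendsto (fun F => ∑ z ∈ B x ∪ B y, |ζ F x z - ζ F y z|) 𝒰
        (nhds (∑ z ∈ B x ∪ B y, |c x z - c y z|)) :=
      tendsto_finsetSum _ fun z _ => ((hc x z).sub (hc y z)).abs
    refine le_of_tendsto h2 ?_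
    have h3 : ∀ᶠ F in (Filter.atTop : Filter (Finset U)), x ∈ F ∧ y ∈ F := by
      filter_upwards [Filter.eventually_ge_atTop ({x, y} : Finset U)] with F hF
      exact ⟨hF (by simp), hF (by simp)⟩
    filter_upwards [h𝒰 h3] with F hF
    have h4 := sum_abs_le (ζ F x - ζ F y) (B x ∪ B y)
    have h5 := hζ2 F x hF.1 y hF.2 hxy
    refine le_trans (le_of_eq ?_) (h4.trans h5)
    refine Finset.sum_congr rfl fun z _ => ?_
    rw [lp.coeFn_sub, Pi.sub_apply]

end Pool.Agent.H169Q
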