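import Pool.Agent.Helper556_sys.Flow

/-!
# Modular graphs without isometric 6-cycles (1-skeleta of quadric complexes): basic properties
-/

set_option autoImplicit false

namespace Pool.Agent.H169Q

open SimpleGraph Pool.Agent.Q255.Bridged Pool.Agent.Helper556_sys

variable {V : Type*} {G : SimpleGraph V}

/-- Connected bipartite graphs with the quadrangle condition for every base vertex and without
isometric 6-cycles. -/
structure Qd (G : SimpleGraph V) : Prop where
  conn : G.Connected
  bip : ∀ z u v, G.Adj u v → G.dist z u ≠ G.dist z v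
  qc : ∀ z v a b, G.Adj v a → G.Adj v b → G.dist z a + 1 = G.dist z v →
    G.dist z b + 1 = G.dist z v → a ≠ b → ∃ w, G.Adj w a ∧ G.Adj w b ∧ G.dist z w + 1 = G.dist z a
  c6 : ∀ x0 x1 x2 x3 x4 x5, G.Adj x0 x1 → G.Adj x1 x2 → G.Adj x2 x3 → G.Adj x3 x4 → G.Adj x4 x5 →
    G.Adj x5 x0 → x0 ≠ x2 → x1 ≠ x3 → x2 ≠ x4 → x3 ≠ x5 → x4 ≠ x0 → x5 ≠ x1 →
    G.Adj x0 x3 ∨ G.Adj x1 x4 ∨ G.Adj x2 x5

namespace Qd

theorem tri (hG : Qd G) (a b c : V) : G.dist a c ≤ G.dist a b + G.dist b c :=
  hG.conn.dist_triangle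

theorem eq_zero (hG : Qd G) {a b : V} (h : G.dist a b = 0) : a = b :=
  hG.conn.dist_eq_zero_iff.1 h

theorem one (_hG : Qd G) {a b : V} (h : G.Adj a b) : G.dist a b = 1 := dist_eq_one_iff_adj.2 h

theorem adj_of_one (_hG : Qd G) {a b : V} (h : G.dist a b = 1) : G.Adj a b := dist_eq_one_iff_adj.1 h

theorem lip1 (_hG : Qd G) {a b : V} (h : G.Adj a b) (z : V) : G.dist z a ≤ G.dist z b + 1 :=
  lip G h.symm z

/-- Neighbours are on consecutive levels. -/
theorem lev (hG : Qd G) {u v : V} (h : G.Adj u v) (z : V) :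
    G.dist z u + 1 = G.dist z v ∨ G.dist z v + 1 = G.dist z u := by
  have h1 := hG.lip1 h z
  have h2 := hG.lip1 h.symm z
  have h3 := hG.bip z u v h
  omega

/-- First step of a geodesic from `a` to `b`. -/
theorem step (_hG : Qd G) {a b : V} (h : 0 < G.dist a b) :
    ∃ c, G.Adj a c ∧ G.dist c b + 1 = G.dist a b := by
  obtain ⟨u, h1, h2⟩ := exists_parent (G := G) (z := b) (v := a) (k := G.dist a b - 1)
    (by rw [dist_comm]; omega)
  refine ⟨u, h1.symm, ?_⟩
  rw [dist_comm]
  omega

/-- Parity: the distances of two points to a third one. -/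
theorem par (hG : Qd G) : ∀ (r : ℕ) (z u v : V), G.dist u v = r →
    (G.dist z u + G.dist z v + r) % 2 = 0 := by
  intro r
  induction r with
  | zero =>
    intro z u v h
    rw [hG.eq_zero h]
    omega
  | succ r ih =>
    intro z u v h
    obtain ⟨c, h1, h2⟩ := hG.step (a := u) (b := v) (by omega)
    have h3 := ih z c v (by omega)
    have h4 := hG.lev h1 z
    omega

/-- If `z`, `v`, `w` are not aligned with `v` in the middle, then some neighbour of `v` is closer
to `z` and to `w`. -/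
theorem down (hG : Qd G) : ∀ (r : ℕ) (z v w : V), G.dist v w = r → G.dist z w < G.dist z v + r →
    ∃ u, G.Adj v u ∧ G.dist z u + 1 = G.dist z v ∧ G.dist u w + 1 = G.dist v w := by
  intro r
  induction r with
  | zero =>
    intro z v w hr h
    rw [hG.eq_zero hr] at h
    omega
  | succ r ih =>
    intro z v w hr h
    obtain ⟨c, hvc, hcw⟩ := hG.step (a := v) (b := w) (by omega)
    rcases hG.lev hvc z with h1 | h1
    · obtain ⟨u, hu1, hu2, hu3⟩ := ih z c w (by omega) (by omega)
      have hne : v ≠ u := by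
        rintro rfl
        omega
      obtain ⟨t, ht1, ht2, ht3⟩ := hG.qc z c v u hvc.symm hu1 h1 hu2 hne
      refine ⟨t, ht1.symm, ht3, ?_⟩
      have h2 := hG.tri t u w
      have h3 := hG.one ht2
      have h4 := hG.tri v t w
      have h5 := hG.one ht1.symm
      omega
    · exact ⟨c, hvc, h1, hcw⟩

/-- Two common steps. -/
theorem down2 (hG : Qd G) {a b c : V} (h : G.dist a c + 2 < G.dist a b + G.dist b c) :
    ∃ u w, G.Adj b u ∧ G.Adj u w ∧ G.dist a w + 2 = G.dist a b ∧ G.dist w c + 2 = G.dist b c := by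
  obtain ⟨u, h1, h2, h3⟩ := hG.down _ a b c rfl (by omega)
  obtain ⟨w, k1, k2, k3⟩ := hG.down _ a u c rfl (by omega)
  exact ⟨u, w, h1, k1, by omega, by omega⟩

end Qd

end Pool.Agent.H169Q
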