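import Pool.Agent.Helper556_sys.PropA2
import Pool.Agent.Helper556_sys.PropADef

/-!
# Short maps with small rigid sets give Property A
-/

set_option autoImplicit false

namespace Pool.Agent.H169Q

open SimpleGraph Pool.Agent.Helper556_sys

variable {V : Type*} {G : SimpleGraph V}

/-- `a`, `b` are short maps of displacement at most `s`, compatible with the levels, such that the
sets of diameter at most `R` on one level, on which both are isometric, have at most `C * (R + 1)`
elements. -/
structure Flows (G : SimpleGraph V) (o : V) (C R s : ℕ) (a b : V → V) : Prop where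
  la : ∀ u v, G.dist (a u) (a v) ≤ G.dist u v
  lb : ∀ u v, G.dist (b u) (b v) ≤ G.dist u v
  sa : ∀ v, G.dist v (a v) ≤ s
  sb : ∀ v, G.dist v (b v) ≤ s
  ea : ∀ p q, G.dist o p = G.dist o q → G.dist o (a p) = G.dist o (a q)
  eb : ∀ p q, G.dist o p = G.dist o q → G.dist o (b p) = G.dist o (b q)
  rig : ∀ (k : ℕ) (Q : Finset V), (∀ q ∈ Q, G.dist o q = k) →
    (∀ p ∈ Q, ∀ q ∈ Q, G.dist (a p) (a q) = G.dist p q) →
    (∀ p ∈ Q, ∀ q ∈ Q, G.dist (b p) (b q) = G.dist p q) →
    (∀ p ∈ Q, ∀ q ∈ Q, G.dist p q ≤ R) → Q.card ≤ C * (R + 1)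

open Classical in
/-- The indicator of a loss of distance under one of the two maps. -/
noncomputable def bd (G : SimpleGraph V) (o : V) (a b : V → V) (B : Finset V) (F : V → V) : ℝ :=
  if DN G o B (a ∘ F) + DN G o B (b ∘ F) < 2 * DN G o B F then 1 else 0

namespace Flows

variable {o : V} {C R s : ℕ} {a b : V → V}

theorem bad_drop (h : Flows G o C R s a b) (B : Finset V)
    (F : V → V) : bd G o a b B F + (DN G o B (a ∘ F) : ℝ) + (DN G o B (b ∘ F) : ℝ) ≤
      2 * (DN G o B F : ℝ) := by
  have h1 : DN G o B (a ∘ F) ≤ DN G o B F := DN_le fun p q => h.la _ _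
  have h2 : DN G o B (b ∘ F) ≤ DN G o B F := DN_le fun p q => h.lb _ _
  unfold bd
  split_ifs with h
  · have h3 : DN G o B (a ∘ F) + DN G o B (b ∘ F) + 1 ≤ 2 * DN G o B F := h
    have h4 : ((DN G o B (a ∘ F) + DN G o B (b ∘ F) + 1 : ℕ) : ℝ) ≤
        ((2 * DN G o B F : ℕ) : ℝ) := by exact_mod_cast h3
    push_cast at h4
    linarith
  · have h3 : ((DN G o B (a ∘ F) + DN G o B (b ∘ F) : ℕ) : ℝ) ≤
        ((2 * DN G o B F : ℕ) : ℝ) := by exact_mod_cast (by omega)
    push_cast at h3
    linarith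

/-- The good case: a polynomial bound. -/
theorem good_card (hc : G.Connected) {r : ℕ} (h : Flows G o C (2 * r) s a b) {x : V}
    {B : Finset V} (hB : ∀ q, q ∈ B ↔ G.dist x q ≤ r) {F : V → V}
    (hF1 : ∀ p q, G.dist (F p) (F q) ≤ G.dist p q)
    (hF2 : ∀ p q, G.dist o p = G.dist o q → G.dist o (F p) = G.dist o (F q))
    (hgood : bd G o a b B F = 0) [DecidableEq V] :
    (B.image F).card ≤ (2 * r + 1) * (C * (2 * r + 1)) := by
  classical
  have h1 : DN G o B (a ∘ F) ≤ DN G o B F := DN_le fun p q => h.la _ _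
  have h2 : DN G o B (b ∘ F) ≤ DN G o B F := DN_le fun p q => h.lb _ _
  have h3 : ¬ (DN G o B (a ∘ F) + DN G o B (b ∘ F) < 2 * DN G o B F) := by
    intro h
    unfold bd at hgood
    rw [if_pos h] at hgood
    norm_num at hgood
  have ha := DN_eq (G := G) (o := o) (B := B) (F := F) (F' := a ∘ F)
    (fun p q => h.la _ _) (by omega)
  have hb := DN_eq (G := G) (o := o) (B := B) (F := F) (F' := b ∘ F)
    (fun p q => h.lb _ _) (by omega)
  let J : Finset ℕ := Finset.Icc (G.dist o x - r) (G.dist o x + r)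
  have hJ : J.card ≤ 2 * r + 1 := by
    simp only [J, Nat.card_Icc]
    omega
  have hsub : B.image F ⊆ J.biUnion fun j => (B.filter fun p => G.dist o p = j).image F := by
    intro w hw
    rw [Finset.mem_image] at hw
    obtain ⟨p, hp, rfl⟩ := hw
    rw [Finset.mem_biUnion]
    refine ⟨G.dist o p, ?_, ?_⟩
    · have h4 := (hB p).1 hp
      have h5 := hc.dist_triangle (u := o) (v := x) (w := p)
      have h6 := hc.dist_triangle (u := o) (v := p) (w := x)
      rw [SimpleGraph.dist_comm (u := p) (v := x)] at h6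
      simp only [J, Finset.mem_Icc]
      omega
    · rw [Finset.mem_image]
      exact ⟨p, by rw [Finset.mem_filter]; exact ⟨hp, rfl⟩, rfl⟩
  refine (Finset.card_le_card hsub).trans ((Finset.card_biUnion_le_card_mul _ _
    (C * (2 * r + 1)) ?_).trans (Nat.mul_le_mul_right _ hJ))
  intro j _
  rcases (B.filter fun p => G.dist o p = j).eq_empty_or_nonempty with h | ⟨p0, hp0⟩
  · rw [h]
    simp
  · rw [Finset.mem_filter] at hp0
    refine h.rig (G.dist o (F p0)) _ ?_ ?_ ?_ ?_
    · intro q hq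
      rw [Finset.mem_image] at hq
      obtain ⟨p, hp, rfl⟩ := hq
      rw [Finset.mem_filter] at hp
      exact hF2 _ _ (by rw [hp.2, hp0.2])
    · intro p hp q hq
      rw [Finset.mem_image] at hp hq
      obtain ⟨p', hp', rfl⟩ := hp
      obtain ⟨q', hq', rfl⟩ := hq
      rw [Finset.mem_filter] at hp' hq'
      exact ha p' hp'.1 q' hq'.1 (by rw [hp'.2, hq'.2])
    · intro p hp q hq
      rw [Finset.mem_image] at hp hq
      obtain ⟨p', hp', rfl⟩ := hp
      obtain ⟨q', hq', rfl⟩ := hq
      rw [Finset.mem_filter] at hp' hq'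
      exact hb p' hp'.1 q' hq'.1 (by rw [hp'.2, hq'.2])
    · intro p hp q hq
      rw [Finset.mem_image] at hp hq
      obtain ⟨p', hp', rfl⟩ := hp
      obtain ⟨q', hq', rfl⟩ := hq
      rw [Finset.mem_filter] at hp' hq'
      have h4 := (hB p').1 hp'.1
      have h5 := (hB q').1 hq'.1
      have h6 := hc.dist_triangle (u := p') (v := x) (w := q')
      rw [SimpleGraph.dist_comm (u := p') (v := x)] at h6
      have h7 := hF1 p' q'
      omega

end Flows

theorem almost_inv (hc : G.Connected) {Δ C : ℕ}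
    (hΔ : ∀ (v : V) (T : Finset V), (∀ t ∈ T, G.dist v t ≤ 1) → T.card ≤ Δ) (o : V) (hC : 1 ≤ C)
    (hfl : ∀ R : ℕ, ∃ (s : ℕ) (a b : V → V), Flows G o C R s a b)
    {ε : ℝ} (hε : 0 < ε) :
    ∃ S : ℕ, ∃ ξ : V → lp (fun _ : V => ℝ) 1, (∀ x, ξ x ∈ Sx G x S) ∧
      ∀ x y, G.Adj x y → ‖ξ x - ξ y‖ ≤ ε := by
  classical
  choose bl hbl1 hbl2 using fun x k => ball_finset hc hΔ x k
  obtain ⟨K, hK, hKε⟩ := exists_K hC hε
  obtain ⟨s, a, b, hab⟩ := hfl (2 * (K + 1))
  set c0 : ℝ := 8 / (K : ℝ) *
    Real.log (((2 * (K + 1) + 1) * (C * (2 * (K + 1) + 1)) : ℕ) : ℝ) with hc0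
  have hKpos : (0 : ℝ) < K := by exact_mod_cast hK
  have hc0nn : 0 ≤ c0 := by
    have := Real.log_natCast_nonneg ((2 * (K + 1) + 1) * (C * (2 * (K + 1) + 1)))
    positivity
  set D0 : ℕ := Δ ^ (K + 1) * (Δ ^ (K + 1) * (2 * (K + 1))) with hD0
  obtain ⟨M0, hM0⟩ := exists_nat_gt (8 * (D0 : ℝ) / ε)
  set M : ℕ := M0 + 1 with hM
  have hMpos : (0 : ℝ) < M := by
    rw [hM]
    positivity
  have hMD : 8 * (D0 : ℝ) ≤ M * ε := by
    rw [div_lt_iff₀ hε] at hM0
    have : (M : ℝ) = M0 + 1 := by rw [hM]; push_cast; ring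
    rw [this]
    nlinarith
  let P : (V → V) → Prop := fun F => (∀ p q, G.dist (F p) (F q) ≤ G.dist p q) ∧
    (∀ p q, G.dist o p = G.dist o q → G.dist o (F p) = G.dist o (F q))
  have hP : ∀ F, P F → P (a ∘ F) ∧ P (b ∘ F) := by
    rintro F ⟨h1, h2⟩
    exact ⟨⟨fun p q => (hab.la _ _).trans (h1 p q), fun p q hpq => hab.ea _ _ (h2 p q hpq)⟩,
      ⟨fun p q => (hab.lb _ _).trans (h1 p q), fun p q hpq => hab.eb _ _ (h2 p q hpq)⟩⟩
  let Q : ℕ → (V → V) → Prop := fun n F => ∀ p, G.dist p (F p) ≤ s * n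
  have hQ : ∀ n F, Q n F → Q (n + 1) (a ∘ F) ∧ Q (n + 1) (b ∘ F) := by
    intro n F h1
    have e : s * (n + 1) = s * n + s := by ring
    refine ⟨fun p => ?_, fun p => ?_⟩
    · show G.dist p (a (F p)) ≤ s * (n + 1)
      have h2 := h1 p
      have h3 := hab.sa (F p)
      have h5 := hc.dist_triangle (u := p) (v := F p) (w := a (F p))
      omega
    · show G.dist p (b (F p)) ≤ s * (n + 1)
      have h2 := h1 p
      have h3 := hab.sb (F p)
      have h5 := hc.dist_triangle (u := p) (v := F p) (w := b (F p))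
      omega
  let A : V → (V → V) → ℕ → Finset V := fun x F k => (bl x k).image F
  let g : V → (V → V) → lp (fun _ : V => ℝ) 1 := fun x F => av dl (A x F) K
  have hAne : ∀ x F k, (A x F k).Nonempty := by
    intro x F k
    exact Finset.Nonempty.image ⟨x, (hbl1 x k x).2 (by rw [dist_self]; omega)⟩ F
  -- membership
  have hgmem : ∀ x n F, n ≤ M → Q n F → g x F ∈ Sx G x (K + s * M) := by
    intro x n F hn hF
    refine av_mem (Sx_convex x _) hK fun i hi => mu_mem (Sx_convex x _) (hAne x F _) ?_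
    intro v hv
    rw [Finset.mem_image] at hv
    obtain ⟨p, hp, rfl⟩ := hv
    rw [hbl1] at hp
    apply dl_mem
    have h1 := hF p
    have h2 := hc.dist_triangle (u := x) (v := p) (w := F p)
    have h3 : s * n ≤ s * M := Nat.mul_le_mul_left _ hn
    omega
  let ξ : V → lp (fun _ : V => ℝ) 1 := fun x =>
    (M : ℝ)⁻¹ • ∑ t ∈ Finset.range M, Ex a b (g x) t id
  refine ⟨K + s * M, ξ, fun x => ?_, fun x y hxy => ?_⟩
  · show (M : ℝ)⁻¹ • ∑ t ∈ Finset.range M, Ex a b (g x) t id ∈ Sx G x (K + s * M)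
    rw [Finset.smul_sum]
    refine (Sx_convex x _).sum_mem (fun _ _ => (inv_pos.2 hMpos).le) ?_ fun t ht => ?_
    · rw [Finset.sum_const, nsmul_eq_mul, Finset.card_range, mul_inv_cancel₀ hMpos.ne']
    · rw [Finset.mem_range] at ht
      refine Ex_mem (Sx_convex x _) hQ (m := M) (fun n F hn hF => hgmem x n F hn hF) t 0 id
        (by omega) ?_
      intro p
      show G.dist p (id p) ≤ s * 0
      simp
  · -- variation
    have hstep : ∀ F, P F → ‖g x F - g y F‖ ≤ c0 + 2 * bd G o a b (bl x (K + 1)) F := by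
      intro F hF
      by_cases hbad : bd G o a b (bl x (K + 1)) F = 0
      · rw [hbad, mul_zero, add_zero]
        have hsub : ∀ u w : V, G.Adj u w → ∀ k, A u F k ⊆ A w F (k + 1) := by
          intro u w huw k
          refine Finset.image_subset_image fun q hq => ?_
          rw [hbl1] at hq ⊢
          have h1 := hc.dist_triangle (u := w) (v := u) (w := q)
          have h2 : G.dist w u = 1 := dist_eq_one_iff_adj.2 huw.symm
          omega
        have hmono : ∀ k, A x F k ⊆ A x F (k + 1) := by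
          intro k
          refine Finset.image_subset_image fun q hq => ?_
          rw [hbl1] at hq ⊢
          omega
        have h1 := av_sub_le (δ := dl) dl_norm (A := A x F) (B := A y F) hK (hAne x F 0) hmono
          (hsub x y hxy) (hsub y x hxy.symm)
        refine h1.trans ?_
        have h2 := hab.good_card hc (hbl1 x (K + 1)) hF.1 hF.2 hbad
        have h3 : (0 : ℝ) < (A x F (K + 1)).card := by
          exact_mod_cast (hAne x F (K + 1)).card_pos
        have h4 : ((A x F (K + 1)).card : ℝ) ≤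
            (((2 * (K + 1) + 1) * (C * (2 * (K + 1) + 1)) : ℕ) : ℝ) := by exact_mod_cast h2
        have h5 := Real.log_le_log h3 h4
        rw [hc0]
        gcongr
      · have hb1 : bd G o a b (bl x (K + 1)) F = 1 := by
          unfold bd at hbad ⊢
          split_ifs at hbad ⊢ with h
          · rfl
          · exact absurd rfl hbad
        have hn : ∀ z, ‖g z F‖ ≤ 1 := by
          intro z
          have hconv := norm_le_one_convex (E := lp (fun _ : V => ℝ) 1)
          exact av_mem hconv hK fun i _ => mu_mem hconv (hAne z F _) fun v _ => dl_norm v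
        have h1 := norm_sub_le (g x F) (g y F)
        have h2 := hn x
        have h3 := hn y
        rw [hb1]
        linarith
    have hPid : P id := ⟨fun p q => le_rfl, fun p q h => h⟩
    have hex : ∀ t, ‖Ex a b (g x) t id - Ex a b (g y) t id‖ ≤
        c0 + 2 * Ex a b (bd G o a b (bl x (K + 1))) t id := by
      intro t
      have h1 := Ex_norm_le hP hstep t id hPid
      rwa [Ex_affine] at h1
    have hsum := Ex_sum_le (a := a) (b := b) (bad := bd G o a b (bl x (K + 1)))
      (D := fun F => (DN G o (bl x (K + 1)) F : ℝ)) (fun F => Nat.cast_nonneg _)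
      (fun F => hab.bad_drop _ F) M id
    have hDN : DN G o (bl x (K + 1)) id ≤ D0 := by
      unfold DN
      have hin : ∀ p ∈ bl x (K + 1), ∀ q ∈ bl x (K + 1),
          (if G.dist o p = G.dist o q then G.dist (id p) (id q) else 0) ≤ 2 * (K + 1) := by
        intro p hp q hq
        rw [hbl1] at hp hq
        split_ifs
        · have h1 := hc.dist_triangle (u := p) (v := x) (w := q)
          rw [SimpleGraph.dist_comm (u := p) (v := x)] at h1
          simp only [id]
          omega
        · omega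
      calc (∑ p ∈ bl x (K + 1), ∑ q ∈ bl x (K + 1),
            if G.dist o p = G.dist o q then G.dist (id p) (id q) else 0)
          ≤ ∑ p ∈ bl x (K + 1), ∑ q ∈ bl x (K + 1), 2 * (K + 1) :=
            Finset.sum_le_sum fun p hp => Finset.sum_le_sum fun q hq => hin p hp q hq
        _ = (bl x (K + 1)).card * ((bl x (K + 1)).card * (2 * (K + 1))) := by
            simp [Finset.sum_const]
        _ ≤ D0 := by
            rw [hD0]
            have := hbl2 x (K + 1)
            gcongr
    have hDN' : (DN G o (bl x (K + 1)) id : ℝ) ≤ D0 := by exact_mod_cast hDN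
    show ‖(M : ℝ)⁻¹ • ∑ t ∈ Finset.range M, Ex a b (g x) t id -
      (M : ℝ)⁻¹ • ∑ t ∈ Finset.range M, Ex a b (g y) t id‖ ≤ ε
    rw [← smul_sub, ← Finset.sum_sub_distrib, norm_smul, norm_inv, Real.norm_of_nonneg hMpos.le]
    have h1 : ‖∑ t ∈ Finset.range M, (Ex a b (g x) t id - Ex a b (g y) t id)‖ ≤
        M * c0 + 4 * D0 := by
      calc ‖∑ t ∈ Finset.range M, (Ex a b (g x) t id - Ex a b (g y) t id)‖
          ≤ ∑ t ∈ Finset.range M, (c0 + 2 * Ex a b (bd G o a b (bl x (K + 1))) t id) :=
            (norm_sum_le _ _).trans (Finset.sum_le_sum fun t _ => hex t)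
        _ = M * c0 + 2 * ∑ t ∈ Finset.range M, Ex a b (bd G o a b (bl x (K + 1))) t id := by
            rw [Finset.sum_add_distrib, Finset.sum_const, Finset.card_range, nsmul_eq_mul,
              Finset.mul_sum]
        _ ≤ M * c0 + 4 * D0 := by linarith
    rw [inv_mul_le_iff₀ hMpos]
    refine h1.trans ?_
    nlinarith

/-- Property A from short maps with small rigid sets. -/
theorem propertyA_of_flows (hc : G.Connected) {Δ C : ℕ}
    (hΔ : ∀ (v : V) (T : Finset V), (∀ t ∈ T, G.dist v t ≤ 1) → T.card ≤ Δ) (o : V) (hC : 1 ≤ C)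
    (hfl : ∀ R : ℕ, ∃ (s : ℕ) (a b : V → V), Flows G o C R s a b) : PropertyA G :=
  propertyA_of_measures hc fun _ hε => almost_inv hc hΔ o hC hfl hε

end Pool.Agent.H169Q
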