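import Pool.Agent.helper169_quad.Rigid
import Pool.Agent.helper169_quad.Mach

/-!
# Modular graphs of bounded degree without isometric 6-cycles have Property A
-/

set_option autoImplicit false

namespace Pool.Agent.H169Q

open SimpleGraph Pool.Agent.Q255.Bridged Pool.Agent.Helper556_sys

variable {V : Type*} {G : SimpleGraph V}

namespace Qd

theorem card_le (hG : Qd G) (hf : ∀ v, (G.neighborSet v).Finite) {o : V} {l R C n : ℕ}
    (Q : Finset V) (hl : ∀ q ∈ Q, G.dist o q = l) (hn : R ≤ 2 * n)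
    (ha : ∀ p ∈ Q, ∀ q ∈ Q, G.dist ((phi G o)^[n] p) ((phi G o)^[n] q) = G.dist p q)
    (hb : ∀ p ∈ Q, ∀ q ∈ Q, G.dist (fth G o ((phi G o)^[n] p)) (fth G o ((phi G o)^[n] q)) =
      G.dist p q)
    (hR : ∀ p ∈ Q, ∀ q ∈ Q, G.dist p q ≤ R) (hC : 1 ≤ C)
    (hΔ : ∀ (v : V) (T : Finset V), (∀ t ∈ T, G.dist v t ≤ 2) → T.card ≤ C) :
    Q.card ≤ C * (R + 1) := by
  classical
  rcases Q.eq_empty_or_nonempty with rfl | hne
  · simp
  rcases Nat.lt_or_ge l (2 * n) with hln | hln
  · -- everything is mapped to the root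
    have h1 : Q.card ≤ 1 := by
      rw [Finset.card_le_one]
      intro p hp q hq
      apply hG.eq_zero
      have e : ∀ v ∈ Q, (phi G o)^[n] v = o := by
        intro v hv
        have := hG.it_lev hf o n v
        rw [hl v hv] at this
        exact (hG.eq_zero (by omega)).symm
      rw [← ha p hp q hq, e p hp, e q hq, dist_self]
    have h2 : 1 ≤ C * (R + 1) := Nat.mul_pos hC (by omega)
    omega
  obtain ⟨k, hk⟩ : ∃ k, l = k + 2 * n := ⟨l - 2 * n, by omega⟩
  have eZ : ∀ q ∈ Q, Z G o k q = (phi G o)^[n] q := by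
    intro q hq
    unfold Z
    rw [hl q hq]
    congr 1
    omega
  have hZ : ∀ p ∈ Q, ∀ q ∈ Q, G.dist (Z G o k p) (Z G o k q) = G.dist p q := by
    intro p hp q hq
    rw [eZ p hp, eZ q hq]
    exact ha p hp q hq
  have hfZ : ∀ p ∈ Q, ∀ q ∈ Q, G.dist (fth G o (Z G o k p)) (fth G o (Z G o k q)) =
      G.dist p q := by
    intro p hp q hq
    rw [eZ p hp, eZ q hq]
    exact hb p hp q hq
  have hinj : ∀ p ∈ Q, ∀ q ∈ Q, Z G o k p = Z G o k q → p = q := by
    intro p h1 q h2 h
    apply hG.eq_zero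
    rw [← hZ p h1 q h2, h, dist_self]
  -- the smallest point
  obtain ⟨q1, hq1, hmin⟩ : ∃ q1 ∈ Q, ∀ q ∈ Q, ¬ lt G o k (Z G o k q) (Z G o k q1) := by
    have hset : (Z G o k '' (Q : Set V)).Nonempty := by
      obtain ⟨q, hq⟩ := hne
      exact ⟨Z G o k q, q, hq, rfl⟩
    have h1 := (ord G (G.dist o) k).2.toIsWellFounded.wf.min_mem _ hset
    obtain ⟨q1, hq1, hq1'⟩ := h1
    refine ⟨q1, hq1, fun q hq => ?_⟩
    have h2 := (ord G (G.dist o) k).2.toIsWellFounded.wf.not_lt_min _
      (show Z G o k q ∈ Z G o k '' (Q : Set V) from ⟨q, hq, rfl⟩)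
    rw [← hq1'] at h2
    exact h2
  have hmin' : ∀ q ∈ Q, q ≠ q1 → lt G o k (Z G o k q1) (Z G o k q) := by
    intro q hq hne'
    rcases lt_tri (G := G) o k (Z G o k q1) (Z G o k q) with h | h | h
    · exact h
    · exact absurd (hinj _ hq1 _ hq h).symm hne'
    · exact absurd h (hmin q hq)
  -- points at the same distance from the smallest point are close
  have hclose : ∀ p ∈ Q, ∀ q ∈ Q, G.dist q1 p = G.dist q1 q → G.dist p q ≤ 2 := by
    intro p hpQ q hqQ hd
    wlog hlt : lt G o k (Z G o k p) (Z G o k q) generalizing p q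
    · rcases lt_tri (G := G) o k (Z G o k p) (Z G o k q) with h | h | h
      · exact absurd h hlt
      · rw [hinj _ hpQ _ hqQ h, dist_self]
        omega
      · rw [SimpleGraph.dist_comm]
        exact this q hqQ p hpQ hd.symm h
    rcases eq_or_ne p q1 with rfl | hp1
    · rw [dist_self] at hd
      omega
    have h1 := hmin' p hpQ hp1
    have h3 := hG.mid hf (o := o) (a := q1) (b := p) (c := q) (k := k)
      (by have := hR p hpQ q1 hq1; rw [hl p hpQ]; omega)
      (by have := hR p hpQ q hqQ; rw [hl p hpQ]; omega)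
      (by rw [hl p hpQ, hl q1 hq1]) (by rw [hl p hpQ, hl q hqQ]) (by rw [hl p hpQ]; omega)
      (hZ p hpQ q1 hq1) (hZ p hpQ q hqQ) (hfZ p hpQ q hqQ) h1 hlt
    omega
  have hmaps : ∀ q ∈ Q, G.dist q1 q ∈ Finset.range (R + 1) := by
    intro q hq
    rw [Finset.mem_range]
    have := hR q1 hq1 q hq
    omega
  have hcard := Finset.card_le_mul_card_image_of_maps_to hmaps C (by
    intro D _
    rcases (Q.filter (fun q => G.dist q1 q = D)).eq_empty_or_nonempty with h | ⟨p, hp'⟩
    · rw [h]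
      simp
    · rw [Finset.mem_filter] at hp'
      apply hΔ p
      intro t ht
      rw [Finset.mem_filter] at ht
      exact hclose p hp'.1 t ht.1 (by rw [hp'.2, ht.2]))
  rwa [Finset.card_range] at hcard

theorem dist_fth (hG : Qd G) (o v : V) : G.dist v (fth G o v) ≤ 1 := by
  rcases Nat.eq_zero_or_pos (G.dist o v) with h | h
  · rw [hG.fth_zero h, dist_self]
    omega
  · exact (hG.one (hG.fth_adj h).symm).le

theorem dist_phi (hG : Qd G) (hf : ∀ v, (G.neighborSet v).Finite) (o v : V) :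
    G.dist v (phi G o v) ≤ 2 := by
  rcases Nat.lt_or_ge (G.dist o v) 2 with h | h
  · rw [phi_low (by omega), SimpleGraph.dist_comm]
    omega
  · obtain ⟨h1, h2⟩ := hG.phi_spec hf h
    have h3 := hG.fth_adj (o := o) (v := v) (by omega)
    have h4 := hG.fth_lev o v
    have h5 := hG.one (h2 _ h3 (by omega)).symm
    have h6 := hG.one h3.symm
    have h7 := hG.tri v (fth G o v) (phi G o v)
    omega

theorem dist_it (hG : Qd G) (hf : ∀ v, (G.neighborSet v).Finite) (o : V) :
    ∀ (j : ℕ) (v : V), G.dist v ((phi G o)^[j] v) ≤ 2 * j := by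
  intro j
  induction j with
  | zero => intro v; simp
  | succ j ih =>
    intro v
    rw [Function.iterate_succ_apply]
    have h1 := ih (phi G o v)
    have h2 := hG.dist_phi hf o v
    have h3 := hG.tri v (phi G o v) ((phi G o)^[j] (phi G o v))
    omega

/-- Modular graphs of bounded degree without isometric 6-cycles have Property A. -/
theorem propertyA (hG : Qd G) {Δ : ℕ}
    (hΔ : ∀ (v : V) (T : Finset V), (∀ t ∈ T, G.dist v t ≤ 1) → T.card ≤ Δ) : PropertyA G := by
  classical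
  obtain ⟨o⟩ := hG.conn.nonempty
  choose bl hbl1 hbl2 using fun x k => ball_finset hG.conn hΔ x k
  have hf : ∀ v, (G.neighborSet v).Finite := by
    intro v
    refine (bl v 1).finite_toSet.subset fun w hw => ?_
    have h1 : G.Adj v w := hw
    exact (hbl1 v 1 w).2 (dist_eq_one_iff_adj.2 h1).le
  have hΔ1 : 1 ≤ Δ := by
    have := hΔ o {o} (by
      intro t ht
      rw [Finset.mem_singleton] at ht
      rw [ht, dist_self]
      omega)
    simpa using this
  have hC : 1 ≤ Δ ^ 2 := Nat.one_le_pow _ _ hΔ1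
  have hΔ2 : ∀ (v : V) (T : Finset V), (∀ t ∈ T, G.dist v t ≤ 2) → T.card ≤ Δ ^ 2 := by
    intro v T hT
    refine (Finset.card_le_card ?_).trans (hbl2 v 2)
    intro t ht
    exact (hbl1 v 2 t).2 (hT t ht)
  refine propertyA_of_flows hG.conn hΔ o hC fun R => ?_
  refine ⟨2 * R + 1, (phi G o)^[R], fun v => fth G o ((phi G o)^[R] v), ?_⟩
  refine ⟨hG.it_lip hf o R, fun u v => (hG.fth_lip o _ _).trans (hG.it_lip hf o R u v), ?_, ?_, ?_,
    ?_, ?_⟩
  · intro v
    have := hG.dist_it hf o R v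
    omega
  · intro v
    have h1 := hG.dist_it hf o R v
    have h2 := hG.dist_fth o ((phi G o)^[R] v)
    have h3 := hG.tri v ((phi G o)^[R] v) (fth G o ((phi G o)^[R] v))
    show G.dist v (fth G o ((phi G o)^[R] v)) ≤ 2 * R + 1
    omega
  · intro p q h
    rw [hG.it_lev hf, hG.it_lev hf, h]
  · intro p q h
    show G.dist o (fth G o ((phi G o)^[R] p)) = G.dist o (fth G o ((phi G o)^[R] q))
    rw [hG.fth_lev, hG.fth_lev, hG.it_lev hf, hG.it_lev hf, h]
  · intro k Q hk ha hb hR
    exact hG.card_le hf Q hk (by omega) ha hb hR hC hΔ2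

end Qd

end Pool.Agent.H169Q
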