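import Pool.Agent.helper169_quad.Count

/-!
# Rigid sets in modular graphs without isometric 6-cycles, where every edge has an end of small
degree
-/

set_option autoImplicit false

namespace Pool.Agent.H169Q

open SimpleGraph Pool.Agent.Q255.Bridged Pool.Agent.Helper556_sys

variable {V : Type*} {G : SimpleGraph V}

/-- Every edge has an end of degree at most `N`. -/
def EdgeN (G : SimpleGraph V) (N : ℕ) : Prop :=
  ∀ a f, G.Adj a f → (∀ T : Finset V, (∀ t ∈ T, G.Adj a t) → T.card ≤ N) ∨
    ∀ T : Finset V, (∀ t ∈ T, G.Adj f t) → T.card ≤ N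

theorem exists_top {α : Type*} (r : α → α → Prop) (ht : ∀ a b c, r a b → r b c → r a c)
    (hi : ∀ a, ¬ r a a) (P : Finset α) (hP : P.Nonempty) : ∃ p ∈ P, ∀ q ∈ P, ¬ r p q := by
  classical
  induction P using Finset.induction_on with
  | empty => exact absurd hP (by simp)
  | insert a P ha ih =>
    rcases P.eq_empty_or_nonempty with rfl | hne
    · exact ⟨a, by simp, by simp [hi]⟩
    · obtain ⟨p, hp, hp'⟩ := ih hne
      by_cases h : r p a
      · refine ⟨a, Finset.mem_insert_self _ _, ?_⟩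
        intro q hq h1
        rcases Finset.mem_insert.1 hq with rfl | hq
        · exact hi _ h1
        · exact hp' q hq (ht _ _ _ h h1)
      · refine ⟨p, Finset.mem_insert_of_mem hp, ?_⟩
        intro q hq h1
        rcases Finset.mem_insert.1 hq with rfl | hq
        · exact h h1
        · exact hp' q hq h1

namespace Qd

/-- Rigid sets of diameter at most two. -/
theorem card_le_two (hG : Qd G) (hf : ∀ v, (G.neighborSet v).Finite) {N : ℕ} (hN : EdgeN G N)
    (hN1 : 1 ≤ N) {o : V} {k n : ℕ} (P : Finset V) (hl : ∀ q ∈ P, G.dist o q = k + 2 * n)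
    (hn : 2 ≤ 2 * n)
    (hZ : ∀ p ∈ P, ∀ q ∈ P, G.dist (Z G o k p) (Z G o k q) = G.dist p q)
    (hfZ : ∀ p ∈ P, ∀ q ∈ P, G.dist (fth G o (Z G o k p)) (fth G o (Z G o k q)) = G.dist p q)
    (h2 : ∀ p ∈ P, ∀ q ∈ P, G.dist p q ≤ 2) : P.card ≤ N := by
  classical
  rcases Nat.lt_or_ge P.card 2 with h | h
  · omega
  have hne : P.Nonempty := Finset.card_pos.1 (by omega)
  have hinj : ∀ p ∈ P, ∀ q ∈ P, Z G o k p = Z G o k q → p = q := by
    intro p h1 q h2 h
    apply hG.eq_zero
    rw [← hZ p h1 q h2, h, dist_self]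
  have hinj2 : ∀ p ∈ P, ∀ q ∈ P, fth G o (Z G o k p) = fth G o (Z G o k q) → p = q := by
    intro p h1 q h2 h
    apply hG.eq_zero
    rw [← hfZ p h1 q h2, h, dist_self]
  obtain ⟨p0, hp0, hmin⟩ := exists_top (fun p q => lt G o k (Z G o k q) (Z G o k p))
    (fun a b c h1 h2 => lt_trans' h2 h1) (fun a h => lt_irrefl' h) P hne
  obtain ⟨p1, hp1, hmax⟩ := exists_top (fun p q => lt G o k (Z G o k p) (Z G o k q))
    (fun a b c h1 h2 => lt_trans' h1 h2) (fun a h => lt_irrefl' h) P hne
  have hlev : ∀ q ∈ P, G.dist o (Z G o k q) = k := by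
    intro q hq
    rw [hG.Z_lev hf (by rw [hl q hq]; omega), hl q hq]
    omega
  -- the level is positive
  have hk : 0 < k := by
    by_contra hk
    have hk0 : k = 0 := by omega
    obtain ⟨p, q, hp, hq, hpq⟩ := Finset.one_lt_card_iff.1 (show 1 < P.card by omega)
    apply hpq
    apply hinj p hp q hq
    have e1 := hG.eq_zero (a := o) (b := Z G o k p) (by rw [hlev p hp, hk0])
    have e2 := hG.eq_zero (a := o) (b := Z G o k q) (by rw [hlev q hq, hk0])
    rw [← e1, ← e2]
  -- domination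
  have hdom : ∀ p ∈ P, ∀ q ∈ P, lt G o k (Z G o k p) (Z G o k q) →
      G.Adj (Z G o k p) (fth G o (Z G o k q)) := by
    intro p hp q hq hlt
    have hne : p ≠ q := by
      rintro rfl
      exact lt_irrefl' hlt
    have hd := h2 p hp q hq
    have hpar := hG.par _ o p q rfl
    have hpos := hG.conn.pos_dist_of_ne hne
    have l1 := hl p hp
    have l2 := hl q hq
    obtain ⟨m, hpm, hm⟩ := hG.step (a := p) (b := q) (by omega)
    have d1 := hG.lev hpm o
    have hmq : G.Adj m q := by
      have : G.dist m q = 1 := by omega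
      exact dist_eq_one_iff_adj.1 this
    exact hG.Z_dom hf hpm hmq (by omega) (by omega) (by omega) (by omega) hlt
  have h3 : ∀ q ∈ P, G.Adj (Z G o k p0) (fth G o (Z G o k q)) := by
    intro q hq
    rcases lt_tri (G := G) o k (Z G o k p0) (Z G o k q) with h | h | h
    · exact hdom p0 hp0 q hq h
    · rw [h]
      exact (hG.fth_adj (by rw [hlev q hq]; exact hk)).symm
    · exact absurd h (hmin q hq)
  have h4 : ∀ q ∈ P, G.Adj (fth G o (Z G o k p1)) (Z G o k q) := by
    intro q hq
    rcases lt_tri (G := G) o k (Z G o k p1) (Z G o k q) with h | h | h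
    · exact absurd h (hmax q hq)
    · rw [← h]
      exact hG.fth_adj (by rw [hlev p1 hp1]; exact hk)
    · exact (hdom q hq p1 hp1 h).symm
  rcases hN _ _ (h3 p1 hp1) with h5 | h5
  · have h6 := h5 (P.image fun q => fth G o (Z G o k q)) (by
      intro t ht
      rw [Finset.mem_image] at ht
      obtain ⟨q, hq, rfl⟩ := ht
      exact h3 q hq)
    rwa [Finset.card_image_of_injOn] at h6
    intro p hp q hq h
    exact hinj2 p hp q hq h
  · have h6 := h5 (P.image fun q => Z G o k q) (by
      intro t ht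
      rw [Finset.mem_image] at ht
      obtain ⟨q, hq, rfl⟩ := ht
      exact h4 q hq)
    rwa [Finset.card_image_of_injOn] at h6
    intro p hp q hq h
    exact hinj p hp q hq h

theorem card_leN (hG : Qd G) (hf : ∀ v, (G.neighborSet v).Finite) {N : ℕ} (hN : EdgeN G N)
    (hN1 : 1 ≤ N) {o : V} {l R n : ℕ}
    (Q : Finset V) (hl : ∀ q ∈ Q, G.dist o q = l) (hn : R ≤ 2 * n) (hn1 : 1 ≤ n)
    (ha : ∀ p ∈ Q, ∀ q ∈ Q, G.dist ((phi G o)^[n] p) ((phi G o)^[n] q) = G.dist p q)
    (hb : ∀ p ∈ Q, ∀ q ∈ Q, G.dist (fth G o ((phi G o)^[n] p)) (fth G o ((phi G o)^[n] q)) =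
      G.dist p q)
    (hR : ∀ p ∈ Q, ∀ q ∈ Q, G.dist p q ≤ R) :
    Q.card ≤ N * (R + 1) := by
  classical
  rcases Q.eq_empty_or_nonempty with rfl | hne
  · simp
  rcases Nat.lt_or_ge l (2 * n) with hln | hln
  · -- everything is mapped to the root
    have h1 : Q.card ≤ 1 := by
      rw [Finset.card_le_one]
      intro p hp q hq
      apply hG.eq_zero
      have e : ∀ v ∈ Q, (phi G o)^[n] v = o := by
        intro v hv
        have := hG.it_lev hf o n v
        rw [hl v hv] at this
        exact (hG.eq_zero (by omega)).symm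
      rw [← ha p hp q hq, e p hp, e q hq, dist_self]
    have h2 : 1 ≤ N * (R + 1) := Nat.mul_pos hN1 (by omega)
    omega
  obtain ⟨k, hk⟩ : ∃ k, l = k + 2 * n := ⟨l - 2 * n, by omega⟩
  have eZ : ∀ q ∈ Q, Z G o k q = (phi G o)^[n] q := by
    intro q hq
    unfold Z
    rw [hl q hq]
    congr 1
    omega
  have hZ : ∀ p ∈ Q, ∀ q ∈ Q, G.dist (Z G o k p) (Z G o k q) = G.dist p q := by
    intro p hp q hq
    rw [eZ p hp, eZ q hq]
    exact ha p hp q hq
  have hfZ : ∀ p ∈ Q, ∀ q ∈ Q, G.dist (fth G o (Z G o k p)) (fth G o (Z G o k q)) =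
      G.dist p q := by
    intro p hp q hq
    rw [eZ p hp, eZ q hq]
    exact hb p hp q hq
  have hinj : ∀ p ∈ Q, ∀ q ∈ Q, Z G o k p = Z G o k q → p = q := by
    intro p h1 q h2 h
    apply hG.eq_zero
    rw [← hZ p h1 q h2, h, dist_self]
  -- the smallest point
  obtain ⟨q1, hq1, hmin⟩ := exists_top (fun p q => lt G o k (Z G o k q) (Z G o k p))
    (fun a b c h1 h2 => lt_trans' h2 h1) (fun a h => lt_irrefl' h) Q hne
  have hmin' : ∀ q ∈ Q, q ≠ q1 → lt G o k (Z G o k q1) (Z G o k q) := by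
    intro q hq hne'
    rcases lt_tri (G := G) o k (Z G o k q1) (Z G o k q) with h | h | h
    · exact h
    · exact absurd (hinj _ hq1 _ hq h).symm hne'
    · exact absurd h (hmin q hq)
  -- points at the same distance from the smallest point are close
  have hclose : ∀ p ∈ Q, ∀ q ∈ Q, G.dist q1 p = G.dist q1 q → G.dist p q ≤ 2 := by
    intro p hpQ q hqQ hd
    wlog hlt : lt G o k (Z G o k p) (Z G o k q) generalizing p q
    · rcases lt_tri (G := G) o k (Z G o k p) (Z G o k q) with h | h | h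
      · exact absurd h hlt
      · rw [hinj _ hpQ _ hqQ h, dist_self]
        omega
      · rw [SimpleGraph.dist_comm]
        exact this q hqQ p hpQ hd.symm h
    rcases eq_or_ne p q1 with rfl | hp1
    · rw [dist_self] at hd
      omega
    have h1 := hmin' p hpQ hp1
    have h3 := hG.mid hf (o := o) (a := q1) (b := p) (c := q) (k := k)
      (by have := hR p hpQ q1 hq1; rw [hl p hpQ]; omega)
      (by have := hR p hpQ q hqQ; rw [hl p hpQ]; omega)
      (by rw [hl p hpQ, hl q1 hq1]) (by rw [hl p hpQ, hl q hqQ]) (by rw [hl p hpQ]; omega)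
      (hZ p hpQ q1 hq1) (hZ p hpQ q hqQ) (hfZ p hpQ q hqQ) h1 hlt
    omega
  have hmaps : ∀ q ∈ Q, G.dist q1 q ∈ Finset.range (R + 1) := by
    intro q hq
    rw [Finset.mem_range]
    have := hR q1 hq1 q hq
    omega
  have hcard := Finset.card_le_mul_card_image_of_maps_to hmaps N (by
    intro D _
    apply hG.card_le_two hf hN hN1 (o := o) (k := k) (n := n)
    · intro q hq
      rw [Finset.mem_filter] at hq
      rw [hl q hq.1, hk]
    · omega
    · intro p hp q hq
      rw [Finset.mem_filter] at hp hq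
      exact hZ p hp.1 q hq.1
    · intro p hp q hq
      rw [Finset.mem_filter] at hp hq
      exact hfZ p hp.1 q hq.1
    · intro p hp q hq
      rw [Finset.mem_filter] at hp hq
      exact hclose p hp.1 q hq.1 (by rw [hp.2, hq.2]))
  rwa [Finset.card_range] at hcard

/-- The two flows. -/
theorem flows (hG : Qd G) (hf : ∀ v, (G.neighborSet v).Finite) {N : ℕ} (hN : EdgeN G N)
    (hN1 : 1 ≤ N) (o : V) (R : ℕ) : ∃ (s : ℕ) (a b : V → V), Flows G o N R s a b := by
  refine ⟨2 * (R + 1) + 1, (phi G o)^[R + 1], fun v => fth G o ((phi G o)^[R + 1] v), ?_⟩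
  refine ⟨hG.it_lip hf o (R + 1),
    fun u v => (hG.fth_lip o _ _).trans (hG.it_lip hf o (R + 1) u v), ?_, ?_, ?_, ?_, ?_⟩
  · intro v
    have := hG.dist_it hf o (R + 1) v
    omega
  · intro v
    have h1 := hG.dist_it hf o (R + 1) v
    have h2 := hG.dist_fth o ((phi G o)^[R + 1] v)
    have h3 := hG.tri v ((phi G o)^[R + 1] v) (fth G o ((phi G o)^[R + 1] v))
    show G.dist v (fth G o ((phi G o)^[R + 1] v)) ≤ 2 * (R + 1) + 1
    omega
  · intro p q h
    rw [hG.it_lev hf, hG.it_lev hf, h]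
  · intro p q h
    show G.dist o (fth G o ((phi G o)^[R + 1] p)) = G.dist o (fth G o ((phi G o)^[R + 1] q))
    rw [hG.fth_lev, hG.fth_lev, hG.it_lev hf, hG.it_lev hf, h]
  · intro k Q hk ha hb hR
    exact hG.card_leN hf hN hN1 Q hk (by omega) (by omega) ha hb hR

end Qd

end Pool.Agent.H169Q
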