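import Mathlib

/-!
# Combinatorial 2-complexes and the conditions C(4) and T(4)
-/

set_option autoImplicit false

namespace Pool.Agent.H169Q

/-- A combinatorial 2-complex: vertices `V`, oriented edges `E` (`inv e` is `e` with the opposite
orientation, `src e` its initial vertex), 2-cells `C`; the attaching map of the 2-cell `c` is the
closed path `bd c 0, …, bd c (len c - 1)` of length `len c > 0`, continued periodically. -/
structure Cx (V E C : Type*) where
  src : E → V
  inv : E → E
  inv_inv : ∀ e, inv (inv e) = e
  inv_ne : ∀ e, inv e ≠ e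
  len : C → ℕ
  len_pos : ∀ c, 0 < len c
  bd : C → ℤ → E
  bd_per : ∀ c i, bd c (i + len c) = bd c i
  bd_next : ∀ c i, src (inv (bd c i)) = src (bd c (i + 1))

namespace Cx

variable {V E C : Type*} (X : Cx V E C)

/-- The edge with number `t` of the boundary path of `c` which starts at the corner `i`; the
direction is that of the attaching map for `b = true` and the opposite one for `b = false`. -/
def rd (c : C) (i : ℤ) (b : Bool) (t : ℤ) : E :=
  if b then X.bd c (i + t) else X.inv (X.bd c (i - 1 - t))

/-- The first `n` edges of a boundary path. -/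
def path (c : C) (i : ℤ) (b : Bool) (n : ℕ) : List E :=
  (List.range n).map fun t : ℕ => X.rd c i b t

/-- The boundary paths of `c`, `c'` starting at the corners `i`, `i'` in the directions `b`, `b'`
differ by a symmetry of one cell. -/
def Same (c : C) (i : ℤ) (b : Bool) (c' : C) (i' : ℤ) (b' : Bool) : Prop :=
  c = c' ∧ ∀ t, X.rd c i b t = X.rd c' i' b' t

/-- Pieces: nontrivial paths which occur in two essentially different ways in the boundary paths
of the 2-cells. -/
def IsPiece (p : List E) : Prop :=
  p ≠ [] ∧ ∃ (c : C) (i : ℤ) (b : Bool) (c' : C) (i' : ℤ) (b' : Bool),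
    (p.length ≤ X.len c ∧ p = X.path c i b p.length) ∧
    (p.length ≤ X.len c' ∧ p = X.path c' i' b' p.length) ∧ ¬ X.Same c i b c' i' b'

/-- The condition C(4): no boundary path of a 2-cell is a concatenation of fewer than four
pieces. -/
def C4 : Prop :=
  ∀ (c : C) (i : ℤ) (b : Bool) (L : List (List E)), (∀ p ∈ L, X.IsPiece p) →
    L.flatten = X.path c i b (X.len c) → 4 ≤ L.length

/-- The condition T(4), in local form: if three corners `(c₁, i₁)`, `(c₂, i₂)`, `(c₃, i₃)` fit
together around a vertex of degree three, then two consecutive ones cancel, that is, belong to one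
2-cell and are mirror images of each other. (The directions `b` give the orientation around the
vertex: the first edge of the boundary path `(c₁, i₁, !b₁)` is the first edge of `(c₂, i₂, b₂)`, and
so on.) If C(4) holds and three corners fit together but no two consecutive ones cancel, then the
sides of these corners are pieces, so the three 2-cells have length at least three; glued around
the vertex they form a reduced disc diagram with an interior vertex of degree three. So this
condition follows from C(4) and the absence of such diagrams. -/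
def T4 : Prop :=
  ∀ (c₁ : C) (i₁ : ℤ) (b₁ : Bool) (c₂ : C) (i₂ : ℤ) (b₂ : Bool) (c₃ : C) (i₃ : ℤ) (b₃ : Bool),
    X.rd c₁ i₁ (!b₁) 0 = X.rd c₂ i₂ b₂ 0 → X.rd c₂ i₂ (!b₂) 0 = X.rd c₃ i₃ b₃ 0 →
    X.rd c₃ i₃ (!b₃) 0 = X.rd c₁ i₁ b₁ 0 →
    X.Same c₁ i₁ (!b₁) c₂ i₂ b₂ ∨ X.Same c₂ i₂ (!b₂) c₃ i₃ b₃ ∨ X.Same c₃ i₃ (!b₃) c₁ i₁ b₁

/-- The list `p` of edges is a path from `v` to `w`. -/
def IsPath : V → List E → V → Prop
  | v, [], w => v = w
  | v, e :: p, w => X.src e = v ∧ IsPath (X.src (X.inv e)) p w

/-- Homotopy of paths from `v` to `w`: deletion and insertion of backtracks and of boundary paths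
of 2-cells. -/
inductive Homotopic (v w : V) : List E → List E → Prop
  | refl (p : List E) : Homotopic v w p p
  | symm {p q : List E} : Homotopic v w p q → Homotopic v w q p
  | trans {p q r : List E} : Homotopic v w p q → Homotopic v w q r → Homotopic v w p r
  | back (p : List E) (e : E) (q : List E) : X.IsPath v (p ++ ([e, X.inv e] ++ q)) w →
      Homotopic v w (p ++ ([e, X.inv e] ++ q)) (p ++ q)
  | cell (p : List E) (c : C) (i : ℤ) (b : Bool) (q : List E) :
      X.IsPath v (p ++ (X.path c i b (X.len c) ++ q)) w →
      Homotopic v w (p ++ (X.path c i b (X.len c) ++ q)) (p ++ q)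

/-- The complex is nonempty and connected, and all closed paths are homotopic to the trivial
path. -/
def SimplyConnected : Prop :=
  Nonempty V ∧ (∀ v w, ∃ p, X.IsPath v p w) ∧ ∀ v p, X.IsPath v p v → X.Homotopic v v p []

/-- At most `N` edges start at any vertex and at most `N` 2-cells contain it. -/
def LocallyFinite (N : ℕ) : Prop :=
  (∀ (v : V) (T : Finset E), (∀ e ∈ T, X.src e = v) → T.card ≤ N) ∧
  ∀ (v : V) (T : Finset C), (∀ c ∈ T, ∃ i, X.src (X.bd c i) = v) → T.card ≤ N

/-- The graph of the 1-skeleton: its path metric `X.graph.dist` is the metric of the vertex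
set. -/
def graph : SimpleGraph V where
  Adj v w := v ≠ w ∧ ∃ e, X.src e = v ∧ X.src (X.inv e) = w
  symm := ⟨fun _ _ ⟨h, e, h1, h2⟩ => ⟨h.symm, X.inv e, h2, by rw [X.inv_inv]; exact h1⟩⟩
  loopless := ⟨fun _ h => h.1 rfl⟩

end Cx

end Pool.Agent.H169Q
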