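import Pool.Agent.helper169_quad.Tl
import Pool.Agent.helper169_quad.Core

/-!
# Square structures with trivial holonomy: the graph is modular without isometric 6-cycles
-/

set_option autoImplicit false

namespace Pool.Agent.H169Q

namespace SqS

variable {V E : Type*} {S : SqS V E}

/-- The graph of a square structure. -/
def gr (S : SqS V E) : SimpleGraph V where
  Adj x y := x ≠ y ∧ ∃ e, S.src e = x ∧ S.src (S.inv e) = y
  symm := ⟨fun x y ⟨h, e, h1, h2⟩ => ⟨h.symm, S.inv e, h2, by rw [S.ii]; exact h1⟩⟩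
  loopless := ⟨fun _ h => h.1 rfl⟩

/-- Compatible reduced paths from `o` to all vertices. -/
def FlatAt (S : SqS V E) (o : V) : Prop :=
  ∃ σ : V → List E, (∀ y, S.Red (σ y) ∧ S.Vd o (σ y) ∧ S.en o (σ y) = y) ∧ σ o = [] ∧
    ∀ e, S.Eqv (S.tl e (σ (S.src e))) (σ (S.src (S.inv e)))

theorem ends_ne {o : V} (hF : S.FlatAt o) (e : E) : S.src e ≠ S.src (S.inv e) := by
  obtain ⟨σ, h1, _, h3⟩ := hF
  intro h
  have h4 := (h3 e).length
  have h5 := tl_length (e := e) (h1 (S.src e)).1
  rw [← h] at h4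
  omega

theorem adj_of (hF : ∀ o, S.FlatAt o) (e : E) : S.gr.Adj (S.src e) (S.src (S.inv e)) :=
  ⟨ends_ne (hF (S.src e)) e, e, rfl, rfl⟩

theorem walk (hF : ∀ o, S.FlatAt o) (o : V) : ∀ γ : List E, S.Vd o γ →
    ∃ w : S.gr.Walk o (S.en o γ), w.length = γ.length := by
  intro γ
  induction γ with
  | nil => intro _; exact ⟨SimpleGraph.Walk.nil, rfl⟩
  | cons e γ ih =>
    rintro ⟨h1, h2⟩
    obtain ⟨w, hw⟩ := ih h2
    have hadj : S.gr.Adj (S.en o γ) (S.src (S.inv e)) := by
      rw [← h1]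
      exact adj_of hF e
    refine ⟨w.append (SimpleGraph.Walk.cons hadj SimpleGraph.Walk.nil), ?_⟩
    rw [SimpleGraph.Walk.length_append, hw]
    rfl

theorem conn [Nonempty V] (hF : ∀ o, S.FlatAt o) : S.gr.Connected := by
  have hp : S.gr.Preconnected := by
    intro x y
    obtain ⟨σ, h1, _, _⟩ := hF x
    obtain ⟨w, _⟩ := walk hF x (σ y) (h1 y).2.1
    rw [(h1 y).2.2] at w
    exact ⟨w⟩
  exact ⟨hp⟩

theorem dist_eq [Nonempty V] (hF : ∀ o, S.FlatAt o) {o : V} {σ : V → List E}
    (h1 : ∀ y, S.Red (σ y) ∧ S.Vd o (σ y) ∧ S.en o (σ y) = y) (h2 : σ o = [])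
    (h3 : ∀ e, S.Eqv (S.tl e (σ (S.src e))) (σ (S.src (S.inv e)))) (y : V) :
    S.gr.dist o y = (σ y).length := by
  apply le_antisymm
  · obtain ⟨w, hw⟩ := walk hF o (σ y) (h1 y).2.1
    have := SimpleGraph.dist_le w
    rw [hw, (h1 y).2.2] at this
    exact this
  · have key : ∀ n y, S.gr.dist o y = n → (σ y).length ≤ n := by
      intro n
      induction n with
      | zero =>
        intro y hy
        have := (conn hF).dist_eq_zero_iff.1 hy
        rw [← this, h2]
        simp
      | succ n ih =>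
        intro y hy
        obtain ⟨u, hu1, hu2⟩ := Pool.Agent.Q255.Bridged.exists_parent (G := S.gr) (z := o) (v := y)
          (k := n) hy
        have h4 := ih u hu2
        obtain ⟨_, e, rfl, rfl⟩ := hu1
        have h5 := (h3 e).length
        have h6 := tl_length (e := e) (h1 (S.src e)).1
        omega
    exact key _ y rfl

/-- The strong quadrangle condition. -/
theorem qcs [Nonempty V] (hF : ∀ o, S.FlatAt o) (z : V) {e e' : E}
    (ht : S.src (S.inv e) = S.src (S.inv e'))
    (h1 : S.gr.dist z (S.src e) + 1 = S.gr.dist z (S.src (S.inv e)))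
    (h2 : S.gr.dist z (S.src e') + 1 = S.gr.dist z (S.src (S.inv e'))) (hne : e ≠ e') :
    ∃ p q, S.Sq p e q e' ∧ S.gr.dist z (S.src p) + 1 = S.gr.dist z (S.src e) := by
  obtain ⟨σ, k1, k2, k3⟩ := hF z
  have hd := dist_eq hF k1 k2 k3
  have c1 : S.Red (e :: σ (S.src e)) ∧ S.Eqv (e :: σ (S.src e)) (σ (S.src (S.inv e))) := by
    rcases tl_cases (e := e) (k1 (S.src e)).1 with ⟨δ, m1, m2⟩ | ⟨m1, m2⟩
    · exfalso
      have h4 := (k3 e).length
      have h5 := m2.length
      have h6 := m1.length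
      rw [hd, hd] at h1
      simp only [List.length_cons] at h6
      omega
    · refine ⟨m1, ?_⟩
      rw [← m2]
      exact k3 e
  have c2 : S.Red (e' :: σ (S.src e')) ∧ S.Eqv (e' :: σ (S.src e')) (σ (S.src (S.inv e'))) := by
    rcases tl_cases (e := e') (k1 (S.src e')).1 with ⟨δ, m1, m2⟩ | ⟨m1, m2⟩
    · exfalso
      have h4 := (k3 e').length
      have h5 := m2.length
      have h6 := m1.length
      rw [hd, hd] at h2
      simp only [List.length_cons] at h6
      omega
    · refine ⟨m1, ?_⟩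
      rw [← m2]
      exact k3 e'
  have c3 : S.Eqv (e :: σ (S.src e)) (e' :: σ (S.src e')) := by
    refine c1.2.trans ?_
    rw [ht]
    exact c2.2.symm
  rcases qc _ _ _ e e' rfl c1.1 c3 with ⟨h4, _⟩ | ⟨δ, p, q, m1, m2, m3⟩
  · exact absurd h4 hne
  refine ⟨p, q, m3, ?_⟩
  obtain ⟨v1, v2⟩ := Vd.eqv m1 (k1 (S.src e)).2.1
  rw [(k1 (S.src e)).2.2] at v2
  obtain ⟨w, hw⟩ := walk hF z δ v1.2
  have h5 := SimpleGraph.dist_le w
  rw [hw, ← v1.1] at h5
  have h6 := m1.length
  simp only [List.length_cons] at h6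
  rw [← hd] at h6
  have h7 : S.gr.dist z (S.src e) ≤ S.gr.dist z (S.src p) + 1 := by
    have h8 : S.gr.Adj (S.src p) (S.src e) := by
      rw [← S.e_ab m3]
      exact adj_of hF p
    exact Pool.Agent.Q255.Bridged.lip S.gr h8 z
  omega

/-- Edges are determined by their ends. -/
theorem uniq [Nonempty V] (hF : ∀ o, S.FlatAt o) {e e' : E} (h : S.src e = S.src e')
    (h' : S.src (S.inv e) = S.src (S.inv e')) : e = e' := by
  by_contra hne
  have a1 := SimpleGraph.dist_eq_one_iff_adj.2 (adj_of hF e)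
  have a2 := SimpleGraph.dist_eq_one_iff_adj.2 (adj_of hF e')
  obtain ⟨p, q, _, h3⟩ := qcs hF (S.src e) h' (by rw [SimpleGraph.dist_self]; omega)
    (by rw [h, SimpleGraph.dist_self]; omega) hne
  rw [SimpleGraph.dist_self] at h3
  omega

/-- The graph of a square structure with trivial holonomy is modular without isometric
6-cycles. -/
theorem qd [Nonempty V] (hF : ∀ o, S.FlatAt o) : Qd S.gr := by
  have hbip : ∀ z u v, S.gr.Adj u v → S.gr.dist z u ≠ S.gr.dist z v := by
    rintro z u v ⟨_, e, rfl, rfl⟩ h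
    obtain ⟨σ, k1, k2, k3⟩ := hF z
    have hd := dist_eq hF k1 k2 k3
    rw [hd, hd] at h
    have h4 := (k3 e).length
    have h5 := tl_length (e := e) (k1 (S.src e)).1
    omega
  have hc := conn hF
  have h1 : ∀ {a b : V}, S.gr.Adj a b → S.gr.dist a b = 1 := fun h =>
    SimpleGraph.dist_eq_one_iff_adj.2 h
  have hlev : ∀ {u v : V}, S.gr.Adj u v → ∀ z, S.gr.dist z u + 1 = S.gr.dist z v ∨
      S.gr.dist z v + 1 = S.gr.dist z u := by
    intro u v h z
    have a1 := Pool.Agent.Q255.Bridged.lip S.gr h z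
    have a2 := Pool.Agent.Q255.Bridged.lip S.gr h.symm z
    have a3 := hbip z u v h
    omega
  refine ⟨hc, hbip, ?_, ?_⟩
  · intro z v a b hva hvb ha hb hne
    obtain ⟨_, e, he1, he2⟩ := hva.symm
    obtain ⟨_, e', he1', he2'⟩ := hvb.symm
    obtain ⟨p, q, h3, h4⟩ := qcs hF z (e := e) (e' := e') (by rw [he2, he2'])
      (by rw [he1, he2]; exact ha) (by rw [he1', he2']; exact hb)
      (by rintro rfl; exact hne (he1.symm.trans he1'))
    refine ⟨S.src p, ?_, ?_, by rw [h4, he1]⟩
    · rw [← he1, ← S.e_ab h3]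
      exact adj_of hF p
    · rw [← he1', ← S.e_cd h3, S.e1 h3]
      exact adj_of hF q
  · intro x0 x1 x2 x3 x4 x5 a01 a12 a23 a34 a45 a50 n02 n13 n24 n35 n40 n51
    by_contra hcon
    push Not at hcon
    obtain ⟨c03, c14, c25⟩ := hcon
    -- levels with respect to `x0`
    have l1 := h1 a01
    have l5 := h1 a50.symm
    have p02 : 0 < S.gr.dist x0 x2 := hc.pos_dist_of_ne n02
    have p04 : 0 < S.gr.dist x0 x4 := hc.pos_dist_of_ne n40.symm
    have l2 := hlev a12 x0
    have l3 := hlev a23 x0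
    have l4 := hlev a45 x0
    have p03 : S.gr.dist x0 x3 ≠ 1 := fun h => c03 (SimpleGraph.dist_eq_one_iff_adj.1 h)
    have l3' := hlev a34 x0
    obtain ⟨_, e12, u1, u2⟩ := a12
    obtain ⟨_, e23, u3, u4⟩ := a23
    obtain ⟨_, e43, u5, u6⟩ := a34.symm
    obtain ⟨_, e54, u7, u8⟩ := a45.symm
    obtain ⟨p, q, s1, s2⟩ := qcs hF x0 (e := e23) (e' := e43) (by rw [u4, u6])
      (by rw [u3, u4]; omega) (by rw [u5, u6]; omega)
      (by rintro rfl; exact n24 (u3.symm.trans u5))
    have hp2 : S.src (S.inv p) = x2 := by rw [S.e_ab s1, u3]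
    have hq4 : S.src (S.inv q) = x4 := by rw [S.e_cd s1, u5]
    have hpq : S.src p = S.src q := S.e1 s1
    rw [u3] at s2
    rcases eq_or_ne (S.src p) x1 with hw | hw
    · apply c14
      rw [← hw, ← hq4, hpq]
      exact adj_of hF q
    rcases eq_or_ne (S.src p) x5 with hw' | hw'
    · apply c25
      rw [← hw', ← hp2]
      exact (adj_of hF p).symm
    obtain ⟨p', q', t1, t2⟩ := qcs hF x0 (e := p) (e' := e12) (by rw [hp2, u2])
      (by rw [hp2]; omega) (by rw [u1, u2]; omega) (by rintro rfl; exact hw u1)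
    obtain ⟨p'', q'', t3, t4⟩ := qcs hF x0 (e := q) (e' := e54) (by rw [hq4, u8])
      (by rw [hq4, ← hpq]; omega) (by rw [u7, u8]; omega)
      (by rintro rfl; exact hw' (hpq.trans u7))
    have z1 : S.src p' = x0 := (hc.dist_eq_zero_iff.1 (by omega : S.gr.dist x0 (S.src p') = 0)).symm
    have z2 : S.src p'' = x0 := by
      rw [← hpq] at t4
      exact (hc.dist_eq_zero_iff.1 (by omega : S.gr.dist x0 (S.src p'') = 0)).symm
    have hpp : p' = p'' := by
      apply uniq hF
      · rw [z1, z2]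
      · rw [S.e_ab t1, S.e_ab t3, hpq]
    subst hpp
    have hq1 : S.src (S.inv q') = x1 := by rw [S.e_cd t1, u1]
    have hq5 : S.src (S.inv q'') = x5 := by rw [S.e_cd t3, u7]
    rcases S.r2 (S.s1 (S.s3 t1)) (S.s3 t3) (S.s3 s1)
      (by intro h
          have := S.inv_inj h
          apply n51
          rw [← hq1, ← hq5, this])
      (by intro h
          rw [S.ii] at h
          apply n13
          rw [← u1, ← u4, ← h, S.ii])
      (by intro h
          rw [S.ii] at h
          apply n35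
          rw [← u6, ← u7, ← S.ii e54, h]
          ) with
      ⟨g, g1, _⟩ | ⟨g, g1, _⟩ | ⟨g, g1, _⟩
    · apply c03
      have k1 : S.src g = x3 := by rw [← S.e1 g1, u4]
      have k2 : S.src (S.inv g) = x0 := by
        rw [S.e_cd g1, S.ii, ← z1, S.e1 t1]
      rw [← k1, ← k2]
      exact (adj_of hF g).symm
    · apply c14
      have k1 : S.src g = x4 := by rw [← S.e_cd g1, S.ii, u5]
      have k2 : S.src (S.inv g) = x1 := by rw [← S.e_bd g1, S.ii, u1]
      rw [← k1, ← k2]
      exact (adj_of hF g).symm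
    · apply c25
      have k1 : S.src g = x2 := by rw [← S.e_ab g1, S.ii, u3]
      have k2 : S.src (S.inv g) = x5 := by rw [S.e_bd g1, S.ii, u7]
      rw [← k1, ← k2]
      exact adj_of hF g

end SqS

end Pool.Agent.H169Q
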