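import Pool.Agent.helper169_quad.Hol
import Pool.Agent.helper169_quad.Glob

/-!
# A simply connected C(4)-T(4) complex develops into a modular graph without isometric 6-cycles
-/

set_option autoImplicit false

namespace Pool.Agent.H169Q

namespace Fl

variable {V E Φ K C : Type*} {F : Fl V E Φ K C}

section Main

variable (hC : F.C4) (hT : F.T4) (k : Cor F)
  (sc : ∀ v p, IsP F.src F.inv v p v → Tr hC hT k p)
include sc

/-- The holonomy does not depend on the path. -/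
theorem hol_indep {v w : V} {p q : List E} (hp : IsP F.src F.inv v p w)
    (hq : IsP F.src F.inv v q w) {ω : List (K' F × Bool)} (hr : (F.sqs' hC hT k).Red ω) :
    (F.sqs' hC hT k).Eqv (hol hC hT k p ω) (hol hC hT k q ω) := by
  have h1 : IsP F.src F.inv v (p ++ q.reverse.map F.inv) v :=
    (isP_append _ _).2 ⟨w, hp, hq.rev F.ii⟩
  have h2 := sc v _ h1 ω hr
  rw [hol_append] at h2
  have h3 := hol_rev (hC := hC) (hT := hT) (k := k) q (hol_red p hr)
  have h4 := hol_congr q (hol_red (q.reverse.map F.inv) (hol_red p hr)) h2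
  exact h3.symm.trans h4

theorem flat_of {o : V ⊕ C' F} {v0 : V} {ω0 : List (K' F × Bool)} (hω : Over hC hT k o v0 ω0)
    (cn : ∀ v, ∃ p, IsP F.src F.inv v0 p v) (hck : ∀ c, ∃ κ, k.ck κ = c) :
    ∃ σ : V ⊕ C' F → List (K' F × Bool),
      (∀ y, (F.sqs' hC hT k).Red (σ y) ∧ (F.sqs' hC hT k).Vd o (σ y) ∧
        (F.sqs' hC hT k).en o (σ y) = y) ∧
      (∀ e, (F.sqs' hC hT k).Eqv ((F.sqs' hC hT k).tl e (σ ((F.sqs' hC hT k).src e)))
        (σ ((F.sqs' hC hT k).src ((F.sqs' hC hT k).inv e)))) ∧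
      (F.sqs' hC hT k).Eqv (σ (Sum.inl v0)) ω0 := by
  classical
  choose p hp using cn
  have hck' : ∀ c : C' F, ∃ κ : K' F, k.ck' κ = c := by
    rintro (c | ⟨s, e, he, rfl⟩)
    · obtain ⟨κ, rfl⟩ := hck c
      exact ⟨Sum.inl κ, rfl⟩
    · exact ⟨Sum.inr ⟨e, he⟩, rfl⟩
  choose κ hκ using hck'
  let τ : V → List (K' F × Bool) := fun v => hol hC hT k (p v) ω0
  have hτ : ∀ v, Over hC hT k o v (τ v) := fun v => hol_over (p v) hω (hp v)
  have hind : ∀ {v w : V} {q : List E}, IsP F.src F.inv v q w →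
      (F.sqs' hC hT k).Eqv (hol hC hT k q (τ v)) (τ w) := by
    intro v w q hq
    have h1 : IsP F.src F.inv v0 (p v ++ q) w := (isP_append _ _).2 ⟨v, hp v, hq⟩
    have h2 := hol_indep hC hT k sc h1 (hp w) hω.1
    rwa [hol_append] at h2
  let σ : V ⊕ C' F → List (K' F × Bool) := fun y =>
    match y with
    | Sum.inl v => τ v
    | Sum.inr c => (F.sqs' hC hT k).tl (κ c, true) (τ (k.vk' (κ c)))
  -- if moving between the corners is the same as the transport
  have aux : ∀ κ1 κ2 : K' F, (F.sqs' hC hT k).Eqv (mv hC hT k κ1 κ2 (τ (k.vk' κ1)))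
      (τ (k.vk' κ2)) → (F.sqs' hC hT k).Eqv ((F.sqs' hC hT k).tl (κ1, true) (τ (k.vk' κ1)))
        ((F.sqs' hC hT k).tl (κ2, true) (τ (k.vk' κ2))) := by
    intro κ1 κ2 h
    have h9 := SqS.tl_congr (S := F.sqs' hC hT k) (e := (κ2, true))
      (red_mv (hτ (k.vk' κ1)).1) h
    have h10 := SqS.tl_inv (S := F.sqs' hC hT k) (e := (κ2, false))
      (SqS.tl_red (e := (κ1, true)) (hτ (k.vk' κ1)).1)
    exact h10.symm.trans h9
  -- two corners of one cell
  have key : ∀ κ1 κ2 : K' F, k.ck' κ1 = k.ck' κ2 →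
      (F.sqs' hC hT k).Eqv ((F.sqs' hC hT k).tl (κ1, true) (τ (k.vk' κ1)))
        ((F.sqs' hC hT k).tl (κ2, true) (τ (k.vk' κ2))) := by
    rintro (κ1 | e1) (κ2 | e2) h
    · obtain ⟨φ, rfl⟩ := k.sur κ1
      obtain ⟨ψ, rfl⟩ := k.sur κ2
      have h' : k.ck (F.cn φ) = k.ck (F.cn ψ) := Sum.inl_injective h
      rw [k.hc, k.hc] at h'
      -- a flag `χ` at the first corner and `n` with `adv n χ` at the second one
      have h1 : ∃ (χ : Φ) (n : ℤ), F.cn χ = F.cn φ ∧ F.cn (F.adv n χ) = F.cn ψ := by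
        obtain ⟨n, h2 | h2⟩ := F.cl_eq φ ψ h'
        · exact ⟨φ, n, rfl, by rw [h2]⟩
        · exact ⟨F.rev φ, n, F.cn_rev φ, by rw [h2]⟩
      obtain ⟨χ, n, h2, h3⟩ := h1
      -- natural number of steps
      have h4 : ∃ m : ℕ, F.adv (m : ℤ) χ = F.adv n χ := by
        have hL : (0 : ℤ) < F.len χ := by exact_mod_cast F.len_pos χ
        refine ⟨(n % (F.len χ : ℤ)).toNat, ?_⟩
        rw [Int.toNat_of_nonneg (Int.emod_nonneg _ hL.ne'), adv_eq_adv]
        exact ⟨-(n / (F.len χ : ℤ)), by have := Int.emod_add_mul_ediv n (F.len χ : ℤ); linarith⟩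
      obtain ⟨m, h5⟩ := h4
      rw [← h2, ← h3, ← h5]
      apply aux
      have e1 : k.vk' (Sum.inl (F.cn χ)) = F.src (F.fst χ) := k.hv χ
      have e2 : k.vk' (Sum.inl (F.cn (F.adv m χ))) = F.src (F.fst (F.adv m χ)) := k.hv _
      rw [e1, e2]
      exact (hol_bdy (hC := hC) (hT := hT) (k := k) χ m (hτ (F.src (F.fst χ))).1).symm.trans
        (hind (bdy_isP (F := F) χ m))
    · exact absurd h (by simp [Cor.ck'])
    · exact absurd h (by simp [Cor.ck'])
    · have h' : ({e1.1, F.inv e1.1} : Set E) = {e2.1, F.inv e2.1} :=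
        congrArg Subtype.val (Sum.inr_injective h)
      have h1 : e2.1 = e1.1 ∨ e2.1 = F.inv e1.1 := by
        have : e2.1 ∈ ({e1.1, F.inv e1.1} : Set E) := by
          rw [h']
          exact Set.mem_insert _ _
        simpa using this
      rcases h1 with h1 | h1
      · have : e2 = e1 := Subtype.ext h1
        rw [this]
        exact SqS.Eqv.refl _ _
      · have h2 : e2 = ⟨F.inv e1.1, e1.2.inv⟩ := Subtype.ext h1
        rw [h2]
        apply aux
        have h3 : IsP F.src F.inv (F.src e1.1) [e1.1] (F.src (F.inv e1.1)) := ⟨rfl, rfl⟩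
        have h4 := hind h3
        rcases k12_spec F e1.1 with ⟨φ, h5, _⟩ | ⟨h5, h6⟩
        · exact absurd h5 (e1.2 φ)
        · have h7 : hol hC hT k [e1.1] (τ (F.src e1.1)) =
              mv hC hT k (Sum.inr ⟨e1.1, h5⟩) (Sum.inr ⟨F.inv e1.1, h5.inv⟩)
                (τ (F.src e1.1)) := by
            show mv hC hT k (k12 F e1.1).1 (k12 F e1.1).2 _ = _
            rw [h6]
          rw [h7] at h4
          exact h4
  refine ⟨σ, ?_, ?_, ?_⟩
  · rintro (v | c)
    · exact ⟨(hτ v).1, (hτ v).2.1, (hτ v).2.2⟩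
    · have h1 := tl_in (hC := hC) (hT := hT) (k := k) (o := o) (κ := κ c) (hτ (k.vk' (κ c)))
      rw [hκ] at h1
      exact h1
  · rintro ⟨κ1, b⟩
    cases b with
    | true =>
      show (F.sqs' hC hT k).Eqv ((F.sqs' hC hT k).tl (κ1, true) (τ (k.vk' κ1)))
        ((F.sqs' hC hT k).tl (κ (k.ck' κ1), true) (τ (k.vk' (κ (k.ck' κ1)))))
      exact key _ _ (hκ _).symm
    | false =>
      show (F.sqs' hC hT k).Eqv ((F.sqs' hC hT k).tl (κ1, false)
        ((F.sqs' hC hT k).tl (κ (k.ck' κ1), true) (τ (k.vk' (κ (k.ck' κ1)))))) (τ (k.vk' κ1))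
      have h1 := key (κ (k.ck' κ1)) κ1 (hκ _)
      have h2 := SqS.tl_congr (S := F.sqs' hC hT k) (e := (κ1, false))
        (SqS.tl_red (e := (κ (k.ck' κ1), true)) (hτ (k.vk' (κ (k.ck' κ1)))).1) h1
      refine h2.trans ?_
      exact SqS.tl_inv (S := F.sqs' hC hT k) (e := (κ1, true)) (hτ (k.vk' κ1)).1
  · exact hol_indep hC hT k sc (hp v0) (show IsP F.src F.inv v0 [] v0 from rfl) hω.1

theorem flatAt (cn : ∀ v w, ∃ p, IsP F.src F.inv v p w) (hck : ∀ c, ∃ κ, k.ck κ = c)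
    (o : V ⊕ C' F) : (F.sqs' hC hT k).FlatAt o := by
  rcases o with v0 | c0
  · have hω : Over hC hT k (Sum.inl v0) v0 [] := ⟨SqS.red_nil, trivial, rfl⟩
    obtain ⟨σ, h1, h2, h3⟩ := flat_of hC hT k sc hω (cn v0) hck
    refine ⟨σ, h1, ?_, h2⟩
    have := h3.length
    exact List.eq_nil_of_length_eq_zero this
  · have hck' : ∃ κ : K' F, k.ck' κ = c0 := by
      rcases c0 with c | ⟨s, e, he, rfl⟩
      · obtain ⟨κ, rfl⟩ := hck c
        exact ⟨Sum.inl κ, rfl⟩
      · exact ⟨Sum.inr ⟨e, he⟩, rfl⟩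
    obtain ⟨κ0, hκ⟩ := hck'
    have hω : Over hC hT k (Sum.inr c0) (k.vk' κ0) ((F.sqs' hC hT k).tl (κ0, false) []) := by
      have h4 := SqS.tl_vd (S := F.sqs' hC hT k) (o := Sum.inr c0) (e := (κ0, false)) (γ := [])
        SqS.red_nil trivial (by simp [sqs', SqS.en, hκ])
      refine ⟨SqS.tl_red SqS.red_nil, h4.1, ?_⟩
      rw [h4.2]
      simp [sqs']
    obtain ⟨σ, h1, h2, h3⟩ := flat_of hC hT k sc hω (cn _) hck
    refine ⟨σ, h1, ?_, h2⟩
    have h4 := h2 (κ0, true)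
    have h5 : (F.sqs' hC hT k).src (κ0, true) = Sum.inl (k.vk' κ0) := rfl
    have h6 : (F.sqs' hC hT k).src ((F.sqs' hC hT k).inv (κ0, true)) = Sum.inr c0 := by
      rw [← hκ]
      rfl
    rw [h5, h6] at h4
    have h7 := SqS.tl_congr (S := F.sqs' hC hT k) (e := (κ0, true))
      (h1 (Sum.inl (k.vk' κ0))).1 h3
    have h8 := SqS.tl_inv (S := F.sqs' hC hT k) (e := (κ0, false)) SqS.red_nil
    have h9 := h4.symm.trans (h7.trans h8)
    exact List.eq_nil_of_length_eq_zero h9.length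

end Main

end Fl

end Pool.Agent.H169Q
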