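import Pool.Agent.helper169_quad.CxDef
import Pool.Agent.helper169_quad.Flat

/-!
# The flags of a combinatorial 2-complex
-/

set_option autoImplicit false

namespace Pool.Agent.H169Q

namespace Cx

variable {V E C : Type*} (X : Cx V E C)

theorem bd_per' (c : C) (i : ℤ) (m : ℤ) : X.bd c (i + m * X.len c) = X.bd c i := by
  have hnat : ∀ (n : ℕ) (i : ℤ), X.bd c (i + n * X.len c) = X.bd c i := by
    intro n
    induction n with
    | zero => intro i; simp
    | succ n ih =>
      intro i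
      rw [show i + ((n + 1 : ℕ) : ℤ) * X.len c = (i + n * X.len c) + X.len c by push_cast; ring,
        X.bd_per, ih]
  rcases Int.eq_nat_or_neg m with ⟨n, rfl | rfl⟩
  · exact hnat n i
  · have := hnat n (i + -(n : ℤ) * X.len c)
    rw [show i + -(n : ℤ) * X.len c + n * X.len c = i by ring] at this
    exact this.symm

theorem bd_congr {c : C} {i j : ℤ} (h : (X.len c : ℤ) ∣ i - j) : X.bd c i = X.bd c j := by
  obtain ⟨m, hm⟩ := h
  rw [show i = j + m * X.len c by linarith, X.bd_per']

theorem rd_congr {c : C} {i j : ℤ} (h : (X.len c : ℤ) ∣ i - j) (b : Bool) (t : ℤ) :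
    X.rd c i b t = X.rd c j b t := by
  unfold rd
  have e1 : X.bd c (i + t) = X.bd c (j + t) := X.bd_congr (by
    rw [show i + t - (j + t) = i - j by ring]; exact h)
  have e2 : X.bd c (i - 1 - t) = X.bd c (j - 1 - t) := X.bd_congr (by
    rw [show i - 1 - t - (j - 1 - t) = i - j by ring]; exact h)
  rw [e1, e2]

/-- 2-cells without backtracks -/
def Imm (c : C) : Prop := ∀ i, X.inv (X.bd c (i - 1)) ≠ X.bd c i

/-- the type of flags -/
abbrev Flg := Σ c : {c : C // X.Imm c}, ZMod (X.len c.1) × Bool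

/-- the type of corners -/
abbrev Cnr := Σ c : {c : C // X.Imm c}, ZMod (X.len c.1)

/-- the boundary path with indices modulo the length -/
def bz (c : C) (i : ZMod (X.len c)) : E := X.bd c i.cast

theorem bz_int (c : C) (i : ℤ) : X.bz c (i : ZMod (X.len c)) = X.bd c i := by
  unfold bz
  apply X.bd_congr
  rw [← ZMod.intCast_zmod_eq_zero_iff_dvd]
  push_cast
  rw [sub_self]

theorem bz_next (c : C) (i : ZMod (X.len c)) :
    X.src (X.inv (X.bz c i)) = X.src (X.bz c (i + 1)) := by
  obtain ⟨j, rfl⟩ := ZMod.intCast_surjective i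
  rw [show ((j : ZMod (X.len c)) + 1) = ((j + 1 : ℤ) : ZMod (X.len c)) by push_cast; rfl,
    bz_int, bz_int, X.bd_next]

/-- The flags of the 2-cells without backtracks. -/
def fl : Fl V E X.Flg X.Cnr {c : C // X.Imm c} where
  src := X.src
  inv := X.inv
  ii := X.inv_inv
  adv n φ := ⟨φ.1, (if φ.2.2 then φ.2.1 + n else φ.2.1 - n), φ.2.2⟩
  rev φ := ⟨φ.1, φ.2.1, !φ.2.2⟩
  cn φ := ⟨φ.1, φ.2.1⟩
  cl φ := φ.1
  len φ := X.len φ.1.1
  fst φ := if φ.2.2 then X.bz φ.1.1 φ.2.1 else X.inv (X.bz φ.1.1 (φ.2.1 - 1))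
  adv_zero := by
    rintro ⟨c, i, b⟩
    simp
  adv_add := by
    rintro m n ⟨c, i, b⟩
    cases b with
    | true =>
      simp only [if_true]
      push_cast
      rw [show i + (m + n : ZMod (X.len c.1)) = i + n + m by ring]
    | false =>
      simp only [Bool.false_eq_true, if_false]
      push_cast
      rw [show i - (m + n : ZMod (X.len c.1)) = i - n - m by ring]
  rev_rev := by
    rintro ⟨c, i, b⟩
    simp
  rev_adv := by
    rintro n ⟨c, i, b⟩
    cases b with
    | true => simp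
    | false => simp [sub_eq_add_neg]
  adv_eq := by
    rintro n ⟨c, i, b⟩
    show _ ↔ (X.len c.1 : ℤ) ∣ n
    rw [← ZMod.intCast_zmod_eq_zero_iff_dvd]
    cases b with
    | true => simp
    | false => simp
  rev_ne := by
    rintro n ⟨c, i, b⟩ h
    simp only [Sigma.mk.injEq, heq_eq_eq, true_and, Prod.mk.injEq] at h
    cases b <;> simp at h
  len_pos φ := X.len_pos φ.1.1
  len_adv _ _ := rfl
  len_rev _ := rfl
  cl_adv _ _ := rfl
  cl_rev _ := rfl
  cl_eq := by
    rintro ⟨c, i, b⟩ ⟨c', i', b'⟩ h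
    simp only at h
    subst h
    cases b <;> cases b'
    · obtain ⟨m, hm⟩ := ZMod.intCast_surjective (i - i')
      exact ⟨m, Or.inl (by simp [hm])⟩
    · obtain ⟨m, hm⟩ := ZMod.intCast_surjective (i' - i)
      exact ⟨m, Or.inr (by simp [hm])⟩
    · obtain ⟨m, hm⟩ := ZMod.intCast_surjective (i - i')
      exact ⟨m, Or.inr (by simp [hm])⟩
    · obtain ⟨m, hm⟩ := ZMod.intCast_surjective (i' - i)
      exact ⟨m, Or.inl (by simp [hm])⟩
  cn_rev _ := rfl
  cn_eq := by
    rintro ⟨c, i, b⟩ ⟨c', i', b'⟩ h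
    obtain ⟨rfl, h⟩ := Sigma.mk.inj_iff.1 h
    have := eq_of_heq h
    subst this
    cases b <;> cases b' <;> simp
  fst_rev := by
    rintro ⟨c, i, b⟩
    cases b with
    | true => simp [sub_eq_add_neg]
    | false => simp [X.inv_inv]
  next := by
    rintro ⟨c, i, b⟩
    cases b with
    | true =>
      simp only [if_true]
      rw [X.bz_next]
      push_cast
      rfl
    | false =>
      simp only [Bool.false_eq_true, if_false]
      rw [X.inv_inv, X.bz_next]
      push_cast
      rw [sub_add_cancel]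
  imm := by
    rintro ⟨⟨c, hc⟩, i, b⟩
    obtain ⟨j, rfl⟩ := ZMod.intCast_surjective i
    have h := hc j
    have e : ((j : ZMod (X.len c)) - 1) = ((j - 1 : ℤ) : ZMod (X.len c)) := by push_cast; rfl
    cases b with
    | true =>
      simp only [Bool.not_true, Bool.false_eq_true, if_false, if_true]
      rw [e, bz_int, bz_int]
      exact h
    | false =>
      simp only [Bool.not_false, Bool.false_eq_true, if_false, if_true]
      rw [e, bz_int, bz_int]
      exact h.symm
  inv_ne := X.inv_ne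

/-- vertices and cells of the corners -/
def cor : Fl.Cor X.fl where
  vk κ := X.src (X.bz κ.1.1 κ.2)
  ck κ := κ.1
  hv := by
    rintro ⟨c, i, b⟩
    cases b with
    | true => rfl
    | false =>
      show X.src (X.bz c.1 i) = X.src (X.inv (X.bz c.1 (i - 1)))
      rw [X.bz_next, sub_add_cancel]
  hc _ := rfl
  sur := by
    rintro ⟨c, i⟩
    exact ⟨⟨c, i, true⟩, rfl⟩

/-- the flag of a corner and a direction -/
def flg (c : {c : C // X.Imm c}) (i : ℤ) (b : Bool) : X.Flg := ⟨c, (i : ZMod (X.len c.1)), b⟩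

theorem ex_flg (φ : X.Flg) : ∃ c i b, φ = X.flg c i b := by
  obtain ⟨c, i, b⟩ := φ
  obtain ⟨j, rfl⟩ := ZMod.intCast_surjective i
  exact ⟨c, j, b, rfl⟩

theorem fst_flg (c : {c : C // X.Imm c}) (i : ℤ) (b : Bool) (t : ℤ) :
    X.fl.fst (X.fl.adv t (X.flg c i b)) = X.rd c.1 i b t := by
  cases b with
  | true =>
    show X.bz c.1 ((i : ZMod (X.len c.1)) + t) = X.bd c.1 (i + t)
    rw [← Int.cast_add, bz_int]
  | false =>
    show X.inv (X.bz c.1 ((i : ZMod (X.len c.1)) - t - 1)) = X.inv (X.bd c.1 (i - 1 - t))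
    rw [show ((i : ZMod (X.len c.1)) - t - 1) = ((i - 1 - t : ℤ) : ZMod (X.len c.1)) by
      push_cast; ring, bz_int]

theorem fst_flg0 (c : {c : C // X.Imm c}) (i : ℤ) (b : Bool) :
    X.fl.fst (X.flg c i b) = X.rd c.1 i b 0 := by
  rw [← fst_flg, X.fl.adv_zero]

theorem rev_flg (c : {c : C // X.Imm c}) (i : ℤ) (b : Bool) :
    X.fl.rev (X.flg c i b) = X.flg c i (!b) := rfl

theorem sym_iff (c : {c : C // X.Imm c}) (i : ℤ) (b : Bool) (c' : {c : C // X.Imm c}) (i' : ℤ)
    (b' : Bool) : X.fl.Sym (X.flg c i b) (X.flg c' i' b') ↔ X.Same c.1 i b c'.1 i' b' := by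
  unfold Fl.Sym Same
  constructor
  · rintro ⟨h1, h2⟩
    refine ⟨congrArg Subtype.val h1, fun t => ?_⟩
    rw [← fst_flg, ← fst_flg]
    exact h2 t
  · rintro ⟨h1, h2⟩
    refine ⟨Subtype.ext h1, fun t => ?_⟩
    rw [fst_flg, fst_flg]
    exact h2 t

theorem bdy_flg (c : {c : C // X.Imm c}) (i : ℤ) (b : Bool) (n : ℕ) :
    Fl.bdy X.fl (X.flg c i b) n = X.path c.1 i b n := by
  unfold Fl.bdy path
  refine List.map_congr_left fun t _ => ?_
  rw [fst_flg]

theorem bdy_length {V E Φ K C : Type*} (F : Fl V E Φ K C) (φ : Φ) (n : ℕ) :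
    (Fl.bdy F φ n).length = n := by
  simp [Fl.bdy]

theorem bdy_add {V E Φ K C : Type*} (F : Fl V E Φ K C) (φ : Φ) (m n : ℕ) :
    Fl.bdy F φ (m + n) = Fl.bdy F φ m ++ Fl.bdy F (F.adv m φ) n := by
  unfold Fl.bdy
  rw [List.range_add, List.map_append, List.map_map]
  congr 1
  refine List.map_congr_left fun t _ => ?_
  simp only [Function.comp]
  rw [F.adv_add]
  congr 2
  push_cast
  ring

theorem bdy_agr {V E Φ K C : Type*} {F : Fl V E Φ K C} {φ ψ : Φ} {n : ℕ}
    (h : F.Agr φ ψ n) : Fl.bdy F φ n = Fl.bdy F ψ n := by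
  unfold Fl.bdy
  refine List.map_congr_left fun t ht => ?_
  rw [List.mem_range] at ht
  exact h t (by omega) (by exact_mod_cast ht)

theorem piece_of {φ ψ : X.Flg} {n : ℕ} (hs : ¬ X.fl.Sym φ ψ) (h : X.fl.Agr φ ψ n) (hn : 0 < n)
    (h1 : n ≤ X.fl.len φ) (h2 : n ≤ X.fl.len ψ) : X.IsPiece (Fl.bdy X.fl φ n) := by
  obtain ⟨c, i, b, rfl⟩ := X.ex_flg φ
  obtain ⟨c', i', b', rfl⟩ := X.ex_flg ψ
  refine ⟨?_, c.1, i, b, c'.1, i', b', ⟨?_, ?_⟩, ⟨?_, ?_⟩, ?_⟩
  · intro h3
    have := bdy_length X.fl (X.flg c i b) n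
    rw [h3] at this
    simp at this
    omega
  · rw [bdy_length]
    exact h1
  · rw [bdy_length, bdy_flg]
  · rw [bdy_length]
    exact h2
  · rw [bdy_length, bdy_agr h, bdy_flg]
  · rw [← sym_iff]
    exact hs

theorem C4.weak (hC : X.C4) {c : C} {i : ℤ} {b : Bool} {L : List (List E)}
    (h : ∀ p ∈ L, p = [] ∨ X.IsPiece p) (h1 : L.flatten = X.path c i b (X.len c)) :
    4 ≤ L.length := by
  have h2 := hC c i b (L.filter fun l => !l.isEmpty) (by
    intro p hp
    rw [List.mem_filter] at hp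
    rcases h p hp.1 with h3 | h3
    · rw [h3] at hp
      simp at hp
    · exact h3) (by rw [List.flatten_filter_not_isEmpty, h1])
  exact h2.trans (List.length_filter_le _ _)

/-- A piece cannot go around a 2-cell. -/
theorem C4.wrap (hC : X.C4) {φ ψ : X.Flg} {n : ℕ} (hs : ¬ X.fl.Sym φ ψ) (h : X.fl.Agr φ ψ n)
    (h1 : n ≤ X.fl.len φ) : n ≤ X.fl.len ψ := by
  by_contra hcon
  push Not at hcon
  have h2 := X.piece_of (φ := ψ) (ψ := φ) (n := X.fl.len ψ) (fun h => hs h.symm)
    (h.symm.mono (by exact_mod_cast hcon.le)) (X.fl.len_pos ψ) le_rfl (by omega)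
  obtain ⟨c', i', b', rfl⟩ := X.ex_flg ψ
  have h3 := hC c'.1 i' b' [Fl.bdy X.fl (X.flg c' i' b') (X.fl.len (X.flg c' i' b'))]
    (by
      intro p hp
      rw [List.mem_singleton] at hp
      rw [hp]
      exact h2) (by
      rw [List.flatten_singleton, bdy_flg]
      rfl)
  simp at h3

theorem fl_C4 (hC : X.C4) : X.fl.C4 := by
  intro φ a b ha hab hb h1 h2 h3
  obtain ⟨na, rfl⟩ := Int.eq_ofNat_of_zero_le ha
  obtain ⟨nb, hnb⟩ := Int.eq_ofNat_of_zero_le (sub_nonneg.2 hab)
  obtain ⟨nc, hnc⟩ := Int.eq_ofNat_of_zero_le (sub_nonneg.2 hb)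
  have hsum : na + nb + nc = X.fl.len φ := by omega
  have hb' : b = ((na + nb : ℕ) : ℤ) := by push_cast; omega
  subst hb'
  have key : ∀ (χ : X.Flg) (n : ℕ), n ≤ X.fl.len χ → X.fl.Pc χ n →
      Fl.bdy X.fl χ n = [] ∨ X.IsPiece (Fl.bdy X.fl χ n) := by
    intro χ n hn h
    rcases Nat.eq_zero_or_pos n with h4 | h4
    · left
      rw [h4]
      rfl
    · right
      rcases h with h | ⟨ψ, h5, h6⟩
      · omega
      · exact X.piece_of h5 h6 h4 hn (C4.wrap X hC h5 h6 hn)
  have k1 := key φ na (by omega) h1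
  have k2 := key (X.fl.adv na φ) nb (by rw [X.fl.len_adv]; omega) (by
    rw [hnb] at h2
    exact h2)
  have k3 := key (X.fl.adv ((na + nb : ℕ) : ℤ) φ) nc (by rw [X.fl.len_adv]; omega) (by
    rw [hnc] at h3
    exact h3)
  obtain ⟨c, i, d, rfl⟩ := X.ex_flg φ
  have h4 := C4.weak X hC (c := c.1) (i := i) (b := d)
    (L := [Fl.bdy X.fl (X.flg c i d) na, Fl.bdy X.fl (X.fl.adv na (X.flg c i d)) nb,
      Fl.bdy X.fl (X.fl.adv ((na + nb : ℕ) : ℤ) (X.flg c i d)) nc])
    (by
      intro p hp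
      simp only [List.mem_cons, List.not_mem_nil, or_false] at hp
      rcases hp with rfl | rfl | rfl
      · exact k1
      · exact k2
      · exact k3) (by
      rw [← bdy_flg, show X.len c.1 = na + nb + nc from hsum.symm, bdy_add, bdy_add]
      simp)
  simp at h4

theorem fl_T4 (hT : X.T4) : X.fl.T4 := by
  intro φ1 φ2 φ3 h1 h2 h3
  obtain ⟨c1, i1, b1, rfl⟩ := X.ex_flg φ1
  obtain ⟨c2, i2, b2, rfl⟩ := X.ex_flg φ2
  obtain ⟨c3, i3, b3, rfl⟩ := X.ex_flg φ3
  rw [rev_flg, fst_flg0, fst_flg0] at h1 h2 h3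
  rw [rev_flg, rev_flg, rev_flg, sym_iff, sym_iff, sym_iff]
  rcases hT _ _ _ _ _ _ _ _ _ h1 h2 h3 with ⟨h4, h5⟩ | ⟨h4, h5⟩ | ⟨h4, h5⟩
  · exact Or.inl ⟨h4.symm, fun t => (h5 t).symm⟩
  · exact Or.inr (Or.inl ⟨h4.symm, fun t => (h5 t).symm⟩)
  · exact Or.inr (Or.inr ⟨h4.symm, fun t => (h5 t).symm⟩)

theorem isPath_iff {v w : V} {p : List E} : X.IsPath v p w ↔ Fl.IsP X.src X.inv v p w := by
  induction p generalizing v with
  | nil => exact Iff.rfl
  | cons e p ih =>
    show (_ ∧ _) ↔ (_ ∧ _)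
    rw [ih]

/-- Boundary paths of 2-cells with a backtrack are palindromes up to rotation. -/
theorem pal (hT : X.T4) {c : C} (hc : ¬ X.Imm c) : ∃ i0 : ℤ, ∀ t, X.bd c (i0 + t) =
    X.inv (X.bd c (i0 - 1 - t)) := by
  unfold Imm at hc
  push Not at hc
  obtain ⟨i0, h⟩ := hc
  refine ⟨i0, ?_⟩
  have h1 : X.rd c i0 (!true) 0 = X.rd c i0 true 0 := by
    simp only [rd, Bool.not_true, Bool.false_eq_true, if_false, if_true, sub_zero, add_zero]
    exact h
  have h2 : X.Same c i0 (!true) c i0 true := by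
    rcases hT c i0 true c i0 true c i0 true h1 h1 h1 with h | h | h
    · exact h
    · exact h
    · exact h
  intro t
  have := h2.2 t
  simp only [rd, Bool.not_true, Bool.false_eq_true, if_false, if_true] at this
  exact this.symm

theorem path_eq_rotate (c : C) (i j : ℤ) (m : ℕ) (hm : m ≤ X.len c)
    (h : (X.len c : ℤ) ∣ i - (j + m)) :
    X.path c i true (X.len c) = (X.path c j true (X.len c)).drop m ++
      (X.path c j true (X.len c)).take m := by
  apply List.ext_getElem
  · simp [path]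
    omega
  · intro t h1 h2
    have h3 : t < X.len c := by
      simp [path] at h1
      exact h1
    rw [List.getElem_append]
    split_ifs with h4
    · simp only [path, List.length_drop, List.length_map, List.length_range] at h4
      simp only [path, List.getElem_map, List.getElem_range, List.getElem_drop]
      simp only [rd, if_true]
      apply X.bd_congr
      rw [show i + (t : ℤ) - (j + ((m + t : ℕ) : ℤ)) = i - (j + m) by push_cast; ring]
      exact h
    · simp only [path, List.length_drop, List.length_map, List.length_range] at h4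
      simp only [path, List.getElem_map, List.getElem_range, List.getElem_take,
        List.length_drop, List.length_map, List.length_range]
      simp only [rd, if_true]
      apply X.bd_congr
      have h5 : ((t - (X.len c - m) : ℕ) : ℤ) = t - (X.len c - m) := by
        omega
      rw [h5, show i + (t : ℤ) - (j + (t - ((X.len c : ℤ) - m))) =
        (i - (j + m)) + X.len c by ring]
      exact dvd_add h (dvd_refl _)

theorem tr_path (hC : X.C4) (hT : X.T4) (c : C) (i : ℤ) (b : Bool) :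
    Fl.Tr (X.fl_C4 hC) (X.fl_T4 hT) X.cor (X.path c i b (X.len c)) := by
  by_cases hc : X.Imm c
  · have := Fl.tr_bdy (hC := X.fl_C4 hC) (hT := X.fl_T4 hT) (k := X.cor) (X.flg ⟨c, hc⟩ i b)
    rw [bdy_flg] at this
    exact this
  · obtain ⟨i0, h⟩ := X.pal hT hc
    -- the palindrome
    have h0 : Fl.Tr (X.fl_C4 hC) (X.fl_T4 hT) X.cor (X.path c i0 true (X.len c)) := by
      apply Fl.tr_pal (X.len c) _ (by simp [path])
      apply List.ext_getElem
      · simp [path]
      · intro t h1 h2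
        simp only [path, List.length_map, List.length_range] at h2
        simp only [path, List.getElem_map, List.getElem_reverse, List.length_map,
          List.length_range, List.getElem_range]
        simp only [rd, if_true]
        show X.inv (X.bd c (i0 + ((X.len c - 1 - t : ℕ) : ℤ))) = _
        rw [h t]
        congr 1
        apply X.bd_congr
        have h5 : ((X.len c - 1 - t : ℕ) : ℤ) = X.len c - 1 - t := by omega
        rw [h5, show i0 + ((X.len c : ℤ) - 1 - t) - (i0 - 1 - t) = X.len c by ring]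
    -- rotations
    have h1 : ∀ i : ℤ, Fl.Tr (X.fl_C4 hC) (X.fl_T4 hT) X.cor (X.path c i true (X.len c)) := by
      intro i
      have hL : (0 : ℤ) < X.len c := by exact_mod_cast X.len_pos c
      have hm1 := Int.emod_nonneg (i - i0) hL.ne'
      have hm2 := Int.emod_lt_of_pos (i - i0) hL
      obtain ⟨m, hm⟩ := Int.eq_ofNat_of_zero_le hm1
      have h2 := X.path_eq_rotate c i i0 m (by omega) (by
        have := Int.emod_add_mul_ediv (i - i0) (X.len c)
        refine ⟨(i - i0) / X.len c, ?_⟩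
        rw [hm] at this
        push_cast at this ⊢
        linarith)
      rw [h2]
      apply Fl.Tr.rotate
      rw [List.take_append_drop]
      exact h0
    cases b with
    | true => exact h1 i
    | false =>
      have h2 : X.path c i false (X.len c) = X.path c (2 * i0 - i) true (X.len c) := by
        unfold path
        refine List.map_congr_left fun t _ => ?_
        simp only [rd, Bool.false_eq_true, if_false, if_true]
        have := h (i0 - i + t)
        rw [show i0 - 1 - (i0 - i + (t : ℤ)) = i - 1 - t by ring] at this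
        rw [← this]
        congr 1
        ring
      rw [h2]
      exact h1 _

theorem tr_all (hC : X.C4) (hT : X.T4) (hS : X.SimplyConnected) (v : V) (p : List E)
    (hp : Fl.IsP X.fl.src X.fl.inv v p v) :
    Fl.Tr (X.fl_C4 hC) (X.fl_T4 hT) X.cor p := by
  have h1 := hS.2.2 v p ((X.isPath_iff).2 hp)
  have key : ∀ {v w : V} {p q : List E}, X.Homotopic v w p q →
      Fl.Htp X.fl.src X.fl.inv (fun r => ∃ c i b, r = X.path c i b (X.len c)) v w p q := by
    intro v w p q h
    induction h with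
    | refl p => exact Fl.Htp.refl p
    | symm _ ih => exact ih.symm
    | trans _ _ ih1 ih2 => exact ih1.trans ih2
    | back p e q h => exact Fl.Htp.back p e q ((X.isPath_iff).1 h)
    | cell p c i b q h => exact Fl.Htp.cell p _ q ⟨c, i, b, rfl⟩ ((X.isPath_iff).1 h)
  intro ω hr
  exact Fl.hol_htp (hC := X.fl_C4 hC) (hT := X.fl_T4 hT) (k := X.cor) (by
    rintro r ⟨c, i, b, rfl⟩
    exact X.tr_path hC hT c i b) (key h1) hr

/-- The incidence square structure of a C(4)-T(4) complex. -/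
def ssq (hC : X.C4) (hT : X.T4) : SqS (V ⊕ Fl.C' X.fl) (Fl.K' X.fl × Bool) :=
  Fl.sqs' (X.fl_C4 hC) (X.fl_T4 hT) X.cor

theorem ssq_flat (hC : X.C4) (hT : X.T4) (hS : X.SimplyConnected) (o : V ⊕ Fl.C' X.fl) :
    (X.ssq hC hT).FlatAt o := by
  apply Fl.flatAt
  · intro v p hp
    exact X.tr_all hC hT hS v p hp
  · intro v w
    obtain ⟨p, hp⟩ := hS.2.1 v w
    exact ⟨p, (X.isPath_iff).1 hp⟩
  · intro c
    exact ⟨⟨c, 0⟩, rfl⟩

/-- The incidence graph is modular without isometric 6-cycles. -/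
theorem ssq_qd (hC : X.C4) (hT : X.T4) (hS : X.SimplyConnected) : Qd (X.ssq hC hT).gr := by
  have := hS.1
  have : Nonempty (V ⊕ Fl.C' X.fl) := ⟨Sum.inl hS.1.some⟩
  exact SqS.qd (X.ssq_flat hC hT hS)

end Cx

end Pool.Agent.H169Q
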