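import Pool.Agent.helper169_quad.SepA

/-!
# Separators after attaching trees and edges over connected sets
-/

set_option autoImplicit false

namespace Pool.Agent.H169Q

open Classical

variable {U : Type*} {G G' : SimpleGraph U}

theorem Sep.mono {s : ℕ} (hS : Sep s G) (h : ∀ u v, G'.Adj u v → G.Adj u v) : Sep s G' := by
  intro n a
  obtain ⟨X, h1, h2⟩ := hS n a
  refine ⟨X, h1, fun D hD hc => h2 D hD fun u hu v hv => ?_⟩
  have h3 := hc u hu v hv
  induction h3 with
  | refl => exact Relation.ReflTransGen.refl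
  | tail _ h5 ih => exact (ih h5.2.1).tail ⟨h _ _ h5.1, h5.2⟩

theorem Sep.le {s t : ℕ} (hS : Sep s G) (h : s ≤ t) : Sep t G := by
  intro n a
  obtain ⟨X, h1, h2⟩ := hS n a
  exact ⟨X, h1.trans h, h2⟩

/-- The graph without edges. -/
theorem sep_bot (h : ∀ u v, ¬ G.Adj u v) : Sep 1 G := by
  intro n a
  have hsub : ∀ D : Set U, Cnd G D → ∀ u ∈ D, ∀ v ∈ D, u = v := by
    intro D hD u hu v hv
    rcases Relation.ReflTransGen.cases_head (hD u hu v hv) with h1 | ⟨w, h1, _⟩
    · exact h1
    · exact absurd h1.1 (h _ _)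
  by_cases hx : ∃ x : U, n < 2 * (Finset.univ.filter fun i => a i = x).card
  · obtain ⟨x, hx⟩ := hx
    refine ⟨{x}, by simp, fun D hD hc => ?_⟩
    have h1 : (Finset.univ.filter fun i => a i ∈ D).card +
        (Finset.univ.filter fun i => a i = x).card ≤ n := by
      rw [← Finset.card_union_of_disjoint]
      · refine (Finset.card_le_card (Finset.subset_univ _)).trans ?_
        simp
      · rw [Finset.disjoint_left]
        intro i h1 h2
        rw [Finset.mem_filter] at h1 h2
        have := hD _ h1.2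
        rw [h2.2] at this
        simp at this
    omega
  · push Not at hx
    refine ⟨∅, by simp, fun D _ hc => ?_⟩
    rcases (Finset.univ.filter fun i => a i ∈ D).eq_empty_or_nonempty with h1 | ⟨i, hi⟩
    · rw [h1]
      simp
    · refine le_trans ?_ (hx (a i))
      gcongr with j hj
      intro h2
      rw [Finset.mem_filter] at hi
      exact hsub D hc _ h2 _ hi.2

/-- Attaching trees and special edges. -/
theorem Sep.ear {s N : ℕ} (hS : Sep s G) {π pred : U → U} {dep : U → ℕ}
    (h0 : ∀ u, dep u = 0 → π u = u)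
    (h1 : ∀ u, 0 < dep u → dep (pred u) + 1 = dep u ∧ π (pred u) = π u)
    {ι : Type*} {x y : ι → U} {B : ι → Set U}
    (hB : ∀ c, Cnd G (B c)) (hBx : ∀ c, π (x c) ∈ B c) (hBy : ∀ c, π (y c) ∈ B c)
    (hN : ∀ (b : U) (T : Finset ι), (∀ c ∈ T, b ∈ B c) → T.card ≤ N)
    (hG : ∀ u v, G.Adj u v → dep u = 0 ∧ dep v = 0)
    (hedge : ∀ u v, G'.Adj u v → G.Adj u v ∨ (0 < dep u ∧ v = pred u) ∨
      (0 < dep v ∧ u = pred v) ∨ ∃ c, (u = x c ∧ v = y c) ∨ (u = y c ∧ v = x c)) :
    Sep (s * (N + 1) + 1) G' := by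
  intro n a
  obtain ⟨X0, hX0, hX0'⟩ := hS n fun i => π (a i)
  -- the cells over the separator
  have hfin : ∀ b : U, {c : ι | b ∈ B c}.Finite := by
    intro b
    by_contra hinf
    obtain ⟨T, hT1, hT2⟩ := Set.Infinite.exists_subset_card_eq hinf (N + 1)
    have := hN b T fun c hc => hT1 hc
    omega
  let T : U → Finset ι := fun b => (hfin b).toFinset
  have hT : ∀ b c, c ∈ T b ↔ b ∈ B c := fun b c => by
    simp only [T, Set.Finite.mem_toFinset, Set.mem_ofPred_eq]
  let CX : Finset ι := X0.biUnion T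
  have hCX : CX.card ≤ s * N := by
    refine (Finset.card_biUnion_le_card_mul _ _ N fun b _ => hN b _ fun c hc =>
      (hT b c).1 hc).trans (Nat.mul_le_mul_right _ hX0)
  let X1 := X0 ∪ CX.image x
  have hX1 : X1.card ≤ s * (N + 1) := by
    have e1 : X1.card ≤ X0.card + (CX.image x).card := Finset.card_union_le X0 (CX.image x)
    have e2 : (CX.image x).card ≤ CX.card := Finset.card_image_le
    have e3 : s * (N + 1) = s * N + s := by ring
    omega
  -- descendants
  let Sd : U → Set U := fun u => {w | ∃ k, k ≤ dep w ∧ pred^[k] w = u}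
  have hdepk : ∀ (k : ℕ) (w : U), k ≤ dep w → dep (pred^[k] w) + k = dep w := by
    intro k
    induction k with
    | zero => intro w _; simp
    | succ k ih =>
      intro w hw
      rw [Function.iterate_succ_apply]
      have e1 := (h1 w (by omega)).1
      have e2 := ih (pred w) (by omega)
      omega
  have hself : ∀ u, u ∈ Sd u := fun u => ⟨0, by omega, rfl⟩
  have hSdep : ∀ u w, w ∈ Sd u → dep u ≤ dep w := by
    rintro u w ⟨k, hk, rfl⟩
    have := hdepk k w hk
    omega
  have hchild : ∀ u w, 0 < dep w → pred w ∈ Sd u → w ∈ Sd u := by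
    rintro u w hw ⟨k, hk, h⟩
    refine ⟨k + 1, ?_, by rw [Function.iterate_succ_apply]; exact h⟩
    have := (h1 w hw).1
    omega
  have hpar : ∀ u w, w ∈ Sd u → w ≠ u → 0 < dep w ∧ pred w ∈ Sd u := by
    rintro u w ⟨k, hk, h⟩ hne
    rcases k with _ | k
    · exact absurd h hne
    · have hw : 0 < dep w := by omega
      refine ⟨hw, k, ?_, by rw [Function.iterate_succ_apply] at h; exact h⟩
      have := (h1 w hw).1
      omega
  have hcomp : ∀ u v w, w ∈ Sd u → w ∈ Sd v → dep u ≤ dep v → v ∈ Sd u := by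
    rintro u v w ⟨k, hk, rfl⟩ ⟨l, hl, rfl⟩ hd
    have e1 := hdepk k w hk
    have e2 := hdepk l w hl
    refine ⟨k - l, by omega, ?_⟩
    rw [← Function.iterate_add_apply, Nat.sub_add_cancel (by omega)]
  let wt : U → ℕ := fun u => (Finset.univ.filter fun i => a i ∈ Sd u).card
  -- a deepest heavy vertex
  have hstar : ∃ Y : Finset U, Y.card ≤ 1 ∧ ((∀ u, 2 * wt u ≤ n) ∨
      ∃ us ∈ Y, n < 2 * wt us ∧ ∀ u, n < 2 * wt u → dep u ≤ dep us) := by
    by_cases hex : ∃ u, n < 2 * wt u
    · -- the depths are bounded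
      have hbd : ∀ u, n < 2 * wt u → dep u ≤ Finset.univ.sup fun i : Fin n => dep (a i) := by
        intro u hu
        have : 0 < wt u := by omega
        obtain ⟨i, hi⟩ := Finset.card_pos.1 this
        rw [Finset.mem_filter] at hi
        exact (hSdep _ _ hi.2).trans (Finset.le_sup (f := fun i : Fin n => dep (a i)) hi.1)
      obtain ⟨u0, hu0⟩ := hex
      let P : ℕ → Prop := fun d => ∃ u, n < 2 * wt u ∧ dep u = d
      have hP : P (dep u0) := ⟨u0, hu0, rfl⟩
      obtain ⟨us, hus1, hus2⟩ := Nat.findGreatest_spec (P := P)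
        (n := Finset.univ.sup fun i : Fin n => dep (a i)) (hbd u0 hu0) hP
      refine ⟨{us}, by simp, Or.inr ⟨us, by simp, hus1, fun u hu => ?_⟩⟩
      rw [hus2]
      exact Nat.le_findGreatest (hbd u hu) ⟨u, hu, rfl⟩
    · push Not at hex
      exact ⟨∅, by simp, Or.inl hex⟩
  obtain ⟨Y, hY, hYs⟩ := hstar
  refine ⟨X1 ∪ Y, (Finset.card_union_le _ _).trans (by omega), fun D hD hc => ?_⟩
  have hDX0 : ∀ u ∈ D, u ∉ X0 := fun u hu h =>
    hD u hu (Finset.mem_union_left _ (Finset.mem_union_left _ h))
  have hDx : ∀ c, x c ∈ D → ∀ b ∈ B c, b ∉ X0 := by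
    intro c hcD b hb hbX
    exact hD _ hcD (Finset.mem_union_left _ (Finset.mem_union_right _ (Finset.mem_image_of_mem _
      (Finset.mem_biUnion.2 ⟨b, hbX, (hT b c).2 hb⟩))))
  have hspec : ∀ c, x c ∈ D ∨ y c ∈ D → ∀ u v, G'.Adj u v → u ∈ D → v ∈ D →
      ((u = x c ∧ v = y c) ∨ (u = y c ∧ v = x c)) → ∀ b ∈ B c, b ∉ X0 := by
    rintro c _ u v _ hu hv (⟨rfl, rfl⟩ | ⟨rfl, rfl⟩)
    · exact hDx c hu
    · exact hDx c hv
  by_cases hI : ∃ u ∈ D, π u ∉ X0
  · -- the projection is connected
    obtain ⟨u0, hu0, hu0'⟩ := hI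
    have hall : ∀ v ∈ D, π v ∈ cmp G {w | w ∉ X0} (π u0) := by
      intro v hv
      refine (hc u0 hu0 v hv).ind (P := fun w => π w ∈ cmp G {w | w ∉ X0} (π u0)) ?_
        (self_mem_cmp hu0')
      intro p q hpq hp hq hpc
      rcases hedge p q hpq with h | ⟨h, rfl⟩ | ⟨h, rfl⟩ | ⟨c, h⟩
      · obtain ⟨k1, k2⟩ := hG _ _ h
        rw [h0 q k2]
        rw [h0 p k1] at hpc
        exact cmp_closed hpc (hDX0 q hq) h
      · rw [(h1 p h).2]
        exact hpc
      · rw [← (h1 q h).2]
        exact hpc
      · have hBc : ∀ b ∈ B c, b ∉ X0 := by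
          rcases h with ⟨rfl, rfl⟩ | ⟨rfl, rfl⟩
          · exact hDx c hp
          · exact hDx c hq
        have hpB : π p ∈ B c := by
          rcases h with ⟨rfl, rfl⟩ | ⟨rfl, rfl⟩
          · exact hBx c
          · exact hBy c
        have hqB : π q ∈ B c := by
          rcases h with ⟨rfl, rfl⟩ | ⟨rfl, rfl⟩
          · exact hBy c
          · exact hBx c
        exact ⟨hBc _ hqB, hpc.2.trans ((hB c _ hpB _ hqB).mono hBc)⟩
    have h2 := hX0' (cmp G {w | w ∉ X0} (π u0)) (fun u hu => hu.1) (cmp_cnd _ hu0')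
    refine le_trans ?_ h2
    gcongr with i _
    exact fun h => hall _ h
  · push Not at hI
    rcases (Finset.univ.filter fun i => a i ∈ D).eq_empty_or_nonempty with hem | hne
    · rw [hem]
      simp
    obtain ⟨i0, hi0⟩ := hne
    rw [Finset.mem_filter] at hi0
    -- edges in `D`
    have hedgeD : ∀ p q, G'.Adj p q → p ∈ D → q ∈ D → (0 < dep p ∧ q = pred p) ∨
        (0 < dep q ∧ p = pred q) := by
      intro p q hpq hp hq
      rcases hedge p q hpq with h | h | h | ⟨c, h⟩
      · exfalso
        have h2 := hI p hp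
        rw [h0 p (hG _ _ h).1] at h2
        exact hDX0 p hp h2
      · exact Or.inl h
      · exact Or.inr h
      · exfalso
        rcases h with ⟨rfl, rfl⟩ | ⟨rfl, rfl⟩
        · exact hDx c hp _ (hBx c) (hI _ hp)
        · exact hDx c hq _ (hBx c) (hI _ hq)
    -- the lowest point of `D`
    obtain ⟨r, hr, hrmin⟩ : ∃ r ∈ D, ∀ v ∈ D, dep r ≤ dep v := by
      have hne : (dep '' D).Nonempty := ⟨_, a i0, hi0.2, rfl⟩
      obtain ⟨r, hr, hr'⟩ := Nat.sInf_mem hne
      refine ⟨r, hr, fun v hv => ?_⟩
      rw [hr']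
      exact Nat.sInf_le ⟨v, hv, rfl⟩
    have hDS : ∀ v ∈ D, v ∈ Sd r := by
      intro v hv
      refine (hc r hr v hv).ind (P := fun w => w ∈ Sd r) ?_ (hself r)
      intro p q hpq hp hq hpS
      rcases hedgeD p q hpq hp hq with ⟨h, rfl⟩ | ⟨h, rfl⟩
      · by_cases hpr : p = r
        · exfalso
          have k1 := (h1 p h).1
          have k2 := hrmin _ hq
          rw [← hpr] at k2
          omega
        · exact (hpar r p hpS hpr).2
      · exact hchild r q h hpS
    have hwt : (Finset.univ.filter fun i => a i ∈ D).card ≤ wt r := by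
      apply Finset.card_le_card
      intro i hi
      rw [Finset.mem_filter] at hi ⊢
      exact ⟨hi.1, hDS _ hi.2⟩
    rcases hYs with hYs | ⟨us, husY, hus1, hus2⟩
    · have := hYs r
      omega
    · rcases Nat.lt_or_ge n (2 * wt r) with hrn | hrn
      swap
      · omega
      have husD : us ∉ D := fun h => hD us h (Finset.mem_union_right _ husY)
      have hdr := hus2 r hrn
      -- a common descendant
      obtain ⟨i, hi⟩ : ∃ i, a i ∈ Sd r ∧ a i ∈ Sd us := by
        by_contra hcon
        push Not at hcon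
        have : wt r + wt us ≤ n := by
          simp only [wt]
          rw [← Finset.card_union_of_disjoint]
          · refine (Finset.card_le_card (Finset.subset_univ _)).trans ?_
            simp
          · rw [Finset.disjoint_left]
            intro i h1 h2
            rw [Finset.mem_filter] at h1 h2
            exact hcon i h1.2 h2.2
        omega
      have husr := hcomp r us (a i) hi.1 hi.2 hdr
      have hne : us ≠ r := by
        rintro rfl
        exact husD hr
      have hlt : dep r < dep us := by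
        have k1 := hpar r us husr hne
        have k2 := (h1 us k1.1).1
        have k3 := hSdep _ _ k1.2
        omega
      have hdisj : ∀ v ∈ D, v ∉ Sd us := by
        intro v hv
        refine (hc r hr v hv).ind (P := fun w => w ∉ Sd us) ?_ (by
          intro h
          have := hSdep _ _ h
          omega)
        intro p q hpq hp hq hpS hqS
        rcases hedgeD p q hpq hp hq with ⟨h, rfl⟩ | ⟨h, rfl⟩
        · exact hpS (hchild us p h hqS)
        · by_cases hqu : q = us
          · exact husD (hqu ▸ hq)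
          · exact hpS (hpar us q hqS hqu).2
      have hfin : (Finset.univ.filter fun i => a i ∈ D).card + wt us ≤ n := by
        simp only [wt]
        rw [← Finset.card_union_of_disjoint]
        · refine (Finset.card_le_card (Finset.subset_univ _)).trans ?_
          simp
        · rw [Finset.disjoint_left]
          intro i h1 h2
          rw [Finset.mem_filter] at h1 h2
          exact hdisj _ h1.2 h2.2
      omega

end Pool.Agent.H169Q
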