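import Pool.Agent.helper169_quad.Geo3
import Pool.Agent.helper169_quad.SepC

/-!
# Separators of the balls of a C(4)-T(4) complex
-/

set_option autoImplicit false

namespace Pool.Agent.H169Q

namespace Fl

variable {V E Φ K C : Type*} {F : Fl V E Φ K C}

namespace Dev

variable (D : Dev F)

/-- edges in cells of level less than `l` -/
def Low (l : ℕ) (e : E) : Prop :=
  (∃ φ, F.fst φ = e ∧ D.lc (F.cl φ) < l) ∨ ∃ h : Iso F e, D.li ⟨e, h⟩ < l

theorem li_inv {e : E} (h : Iso F e) : D.li ⟨F.inv e, h.inv⟩ = D.li ⟨e, h⟩ := by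
  have hcell : D.k.ck' (Sum.inr ⟨F.inv e, h.inv⟩) = D.k.ck' (Sum.inr ⟨e, h⟩) := by
    show Sum.inr _ = Sum.inr _
    congr 1
    apply Subtype.ext
    show ({F.inv e, F.inv (F.inv e)} : Set E) = {e, F.inv e}
    rw [F.ii, Set.pair_comm]
  show D.Y.dist _ (Sum.inr (D.k.ck' (Sum.inr ⟨F.inv e, h.inv⟩))) =
    D.Y.dist _ (Sum.inr (D.k.ck' (Sum.inr ⟨e, h⟩)))
  rw [hcell]

theorem Low.inv {l : ℕ} {e : E} (h : D.Low l e) : D.Low l (F.inv e) := by
  rcases h with ⟨φ, h1, h2⟩ | ⟨h1, h2⟩
  · left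
    refine ⟨F.rev (F.adv 1 φ), ?_, by rw [F.cl_rev, F.cl_adv]; exact h2⟩
    rw [F.fst_rev, F.adv_add, neg_add_cancel, F.adv_zero, h1]
  · right
    exact ⟨h1.inv, by rw [D.li_inv h1]; exact h2⟩

theorem Low.mono {l l' : ℕ} (hl : l ≤ l') {e : E} (h : D.Low l e) : D.Low l' e := by
  rcases h with ⟨φ, h1, h2⟩ | ⟨h1, h2⟩
  · exact Or.inl ⟨φ, h1, by omega⟩
  · exact Or.inr ⟨h1, by omega⟩

/-- the graph of the edges in cells of level less than `l` -/
def Gl (l : ℕ) : SimpleGraph V where
  Adj u v := u ≠ v ∧ ∃ e, F.src e = u ∧ F.src (F.inv e) = v ∧ D.Low l e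
  symm := ⟨fun _ _ ⟨h, e, h1, h2, h3⟩ => ⟨h.symm, F.inv e, h2, by rw [F.ii]; exact h1, h3.inv⟩⟩
  loopless := ⟨fun _ h => h.1 rfl⟩

theorem lev_iso (e : {e : E // Iso F e}) : D.lv (F.src e.1) + 1 = D.li e ∨
    D.li e + 1 = D.lv (F.src e.1) := D.qd.lev (D.adj (Sum.inr e)) (Sum.inl D.z)

theorem li_pos (e : {e : E // Iso F e}) : 0 < D.li e := D.qd.conn.pos_dist_of_ne (by simp)

/-- one end of an isolated edge is below it -/
theorem iso_below {e : {e : E // Iso F e}} (h : D.li e + 1 = D.lv (F.src e.1)) :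
    D.lv (F.src (F.inv e.1)) + 1 = D.li e := by
  have hpos := D.li_pos e
  obtain ⟨n, hn⟩ : ∃ n, D.li e = n + 1 := ⟨D.li e - 1, by omega⟩
  obtain ⟨u, hu1, hu2⟩ := Pool.Agent.Q255.Bridged.exists_parent (G := D.Y) hn
  obtain ⟨κ, h1, rfl⟩ := D.of_adj' hu1
  rcases κ with κ | e'
  · cases h1
  · have h2 : ({e'.1, F.inv e'.1} : Set E) = {e.1, F.inv e.1} :=
      congrArg Subtype.val (Sum.inr_injective h1)
    have h3 : e'.1 = e.1 ∨ e'.1 = F.inv e.1 := by
      have : e'.1 ∈ ({e.1, F.inv e.1} : Set E) := by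
        rw [← h2]
        exact Set.mem_insert _ _
      simpa using this
    have h4 : D.lv (F.src e'.1) = n := hu2
    rcases h3 with h3 | h3
    · rw [h3] at h4
      omega
    · rw [h3] at h4
      omega

/-- the way down from a vertex at the level `l + 1` -/
def Way (l : ℕ) (u : V) (d : ℕ) (p q : V) : Prop :=
  (∃ φ, F.vx φ = u ∧ D.lc (F.cl φ) = l ∧ D.Good φ d ∧ p = F.vx (F.adv 1 φ) ∧
    q = F.vx (F.adv d φ)) ∨
  ∃ e : {e : E // Iso F e}, F.src e.1 = u ∧ D.li e = l ∧ d = 1 ∧ p = F.src (F.inv e.1) ∧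
    q = F.src (F.inv e.1)

theorem Way.pos {l : ℕ} {u : V} {d : ℕ} {p q : V} (h : D.Way l u d p q) : 0 < d := by
  rcases h with ⟨φ, _, _, h, _⟩ | ⟨e, _, _, h, _⟩
  · exact h.1
  · omega

theorem ex_way {l : ℕ} {u : V} (hu : D.lv u = l + 1) : ∃ d p q, D.Way l u d p q := by
  obtain ⟨w, hw1, hw2⟩ := Pool.Agent.Q255.Bridged.exists_parent (G := D.Y) hu
  obtain ⟨κ, rfl, rfl⟩ := D.of_adj hw1.symm
  rcases κ with κ | e
  · obtain ⟨φ, rfl⟩ := D.k.sur κ
    rw [D.ck_cn] at hw2
    rw [D.vk_cn] at hu ⊢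
    have h1 : D.lc (F.cl φ) = l := hw2
    obtain ⟨m, hm | hm⟩ := D.ex_good (φ := φ) (by omega)
    · exact ⟨m, _, _, Or.inl ⟨φ, rfl, h1, hm, rfl, rfl⟩⟩
    · exact ⟨m, _, _, Or.inl ⟨F.rev φ, vx_rev φ, by rw [F.cl_rev]; exact h1, hm, rfl, rfl⟩⟩
  · exact ⟨1, _, _, Or.inr ⟨e, rfl, hw2, rfl, rfl, rfl⟩⟩

theorem way_uniq {l : ℕ} {u : V} (hu : D.lv u = l + 1) {d d' : ℕ} {p q p' q' : V}
    (h : D.Way l u d p q) (h' : D.Way l u d' p' q') : d = d' ∧ p = p' ∧ q = q' := by
  have mixed : ∀ {φ : Φ} {e : {e : E // Iso F e}}, F.vx φ = u → D.lc (F.cl φ) = l →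
      F.src e.1 = u → D.li e = l → False := by
    intro φ e h1 h2 h3 h4
    refine D.iso_dn (e := e) (κ := Sum.inl (F.cn φ)) ?_ (by simp) ?_ ?_
    · rw [D.vk_cn, h1, h3]
    · rw [h3]
      omega
    · rw [D.ck_cn, h3]
      show D.lc (F.cl φ) + 1 = _
      omega
  rcases h with ⟨φ, h1, h2, h3, rfl, rfl⟩ | ⟨e, h1, h2, rfl, rfl, rfl⟩
  · rcases h' with ⟨γ, k1, k2, k3, rfl, rfl⟩ | ⟨e, k1, k2, rfl, rfl, rfl⟩
    · obtain ⟨m1, m2, m3⟩ := D.good_uniq (φ := φ) (γ := γ) (by rw [h1, k1]) (by rw [h1]; omega)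
        (by rw [h1]; omega) h3 k3
      refine ⟨m1, ?_, m3⟩
      rw [vx_next, vx_next, m2]
    · exact (mixed h1 h2 k1 k2).elim
  · rcases h' with ⟨γ, k1, k2, k3, rfl, rfl⟩ | ⟨e', k1, k2, rfl, rfl, rfl⟩
    · exact (mixed k1 k2 h1 h2).elim
    · by_cases hee : e' = e
      · rw [hee]
        exact ⟨rfl, rfl, rfl⟩
      · exfalso
        refine D.iso_dn (e := e) (κ := Sum.inr e') ?_ (by simpa using hee) ?_ ?_
        · show F.src e.1 = F.src e'.1
          rw [h1, k1]
        · rw [h1]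
          omega
        · show D.li e' + 1 = _
          rw [h1]
          omega

theorem ex_fun (l : ℕ) : ∃ f : V → ℕ × V × V, ∀ u,
    (D.lv u = l + 1 → D.Way l u (f u).1 (f u).2.1 (f u).2.2) ∧
    (D.lv u ≠ l + 1 → f u = (0, u, u)) := by
  classical
  have : ∀ u, ∃ x : ℕ × V × V, (D.lv u = l + 1 → D.Way l u x.1 x.2.1 x.2.2) ∧
      (D.lv u ≠ l + 1 → x = (0, u, u)) := by
    intro u
    by_cases h : D.lv u = l + 1
    · obtain ⟨d, p, q, h1⟩ := D.ex_way h
      exact ⟨(d, p, q), fun _ => h1, fun h2 => absurd h h2⟩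
    · exact ⟨(0, u, u), fun h2 => absurd h2 h, fun _ => rfl⟩
  choose f hf using this
  exact ⟨f, hf⟩

/-- the vertices below a cell -/
def Bc (l : ℕ) (c : C) : Set V := {b | D.lv b + 1 = l ∧ ∃ φ, F.cl φ = c ∧ F.vx φ = b}

theorem Bc_path {l : ℕ} {φ χ : Φ} {t : ℤ} (h1 : D.lc (F.cl φ) = l) (h2 : D.lc (F.cl χ) + 2 = l)
    (hA : F.Agr φ χ t) : ∀ s : ℕ, (s : ℤ) ≤ t →
      0 < t → Rch (D.Gl l) (D.Bc l (F.cl φ)) (F.vx φ) (F.vx (F.adv s φ)) ∧
        F.vx (F.adv s φ) ∈ D.Bc l (F.cl φ) := by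
  intro s
  have hmem : ∀ s : ℕ, (s : ℤ) ≤ t → 0 < t → F.vx (F.adv s φ) ∈ D.Bc l (F.cl φ) := by
    intro s hs ht
    have h3 := D.lev (F.adv s φ)
    have h4 := D.lev (F.adv s χ)
    rw [F.cl_adv] at h3 h4
    rw [← vx_agr hA ht (by omega) hs] at h4
    exact ⟨by omega, F.adv s φ, F.cl_adv _ _, rfl⟩
  induction s with
  | zero =>
    intro _ ht
    refine ⟨?_, hmem 0 (by omega) ht⟩
    rw [show ((0 : ℕ) : ℤ) = 0 from rfl, F.adv_zero]
    exact Relation.ReflTransGen.refl
  | succ s ih =>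
    intro hs ht
    obtain ⟨h3, h4⟩ := ih (by omega) ht
    refine ⟨?_, hmem (s + 1) hs ht⟩
    have e : F.vx (F.adv ((s + 1 : ℕ) : ℤ) φ) = F.src (F.inv (F.fst (F.adv s φ))) := by
      rw [← vx_next, F.adv_add]
      congr 2
      push_cast
      ring
    by_cases hne : F.vx (F.adv s φ) = F.vx (F.adv ((s + 1 : ℕ) : ℤ) φ)
    · rw [← hne]
      exact h3
    · refine h3.tail ⟨⟨hne, F.fst (F.adv s φ), rfl, e.symm, Or.inl ⟨F.adv s χ, ?_, ?_⟩⟩, h4,
        hmem (s + 1) hs ht⟩
      · exact (hA s (by omega) (by omega)).symm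
      · rw [F.cl_adv]
        omega

theorem Bc_cnd {l : ℕ} {c : C} (hc : D.lc c = l) : Cnd (D.Gl l) (D.Bc l c) := by
  rintro b ⟨hb, φ1, hφ1, rfl⟩ b' ⟨hb', φ2, hφ2, rfl⟩
  -- a common direction
  obtain ⟨φ, n, k1, k2, k3⟩ : ∃ (φ : Φ) (n : ℤ), F.vx φ = F.vx φ1 ∧ F.cl φ = c ∧
      φ2 = F.adv n φ := by
    obtain ⟨n, h | h⟩ := F.cl_eq φ1 φ2 (by rw [hφ1, hφ2])
    · exact ⟨φ1, n, rfl, hφ1, h⟩
    · exact ⟨F.rev φ1, n, vx_rev _, by rw [F.cl_rev, hφ1], h⟩
  subst k3
  rw [← k1] at hb ⊢
  by_cases hne : F.adv 0 φ = F.adv n φ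
  · rw [← hne, F.adv_zero]
    exact Relation.ReflTransGen.refl
  · obtain ⟨χ, t, t1, t2, t3, ⟨t4, t5⟩ | ⟨t4, t5⟩⟩ := D.sq_dn (φ := φ) (i := 0) (j := n)
      (by rw [F.adv_zero, k2, hc]; exact hb) (by rw [k2, hc]; exact hb') hne
    · rw [F.adv_zero] at t4
      rw [zero_add] at t5
      obtain ⟨s, rfl⟩ := Int.eq_ofNat_of_zero_le t1.le
      have h1 := (D.Bc_path (l := l) (φ := φ) (by rw [k2, hc]) (by rw [t3, k2, hc]) t4 s le_rfl
        t1).1
      rw [← t5]
      rw [k2] at h1
      exact h1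
    · obtain ⟨s, rfl⟩ := Int.eq_ofNat_of_zero_le t1.le
      have h1 := (D.Bc_path (l := l) (φ := F.adv n φ) (by rw [F.cl_adv, k2, hc])
        (by rw [t3, k2, hc]) t4 s le_rfl t1).1
      rw [F.adv_add, add_comm, t5, F.adv_zero, F.cl_adv, k2] at h1
      exact h1.symm

/-- the induction step -/
theorem sep_step {N s l : ℕ} (hl : 1 ≤ l)
    (hN : ∀ (v : V) (T : Finset C), (∀ c ∈ T, ∃ φ, F.cl φ = c ∧ F.vx φ = v) → T.card ≤ N)
    (hS : Sep s (D.Gl l)) : Sep (s * (N + 1) + 1) (D.Gl (l + 1)) := by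
  classical
  obtain ⟨f, hf⟩ := D.ex_fun l
  have hway : ∀ {u : V} {d : ℕ} {p q : V}, D.lv u = l + 1 → D.Way l u d p q →
      (f u).1 = d ∧ (f u).2.1 = p ∧ (f u).2.2 = q := fun hu h =>
    D.way_uniq hu ((hf _).1 hu) h
  have hpos : ∀ u, D.lv u = l + 1 → 0 < (f u).1 := fun u hu => ((hf u).1 hu).pos
  have hold : ∀ u, D.lv u ≠ l + 1 → (f u).1 = 0 ∧ (f u).2.1 = u ∧ (f u).2.2 = u := by
    intro u hu
    rw [(hf u).2 hu]
    exact ⟨rfl, rfl, rfl⟩
  -- the projection of vertices of a cell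
  have hproj : ∀ φ : Φ, D.lc (F.cl φ) = l → (f (F.vx φ)).2.2 ∈ D.Bc l (F.cl φ) := by
    intro φ hφ
    rcases D.lev φ with h | h
    · rw [(hold (F.vx φ) (by omega)).2.2]
      exact ⟨by omega, φ, rfl, rfl⟩
    · obtain ⟨m, hm | hm⟩ := D.ex_good h
      · have := hway (by omega) (Or.inl ⟨φ, rfl, hφ, hm, rfl, rfl⟩)
        rw [this.2.2]
        exact ⟨by rw [hm.2.1, hφ], _, F.cl_adv _ _, rfl⟩
      · have := hway (u := F.vx φ) (by omega)
          (Or.inl ⟨F.rev φ, vx_rev φ, by rw [F.cl_rev, hφ], hm, rfl, rfl⟩)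
        rw [this.2.2]
        refine ⟨by rw [hm.2.1, F.cl_rev, hφ], _, ?_, rfl⟩
        rw [F.cl_adv, F.cl_rev]
  refine Sep.ear (ι := {c : C // D.lc c = l}) hS (π := fun u => (f u).2.2)
    (pred := fun u => (f u).2.1) (dep := fun u => (f u).1)
    (x := fun c => F.vx (D.sf c.1)) (y := fun c => F.vx (F.adv 1 (D.sf c.1)))
    (B := fun c => D.Bc l c.1) ?_ ?_ ?_ ?_ ?_ ?_ ?_ ?_
  · intro u hu
    by_cases h : D.lv u = l + 1
    · have := hpos u h
      omega
    · exact (hold u h).2.2
  · intro u hu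
    have hlu : D.lv u = l + 1 := by
      by_contra h
      have := (hold u h).1
      omega
    rcases (hf u).1 hlu with ⟨φ, h1, h2, h3, h4, h5⟩ | ⟨e, h1, h2, h3, h4, h5⟩
    · obtain ⟨d1, d2, d3, d4⟩ := h3
      rcases Nat.lt_or_ge 1 (f u).1 with hd | hd
      · -- one step inside
        have hlev : D.lv (F.vx (F.adv 1 φ)) = l + 1 := by
          have k1 := D.lev (F.adv 1 φ)
          have k2 := d3 1 (by omega) (by omega)
          rw [F.cl_adv] at k1
          omega
        have hg : D.Good (F.adv 1 φ) ((f u).1 - 1) := by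
          have ecast : (((f u).1 - 1 : ℕ) : ℤ) = (f u).1 - 1 := by omega
          refine ⟨by omega, ?_, ?_, ?_⟩
          · rw [F.adv_add, F.cl_adv, ecast, sub_add_cancel]
            exact d2
          · intro t t1 t2
            rw [F.adv_add, F.cl_adv]
            exact d3 _ (by omega) (by omega)
          · intro t t1 t2
            rw [F.adv_add]
            exact d4 _ (by omega) (by omega)
        have hw := hway hlev (Or.inl ⟨F.adv 1 φ, rfl, by rw [F.cl_adv, h2], hg, rfl, rfl⟩)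
        show (f (f u).2.1).1 + 1 = (f u).1 ∧ (f (f u).2.1).2.2 = (f u).2.2
        rw [h4, hw.1, hw.2.2, h5]
        refine ⟨by omega, ?_⟩
        rw [F.adv_add]
        congr 2
        omega
      · have hd1 : (f u).1 = 1 := by omega
        have e1 : (f u).2.2 = (f u).2.1 := by
          rw [h4, h5, hd1]
          rfl
        have hlev : D.lv (f u).2.1 ≠ l + 1 := by
          rw [← e1, h5]
          omega
        show (f (f u).2.1).1 + 1 = (f u).1 ∧ (f (f u).2.1).2.2 = (f u).2.2
        rw [(hold _ hlev).1, (hold _ hlev).2.2, e1]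
        exact ⟨by omega, rfl⟩
    · have hb := D.iso_below (e := e) (by rw [h1]; omega)
      have hlev : D.lv (f u).2.1 ≠ l + 1 := by
        rw [h4]
        omega
      show (f (f u).2.1).1 + 1 = (f u).1 ∧ (f (f u).2.1).2.2 = (f u).2.2
      rw [(hold _ hlev).1, (hold _ hlev).2.2, h4, h5]
      exact ⟨by omega, rfl⟩
  · intro c
    exact D.Bc_cnd c.2
  · intro c
    have := hproj (D.sf c.1) (by rw [D.sf_cl]; exact c.2)
    rwa [D.sf_cl] at this
  · intro c
    have := hproj (F.adv 1 (D.sf c.1)) (by rw [F.cl_adv, D.sf_cl]; exact c.2)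
    rwa [F.cl_adv, D.sf_cl] at this
  · intro b T hT
    have h1 := hN b (T.image Subtype.val) (by
      intro c hc
      rw [Finset.mem_image] at hc
      obtain ⟨c', hc', rfl⟩ := hc
      exact (hT c' hc').2)
    rwa [Finset.card_image_of_injective _ Subtype.val_injective] at h1
  · rintro u v ⟨_, e, rfl, rfl, ⟨φ, rfl, h⟩ | ⟨h1, h2⟩⟩
    · constructor
      · refine (hold _ ?_).1
        have k := D.lev φ
        unfold vx at k
        omega
      · refine (hold _ ?_).1
        have k := D.lev (F.adv 1 φ)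
        rw [vx_next, F.cl_adv] at k
        omega
    · constructor
      · refine (hold _ ?_).1
        have k : D.lv (F.src e) + 1 = D.li ⟨e, h1⟩ ∨ D.li ⟨e, h1⟩ + 1 = D.lv (F.src e) :=
          D.lev_iso ⟨e, h1⟩
        omega
      · refine (hold _ ?_).1
        have k : D.lv (F.src (F.inv e)) + 1 = D.li ⟨F.inv e, h1.inv⟩ ∨
          D.li ⟨F.inv e, h1.inv⟩ + 1 = D.lv (F.src (F.inv e)) := D.lev_iso ⟨F.inv e, h1.inv⟩
        rw [D.li_inv h1] at k
        omega
  · rintro u v ⟨hne, e, rfl, rfl, ⟨φ, rfl, h⟩ | ⟨h1, h2⟩⟩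
    · rcases Nat.lt_or_ge (D.lc (F.cl φ)) l with hlt | hge
      · exact Or.inl ⟨hne, F.fst φ, rfl, rfl, Or.inl ⟨φ, rfl, hlt⟩⟩
      have hlc : D.lc (F.cl φ) = l := by omega
      have hne' : F.vx φ ≠ F.vx (F.adv 1 φ) := by
        rw [vx_next]
        exact hne
      show (D.Gl l).Adj (F.vx φ) _ ∨ (0 < (f (F.vx φ)).1 ∧ _ = (f (F.vx φ)).2.1) ∨ _
      rw [← vx_next]
      by_cases hcr : D.Cr φ
      · refine Or.inr (Or.inr (Or.inr ⟨⟨F.cl φ, hlc⟩, ?_⟩))
        rcases hcr with hcr | hcr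
        · left
          show F.src (F.fst φ) = F.vx (D.sf (F.cl φ)) ∧
            F.vx (F.adv 1 φ) = F.vx (F.adv 1 (D.sf (F.cl φ)))
          rw [← hcr]
          exact ⟨rfl, rfl⟩
        · right
          show F.vx φ = F.vx (F.adv 1 (D.sf (F.cl φ))) ∧
            F.vx (F.adv 1 φ) = F.vx (D.sf (F.cl φ))
          constructor
          · conv_lhs => rw [hcr]
            rw [vx_rev]
          · conv_lhs => rw [hcr]
            rw [adv_rev', vx_rev, F.adv_add, neg_add_cancel, F.adv_zero]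
      · -- reversed flag
        have erev : F.adv 1 (F.rev (F.adv 1 φ)) = F.rev φ := by
          rw [adv_rev', F.adv_add, neg_add_cancel, F.adv_zero]
        have hcr' : ¬ D.Cr (F.rev (F.adv 1 φ)) := fun h => hcr (D.cr_rev' h)
        have hclr : F.cl (F.rev (F.adv 1 φ)) = F.cl φ := by rw [F.cl_rev, F.cl_adv]
        have hlev1 := D.lev (F.adv 1 φ)
        rw [F.cl_adv] at hlev1
        rcases D.lev φ with hu | hu
        · rcases hlev1 with hv | hv
          · -- both below
            left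
            have hne0 : F.adv 0 φ ≠ F.adv 1 φ := by
              intro h
              apply hne'
              rw [← h, F.adv_zero]
            obtain ⟨χ, n, n1, n2, n3, ⟨n4, n5⟩ | ⟨n4, n5⟩⟩ := D.sq_dn (φ := φ) (i := 0)
              (j := 1) (by rw [F.adv_zero]; exact hu) hv hne0
            · rw [zero_add] at n5
              rw [F.adv_zero] at n4
              exact ⟨hne', F.fst φ, rfl, (vx_next φ).symm,
                Or.inl ⟨χ, (n4.fst n1).symm, by omega⟩⟩
            · exfalso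
              have k4 := adv_eq_adv.1 n5
              have k5 := Int.eq_zero_of_abs_lt_dvd (dvd_sub k4 (dvd_refl _)) (by
                rw [abs_lt]
                constructor <;> omega)
              obtain ⟨t, t1, t2, t3⟩ := D.cr_ex φ 0
              have t4 : 1 ≤ t := by
                by_contra hcon
                apply hcr
                have : t = 0 := by omega
                rw [this, F.adv_zero] at t3
                exact t3
              have h6 := n4 (t - 1) (by omega) (by omega)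
              rw [F.adv_add, show t - (1 : ℤ) + 1 = t by ring] at h6
              have h7 := D.cr_free t3 h6.symm (by rw [F.cl_adv, F.cl_adv]; omega)
              rw [F.cl_adv, F.cl_adv] at h7
              rw [h7] at n3
              omega
          · -- the second vertex above
            right
            right
            left
            have hg : D.Good (F.rev (F.adv 1 φ)) 1 := by
              refine ⟨by omega, ?_, ?_, ?_⟩
              · show D.lv (F.vx (F.adv 1 (F.rev (F.adv 1 φ)))) + 1 = _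
                rw [erev, vx_rev, hclr]
                exact hu
              · intro t t1 t2
                exfalso
                omega
              · intro t t1 t2
                have : t = 0 := by omega
                rw [this, F.adv_zero]
                exact hcr'
            have hlv : D.lv (F.vx (F.adv 1 φ)) = l + 1 := by omega
            have hw := hway hlv
              (Or.inl ⟨F.rev (F.adv 1 φ), vx_rev _, by rw [hclr, hlc], hg, rfl, rfl⟩)
            refine ⟨hpos _ hlv, ?_⟩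
            show F.vx φ = (f (F.vx (F.adv 1 φ))).2.1
            rw [hw.2.1, erev, vx_rev]
        · have hlu : D.lv (F.vx φ) = l + 1 := by omega
          obtain ⟨m, hm | hm⟩ := D.ex_good hu
          · right
            left
            have hw := hway hlu (Or.inl ⟨φ, rfl, hlc, hm, rfl, rfl⟩)
            refine ⟨hpos _ hlu, ?_⟩
            rw [hw.2.1]
          · rcases hlev1 with hv | hv
            · right
              left
              have hg : D.Good φ 1 := by
                refine ⟨by omega, hv, ?_, ?_⟩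
                · intro t t1 t2
                  exfalso
                  omega
                · intro t t1 t2
                  have : t = 0 := by omega
                  rw [this, F.adv_zero]
                  exact hcr
              have hw := hway hlu (Or.inl ⟨φ, rfl, hlc, hg, rfl, rfl⟩)
              refine ⟨hpos _ hlu, ?_⟩
              rw [hw.2.1]
            · right
              right
              left
              obtain ⟨m1, m2, m3, m4⟩ := hm
              have eadd : ∀ t : ℤ, F.adv (t + 1) (F.rev (F.adv 1 φ)) = F.adv t (F.rev φ) := by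
                intro t
                rw [← F.adv_add, erev]
              have hg : D.Good (F.rev (F.adv 1 φ)) (m + 1) := by
                refine ⟨by omega, ?_, ?_, ?_⟩
                · push_cast
                  rw [eadd, hclr]
                  rw [F.cl_rev] at m2
                  exact m2
                · intro t t1 t2
                  push_cast at t2
                  rw [show t = (t - 1) + 1 by ring, eadd, hclr]
                  rcases lt_or_eq_of_le (show (0 : ℤ) ≤ t - 1 by omega) with h3 | h3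
                  · have := m3 (t - 1) h3 (by omega)
                    rwa [F.cl_rev] at this
                  · rw [← h3, F.adv_zero, vx_rev]
                    omega
                · intro t t1 t2
                  push_cast at t2
                  rcases lt_or_eq_of_le t1 with h3 | h3
                  · rw [show t = (t - 1) + 1 by ring, eadd]
                    exact m4 (t - 1) (by omega) (by omega)
                  · rw [← h3, F.adv_zero]
                    exact hcr'
              have hlv : D.lv (F.vx (F.adv 1 φ)) = l + 1 := by omega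
              have hw := hway hlv
                (Or.inl ⟨F.rev (F.adv 1 φ), vx_rev _, by rw [hclr, hlc], hg, rfl, rfl⟩)
              refine ⟨hpos _ hlv, ?_⟩
              show F.vx φ = (f (F.vx (F.adv 1 φ))).2.1
              rw [hw.2.1, erev, vx_rev]
    · rcases Nat.lt_or_ge (D.li ⟨e, h1⟩) l with hlt | hge
      · exact Or.inl ⟨hne, e, rfl, rfl, Or.inr ⟨h1, hlt⟩⟩
      have hli : D.li ⟨e, h1⟩ = l := by omega
      rcases D.lev_iso ⟨e, h1⟩ with hu | hu
      · have hv : D.lv (F.src (F.inv e)) = l + 1 := by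
          have k : D.lv (F.src (F.inv e)) + 1 = D.li ⟨F.inv e, h1.inv⟩ ∨
            D.li ⟨F.inv e, h1.inv⟩ + 1 = D.lv (F.src (F.inv e)) := D.lev_iso ⟨F.inv e, h1.inv⟩
          rcases k with hv | hv
          · exfalso
            rw [D.li_inv h1] at hv
            exact D.iso_up (e := ⟨e, h1⟩) hu hv
          · rw [D.li_inv h1] at hv
            omega
        right
        right
        left
        have hw := hway hv (Or.inr ⟨⟨F.inv e, h1.inv⟩, rfl, by rw [D.li_inv h1, hli], rfl,
          rfl, rfl⟩)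
        refine ⟨hpos _ hv, ?_⟩
        show F.src e = (f (F.src (F.inv e))).2.1
        rw [hw.2.1, F.ii]
      · right
        left
        have hlu : D.lv (F.src e) = l + 1 := by
          have : D.li ⟨e, h1⟩ + 1 = D.lv (F.src e) := hu
          omega
        have hw := hway hlu (Or.inr ⟨⟨e, h1⟩, rfl, hli, rfl, rfl, rfl⟩)
        refine ⟨hpos _ hlu, ?_⟩
        show F.src (F.inv e) = (f (F.src e)).2.1
        rw [hw.2.1]

/-- the sizes of the separators -/
def sq (N : ℕ) : ℕ → ℕ
  | 0 => 1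
  | l + 1 => sq N l * (N + 1) + 1

theorem sq_pos (N l : ℕ) : 1 ≤ sq N l := by
  cases l with
  | zero => exact le_rfl
  | succ l => simp [sq]

theorem sep_Gl {N : ℕ}
    (hN : ∀ (v : V) (T : Finset C), (∀ c ∈ T, ∃ φ, F.cl φ = c ∧ F.vx φ = v) → T.card ≤ N)
    (l : ℕ) : Sep (sq N l) (D.Gl (l + 1)) := by
  induction l with
  | zero =>
    apply sep_bot
    rintro u v ⟨_, e, _, _, ⟨φ, _, h⟩ | ⟨h1, h2⟩⟩
    · have := D.lc_pos (F.cl φ)
      omega
    · have := D.li_pos ⟨e, h1⟩
      omega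
  | succ l ih => exact D.sep_step (by omega) hN ih

end Dev

end Fl

end Pool.Agent.H169Q
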