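import Pool.Agent.helper169_quad.Mach

/-!
# The machine relative to a map into a graph which is not locally finite
-/

set_option autoImplicit false

namespace Pool.Agent.H169Q

open SimpleGraph Pool.Agent.Helper556_sys

variable {U V : Type*} {H : SimpleGraph U} {G : SimpleGraph V}

/-- The good case: a polynomial bound. -/
theorem Flows.good_card' {o : V} {C s : ℕ} {a b : V → V} (hc : G.Connected) {r : ℕ}
    (h : Flows G o C (2 * r) s a b) {x : V}
    {B : Finset V} (hB : ∀ q, q ∈ B → G.dist x q ≤ r) {F : V → V}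
    (hF1 : ∀ p q, G.dist (F p) (F q) ≤ G.dist p q)
    (hF2 : ∀ p q, G.dist o p = G.dist o q → G.dist o (F p) = G.dist o (F q))
    (hgood : bd G o a b B F = 0) [DecidableEq V] :
    (B.image F).card ≤ (2 * r + 1) * (C * (2 * r + 1)) := by
  classical
  have h1 : DN G o B (a ∘ F) ≤ DN G o B F := DN_le fun p q => h.la _ _
  have h2 : DN G o B (b ∘ F) ≤ DN G o B F := DN_le fun p q => h.lb _ _
  have h3 : ¬ (DN G o B (a ∘ F) + DN G o B (b ∘ F) < 2 * DN G o B F) := by
    intro h
    unfold bd at hgood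
    rw [if_pos h] at hgood
    norm_num at hgood
  have ha := DN_eq (G := G) (o := o) (B := B) (F := F) (F' := a ∘ F)
    (fun p q => h.la _ _) (by omega)
  have hb := DN_eq (G := G) (o := o) (B := B) (F := F) (F' := b ∘ F)
    (fun p q => h.lb _ _) (by omega)
  let J : Finset ℕ := Finset.Icc (G.dist o x - r) (G.dist o x + r)
  have hJ : J.card ≤ 2 * r + 1 := by
    simp only [J, Nat.card_Icc]
    omega
  have hsub : B.image F ⊆ J.biUnion fun j => (B.filter fun p => G.dist o p = j).image F := by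
    intro w hw
    rw [Finset.mem_image] at hw
    obtain ⟨p, hp, rfl⟩ := hw
    rw [Finset.mem_biUnion]
    refine ⟨G.dist o p, ?_, ?_⟩
    · have h4 := hB p hp
      have h5 := hc.dist_triangle (u := o) (v := x) (w := p)
      have h6 := hc.dist_triangle (u := o) (v := p) (w := x)
      rw [SimpleGraph.dist_comm (u := p) (v := x)] at h6
      simp only [J, Finset.mem_Icc]
      omega
    · rw [Finset.mem_image]
      exact ⟨p, by rw [Finset.mem_filter]; exact ⟨hp, rfl⟩, rfl⟩
  refine (Finset.card_le_card hsub).trans ((Finset.card_biUnion_le_card_mul _ _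
    (C * (2 * r + 1)) ?_).trans (Nat.mul_le_mul_right _ hJ))
  intro j _
  rcases (B.filter fun p => G.dist o p = j).eq_empty_or_nonempty with h | ⟨p0, hp0⟩
  · rw [h]
    simp
  · rw [Finset.mem_filter] at hp0
    refine h.rig (G.dist o (F p0)) _ ?_ ?_ ?_ ?_
    · intro q hq
      rw [Finset.mem_image] at hq
      obtain ⟨p, hp, rfl⟩ := hq
      rw [Finset.mem_filter] at hp
      exact hF2 _ _ (by rw [hp.2, hp0.2])
    · intro p hp q hq
      rw [Finset.mem_image] at hp hq
      obtain ⟨p', hp', rfl⟩ := hp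
      obtain ⟨q', hq', rfl⟩ := hq
      rw [Finset.mem_filter] at hp' hq'
      exact ha p' hp'.1 q' hq'.1 (by rw [hp'.2, hq'.2])
    · intro p hp q hq
      rw [Finset.mem_image] at hp hq
      obtain ⟨p', hp', rfl⟩ := hp
      obtain ⟨q', hq', rfl⟩ := hq
      rw [Finset.mem_filter] at hp' hq'
      exact hb p' hp'.1 q' hq'.1 (by rw [hp'.2, hq'.2])
    · intro p hp q hq
      rw [Finset.mem_image] at hp hq
      obtain ⟨p', hp', rfl⟩ := hp
      obtain ⟨q', hq', rfl⟩ := hq
      rw [Finset.mem_filter] at hp' hq'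
      have h4 := hB p' hp'.1
      have h5 := hB q' hq'.1
      have h6 := hc.dist_triangle (u := p') (v := x) (w := q')
      rw [SimpleGraph.dist_comm (u := p') (v := x)] at h6
      have h7 := hF1 p' q'
      omega

theorem rel_dist (hcH : H.Connected) (hc : G.Connected) {ι : U → V} {c : ℕ}
    (hι : ∀ x y, H.Adj x y → G.dist (ι x) (ι y) ≤ c) :
    ∀ (k : ℕ) (x y : U), H.dist x y = k → G.dist (ι x) (ι y) ≤ c * k := by
  intro k
  induction k with
  | zero =>
    intro x y h
    rw [hcH.dist_eq_zero_iff.1 h, dist_self]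
    omega
  | succ k ih =>
    intro x y h
    obtain ⟨u, hu1, hu2⟩ := Pool.Agent.Q255.Bridged.exists_parent (G := H) (z := x) (v := y)
      (k := k) h
    have h1 := ih x u hu2
    have h2 := hι u y hu1
    have h3 := hc.dist_triangle (u := ι x) (v := ι u) (w := ι y)
    rw [Nat.mul_succ]
    omega

/-- A constant as in `exists_K`, for the relative version. -/
theorem exists_K' {C c : ℕ} (hC : 1 ≤ C) {ε : ℝ} (hε : 0 < ε) : ∃ K : ℕ, 0 < K ∧
    8 / (K : ℝ) * Real.log (((2 * (c * (K + 1)) + 1) * (C * (2 * (c * (K + 1)) + 1)) : ℕ) : ℝ)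
      ≤ ε / 2 := by
  -- `log (C (2c(K+1)+1)²) ≤ log C + 2 log (4 (c+1)(K+1)) `
  have h1 : Filter.Tendsto (fun K : ℕ => Real.log K / K) Filter.atTop (nhds 0) := by
    have := Real.isLittleO_log_id_atTop.tendsto_div_nhds_zero
    exact this.comp tendsto_natCast_atTop_atTop
  have h2 : Filter.Tendsto (fun K : ℕ => (Real.log (C * (4 * (c + 1) * 2) ^ 2)) / K)
      Filter.atTop (nhds 0) := tendsto_const_div_atTop_nhds_zero_nat _
  have h3 : Filter.Tendsto (fun K : ℕ => 8 * ((Real.log (C * (4 * (c + 1) * 2) ^ 2)) / K +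
      2 * (Real.log K / K))) Filter.atTop (nhds 0) := by
    have := (h2.add (h1.const_mul 2)).const_mul 8
    simpa using this
  have h4 := (h3.eventually (gt_mem_nhds (show (0 : ℝ) < ε / 2 by positivity))).and
    (Filter.eventually_ge_atTop 1)
  obtain ⟨K, hK, hK1⟩ := h4.exists
  refine ⟨K, by omega, ?_⟩
  refine le_trans ?_ hK.le
  have hK0 : (1 : ℝ) ≤ K := by exact_mod_cast hK1
  have hC0 : (1 : ℝ) ≤ C := by exact_mod_cast hC
  have hc0 : (0 : ℝ) ≤ c := Nat.cast_nonneg c
  have e1 : (((2 * (c * (K + 1)) + 1) * (C * (2 * (c * (K + 1)) + 1)) : ℕ) : ℝ) ≤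
      C * (4 * (c + 1) * 2) ^ 2 * K ^ 2 := by
    push_cast
    have e2 : 2 * ((c : ℝ) * (K + 1)) + 1 ≤ 4 * (c + 1) * 2 * K := by nlinarith
    have e3 : 0 ≤ 2 * ((c : ℝ) * (K + 1)) + 1 := by positivity
    calc (2 * ((c : ℝ) * (K + 1)) + 1) * (C * (2 * (c * (K + 1)) + 1))
        = C * (2 * ((c : ℝ) * (K + 1)) + 1) ^ 2 := by ring
      _ ≤ C * (4 * (c + 1) * 2 * K) ^ 2 := by gcongr
      _ = _ := by ring
  have e4 : (0 : ℝ) < (((2 * (c * (K + 1)) + 1) * (C * (2 * (c * (K + 1)) + 1)) : ℕ) : ℝ) := by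
    have : 0 < (2 * (c * (K + 1)) + 1) * (C * (2 * (c * (K + 1)) + 1)) := by positivity
    exact_mod_cast this
  have e5 := Real.log_le_log e4 e1
  rw [Real.log_mul (by positivity) (by positivity), Real.log_pow] at e5
  calc 8 / (K : ℝ) * Real.log _ ≤ 8 / (K : ℝ) * (Real.log (C * (4 * (c + 1) * 2) ^ 2) +
        (2 : ℕ) * Real.log K) := by gcongr
    _ = _ := by
      push_cast
      ring

theorem rel_almost_inv (hcH : H.Connected) (hc : G.Connected) {Δ C c : ℕ}
    (hΔ : ∀ (v : U) (T : Finset U), (∀ t ∈ T, H.dist v t ≤ 1) → T.card ≤ Δ) {ι : U → V}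
    (hι : ∀ x y, H.Adj x y → G.dist (ι x) (ι y) ≤ c) (o : V) (hC : 1 ≤ C)
    (hfl : ∀ R : ℕ, ∃ (s : ℕ) (a b : V → V), Flows G o C R s a b)
    {ε : ℝ} (hε : 0 < ε) :
    ∃ S : ℕ, ∃ ξ : U → lp (fun _ : V => ℝ) 1, (∀ x, ξ x ∈ Sx G (ι x) S) ∧
      ∀ x y, H.Adj x y → ‖ξ x - ξ y‖ ≤ ε := by
  classical
  choose bl hbl1 hbl2 using fun x k => ball_finset hcH hΔ x k
  obtain ⟨K, hK, hKε⟩ := exists_K' (c := c) hC hε
  obtain ⟨s, a, b, hab⟩ := hfl (2 * (c * (K + 1)))
  set c0 : ℝ := 8 / (K : ℝ) *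
    Real.log (((2 * (c * (K + 1)) + 1) * (C * (2 * (c * (K + 1)) + 1)) : ℕ) : ℝ) with hc0
  have hKpos : (0 : ℝ) < K := by exact_mod_cast hK
  set D0 : ℕ := Δ ^ (K + 1) * (Δ ^ (K + 1) * (2 * (c * (K + 1)))) with hD0
  obtain ⟨M0, hM0⟩ := exists_nat_gt (8 * (D0 : ℝ) / ε)
  set M : ℕ := M0 + 1 with hM
  have hMpos : (0 : ℝ) < M := by
    rw [hM]
    positivity
  have hMD : 8 * (D0 : ℝ) ≤ M * ε := by
    rw [div_lt_iff₀ hε] at hM0
    have : (M : ℝ) = M0 + 1 := by rw [hM]; push_cast; ring
    rw [this]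
    nlinarith
  let P : (V → V) → Prop := fun F => (∀ p q, G.dist (F p) (F q) ≤ G.dist p q) ∧
    (∀ p q, G.dist o p = G.dist o q → G.dist o (F p) = G.dist o (F q))
  have hP : ∀ F, P F → P (a ∘ F) ∧ P (b ∘ F) := by
    rintro F ⟨h1, h2⟩
    exact ⟨⟨fun p q => (hab.la _ _).trans (h1 p q), fun p q hpq => hab.ea _ _ (h2 p q hpq)⟩,
      ⟨fun p q => (hab.lb _ _).trans (h1 p q), fun p q hpq => hab.eb _ _ (h2 p q hpq)⟩⟩
  let Q : ℕ → (V → V) → Prop := fun n F => ∀ p, G.dist p (F p) ≤ s * n
  have hQ : ∀ n F, Q n F → Q (n + 1) (a ∘ F) ∧ Q (n + 1) (b ∘ F) := by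
    intro n F h1
    have e : s * (n + 1) = s * n + s := by ring
    refine ⟨fun p => ?_, fun p => ?_⟩
    · show G.dist p (a (F p)) ≤ s * (n + 1)
      have h2 := h1 p
      have h3 := hab.sa (F p)
      have h5 := hc.dist_triangle (u := p) (v := F p) (w := a (F p))
      omega
    · show G.dist p (b (F p)) ≤ s * (n + 1)
      have h2 := h1 p
      have h3 := hab.sb (F p)
      have h5 := hc.dist_triangle (u := p) (v := F p) (w := b (F p))
      omega
  let Bx : U → ℕ → Finset V := fun x k => (bl x k).image ι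
  have hBx : ∀ x k q, q ∈ Bx x k → G.dist (ι x) q ≤ c * k := by
    intro x k q hq
    simp only [Bx, Finset.mem_image] at hq
    obtain ⟨p, hp, rfl⟩ := hq
    rw [hbl1] at hp
    exact (rel_dist hcH hc hι _ x p rfl).trans (Nat.mul_le_mul_left _ hp)
  have hBmono : ∀ x k, Bx x k ⊆ Bx x (k + 1) := by
    intro x k
    refine Finset.image_subset_image fun q hq => ?_
    rw [hbl1] at hq ⊢
    omega
  have hBadj : ∀ u w : U, H.Adj u w → ∀ k, Bx u k ⊆ Bx w (k + 1) := by
    intro u w huw k
    refine Finset.image_subset_image fun q hq => ?_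
    rw [hbl1] at hq ⊢
    have h1 := hcH.dist_triangle (u := w) (v := u) (w := q)
    have h2 : H.dist w u = 1 := dist_eq_one_iff_adj.2 huw.symm
    omega
  have hBne : ∀ x k, (Bx x k).Nonempty := by
    intro x k
    exact Finset.Nonempty.image ⟨x, (hbl1 x k x).2 (by rw [dist_self]; omega)⟩ ι
  have hBcard : ∀ x k, (Bx x k).card ≤ Δ ^ k := fun x k =>
    Finset.card_image_le.trans (hbl2 x k)
  let A : U → (V → V) → ℕ → Finset V := fun x F k => (Bx x k).image F
  let g : U → (V → V) → lp (fun _ : V => ℝ) 1 := fun x F => av dl (A x F) K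
  have hAne : ∀ x F k, (A x F k).Nonempty := fun x F k => (hBne x k).image F
  -- membership
  have hgmem : ∀ x n F, n ≤ M → Q n F → g x F ∈ Sx G (ι x) (c * K + s * M) := by
    intro x n F hn hF
    refine av_mem (Sx_convex _ _) hK fun i hi => mu_mem (Sx_convex _ _) (hAne x F _) ?_
    intro v hv
    rw [Finset.mem_image] at hv
    obtain ⟨p, hp, rfl⟩ := hv
    have h0 := hBx x _ p hp
    apply dl_mem
    have h1 := hF p
    have h2 := hc.dist_triangle (u := ι x) (v := p) (w := F p)
    have h3 : s * n ≤ s * M := Nat.mul_le_mul_left _ hn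
    have h4 : c * (i + 1) ≤ c * K := Nat.mul_le_mul_left _ (by omega)
    omega
  let ξ : U → lp (fun _ : V => ℝ) 1 := fun x =>
    (M : ℝ)⁻¹ • ∑ t ∈ Finset.range M, Ex a b (g x) t id
  refine ⟨c * K + s * M, ξ, fun x => ?_, fun x y hxy => ?_⟩
  · show (M : ℝ)⁻¹ • ∑ t ∈ Finset.range M, Ex a b (g x) t id ∈ Sx G (ι x) (c * K + s * M)
    rw [Finset.smul_sum]
    refine (Sx_convex _ _).sum_mem (fun _ _ => (inv_pos.2 hMpos).le) ?_ fun t ht => ?_
    · rw [Finset.sum_const, nsmul_eq_mul, Finset.card_range, mul_inv_cancel₀ hMpos.ne']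
    · rw [Finset.mem_range] at ht
      refine Ex_mem (Sx_convex _ _) hQ (m := M) (fun n F hn hF => hgmem x n F hn hF) t 0 id
        (by omega) ?_
      intro p
      show G.dist p (id p) ≤ s * 0
      simp
  · -- variation
    have hstep : ∀ F, P F → ‖g x F - g y F‖ ≤ c0 + 2 * bd G o a b (Bx x (K + 1)) F := by
      intro F hF
      by_cases hbad : bd G o a b (Bx x (K + 1)) F = 0
      · rw [hbad, mul_zero, add_zero]
        have hsub : ∀ u w : U, H.Adj u w → ∀ k, A u F k ⊆ A w F (k + 1) := fun u w huw k =>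
          Finset.image_subset_image (hBadj u w huw k)
        have hmono : ∀ k, A x F k ⊆ A x F (k + 1) := fun k =>
          Finset.image_subset_image (hBmono x k)
        have h1 := av_sub_le (δ := dl) dl_norm (A := A x F) (B := A y F) hK (hAne x F 0) hmono
          (hsub x y hxy) (hsub y x hxy.symm)
        refine h1.trans ?_
        have h2 := hab.good_card' hc (fun q hq => hBx x (K + 1) q hq) hF.1 hF.2 hbad
        have h3 : (0 : ℝ) < (A x F (K + 1)).card := by
          exact_mod_cast (hAne x F (K + 1)).card_pos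
        have h4 : ((A x F (K + 1)).card : ℝ) ≤
            (((2 * (c * (K + 1)) + 1) * (C * (2 * (c * (K + 1)) + 1)) : ℕ) : ℝ) := by
          exact_mod_cast h2
        have h5 := Real.log_le_log h3 h4
        rw [hc0]
        gcongr
      · have hb1 : bd G o a b (Bx x (K + 1)) F = 1 := by
          unfold bd at hbad ⊢
          split_ifs at hbad ⊢ with h
          · rfl
          · exact absurd rfl hbad
        have hn : ∀ z, ‖g z F‖ ≤ 1 := by
          intro z
          have hconv := norm_le_one_convex (E := lp (fun _ : V => ℝ) 1)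
          exact av_mem hconv hK fun i _ => mu_mem hconv (hAne z F _) fun v _ => dl_norm v
        have h1 := norm_sub_le (g x F) (g y F)
        have h2 := hn x
        have h3 := hn y
        have hc0nn : 0 ≤ c0 := by
          have := Real.log_natCast_nonneg
            ((2 * (c * (K + 1)) + 1) * (C * (2 * (c * (K + 1)) + 1)))
          positivity
        rw [hb1]
        linarith
    have hPid : P id := ⟨fun p q => le_rfl, fun p q h => h⟩
    have hex : ∀ t, ‖Ex a b (g x) t id - Ex a b (g y) t id‖ ≤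
        c0 + 2 * Ex a b (bd G o a b (Bx x (K + 1))) t id := by
      intro t
      have h1 := Ex_norm_le hP hstep t id hPid
      rwa [Ex_affine] at h1
    have hsum := Ex_sum_le (a := a) (b := b) (bad := bd G o a b (Bx x (K + 1)))
      (D := fun F => (DN G o (Bx x (K + 1)) F : ℝ)) (fun F => Nat.cast_nonneg _)
      (fun F => hab.bad_drop _ F) M id
    have hDN : DN G o (Bx x (K + 1)) id ≤ D0 := by
      unfold DN
      have hin : ∀ p ∈ Bx x (K + 1), ∀ q ∈ Bx x (K + 1),
          (if G.dist o p = G.dist o q then G.dist (id p) (id q) else 0) ≤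
            2 * (c * (K + 1)) := by
        intro p hp q hq
        have hp' := hBx x _ p hp
        have hq' := hBx x _ q hq
        split_ifs
        · have h1 := hc.dist_triangle (u := p) (v := ι x) (w := q)
          rw [SimpleGraph.dist_comm (u := p) (v := ι x)] at h1
          simp only [id]
          omega
        · omega
      calc (∑ p ∈ Bx x (K + 1), ∑ q ∈ Bx x (K + 1),
            if G.dist o p = G.dist o q then G.dist (id p) (id q) else 0)
          ≤ ∑ p ∈ Bx x (K + 1), ∑ q ∈ Bx x (K + 1), 2 * (c * (K + 1)) :=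
            Finset.sum_le_sum fun p hp => Finset.sum_le_sum fun q hq => hin p hp q hq
        _ = (Bx x (K + 1)).card * ((Bx x (K + 1)).card * (2 * (c * (K + 1)))) := by
            simp [Finset.sum_const]
        _ ≤ D0 := by
            rw [hD0]
            have := hBcard x (K + 1)
            gcongr
    have hDN' : (DN G o (Bx x (K + 1)) id : ℝ) ≤ D0 := by exact_mod_cast hDN
    show ‖(M : ℝ)⁻¹ • ∑ t ∈ Finset.range M, Ex a b (g x) t id -
      (M : ℝ)⁻¹ • ∑ t ∈ Finset.range M, Ex a b (g y) t id‖ ≤ ε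
    rw [← smul_sub, ← Finset.sum_sub_distrib, norm_smul, norm_inv, Real.norm_of_nonneg hMpos.le]
    have h1 : ‖∑ t ∈ Finset.range M, (Ex a b (g x) t id - Ex a b (g y) t id)‖ ≤
        M * c0 + 4 * D0 := by
      calc ‖∑ t ∈ Finset.range M, (Ex a b (g x) t id - Ex a b (g y) t id)‖
          ≤ ∑ t ∈ Finset.range M, (c0 + 2 * Ex a b (bd G o a b (Bx x (K + 1))) t id) :=
            (norm_sum_le _ _).trans (Finset.sum_le_sum fun t _ => hex t)
        _ = M * c0 + 2 * ∑ t ∈ Finset.range M, Ex a b (bd G o a b (Bx x (K + 1))) t id := by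
            rw [Finset.sum_add_distrib, Finset.sum_const, Finset.card_range, nsmul_eq_mul,
              Finset.mul_sum]
        _ ≤ M * c0 + 4 * D0 := by linarith
    rw [inv_mul_le_iff₀ hMpos]
    refine h1.trans ?_
    nlinarith

end Pool.Agent.H169Q
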