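import Pool.Agent.helper169_quad.SepA
import Pool.Agent.Helper556_sys.PropA

/-!
# Graphs with small separators: slowly varying measures on finite subsets
-/

set_option autoImplicit false

namespace Pool.Agent.H169Q

open Classical Pool.Agent.Helper556_sys

variable {U : Type*} {G : SimpleGraph U}

/-- the bound for the size of connected slabs -/
def Mk (C Δ : ℕ) : ℕ → ℕ
  | 0 => 0
  | k + 1 => C + (C * Δ + 1) * Mk C Δ k

theorem comp_card {F : Finset U} {dep : U → ℕ} {C Δ : ℕ}
    (hC : ∀ (m : ℕ) (D : Finset U), D ⊆ F → Cnd G (↑D) → (∀ u ∈ D, m ≤ dep u) →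
      (D.filter fun u => dep u = m).card ≤ C)
    (hΔ : ∀ (v : U) (T : Finset U), (∀ t ∈ T, G.Adj v t) → T.card ≤ Δ) :
    ∀ (k m : ℕ) (D : Finset U), D ⊆ F → Cnd G (↑D) → (∀ u ∈ D, m ≤ dep u ∧ dep u < m + k) →
      D.card ≤ Mk C Δ k := by
  intro k
  induction k with
  | zero =>
    intro m D _ _ hD
    rcases D.eq_empty_or_nonempty with rfl | ⟨u, hu⟩
    · simp [Mk]
    · have := hD u hu
      omega
  | succ k ih =>
    intro m D hDF hDc hD
    have hmono : Mk C Δ k ≤ Mk C Δ (k + 1) := by
      show Mk C Δ k ≤ C + (C * Δ + 1) * Mk C Δ k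
      have : Mk C Δ k ≤ (C * Δ + 1) * Mk C Δ k := Nat.le_mul_of_pos_left _ (by omega)
      omega
    set D0 := D.filter fun u => dep u = m with hD0
    set D' := D.filter fun u => ¬ dep u = m with hD'
    have hD0c : D0.card ≤ C := hC m D hDF hDc fun u hu => (hD u hu).1
    have hDsum : D0.card + D'.card = D.card := Finset.card_filter_add_card_filter_not _
    rcases D0.eq_empty_or_nonempty with h0 | ⟨u0, hu0⟩
    · refine (ih (m + 1) D hDF hDc ?_).trans hmono
      intro u hu
      have h1 := hD u hu
      have h2 : dep u ≠ m := by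
        intro h
        have : u ∈ D0 := Finset.mem_filter.2 ⟨hu, h⟩
        rw [h0] at this
        simp at this
      omega
    · let W := D0.biUnion fun u => D'.filter fun v => G.Adj u v
      have hW : W.card ≤ C * Δ := by
        refine (Finset.card_biUnion_le_card_mul _ _ Δ
          fun u _ => hΔ u _ fun t ht => (Finset.mem_filter.1 ht).2).trans ?_
        exact Nat.mul_le_mul_right _ hD0c
      have hcov : D' ⊆ W.biUnion fun w => D'.filter fun v => v ∈ cmp G (↑D') w := by
        intro u hu
        have huD : u ∈ D := (Finset.mem_filter.1 hu).1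
        by_contra hcon
        have hno : ∀ w ∈ W, ¬ Rch G (↑D') u w := by
          intro w hw h
          apply hcon
          rw [Finset.mem_biUnion]
          exact ⟨w, hw, Finset.mem_filter.2 ⟨hu, by exact_mod_cast hu, h.symm⟩⟩
        have h1 := hDc u (by exact_mod_cast huD) u0
          (by exact_mod_cast (Finset.mem_filter.1 hu0).1)
        have h2 := h1.ind (P := fun x => x ∈ D' ∧ Rch G (↑D') u x) (by
          rintro x y hxy hx hy ⟨h3, h4⟩
          have hy' : y ∈ D := by exact_mod_cast hy
          by_cases h5 : dep y = m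
          · exfalso
            have hy0 : y ∈ D0 := Finset.mem_filter.2 ⟨hy', h5⟩
            exact hno x (Finset.mem_biUnion.2 ⟨y, hy0, Finset.mem_filter.2 ⟨h3, hxy.symm⟩⟩) h4
          · have hyD' : y ∈ D' := Finset.mem_filter.2 ⟨hy', h5⟩
            exact ⟨hyD', h4.tail ⟨hxy, by exact_mod_cast h3, by exact_mod_cast hyD'⟩⟩)
          ⟨hu, Relation.ReflTransGen.refl⟩
        exact (Finset.mem_filter.1 h2.1).2 (Finset.mem_filter.1 hu0).2
      have hD'c : D'.card ≤ C * Δ * Mk C Δ k := by
        refine (Finset.card_le_card hcov).trans ((Finset.card_biUnion_le_card_mul _ _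
          (Mk C Δ k) ?_).trans (Nat.mul_le_mul_right _ hW))
        intro w hw
        have hwD' : w ∈ D' := by
          obtain ⟨u, _, h⟩ := Finset.mem_biUnion.1 hw
          exact (Finset.mem_filter.1 h).1
        have hcoe : (↑(D'.filter fun v => v ∈ cmp G (↑D') w) : Set U) = cmp G (↑D') w := by
          ext v
          simp only [Finset.coe_filter, Set.mem_ofPred_eq]
          exact ⟨fun h => h.2, fun h => ⟨by exact_mod_cast h.1, h⟩⟩
        refine ih (m + 1) _ ((Finset.filter_subset _ _).trans
          ((Finset.filter_subset _ _).trans hDF)) ?_ ?_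
        · rw [hcoe]
          exact cmp_cnd _ (by exact_mod_cast hwD')
        · intro u hu
          have h1 := Finset.mem_filter.1 (Finset.mem_filter.1 hu).1
          have h2 := hD u h1.1
          have h3 := h1.2
          omega
      show D.card ≤ C + (C * Δ + 1) * Mk C Δ k
      have : (C * Δ + 1) * Mk C Δ k = C * Δ * Mk C Δ k + Mk C Δ k := by ring
      omega

/-- distances in connected sets -/
theorem dist_le_card {H : SimpleGraph U} (hGH : ∀ u v, G.Adj u v → H.Adj u v) {D : Finset U}
    {u v : U} (h : Rch G (↑D) u v) (hu : u ∈ D) : H.dist u v ≤ D.card := by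
  have key : ∀ v, Rch G (↑D) u v → ∀ j ≤ H.dist u v, ∃ w ∈ D, H.dist u w = j := by
    intro v h
    induction h with
    | refl =>
      intro j hj
      rw [SimpleGraph.dist_self] at hj
      exact ⟨u, hu, by rw [SimpleGraph.dist_self]; omega⟩
    | @tail b c h1 h2 ih =>
      intro j hj
      have h3 := Pool.Agent.Q255.Bridged.lip H (hGH _ _ h2.1) u
      rcases Nat.lt_or_ge (H.dist u b) j with h4 | h4
      · exact ⟨c, by exact_mod_cast h2.2.2, by omega⟩
      · exact ih j h4
  have h1 : (Finset.range (H.dist u v + 1)) ⊆ D.image fun w => H.dist u w := by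
    intro j hj
    rw [Finset.mem_range] at hj
    obtain ⟨w, hw, hwj⟩ := key v h j (by omega)
    exact Finset.mem_image.2 ⟨w, hw, hwj⟩
  have h2 := (Finset.card_le_card h1).trans Finset.card_image_le
  rw [Finset.card_range] at h2
  omega

theorem part_meas {H : SimpleGraph U} (hGH : ∀ u v, G.Adj u v → H.Adj u v) {s Δ : ℕ}
    (hs : 1 ≤ s) (hS : Sep s G)
    (hΔ : ∀ (v : U) (T : Finset U), (∀ t ∈ T, G.Adj v t) → T.card ≤ Δ) {K : ℕ} (hK : 0 < K)
    (F : Finset U) : ∃ η : U → lp (fun _ : U => ℝ) 1,
      (∀ x, η x ∈ Sx H x (Mk (24 * s * (Δ + 1)) Δ K)) ∧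
      ∀ x ∈ F, ∀ y ∈ F, G.Adj x y → ‖η x - η y‖ ≤ 2 / (K : ℝ) := by
  obtain ⟨dep, _, _, hLip, hC⟩ := slab hs hS hΔ F.card F ∅ rfl (by simp) (by simp)
  have hcard := comp_card hC hΔ K
  set M := Mk (24 * s * (Δ + 1)) Δ K with hM
  let q : ℕ → U → ℕ := fun i u => (dep u + i) / K
  let R : ℕ → U → U → Prop := fun i u v => G.Adj u v ∧ u ∈ F ∧ v ∈ F ∧ q i u = q i v
  have hR : ∀ i u v, Relation.EqvGen (R i) u v → u = v ∨ (u ∈ F ∧ v ∈ F ∧ q i u = q i v ∧
      Rch G {w | w ∈ F ∧ q i w = q i u} u v) := by
    intro i u v h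
    induction h with
    | rel u v h =>
      exact Or.inr ⟨h.2.1, h.2.2.1, h.2.2.2, Relation.ReflTransGen.single
        ⟨h.1, ⟨h.2.1, rfl⟩, ⟨h.2.2.1, h.2.2.2.symm⟩⟩⟩
    | refl u => exact Or.inl rfl
    | symm u v _ ih =>
      rcases ih with h | ⟨h1, h2, h3, h4⟩
      · exact Or.inl h.symm
      · refine Or.inr ⟨h2, h1, h3.symm, ?_⟩
        rw [← h3]
        exact h4.symm
    | trans u v w _ _ ih1 ih2 =>
      rcases ih1 with h | ⟨h1, h2, h3, h4⟩
      · rw [h]
        exact ih2
      · rcases ih2 with h | ⟨k1, k2, k3, k4⟩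
        · rw [← h]
          exact Or.inr ⟨h1, h2, h3, h4⟩
        · refine Or.inr ⟨h1, k2, h3.trans k3, h4.trans ?_⟩
          rw [h3]
          exact k4
  let rep : ℕ → U → U := fun i u => (Quot.mk (R i) u).out
  have hrep : ∀ i u, Relation.EqvGen (R i) u (rep i u) := by
    intro i u
    apply Quot.eqvGen_exact
    exact (Quot.out_eq _).symm
  have hdist : ∀ i u, H.dist u (rep i u) ≤ M := by
    intro i u
    rcases hR i _ _ (hrep i u) with h | ⟨h1, h2, h3, h4⟩
    · rw [← h, SimpleGraph.dist_self]
      omega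
    · let D : Finset U := F.filter fun w => w ∈ cmp G {w | w ∈ F ∧ q i w = q i u} u
      have hcoe : (↑D : Set U) = cmp G {w | w ∈ F ∧ q i w = q i u} u := by
        ext w
        simp only [D, Finset.coe_filter, Set.mem_ofPred_eq]
        exact ⟨fun h => h.2, fun h => ⟨h.1.1, h⟩⟩
      have huD : u ∈ D := by
        rw [← Finset.mem_coe, hcoe]
        exact self_mem_cmp ⟨h1, rfl⟩
      have hvD : rep i u ∈ D := by
        rw [← Finset.mem_coe, hcoe]
        exact ⟨⟨h2, h3.symm⟩, h4⟩
      have hcn : Cnd G (↑D) := by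
        rw [hcoe]
        exact cmp_cnd _ ⟨h1, rfl⟩
      have hc := hcard (q i u * K - i) D (Finset.filter_subset _ _) hcn (by
        intro w hw
        rw [← Finset.mem_coe, hcoe] at hw
        have hw2 : (dep w + i) / K = q i u := hw.1.2
        have h5 := Nat.div_add_mod (dep w + i) K
        have h6 := Nat.mod_lt (dep w + i) hK
        rw [hw2] at h5
        rw [Nat.mul_comm] at h5
        omega)
      exact (dist_le_card hGH (hcn u (by exact_mod_cast huD) _ (by exact_mod_cast hvD)) huD).trans
        hc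
  let η : U → lp (fun _ : U => ℝ) 1 := fun x =>
    (K : ℝ)⁻¹ • ∑ i ∈ Finset.range K, dl (rep i x)
  have hKpos : (0 : ℝ) < K := by exact_mod_cast hK
  refine ⟨η, fun x => ?_, fun x hx y hy hxy => ?_⟩
  · show (K : ℝ)⁻¹ • ∑ i ∈ Finset.range K, dl (rep i x) ∈ Sx H x M
    rw [Finset.smul_sum]
    refine (Sx_convex x _).sum_mem (fun _ _ => (inv_pos.2 hKpos).le) ?_ fun i _ =>
      dl_mem (hdist i x)
    rw [Finset.sum_const, nsmul_eq_mul, Finset.card_range, mul_inv_cancel₀ hKpos.ne']
  · show ‖(K : ℝ)⁻¹ • ∑ i ∈ Finset.range K, dl (rep i x) -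
      (K : ℝ)⁻¹ • ∑ i ∈ Finset.range K, dl (rep i y)‖ ≤ 2 / (K : ℝ)
    rw [← smul_sub, ← Finset.sum_sub_distrib, norm_smul, norm_inv, Real.norm_of_nonneg hKpos.le,
      inv_mul_eq_div]
    gcongr
    have hone : ((Finset.range K).filter fun i => ¬ q i x = q i y).card ≤ 1 := by
      rw [Finset.card_le_one]
      intro i hi j hj
      rw [Finset.mem_filter, Finset.mem_range] at hi hj
      wlog hd : dep x ≤ dep y generalizing x y
      · exact this y hy x hx hxy.symm ⟨hi.1, fun h => hi.2 h.symm⟩ ⟨hj.1, fun h => hj.2 h.symm⟩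
          (by omega)
      have h1 := hLip y hy x hx hxy.symm
      rcases Nat.lt_or_ge (dep x) (dep y) with h2 | h2
      · have h3 : dep y = dep x + 1 := by omega
        have key : ∀ i, ¬ (dep x + i) / K = (dep y + i) / K → K ∣ dep x + 1 + i := by
          intro i hi
          rw [h3] at hi
          rw [show dep x + 1 + i = dep x + i + 1 by ring] at hi ⊢
          by_contra h5
          apply hi
          exact (Nat.succ_div_of_not_dvd h5).symm
        have k1 := key i hi.2
        have k2 := key j hj.2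
        have k3 : (K : ℤ) ∣ (i : ℤ) - j := by
          have e1 : (K : ℤ) ∣ ((dep x + 1 + i : ℕ) : ℤ) := by exact_mod_cast k1
          have e2 : (K : ℤ) ∣ ((dep x + 1 + j : ℕ) : ℤ) := by exact_mod_cast k2
          have := dvd_sub e1 e2
          push_cast at this
          rwa [show ((dep x : ℤ) + 1 + i - (dep x + 1 + j)) = i - j by ring] at this
        have k4 := Int.eq_zero_of_abs_lt_dvd k3 (by
          rw [abs_lt]
          constructor <;> omega)
        omega
      · exact absurd (show q i x = q i y by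
          have : dep x = dep y := by omega
          simp only [q, this]) hi.2
    have hz : ∀ i, q i x = q i y → rep i x = rep i y := by
      intro i hi
      show (Quot.mk (R i) x).out = (Quot.mk (R i) y).out
      rw [Quot.sound (show R i x y from ⟨hxy, hx, hy, hi⟩)]
    calc ‖∑ i ∈ Finset.range K, (dl (rep i x) - dl (rep i y))‖
        ≤ ∑ i ∈ Finset.range K, ‖dl (rep i x) - dl (rep i y)‖ := norm_sum_le _ _
      _ ≤ ∑ i ∈ Finset.range K, (if ¬ q i x = q i y then (2 : ℝ) else 0) := by
          refine Finset.sum_le_sum fun i _ => ?_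
          by_cases h : q i x = q i y
          · rw [hz i h, sub_self, norm_zero, if_neg (not_not.2 h)]
          · rw [if_pos h]
            have h1 := norm_sub_le (dl (rep i x)) (dl (rep i y))
            have h2 := dl_norm (rep i x)
            have h3 := dl_norm (rep i y)
            linarith
      _ = ((Finset.range K).filter fun i => ¬ q i x = q i y).card * 2 := by
          rw [Finset.sum_ite, Finset.sum_const, Finset.sum_const_zero, add_zero, nsmul_eq_mul]
      _ ≤ 2 := by
          have : (((Finset.range K).filter fun i => ¬ q i x = q i y).card : ℝ) ≤ 1 := by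
            exact_mod_cast hone
          linarith

end Pool.Agent.H169Q
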