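import Pool.Agent.helper169_quad.CxFl
import Pool.Agent.helper169_quad.Geo4
import Pool.Agent.helper169_quad.CountN
import Pool.Agent.helper169_quad.Rel
import Pool.Agent.helper169_quad.SepB
import Pool.Agent.helper169_quad.Comb

/-!
# Almost invariant measures on C(4)-T(4) complexes
-/

set_option autoImplicit false

namespace Pool.Agent.H169Q

open SimpleGraph Pool.Agent.Helper556_sys

theorem fin_of_bd {α : Type*} {P : α → Prop} {N : ℕ}
    (h : ∀ T : Finset α, (∀ t ∈ T, P t) → T.card ≤ N) :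
    ∃ B : Finset α, (∀ q, q ∈ B ↔ P q) ∧ B.card ≤ N := by
  have hfin : {q | P q}.Finite := by
    by_contra hinf
    obtain ⟨T, hT1, hT2⟩ := Set.Infinite.exists_subset_card_eq hinf (N + 1)
    have := h T (fun t ht => hT1 ht)
    omega
  refine ⟨hfin.toFinset, fun q => by rw [Set.Finite.mem_toFinset]; rfl, ?_⟩
  apply h
  intro t ht
  rw [Set.Finite.mem_toFinset] at ht
  exact ht

theorem ball_fin {W : Type*} {G : SimpleGraph W} (hc : G.Connected)
    (hf : ∀ v, (G.neighborSet v).Finite) (w : W) (n : ℕ) : {w' | G.dist w w' ≤ n}.Finite := by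
  induction n with
  | zero =>
    refine (Set.finite_singleton w).subset fun q hq => ?_
    have h1 : G.dist w q = 0 := Nat.le_zero.1 hq
    rw [Set.mem_singleton_iff]
    exact (hc.dist_eq_zero_iff.1 h1).symm
  | succ n ih =>
    refine (ih.union (ih.biUnion fun v _ => hf v)).subset fun q hq => ?_
    have h1 : G.dist w q ≤ n + 1 := hq
    rcases Nat.lt_or_ge n (G.dist w q) with h2 | h2
    · right
      obtain ⟨u, hu1, hu2⟩ := Pool.Agent.Q255.Bridged.exists_parent (G := G) (z := w) (v := q)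
        (k := n) (by omega)
      exact Set.mem_biUnion (show u ∈ {w' | G.dist w w' ≤ n} from hu2.le) hu1
    · exact Or.inl h2

namespace Cx

variable {V E C : Type*} (X : Cx V E C)

theorem reach {v w : V} {p : List E} (h : X.IsPath v p w) : X.graph.Reachable v w := by
  induction p generalizing v with
  | nil =>
    have h1 : v = w := h
    rw [h1]
  | cons e p ih =>
    obtain ⟨h1, h2⟩ := h
    refine Reachable.trans ?_ (ih h2)
    by_cases h3 : v = X.src (X.inv e)
    · rw [← h3]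
    · exact (show X.graph.Adj v (X.src (X.inv e)) from ⟨h3, e, h1, rfl⟩).reachable

theorem graph_conn (hS : X.SimplyConnected) : X.graph.Connected := by
  have := hS.1
  refine ⟨fun v w => ?_⟩
  obtain ⟨p, hp⟩ := hS.2.1 v w
  exact X.reach hp

theorem edges_bd {N : ℕ} (hL : X.LocallyFinite N) (v : V) : ∃ B : Finset E,
    (∀ e, e ∈ B ↔ X.src e = v) ∧ B.card ≤ N := fin_of_bd (hL.1 v)

/-- vertices joined to a vertex by an edge -/
theorem adj_bd {N : ℕ} (hL : X.LocallyFinite N) (v : V) (T : Finset V)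
    (hT : ∀ t ∈ T, ∃ e, X.src e = v ∧ X.src (X.inv e) = t) : T.card ≤ N := by
  classical
  obtain ⟨B, hB1, hB2⟩ := X.edges_bd hL v
  refine (Finset.card_le_card ?_).trans ((Finset.card_image_le (s := B)
    (f := fun e => X.src (X.inv e))).trans hB2)
  intro t ht
  obtain ⟨e, h1, h2⟩ := hT t ht
  exact Finset.mem_image.2 ⟨e, (hB1 e).2 h1, h2⟩

theorem ball_bd {N : ℕ} (hS : X.SimplyConnected) (hL : X.LocallyFinite N) (v : V) (T : Finset V)
    (hT : ∀ t ∈ T, X.graph.dist v t ≤ 1) : T.card ≤ N + 1 := by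
  classical
  have h1 : (T.erase v).card ≤ N := by
    apply X.adj_bd hL v
    intro t ht
    rw [Finset.mem_erase] at ht
    have h2 := hT t ht.2
    have h3 : X.graph.dist v t ≠ 0 := fun h =>
      ht.1 ((X.graph_conn hS).dist_eq_zero_iff.1 h).symm
    have h4 : X.graph.Adj v t := dist_eq_one_iff_adj.1 (by omega)
    exact h4.2
  have h2 := Finset.pred_card_le_card_erase (s := T) (a := v)
  omega

section dev

variable (hC : X.C4) (hT : X.T4) (hS : X.SimplyConnected)

/-- the developed complex with base vertex `z` -/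
def dev (z : V) : Fl.Dev X.fl where
  hC := X.fl_C4 hC
  hT := X.fl_T4 hT
  k := X.cor
  hF := X.ssq_flat hC hT hS
  hk := fun c => ⟨⟨c, 0, true⟩, rfl⟩
  z := z

theorem dev_Y (z : V) : (X.dev hC hT hS z).Y = (X.ssq hC hT).gr := rfl

theorem vx_src (φ : X.Flg) : ∃ i, X.src (X.bd φ.1.1 i) = X.fl.vx φ := by
  obtain ⟨c, i, b, rfl⟩ := X.ex_flg φ
  refine ⟨i, ?_⟩
  show X.src (X.bd c.1 i) = X.src (X.fl.fst (X.flg c i b))
  rw [fst_flg0]
  cases b with
  | true => simp [rd]
  | false =>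
    simp only [rd, Bool.false_eq_true, if_false, sub_zero]
    rw [X.bd_next, sub_add_cancel]

theorem cells_bd {N : ℕ} (hL : X.LocallyFinite N) (v : V) (T : Finset {c : C // X.Imm c})
    (hT : ∀ c ∈ T, ∃ φ, X.fl.cl φ = c ∧ X.fl.vx φ = v) : T.card ≤ N := by
  classical
  have h1 := hL.2 v (T.map (Function.Embedding.subtype _)) (by
    intro c hc
    rw [Finset.mem_map] at hc
    obtain ⟨c', h1, rfl⟩ := hc
    obtain ⟨φ, h2, h3⟩ := hT c' h1
    obtain ⟨i, hi⟩ := X.vx_src φ
    refine ⟨i, ?_⟩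
    show X.src (X.bd c'.1 i) = v
    rw [← h2, ← h3]
    exact hi)
  rwa [Finset.card_map] at h1

include hS in
/-- degrees of vertices in the incidence graph -/
theorem inl_bd {N : ℕ} (hL : X.LocallyFinite N) (v : V) (T : Finset (V ⊕ Fl.C' X.fl))
    (hT' : ∀ t ∈ T, (X.ssq hC hT).gr.Adj (Sum.inl v) t) : T.card ≤ 2 * N := by
  classical
  obtain ⟨B1, hB1, hB1'⟩ := fin_of_bd (P := fun c : {c : C // X.Imm c} =>
    ∃ φ, X.fl.cl φ = c ∧ X.fl.vx φ = v) (N := N) (fun T hT => X.cells_bd hL v T hT)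
  obtain ⟨B2, hB2, hB2'⟩ := X.edges_bd hL v
  have h1 : T ⊆ (B1.image fun c => Sum.inr (Sum.inl c)) ∪
      ((B2.filter fun e => Fl.Iso X.fl e).attach.image fun e =>
        Sum.inr (Sum.inr ⟨{e.1, X.inv e.1}, e.1, (Finset.mem_filter.1 e.2).2, rfl⟩)) := by
    intro t ht
    obtain ⟨κ, h2, rfl⟩ := (X.dev hC hT hS v).of_adj (hT' t ht)
    rw [Finset.mem_union]
    rcases κ with κ | e
    · left
      obtain ⟨φ, rfl⟩ := X.cor.sur κ
      refine Finset.mem_image.2 ⟨X.fl.cl φ, (hB1 _).2 ⟨φ, rfl, ?_⟩, ?_⟩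
      · rw [← h2]
        exact ((X.dev hC hT hS v).vk_cn φ).symm
      · rfl
    · right
      refine Finset.mem_image.2 ⟨⟨e.1, Finset.mem_filter.2 ⟨(hB2 _).2 h2, e.2⟩⟩,
        Finset.mem_attach _ _, ?_⟩
      rfl
  refine (Finset.card_le_card h1).trans ((Finset.card_union_le _ _).trans ?_)
  have h2 := Finset.card_image_le (s := B1) (f := fun c => (Sum.inr (Sum.inl c) :
    V ⊕ Fl.C' X.fl))
  have h3 := Finset.card_image_le (s := (B2.filter fun e => Fl.Iso X.fl e).attach)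
    (f := fun e => (Sum.inr (Sum.inr ⟨{e.1, X.inv e.1}, e.1, (Finset.mem_filter.1 e.2).2, rfl⟩) :
      V ⊕ Fl.C' X.fl))
  rw [Finset.card_attach] at h3
  have h4 := Finset.card_filter_le B2 fun e => Fl.Iso X.fl e
  omega

include hS in
theorem nb_fin {N : ℕ} (hL : X.LocallyFinite N) (w : V ⊕ Fl.C' X.fl) :
    ((X.ssq hC hT).gr.neighborSet w).Finite := by
  classical
  rcases w with v | c
  · obtain ⟨B, hB, _⟩ := fin_of_bd (P := fun t => (X.ssq hC hT).gr.Adj (Sum.inl v) t)
      (fun T hT' => X.inl_bd hC hT hS hL v T hT')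
    exact B.finite_toSet.subset fun t ht => (hB t).2 ht
  · have z : V := hS.1.some
    rcases c with c | ⟨s, e, he, hs⟩
    · have : NeZero (X.len c.1) := ⟨(X.len_pos c.1).ne'⟩
      refine (Set.finite_range fun i : ZMod (X.len c.1) =>
        (Sum.inl (X.cor.vk ⟨c, i⟩) : V ⊕ Fl.C' X.fl)).subset fun t ht => ?_
      have h1 : (X.dev hC hT hS z).Y.Adj t (Sum.inr (Sum.inl c)) := (show
        (X.ssq hC hT).gr.Adj _ _ from ht).symm
      obtain ⟨κ, h2, rfl⟩ := (X.dev hC hT hS z).of_adj' h1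
      rcases κ with κ | e
      · have h3 : X.cor.ck κ = c := Sum.inl_injective h2
        obtain ⟨c', i⟩ := κ
        have h4 : c' = c := h3
        subst h4
        exact ⟨i, rfl⟩
      · cases h2
    · refine (Set.toFinite ({Sum.inl (X.src e), Sum.inl (X.src (X.inv e))} :
        Set (V ⊕ Fl.C' X.fl))).subset fun t ht => ?_
      have h1 : (X.dev hC hT hS z).Y.Adj t (Sum.inr (Sum.inr ⟨s, e, he, hs⟩)) := (show
        (X.ssq hC hT).gr.Adj _ _ from ht).symm
      obtain ⟨κ, h2, rfl⟩ := (X.dev hC hT hS z).of_adj' h1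
      rcases κ with κ | e'
      · cases h2
      · have h3 : ({e'.1, X.inv e'.1} : Set E) = s := congrArg Subtype.val (Sum.inr_injective h2)
        have h4 : e'.1 = e ∨ e'.1 = X.inv e := by
          have h5 : e'.1 ∈ ({e, X.inv e} : Set E) := by
            rw [show ({e, X.inv e} : Set E) = s from hs.symm, ← h3]
            exact Set.mem_insert _ _
          simpa using h5
        rcases h4 with h4 | h4
        · left
          show Sum.inl (X.src e'.1) = Sum.inl (X.src e)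
          rw [h4]
        · right
          show Sum.inl (X.src e'.1) = Sum.inl (X.src (X.inv e))
          rw [h4]

include hS in
theorem edgeN {N : ℕ} (hL : X.LocallyFinite N) : EdgeN (X.ssq hC hT).gr (2 * N + 1) := by
  have key : ∀ v (T : Finset (V ⊕ Fl.C' X.fl)), (∀ t ∈ T, (X.ssq hC hT).gr.Adj (Sum.inl v) t) →
      T.card ≤ 2 * N + 1 := fun v T h => (X.inl_bd hC hT hS hL v T h).trans (by omega)
  intro a f h
  rcases a with v | c
  · exact Or.inl (key v)
  · right
    obtain ⟨κ, _, rfl⟩ := (X.dev hC hT hS hS.1.some).of_adj' h.symm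
    exact key _

include hS in
/-- adjacent vertices have distance at most two in the incidence graph -/
theorem adj_two {x y : V} (h : X.graph.Adj x y) :
    (X.ssq hC hT).gr.dist (Sum.inl x) (Sum.inl y) ≤ 2 := by
  obtain ⟨_, e, rfl, rfl⟩ := h
  have key : ∀ w, (X.ssq hC hT).gr.Adj (Sum.inl (X.src e)) w →
      (X.ssq hC hT).gr.Adj (Sum.inl (X.src (X.inv e))) w →
      (X.ssq hC hT).gr.dist (Sum.inl (X.src e)) (Sum.inl (X.src (X.inv e))) ≤ 2 := by
    intro w h1 h2
    exact (SimpleGraph.dist_le (Walk.cons h1 (Walk.cons h2.symm Walk.nil)))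
  by_cases hI : Fl.Iso X.fl e
  · have h1 := (X.dev hC hT hS (X.src e)).adj (Sum.inr ⟨e, hI⟩)
    have h2 := (X.dev hC hT hS (X.src e)).adj (Sum.inr ⟨X.inv e, hI.inv⟩)
    have hcell : (X.dev hC hT hS (X.src e)).k.ck' (Sum.inr ⟨X.inv e, hI.inv⟩) =
        (X.dev hC hT hS (X.src e)).k.ck' (Sum.inr ⟨e, hI⟩) := by
      show Sum.inr _ = Sum.inr _
      congr 1
      apply Subtype.ext
      show ({X.inv e, X.inv (X.inv e)} : Set E) = {e, X.inv e}
      rw [X.inv_inv, Set.pair_comm]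
    rw [hcell] at h2
    exact key _ h1 h2
  · unfold Fl.Iso at hI
    push Not at hI
    obtain ⟨φ, hφ⟩ := hI
    have h1 := (X.dev hC hT hS (X.src e)).adj_cn φ
    have h2 := (X.dev hC hT hS (X.src e)).adj_cn (X.fl.adv 1 φ)
    rw [X.fl.cl_adv, Fl.vx_next] at h2
    unfold Fl.vx at h1
    rw [hφ] at h1 h2
    exact key _ h1 h2

/-- edges between vertices of small level -/
theorem low_adj {z : V} {j : ℕ} {x y : V} (h : X.graph.Adj x y)
    (hx : (X.dev hC hT hS z).lv x ≤ j) : ((X.dev hC hT hS z).Gl (j + 2)).Adj x y := by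
  obtain ⟨h0, e, h1, h2⟩ := h
  refine ⟨h0, e, h1, h2, ?_⟩
  by_cases hI : Fl.Iso X.fl e
  · right
    refine ⟨hI, ?_⟩
    have h3 := (X.dev hC hT hS z).lev_iso ⟨e, hI⟩
    have h4 : X.fl.src e = x := h1
    rw [h4] at h3
    omega
  · left
    unfold Fl.Iso at hI
    push Not at hI
    obtain ⟨φ, hφ⟩ := hI
    refine ⟨φ, hφ, ?_⟩
    have h3 := (X.dev hC hT hS z).lev φ
    have h4 : X.fl.vx φ = x := by
      unfold Fl.vx
      rw [hφ]
      exact h1
    rw [h4] at h3
    omega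

include hC hT hS in
/-- The measures. -/
theorem measures {N : ℕ} (hL : X.LocallyFinite N) {ε : ℝ} (hε : 0 < ε) :
    ∃ S : ℕ, ∃ ξ : V → lp (fun _ : V => ℝ) 1, (∀ x, ξ x ∈ Sx X.graph x S) ∧
      ∀ x y, X.graph.Adj x y → ‖ξ x - ξ y‖ ≤ ε := by
  classical
  have hQ : Qd (X.ssq hC hT).gr := X.ssq_qd hC hT hS
  have hH := X.graph_conn hS
  have hfH : ∀ x n, {y | X.graph.dist x y ≤ n}.Finite := by
    intro x n
    obtain ⟨B, hB, _⟩ := ball_finset hH (X.ball_bd hS hL) x n
    exact B.finite_toSet.subset fun q hq => (hB q).2 hq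
  obtain ⟨S0, ξ, hξ1, hξ2⟩ := rel_almost_inv (H := X.graph) (G := (X.ssq hC hT).gr)
    (ι := Sum.inl) (c := 2) (C := 2 * N + 1) hH hQ.conn (X.ball_bd hS hL)
    (fun x y h => X.adj_two hC hT hS h) (Sum.inl hS.1.some) (by omega)
    (fun R => hQ.flows (X.nb_fin hC hT hS hL) (X.edgeN hC hT hS hL) (by omega) _ R)
    (half_pos hε)
  obtain ⟨K, hK⟩ := exists_nat_gt (2 / (ε / 2))
  have hK0 : 0 < K := by
    have h1 : (0 : ℝ) < K := lt_of_le_of_lt (by positivity) hK
    exact_mod_cast h1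
  have hKε : 2 / (K : ℝ) ≤ ε / 2 := by
    have h1 : (0 : ℝ) < K := by exact_mod_cast hK0
    rw [div_le_iff₀ h1]
    rw [div_lt_iff₀ (by positivity)] at hK
    linarith
  refine ⟨Mk (24 * Fl.Dev.sq N (S0 + 3 + 1) * (N + 1)) N K, ?_⟩
  refine compactness hfH fun F => ?_
  have hcomb := combine (H := X.graph) (ι := Sum.inl) (ξ := ξ) (c := 2)
    (S1 := Mk (24 * Fl.Dev.sq N (S0 + 3 + 1) * (N + 1)) N K) hQ.conn hξ1
    (ball_fin hQ.conn (X.nb_fin hC hT hS hL)) (fun x y h => X.adj_two hC hT hS h)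
    (half_pos hε).le hξ2 F (by
      intro w
      obtain ⟨z, hz⟩ : ∃ z, (X.ssq hC hT).gr.dist (Sum.inl z) w ≤ 1 := by
        rcases w with z | c
        · exact ⟨z, by rw [SimpleGraph.dist_self]; omega⟩
        · have hex : ∃ κ : Fl.K' X.fl, X.cor.ck' κ = c := by
            rcases c with c | ⟨s, e, he, rfl⟩
            · exact ⟨Sum.inl ⟨c, 0⟩, rfl⟩
            · exact ⟨Sum.inr ⟨e, he⟩, rfl⟩
          obtain ⟨κ, rfl⟩ := hex
          exact ⟨X.cor.vk' κ, (dist_eq_one_iff_adj.2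
            ((X.dev hC hT hS hS.1.some).adj κ)).le⟩
      obtain ⟨η, hη1, hη2⟩ := part_meas (G := (X.dev hC hT hS z).Gl (S0 + 3 + 2)) (H := X.graph)
        (s := Fl.Dev.sq N (S0 + 3 + 1)) (Δ := N) (K := K)
        (by
          rintro u v ⟨h1, e, h2, h3, _⟩
          exact ⟨h1, e, h2, h3⟩)
        (Fl.Dev.sq_pos _ _)
        ((X.dev hC hT hS z).sep_Gl (X.cells_bd hL) (S0 + 3 + 1))
        (by
          intro v T hT'
          apply X.adj_bd hL v
          intro t ht
          obtain ⟨_, e, h2, h3, _⟩ := hT' t ht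
          exact ⟨e, h2, h3⟩)
        hK0 F
      refine ⟨η, hη1, ?_⟩
      intro x hx y hy hxy h1 h2
      refine (hη2 x hx y hy (X.low_adj hC hT hS hxy ?_)).trans hKε
      have h3 := hQ.conn.dist_triangle (u := Sum.inl z) (v := w) (w := Sum.inl x)
      rw [SimpleGraph.dist_comm (u := w) (v := Sum.inl x)] at h3
      show (X.ssq hC hT).gr.dist (Sum.inl z) (Sum.inl x) ≤ S0 + 3
      omega)
  obtain ⟨ζ, h1, h2⟩ := hcomb
  exact ⟨ζ, h1, fun x hx y hy hxy => (h2 x hx y hy hxy).trans (by linarith)⟩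

include hC hT hS in
/-- Property A. -/
theorem propertyA {N : ℕ} (hL : X.LocallyFinite N) : PropertyA X.graph :=
  propertyA_of_measures (X.graph_conn hS) fun _ hε => X.measures hC hT hS hL hε

end dev

end Cx

end Pool.Agent.H169Q
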