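import Pool.Agent.helper169_quad.Sq

/-!
# Cells given by flags; the squares of a C(4)-T(4) complex
-/

set_option autoImplicit false

namespace Pool.Agent.H169Q

/-- Cells with boundary paths, given by their flags `φ` (a corner `cn φ` of a cell `cl φ` with a
direction). `adv n φ` is the flag `n` steps further, `rev φ` the flag at the same corner with the
opposite direction, `fst φ` the first edge of the boundary path starting at `φ`. -/
structure Fl (V E Φ K C : Type*) where
  src : E → V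
  inv : E → E
  ii : ∀ e, inv (inv e) = e
  adv : ℤ → Φ → Φ
  rev : Φ → Φ
  cn : Φ → K
  cl : Φ → C
  len : Φ → ℕ
  fst : Φ → E
  adv_zero : ∀ φ, adv 0 φ = φ
  adv_add : ∀ m n φ, adv m (adv n φ) = adv (m + n) φ
  rev_rev : ∀ φ, rev (rev φ) = φ
  rev_adv : ∀ n φ, rev (adv n φ) = adv (-n) (rev φ)
  adv_eq : ∀ n φ, adv n φ = φ ↔ (len φ : ℤ) ∣ n
  rev_ne : ∀ n φ, adv n φ ≠ rev φ
  len_pos : ∀ φ, 0 < len φ
  len_adv : ∀ n φ, len (adv n φ) = len φ
  len_rev : ∀ φ, len (rev φ) = len φ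
  cl_adv : ∀ n φ, cl (adv n φ) = cl φ
  cl_rev : ∀ φ, cl (rev φ) = cl φ
  cl_eq : ∀ φ ψ, cl φ = cl ψ → ∃ n, ψ = adv n φ ∨ ψ = adv n (rev φ)
  cn_rev : ∀ φ, cn (rev φ) = cn φ
  cn_eq : ∀ φ ψ, cn φ = cn ψ → φ = ψ ∨ φ = rev ψ
  fst_rev : ∀ φ, fst (rev φ) = inv (fst (adv (-1) φ))
  next : ∀ φ, src (inv (fst φ)) = src (fst (adv 1 φ))
  /-- no backtracks -/
  imm : ∀ φ, fst (rev φ) ≠ fst φ
  /-- no fixed edges -/
  inv_ne : ∀ e, inv e ≠ e

namespace Fl

variable {V E Φ K C : Type*} (F : Fl V E Φ K C)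

/-- the boundary paths starting at the two flags of one cell are equal -/
def Sym (φ ψ : Φ) : Prop := F.cl φ = F.cl ψ ∧ ∀ t : ℤ, F.fst (F.adv t φ) = F.fst (F.adv t ψ)

/-- the two boundary paths agree on the first `n` edges -/
def Agr (φ ψ : Φ) (n : ℤ) : Prop := ∀ t : ℤ, 0 ≤ t → t < n → F.fst (F.adv t φ) = F.fst (F.adv t ψ)

/-- the initial path of length `n` is trivial or a piece -/
def Pc (φ : Φ) (n : ℤ) : Prop := n = 0 ∨ ∃ ψ, ¬ F.Sym φ ψ ∧ F.Agr φ ψ n

/-- no boundary path is a concatenation of fewer than four pieces -/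
def C4 : Prop := ∀ (φ : Φ) (a b : ℤ), 0 ≤ a → a ≤ b → b ≤ F.len φ → F.Pc φ a →
  F.Pc (F.adv a φ) (b - a) → F.Pc (F.adv b φ) (F.len φ - b) → False

/-- the condition T(4) -/
def T4 : Prop := ∀ φ1 φ2 φ3 : Φ, F.fst (F.rev φ1) = F.fst φ2 → F.fst (F.rev φ2) = F.fst φ3 →
  F.fst (F.rev φ3) = F.fst φ1 → F.Sym φ2 (F.rev φ1) ∨ F.Sym φ3 (F.rev φ2) ∨ F.Sym φ1 (F.rev φ3)

/-- squares: the corners `k`, `k'` of one cell and `l`, `l'` of another one are joined by equal
paths -/
def SqV (k k' l l' : K) : Prop := k ≠ l ∧ ∃ (φ ψ : Φ) (n : ℤ), 0 < n ∧ n < F.len φ ∧ n < F.len ψ ∧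
  k = F.cn φ ∧ k' = F.cn (F.adv n φ) ∧ l = F.cn ψ ∧ l' = F.cn (F.adv n ψ) ∧ F.Agr φ ψ n

variable {F}

/-- the first edges of the reversed boundary path -/
theorem fst_rev' (t : ℤ) (φ : Φ) : F.fst (F.adv t (F.rev φ)) = F.inv (F.fst (F.adv (-1 - t) φ)) := by
  have h1 : F.adv t (F.rev φ) = F.rev (F.adv (-t) φ) := by
    rw [F.rev_adv, neg_neg]
  rw [h1, F.fst_rev, F.adv_add]
  congr 2

theorem src_rev (φ : Φ) : F.src (F.fst (F.rev φ)) = F.src (F.fst φ) := by
  rw [F.fst_rev]
  have := F.next (F.adv (-1) φ)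
  rw [F.adv_add, show (1 : ℤ) + -1 = 0 by norm_num, F.adv_zero] at this
  exact this

theorem inv_inj {a b : E} (h : F.inv a = F.inv b) : a = b := by
  rw [← F.ii a, h, F.ii]

theorem adv_inj {n : ℤ} {φ ψ : Φ} (h : F.adv n φ = F.adv n ψ) : φ = ψ := by
  have h1 := congrArg (F.adv (-n)) h
  rw [F.adv_add, F.adv_add, neg_add_cancel, F.adv_zero, F.adv_zero] at h1
  exact h1

theorem adv_eq_adv {m n : ℤ} {φ : Φ} : F.adv m φ = F.adv n φ ↔ (F.len φ : ℤ) ∣ m - n := by
  rw [← F.adv_eq (m - n) φ]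
  constructor
  · intro h
    have h1 := congrArg (F.adv (-n)) h
    rw [F.adv_add, F.adv_add, neg_add_cancel, F.adv_zero] at h1
    rwa [show m - n = -n + m by ring]
  · intro h
    have h1 := congrArg (F.adv n) h
    rw [F.adv_add] at h1
    rwa [show n + (m - n) = m by ring] at h1

/-- corners of one cell along one direction -/
theorem cn_adv {m n : ℤ} {φ : Φ} (h : F.cn (F.adv m φ) = F.cn (F.adv n φ)) :
    F.adv m φ = F.adv n φ := by
  rcases F.cn_eq _ _ h with h1 | h1
  · exact h1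
  · exfalso
    have h2 : F.adv (m + n) φ = F.rev φ := by
      rw [F.rev_adv] at h1
      have h3 := congrArg (F.adv n) h1
      rw [F.adv_add, F.adv_add, add_neg_cancel, F.adv_zero] at h3
      rwa [add_comm] at h3
    exact F.rev_ne _ _ h2

theorem cn_adv_dvd {m n : ℤ} {φ : Φ} (h : F.cn (F.adv m φ) = F.cn (F.adv n φ)) :
    (F.len φ : ℤ) ∣ m - n := adv_eq_adv.1 (cn_adv h)

theorem small {m n : ℤ} {φ : Φ} (h : F.cn (F.adv m φ) = F.cn (F.adv n φ)) (h1 : |m - n| < F.len φ) :
    m = n := by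
  have h2 := Int.eq_zero_of_abs_lt_dvd (cn_adv_dvd h) h1
  omega

theorem Agr.symm {φ ψ : Φ} {n : ℤ} (h : F.Agr φ ψ n) : F.Agr ψ φ n :=
  fun t h1 h2 => (h t h1 h2).symm

theorem Agr.trans {φ ψ χ : Φ} {n : ℤ} (h : F.Agr φ ψ n) (h' : F.Agr ψ χ n) : F.Agr φ χ n :=
  fun t h1 h2 => (h t h1 h2).trans (h' t h1 h2)

theorem Agr.mono {φ ψ : Φ} {m n : ℤ} (h : F.Agr φ ψ n) (hm : m ≤ n) : F.Agr φ ψ m :=
  fun t h1 h2 => h t h1 (by omega)

theorem Agr.adv {φ ψ : Φ} {n : ℤ} (h : F.Agr φ ψ n) {m : ℤ} (hm : 0 ≤ m) :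
    F.Agr (F.adv m φ) (F.adv m ψ) (n - m) := by
  intro t h1 h2
  rw [F.adv_add, F.adv_add]
  exact h _ (by omega) (by omega)

theorem Agr.fst {φ ψ : Φ} {n : ℤ} (h : F.Agr φ ψ n) (hn : 0 < n) : F.fst φ = F.fst ψ := by
  have := h 0 le_rfl hn
  rwa [F.adv_zero, F.adv_zero] at this

/-- reversing a common path -/
theorem Agr.rev {φ ψ : Φ} {n : ℤ} (h : F.Agr φ ψ n) :
    F.Agr (F.rev (F.adv n φ)) (F.rev (F.adv n ψ)) n := by
  intro t h1 h2
  rw [fst_rev', fst_rev', F.adv_add, F.adv_add, h _ (by omega) (by omega)]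

/-- concatenating common paths -/
theorem Agr.add {φ ψ : Φ} {m n : ℤ} (h : F.Agr φ ψ m) (h' : F.Agr (F.adv m φ) (F.adv m ψ) n) :
    F.Agr φ ψ (m + n) := by
  intro t h1 h2
  rcases lt_or_ge t m with h3 | h3
  · exact h t h1 h3
  · have := h' (t - m) (by omega) (by omega)
    rw [F.adv_add, F.adv_add] at this
    rwa [show t - m + m = t by ring] at this

theorem Sym.agr {φ ψ : Φ} (h : F.Sym φ ψ) (n : ℤ) : F.Agr φ ψ n := fun t _ _ => h.2 t

theorem Sym.symm {φ ψ : Φ} (h : F.Sym φ ψ) : F.Sym ψ φ := ⟨h.1.symm, fun t => (h.2 t).symm⟩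

theorem Sym.adv {φ ψ : Φ} (h : F.Sym φ ψ) (n : ℤ) : F.Sym (F.adv n φ) (F.adv n ψ) :=
  ⟨by rw [F.cl_adv, F.cl_adv, h.1], fun t => by rw [F.adv_add, F.adv_add, h.2]⟩

theorem Sym.rev {φ ψ : Φ} (h : F.Sym φ ψ) : F.Sym (F.rev φ) (F.rev ψ) :=
  ⟨by rw [F.cl_rev, F.cl_rev, h.1], fun t => by rw [fst_rev', fst_rev', h.2]⟩

/-- there are no reflections -/
theorem Sym.rot {φ ψ : Φ} (h : F.Sym φ ψ) : ∃ m, ψ = F.adv m φ := by
  obtain ⟨m, h1 | h1⟩ := F.cl_eq φ ψ h.1
  · exact ⟨m, h1⟩
  · exfalso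
    -- `fst (adv t φ) = inv (fst (adv (-1 - t - m) φ))` for all `t`
    have h2 : ∀ t, F.fst (F.adv t φ) = F.inv (F.fst (F.adv (-1 - t - m) φ)) := by
      intro t
      rw [h.2 t, h1, F.adv_add, fst_rev']
      congr 3
      ring
    rcases Int.even_or_odd' m with ⟨k, hk | hk⟩
    · -- backtrack at the corner `adv (-k) φ`
      have h3 := h2 (-k)
      refine F.imm (F.adv (-k) φ) ?_
      rw [F.fst_rev, F.adv_add, h3]
      congr 3
      omega
    · -- fixed edge
      have h3 := h2 (-k - 1)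
      refine F.inv_ne (F.fst (F.adv (-k - 1) φ)) ?_
      have e : (-1 - (-k - 1) - m : ℤ) = -k - 1 := by omega
      rw [e] at h3
      exact h3.symm

theorem Sym.len {φ ψ : Φ} (h : F.Sym φ ψ) : F.len φ = F.len ψ := by
  obtain ⟨m, rfl⟩ := h.rot
  rw [F.len_adv]

/-- two flags at one corner with the same first edge are equal -/
theorem eq_of_fst {φ ψ : Φ} (h : F.cn φ = F.cn ψ) (h1 : F.fst φ = F.fst ψ) : φ = ψ := by
  rcases F.cn_eq _ _ h with h2 | h2
  · exact h2
  · rw [h2] at h1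
    exact absurd h1 (F.imm ψ)

/-- two flags at one corner with different first edges are opposite -/
theorem rev_of_fst {φ ψ : Φ} (h : F.cn φ = F.cn ψ) (h1 : F.fst φ ≠ F.fst ψ) : φ = F.rev ψ := by
  rcases F.cn_eq _ _ h with h2 | h2
  · rw [h2] at h1
    exact absurd rfl h1
  · exact h2

/-- constructor for squares -/
theorem SqV.mk' {φ ψ : Φ} {n : ℤ} (hne : F.cn φ ≠ F.cn ψ) (hn : 0 < n) (h1 : n < F.len φ)
    (h2 : n < F.len ψ) (h : F.Agr φ ψ n) :
    F.SqV (F.cn φ) (F.cn (F.adv n φ)) (F.cn ψ) (F.cn (F.adv n ψ)) :=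
  ⟨hne, φ, ψ, n, hn, h1, h2, rfl, rfl, rfl, rfl, h⟩

/-- the other ends of a common path are different corners -/
theorem ne_end {φ ψ : Φ} {n : ℤ} (hne : F.cn φ ≠ F.cn ψ) (hn : 0 < n) (h : F.Agr φ ψ n) :
    F.cn (F.adv n φ) ≠ F.cn (F.adv n ψ) := by
  intro h1
  have h2 : F.fst (F.rev (F.adv n φ)) = F.fst (F.rev (F.adv n ψ)) := (h.rev).fst hn
  have h3 : F.rev (F.adv n φ) = F.rev (F.adv n ψ) :=
    eq_of_fst (by rw [F.cn_rev, F.cn_rev, h1]) h2
  have h4 : F.adv n φ = F.adv n ψ := by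
    rw [← F.rev_rev (F.adv n φ), h3, F.rev_rev]
  exact hne (by rw [adv_inj h4])

theorem SqV.symm {k k' l l' : K} (h : F.SqV k k' l l') : F.SqV l l' k k' := by
  obtain ⟨hne, φ, ψ, n, hn, h1, h2, rfl, rfl, rfl, rfl, h⟩ := h
  exact SqV.mk' hne.symm hn h2 h1 h.symm

theorem SqV.flip {k k' l l' : K} (h : F.SqV k k' l l') : F.SqV k' k l' l := by
  obtain ⟨hne, φ, ψ, n, hn, h1, h2, rfl, rfl, rfl, rfl, h⟩ := h
  have h3 := SqV.mk' (φ := F.rev (F.adv n φ)) (ψ := F.rev (F.adv n ψ)) (n := n)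
    (by rw [F.cn_rev, F.cn_rev]; exact ne_end hne hn h) hn (by rw [F.len_rev, F.len_adv]; exact h1)
    (by rw [F.len_rev, F.len_adv]; exact h2) h.rev
  have e : ∀ χ : Φ, F.cn (F.adv n (F.rev (F.adv n χ))) = F.cn χ := by
    intro χ
    rw [F.rev_adv, F.adv_add, add_neg_cancel, F.adv_zero, F.cn_rev]
  rw [e, e, F.cn_rev, F.cn_rev] at h3
  exact h3

theorem SqV.ne {k k' l l' : K} (h : F.SqV k k' l l') : k ≠ l := h.1

theorem SqV.ne' {k k' l l' : K} (h : F.SqV k k' l l') : k' ≠ l' := h.flip.1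

theorem SqV.ne1 {k k' l l' : K} (h : F.SqV k k' l l') : k ≠ k' := by
  obtain ⟨_, φ, ψ, n, hn, h1, _, rfl, rfl, _, _, _⟩ := h
  intro h2
  have h3 : F.cn (F.adv 0 φ) = F.cn (F.adv n φ) := by rw [F.adv_zero]; exact h2
  have := small h3 (by rw [zero_sub, abs_neg, abs_of_pos hn]; exact h1)
  omega

theorem SqV.ne2 {k k' l l' : K} (h : F.SqV k k' l l') : l ≠ l' := h.symm.ne1

/-- the first rule, for squares with a common cell -/
theorem r1V (hC : F.C4) {k k' l l' m m' : K} (h : F.SqV k k' l l') (h' : F.SqV l l' m m') :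
    F.SqV k k' m m' ∨ (k = m ∧ k' = m') := by
  obtain ⟨hne, φ1, φ2, n, hn, n1, n2, rfl, rfl, rfl, rfl, hA⟩ := h
  obtain ⟨hne', ψ2, ψ3, n', hn', m1, m2, e1, e2, rfl, rfl, hB⟩ := h'
  rcases F.cn_eq _ _ e1 with h2 | h2
  · -- same direction
    subst h2
    have h3 : n = n' := small e2 (by rw [abs_lt]; constructor <;> omega)
    subst h3
    have hC := hA.trans hB
    by_cases h4 : F.cn φ1 = F.cn ψ3
    · right
      have h5 := eq_of_fst h4 (hC.fst hn)
      subst h5
      exact ⟨rfl, rfl⟩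
    · left
      exact SqV.mk' h4 hn n1 m2 hC
  · -- opposite directions
    have hψ : ψ2 = F.rev φ2 := by rw [h2, F.rev_rev]
    subst hψ
    rw [F.len_rev] at m1
    have e3 : F.cn (F.adv n φ2) = F.cn (F.adv (-n') φ2) := by
      rw [e2, show F.adv n' (F.rev φ2) = F.rev (F.adv (-n') φ2) by rw [F.rev_adv, neg_neg],
        F.cn_rev]
    have hsum : n + n' = F.len φ2 := by
      obtain ⟨q, hq⟩ := cn_adv_dvd e3
      have hL : (0 : ℤ) < F.len φ2 := by exact_mod_cast F.len_pos φ2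
      have hq1 : q = 1 := by
        have h5 : 0 < (F.len φ2 : ℤ) * q := by omega
        have h6 : (F.len φ2 : ℤ) * q < F.len φ2 * 2 := by omega
        have h7 : 0 < q := by
          by_contra hcon
          have : (F.len φ2 : ℤ) * q ≤ 0 := mul_nonpos_of_nonneg_of_nonpos hL.le (by omega)
          omega
        have h8 : q < 2 := lt_of_mul_lt_mul_left h6 hL.le
        omega
      rw [hq1] at hq
      omega
    by_cases s1 : F.Sym φ1 φ2
    · -- the first two are symmetric
      have hl := s1.len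
      have hC : F.Agr (F.rev φ1) ψ3 n' := (s1.rev.agr n').trans hB
      have e4 : F.cn (F.adv n' (F.rev φ1)) = F.cn (F.adv n φ1) := by
        rw [show F.adv n' (F.rev φ1) = F.rev (F.adv (-n') φ1) by rw [F.rev_adv, neg_neg], F.cn_rev]
        congr 1
        rw [adv_eq_adv, hl]
        exact ⟨-1, by omega⟩
      by_cases h4 : F.cn φ1 = F.cn ψ3
      · right
        have h5 := eq_of_fst (φ := F.rev φ1) (ψ := ψ3) (by rw [F.cn_rev, h4]) (hC.fst hn')
        subst h5
        exact ⟨h4, e4.symm⟩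
      · left
        have h6 := SqV.mk' (φ := F.rev φ1) (ψ := ψ3) (n := n') (by rw [F.cn_rev]; exact h4) hn'
          (by rw [F.len_rev, hl]; exact m1) m2 hC
        rw [F.cn_rev, e4] at h6
        exact h6
    by_cases s2 : F.Sym (F.rev φ2) ψ3
    · have hl := s2.len
      rw [F.len_rev] at hl
      have s3 : F.Sym φ2 (F.rev ψ3) := by
        have := s2.rev
        rwa [F.rev_rev] at this
      have hC : F.Agr φ1 (F.rev ψ3) n := hA.trans (s3.agr n)
      have e4 : F.cn (F.adv n (F.rev ψ3)) = F.cn (F.adv n' ψ3) := by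
        rw [show F.adv n (F.rev ψ3) = F.rev (F.adv (-n) ψ3) by rw [F.rev_adv, neg_neg], F.cn_rev]
        congr 1
        rw [adv_eq_adv, ← hl]
        exact ⟨-1, by omega⟩
      by_cases h4 : F.cn φ1 = F.cn ψ3
      · right
        have h5 := eq_of_fst (φ := φ1) (ψ := F.rev ψ3) (by rw [F.cn_rev, h4]) (hC.fst hn)
        subst h5
        exact ⟨h4, e4⟩
      · left
        have h6 := SqV.mk' (φ := φ1) (ψ := F.rev ψ3) (n := n) (by rw [F.cn_rev]; exact h4) hn
          n1 (by rw [F.len_rev, ← hl]; exact n2) hC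
        rw [F.cn_rev, e4] at h6
        exact h6
    · exfalso
      -- the boundary of the middle cell is a concatenation of two pieces
      refine hC φ2 n (F.len φ2) hn.le n2.le le_rfl (Or.inr ⟨φ1, fun h => s1 h.symm, hA.symm⟩) ?_
        (Or.inl (by ring))
      refine Or.inr ⟨F.rev (F.adv n' ψ3), ?_, ?_⟩
      · intro h
        apply s2
        have h3 := h.rev
        rw [F.rev_rev, F.rev_adv] at h3
        have h4 := h3.adv (-n')
        rw [F.adv_add, F.adv_add, neg_add_cancel, F.adv_zero] at h4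
        have e5 : F.adv (-n' + -n) (F.rev φ2) = F.rev φ2 := by
          rw [F.adv_eq, F.len_rev]
          exact ⟨-1, by omega⟩
        rwa [e5] at h4
      · have h3 := hB.rev
        have e5 : F.rev (F.adv n' (F.rev φ2)) = F.adv n φ2 := by
          rw [F.rev_adv, F.rev_rev, adv_eq_adv]
          exact ⟨-1, by omega⟩
        rw [e5] at h3
        exact h3.mono (by omega)

/-- the first rule, for squares with two common cells -/
theorem r1C (hC : F.C4) {k k' k'' l l' l'' : K} (h : F.SqV k k' l l')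
    (h' : F.SqV k' k'' l' l'') : F.SqV k k'' l l'' ∨ (k = k'' ∧ l = l'') := by
  obtain ⟨hne, φ, ψ, n, hn, n1, n2, rfl, rfl, rfl, rfl, hA⟩ := h
  obtain ⟨hne', φ', ψ', m, hm, m1, m2, e1, rfl, e2, rfl, hB⟩ := h'
  rcases F.cn_eq _ _ e1.symm with h1 | h1
  · rcases F.cn_eq _ _ e2.symm with h2 | h2
    · -- same directions
      subst h1 h2
      rw [F.len_adv] at m1 m2
      have hAB := hA.add hB
      rw [F.adv_add, F.adv_add]
      by_cases hs : F.Sym φ ψ
      · have hl := hs.len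
        rcases lt_trichotomy (n + m) (F.len φ) with h3 | h3 | h3
        · left
          rw [add_comm m n]
          exact SqV.mk' hne (by omega) h3 (by omega) hAB
        · right
          rw [add_comm m n]
          constructor
          · congr 1
            symm
            rw [F.adv_eq]
            exact ⟨1, by omega⟩
          · congr 1
            symm
            rw [F.adv_eq]
            exact ⟨1, by omega⟩
        · left
          have h4 := SqV.mk' (n := n + m - F.len φ) hne (by omega) (by omega) (by omega)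
            (hs.agr _)
          have e3 : F.adv (n + m - F.len φ) φ = F.adv (m + n) φ := by
            rw [adv_eq_adv]
            exact ⟨-1, by omega⟩
          have e4 : F.adv (n + m - F.len φ) ψ = F.adv (m + n) ψ := by
            rw [adv_eq_adv]
            exact ⟨-1, by omega⟩
          rw [e3, e4] at h4
          exact h4
      · have h3 : n + m < F.len φ := by
          by_contra hcon
          push Not at hcon
          refine hC φ n (F.len φ) hn.le n1.le le_rfl (Or.inr ⟨ψ, hs, hA⟩)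
            (Or.inr ⟨F.adv n ψ, ?_, ?_⟩) (Or.inl (by ring))
          · intro h4
            apply hs
            have h5 := h4.adv (-n)
            rwa [F.adv_add, F.adv_add, neg_add_cancel, F.adv_zero, F.adv_zero] at h5
          · exact hB.mono (by omega)
        have h4 : n + m < F.len ψ := by
          by_contra hcon
          push Not at hcon
          refine hC ψ n (F.len ψ) hn.le n2.le le_rfl (Or.inr ⟨φ, fun h => hs h.symm, hA.symm⟩)
            (Or.inr ⟨F.adv n φ, ?_, ?_⟩) (Or.inl (by ring))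
          · intro h4
            apply hs
            have h5 := h4.symm.adv (-n)
            rwa [F.adv_add, F.adv_add, neg_add_cancel, F.adv_zero, F.adv_zero] at h5
          · exact hB.symm.mono (by omega)
        left
        rw [add_comm m n]
        exact SqV.mk' hne (by omega) h3 h4 hAB
    · -- backtrack in the first cell
      exfalso
      subst h1
      have h3 := hB.fst hm
      rw [h2] at h3
      have h4 := (hA.rev).fst hn
      exact F.imm (F.adv n φ) (h4.trans h3.symm)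
  · rcases F.cn_eq _ _ e2.symm with h2 | h2
    · exfalso
      subst h2
      have h3 := hB.fst hm
      rw [h1] at h3
      have h4 := (hA.rev).fst hn
      exact F.imm (F.adv n ψ) (h4.symm.trans h3)
    · subst h1 h2
      have e3 : ∀ χ : Φ, F.cn (F.adv m (F.rev (F.adv n χ))) = F.cn (F.adv (n - m) χ) := by
        intro χ
        rw [show F.adv m (F.rev (F.adv n χ)) = F.rev (F.adv (n - m) χ) by
          rw [F.rev_adv, F.rev_adv, F.adv_add]; congr 1; ring, F.cn_rev]
      rw [e3, e3]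
      rcases lt_trichotomy m n with h3 | h3 | h3
      · left
        exact SqV.mk' hne (by omega) (by omega) (by omega) (hA.mono (by omega))
      · right
        rw [h3, sub_self, F.adv_zero, F.adv_zero]
        exact ⟨rfl, rfl⟩
      · left
        have h4 := hB.adv hn.le
        have e4 : ∀ χ : Φ, F.adv n (F.rev (F.adv n χ)) = F.rev χ := by
          intro χ
          rw [F.rev_adv, F.adv_add, add_neg_cancel, F.adv_zero]
        rw [e4, e4] at h4
        rw [F.len_rev, F.len_adv] at m1 m2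
        have h5 := SqV.mk' (φ := F.rev φ) (ψ := F.rev ψ) (n := m - n)
          (by rw [F.cn_rev, F.cn_rev]; exact hne) (by omega) (by rw [F.len_rev]; omega)
          (by rw [F.len_rev]; omega) h4
        have e5 : ∀ χ : Φ, F.cn (F.adv (m - n) (F.rev χ)) = F.cn (F.adv (n - m) χ) := by
          intro χ
          rw [show F.adv (m - n) (F.rev χ) = F.rev (F.adv (n - m) χ) by
            rw [F.rev_adv]; congr 1; ring, F.cn_rev]
        rw [e5, e5, F.cn_rev, F.cn_rev] at h5
        exact h5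

end Fl

end Pool.Agent.H169Q
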