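import Pool.Agent.helper169_quad.Flag

/-!
# The second rule for the squares of a C(4)-T(4) complex
-/

set_option autoImplicit false

namespace Pool.Agent.H169Q

namespace Fl

variable {V E Φ K C : Type*} {F : Fl V E Φ K C}

/-- a common path of two cells splits a longer one -/
theorem SqV.sub {φ ψ : Φ} {m n : ℤ} (hne : F.cn φ ≠ F.cn ψ) (h0 : 0 < m) (hmn : m < n)
    (h1 : n < F.len φ) (h2 : n < F.len ψ) (h : F.Agr φ ψ n) :
    F.SqV (F.cn (F.adv m φ)) (F.cn (F.adv n φ)) (F.cn (F.adv m ψ)) (F.cn (F.adv n ψ)) := by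
  have h3 := SqV.mk' (φ := F.adv m φ) (ψ := F.adv m ψ) (n := n - m)
    (ne_end hne h0 (h.mono hmn.le)) (by omega) (by rw [F.len_adv]; omega)
    (by rw [F.len_adv]; omega) (h.adv h0.le)
  rw [F.adv_add, F.adv_add, show n - m + m = n by ring] at h3
  exact h3

/-- the second rule, around a vertex: the cells `D`, `D'`, `X` have the corners `kb`, `ka'`, `ky` at
the vertex. -/
theorem r2V (hC : F.C4) (hT : F.T4) {kp kq ka kb ka' kb' kx ky kz : K}
    (h1 : F.SqV ka kb kx ky) (h2 : F.SqV ka' kb' ky kz) (h3 : F.SqV kp kb kq ka')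
    (hxz : kx ≠ kz) (hap : ka ≠ kp) (hbq : kb' ≠ kq) :
    (∃ g, F.SqV kp ka g kx ∧ F.SqV kq kb' g kz) ∨ (∃ g, F.SqV kp ka kq g ∧ F.SqV g kb' kx kz) ∨
      (∃ g, F.SqV kp g kq kb' ∧ F.SqV ka g kx kz) := by
  obtain ⟨neby, φ1, χ1, n1, p1, s1, t1, rfl, rfl, rfl, rfl, A1⟩ := h1.flip
  have h2c := h2
  obtain ⟨neay, ψ2, χ2, n2, p2, s2, t2, rfl, rfl, e2, rfl, A2⟩ := h2
  obtain ⟨neba, φ3, ψ3, n3, p3, s3, t3, e3, rfl, e3', rfl, A3⟩ := h3.flip
  by_cases c12 : F.fst χ1 = F.fst χ2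
  · -- the paths to `y1`, `y3` start with the same edge
    have hχ : χ1 = χ2 := eq_of_fst e2 c12
    subst hχ
    rcases lt_trichotomy n1 n2 with hn | hn | hn
    · right; left
      refine ⟨F.cn (F.adv n1 ψ2), ?_, ?_⟩
      · have hA : F.Agr φ1 ψ2 n1 := A1.trans ((A2.mono hn.le).symm)
        have k1 := SqV.mk' (φ := φ1) (ψ := ψ2) (n := n1) (by
          intro h
          exact neba h) p1 s1 (by omega) hA
        rcases r1C hC h3 k1 with h4 | ⟨h4, _⟩
        · exact h4
        · exact absurd h4.symm hap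
      · exact (SqV.sub neay p1 hn s2 t2 A2)
    · exact absurd (by rw [hn]) hxz
    · right; right
      refine ⟨F.cn (F.adv n2 φ1), ?_, ?_⟩
      · have hA : F.Agr φ1 ψ2 n2 := (A1.mono hn.le).trans A2.symm
        have k1 := SqV.mk' (φ := φ1) (ψ := ψ2) (n := n2) (by
          intro h
          exact neba h) p2 (by omega) s2 hA
        rcases r1C hC h3 k1 with h4 | ⟨_, h4⟩
        · exact h4
        · exact absurd h4.symm hbq
      · exact (SqV.sub neby p2 hn s1 t1 A1).flip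
  by_cases c13 : F.fst φ1 = F.fst φ3
  · -- the paths to `y1`, `η` start with the same edge
    have hφ : φ1 = φ3 := eq_of_fst e3 c13
    subst hφ
    rcases lt_trichotomy n1 n3 with hn | hn | hn
    · right; left
      refine ⟨F.cn (F.adv n1 ψ3), ?_, ?_⟩
      · exact (SqV.sub (by rw [← e3']; exact neba) p1 hn s3 t3 A3).flip
      · have hA : F.Agr ψ3 χ1 n1 := (A3.mono hn.le).symm.trans A1
        have k1 := SqV.mk' (φ := ψ3) (ψ := χ1) (n := n1) (by
          intro h
          exact neay (by rw [e3', h])) p1 (by omega) t1 hA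
        have k2 := k1.flip
        rw [← e3'] at k2
        rcases r1C hC k2 h2c with h4 | ⟨_, h4⟩
        · exact h4
        · exact absurd h4 hxz
    · exact absurd (by rw [hn]) hap
    · left
      refine ⟨F.cn (F.adv n3 χ1), ?_, ?_⟩
      · exact SqV.sub neby p3 hn s1 t1 A1
      · have hA : F.Agr ψ3 χ1 n3 := A3.symm.trans (A1.mono hn.le)
        have k1 := SqV.mk' (φ := ψ3) (ψ := χ1) (n := n3) (by
          intro h
          exact neay (by rw [e3', h])) p3 t3 (by omega) hA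
        have k2 := k1.flip
        rw [← e3'] at k2
        rcases r1C hC k2 h2c with h4 | ⟨h4, _⟩
        · exact h4
        · exact absurd h4.symm hbq
  by_cases c23 : F.fst ψ2 = F.fst ψ3
  · have hψ : ψ2 = ψ3 := eq_of_fst e3' c23
    subst hψ
    rcases lt_trichotomy n2 n3 with hn | hn | hn
    · right; right
      refine ⟨F.cn (F.adv n2 φ3), ?_, ?_⟩
      · exact (SqV.sub (by rw [← e3]; exact neba) p2 hn s3 t3 A3).flip
      · have hA : F.Agr φ3 χ2 n2 := (A3.mono hn.le).trans A2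
        have k1 := SqV.mk' (φ := φ3) (ψ := χ2) (n := n2) (by
          intro h
          exact neby (by rw [e3, h, ← e2])) p2 (by omega) t2 hA
        rw [← e3, ← e2] at k1
        rcases r1C hC h1 k1 with h4 | ⟨_, h4⟩
        · exact h4
        · exact absurd h4 hxz
    · exact absurd (by rw [hn]) hbq
    · left
      refine ⟨F.cn (F.adv n3 χ2), ?_, ?_⟩
      · have hA : F.Agr φ3 χ2 n3 := A3.trans (A2.mono hn.le)
        have k1 := SqV.mk' (φ := φ3) (ψ := χ2) (n := n3) (by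
          intro h
          exact neby (by rw [e3, h, ← e2])) p3 s3 (by omega) hA
        have k2 := k1.flip
        rw [← e3, ← e2] at k2
        rcases r1C hC k2 h1.flip with h4 | ⟨h4, _⟩
        · exact h4
        · exact absurd h4.symm hap
      · exact SqV.sub (by rw [← e2]; exact neay) p3 hn s2 t2 A2
  · -- three different edges: the condition T(4)
    exfalso
    have f1 := A1.fst p1
    have f2 := A2.fst p2
    have f3 := A3.fst p3
    have g1 : φ3 = F.rev φ1 := rev_of_fst e3.symm (fun h => c13 h.symm)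
    have g2 : χ2 = F.rev χ1 := rev_of_fst e2.symm (fun h => c12 h.symm)
    have g3 : ψ2 = F.rev ψ3 := rev_of_fst e3' (fun h => c23 h)
    rcases hT φ1 ψ3 χ2 (by rw [← g1]; exact f3) (by rw [← g3]; exact f2)
      (by rw [g2, F.rev_rev]; exact f1.symm) with h | h | h
    · -- `ψ3 ~ rev φ1 = φ3`
      have h4 := h.rev
      rw [F.rev_rev, ← g3] at h4
      have h5 := (h4.agr 1).fst one_pos
      exact c12 (by rw [← f1, ← f2, h5])
    · rw [← g3] at h
      have h4 := h.rev
      rw [g2, F.rev_rev] at h4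
      have h5 := (h4.agr 1).fst one_pos
      rw [g3, F.rev_rev] at h5
      exact c13 (by rw [f1, h5, ← f3])
    · rw [g2, F.rev_rev] at h
      have h4 := h.rev
      rw [← g1, ← g2] at h4
      have h5 := (h4.agr 1).fst one_pos
      exact c23 (by rw [f2, ← h5, f3])

/-- the position of the other end of a square along a given direction -/
theorem SqV.arc {φ : Φ} {u : ℤ} {l l' : K} (h : F.SqV (F.cn φ) (F.cn (F.adv u φ)) l l')
    (h0 : 0 < u) (h1 : u < F.len φ) :
    (∃ ψ, l = F.cn ψ ∧ l' = F.cn (F.adv u ψ) ∧ u < F.len ψ ∧ F.Agr φ ψ u) ∨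
    (∃ ψ, l = F.cn ψ ∧ l' = F.cn (F.adv (-(F.len φ - u)) ψ) ∧ F.len φ - u < F.len ψ ∧
      F.Agr (F.rev φ) (F.rev ψ) (F.len φ - u)) := by
  obtain ⟨hne, φ', ψ, n, hn, n1, n2, e1, e2, rfl, rfl, hA⟩ := h
  rcases F.cn_eq _ _ e1 with h2 | h2
  · subst h2
    have h3 : u = n := small e2 (by rw [abs_lt]; constructor <;> omega)
    subst h3
    exact Or.inl ⟨ψ, rfl, rfl, n2, hA⟩
  · have hφ : φ' = F.rev φ := by rw [h2, F.rev_rev]
    subst hφ
    rw [F.len_rev] at n1
    have e3 : F.cn (F.adv u φ) = F.cn (F.adv (-n) φ) := by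
      rw [e2, show F.adv n (F.rev φ) = F.rev (F.adv (-n) φ) by rw [F.rev_adv, neg_neg],
        F.cn_rev]
    have hsum : u + n = F.len φ := by
      obtain ⟨q, hq⟩ := cn_adv_dvd e3
      have hL : (0 : ℤ) < F.len φ := by exact_mod_cast F.len_pos φ
      have hq1 : q = 1 := by
        have h5 : 0 < (F.len φ : ℤ) * q := by omega
        have h6 : (F.len φ : ℤ) * q < F.len φ * 2 := by omega
        have h7 : 0 < q := by
          by_contra hcon
          have : (F.len φ : ℤ) * q ≤ 0 := mul_nonpos_of_nonneg_of_nonpos hL.le (by omega)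
          omega
        have h8 : q < 2 := lt_of_mul_lt_mul_left h6 hL.le
        omega
      rw [hq1] at hq
      omega
    have e : (F.len φ : ℤ) - u = n := by omega
    rw [e]
    right
    refine ⟨F.rev ψ, (F.cn_rev _).symm, ?_, by rw [F.len_rev]; exact n2, by
      rw [F.rev_rev]; exact hA⟩
    rw [show F.adv (-n) (F.rev ψ) = F.rev (F.adv n ψ) by rw [F.rev_adv], F.cn_rev]

/-- If the common path of `c` (flag `φ`, corners at `0`, `u`) and another cell is the arc through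
the corner at `w`, or if the cells are symmetric, then the corner `w` of `c` belongs to the other
cell. -/
theorem third {φ : Φ} {u w : ℤ} {l l' : K} (h : F.SqV (F.cn φ) (F.cn (F.adv u φ)) l l')
    (h0 : 0 < u) (huw : u < w) (hw : w < F.len φ) :
    (∃ g, F.SqV (F.cn φ) (F.cn (F.adv w φ)) l g ∧ F.SqV (F.cn (F.adv u φ)) (F.cn (F.adv w φ)) l' g)
    ∨ F.Pc φ u := by
  rcases h.arc h0 (by omega) with ⟨ψ, rfl, rfl, h2, hA⟩ | ⟨ψ, rfl, rfl, h2, hA⟩
  · by_cases hs : F.Sym φ ψ
    · left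
      have hl := hs.len
      have hne := h.ne
      exact ⟨F.cn (F.adv w ψ), SqV.mk' hne (by omega) hw (by omega) (hs.agr w),
        SqV.sub hne h0 huw hw (by omega) (hs.agr w)⟩
    · exact Or.inr (Or.inr ⟨ψ, hs, hA⟩)
  · left
    have hne : F.cn (F.rev φ) ≠ F.cn (F.rev ψ) := by
      rw [F.cn_rev, F.cn_rev]
      exact h.ne
    -- positions on the reversed cell: `w` is at `len - w`, `u` at `len - u`
    have k1 := SqV.mk' (φ := F.rev φ) (ψ := F.rev ψ) (n := F.len φ - w) hne (by omega)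
      (by rw [F.len_rev]; omega) (by rw [F.len_rev]; omega) (hA.mono (by omega))
    have k2 := SqV.sub (φ := F.rev φ) (ψ := F.rev ψ) (m := F.len φ - w) (n := F.len φ - u) hne
      (by omega) (by omega) (by rw [F.len_rev]; omega) (by rw [F.len_rev]; omega) hA
    have e1 : ∀ v : ℤ, F.cn (F.adv (F.len φ - v) (F.rev φ)) = F.cn (F.adv v φ) := by
      intro v
      rw [show F.adv (F.len φ - v) (F.rev φ) = F.rev (F.adv (-(F.len φ - v)) φ) by
        rw [F.rev_adv, neg_neg], F.cn_rev]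
      congr 1
      rw [adv_eq_adv]
      exact ⟨-1, by ring⟩
    have e2 : ∀ v : ℤ, F.cn (F.adv (F.len φ - v) (F.rev ψ)) = F.cn (F.adv (-(F.len φ - v)) ψ) := by
      intro v
      rw [show F.adv (F.len φ - v) (F.rev ψ) = F.rev (F.adv (-(F.len φ - v)) ψ) by
        rw [F.rev_adv, neg_neg], F.cn_rev]
    rw [e1, F.cn_rev, F.cn_rev] at k1
    rw [e1, e1, e2 u] at k2
    exact ⟨F.cn (F.adv (F.len φ - w) (F.rev ψ)), k1, k2.flip⟩

/-- The second rule around a cell, with a chosen orientation. -/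
theorem third3 (hC : F.C4) {φ : Φ} {u w : ℤ} (h0 : 0 < u) (huw : u < w) (hw : w < F.len φ)
    {l l' m m' n n' : K} (h1 : F.SqV (F.cn φ) (F.cn (F.adv u φ)) l l')
    (h2 : F.SqV (F.cn (F.adv u φ)) (F.cn (F.adv w φ)) m m')
    (h3 : F.SqV (F.cn (F.adv w φ)) (F.cn φ) n n') :
    (∃ g, F.SqV (F.cn φ) (F.cn (F.adv w φ)) l g ∧
      F.SqV (F.cn (F.adv u φ)) (F.cn (F.adv w φ)) l' g) ∨
    (∃ g, F.SqV (F.cn (F.adv u φ)) (F.cn φ) m g ∧
      F.SqV (F.cn (F.adv w φ)) (F.cn φ) m' g) ∨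
    (∃ g, F.SqV (F.cn (F.adv w φ)) (F.cn (F.adv u φ)) n g ∧
      F.SqV (F.cn φ) (F.cn (F.adv u φ)) n' g) := by
  rcases third h1 h0 huw hw with h | p1
  · exact Or.inl h
  have e2 : F.adv w φ = F.adv (w - u) (F.adv u φ) := by
    rw [F.adv_add]
    congr 1
    ring
  have e3 : φ = F.adv (F.len φ - u) (F.adv u φ) := by
    rw [F.adv_add, show (F.len φ : ℤ) - u + u = F.len φ by ring]
    symm
    rw [F.adv_eq]
  rw [e2] at h2
  rcases third (w := F.len φ - u) h2 (by omega) (by omega) (by rw [F.len_adv]; omega) with h | p2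
  · rw [← e2, ← e3] at h
    exact Or.inr (Or.inl h)
  have e4 : φ = F.adv (F.len φ - w) (F.adv w φ) := by
    rw [F.adv_add, show (F.len φ : ℤ) - w + w = F.len φ by ring]
    symm
    rw [F.adv_eq]
  have e5 : F.adv u φ = F.adv (F.len φ - w + u) (F.adv w φ) := by
    rw [F.adv_add, adv_eq_adv]
    exact ⟨-1, by ring⟩
  have h3' : F.SqV (F.cn (F.adv w φ)) (F.cn (F.adv (F.len φ - w) (F.adv w φ))) n n' := by
    rw [← e4]
    exact h3
  rcases third (w := F.len φ - w + u) h3' (by omega) (by omega) (by rw [F.len_adv]; omega) with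
    h | p3
  · rw [← e4, ← e5] at h
    exact Or.inr (Or.inr h)
  exfalso
  exact hC φ u w h0.le huw.le hw.le p1 p2 p3

/-- The second rule around a cell with the corners `kb`, `ka'`, `ky`. -/
theorem r2C (hC : F.C4) {kp kq ka kb ka' kb' kx ky kz : K}
    (h1 : F.SqV ka kx kb ky) (h2 : F.SqV ka' ky kb' kz) (h3 : F.SqV kp kq kb ka')
    (hxz : kx ≠ kz) (hap : ka ≠ kp) (hbq : kb' ≠ kq) :
    (∃ g, F.SqV kp g ka kx ∧ F.SqV kq g kb' kz) ∨ (∃ g, F.SqV kp kq ka g ∧ F.SqV g kx kb' kz) ∨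
      (∃ g, F.SqV kp kq g kb' ∧ F.SqV ka kx g kz) := by
  -- it is enough to find the third corner in one of the three other cells
  have key : (∃ g, F.SqV kb ky kp g ∧ F.SqV ka' ky kq g) ∨
      (∃ g, F.SqV kb ka' ka g ∧ F.SqV ky ka' kx g) ∨
      (∃ g, F.SqV ka' kb kb' g ∧ F.SqV ky kb kz g) := by
    obtain ⟨_, φ, _, u, hu, u1, _, rfl, rfl, _, _, _⟩ := h3.symm
    obtain ⟨w, hw1, hw2, rfl⟩ : ∃ w : ℤ, 0 < w ∧ w < F.len φ ∧ ky = F.cn (F.adv w φ) := by
      obtain ⟨_, φ', _, w, hw, w1, _, e1, rfl, _, _, _⟩ := h1.symm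
      rcases F.cn_eq _ _ e1 with h4 | h4
      · subst h4
        exact ⟨w, hw, w1, rfl⟩
      · have hφ : φ' = F.rev φ := by rw [h4, F.rev_rev]
        subst hφ
        rw [F.len_rev] at w1
        refine ⟨F.len φ - w, by omega, by omega, ?_⟩
        rw [show F.adv w (F.rev φ) = F.rev (F.adv (-w) φ) by rw [F.rev_adv, neg_neg], F.cn_rev]
        congr 1
        rw [adv_eq_adv]
        exact ⟨-1, by ring⟩
    have huw : u ≠ w := by
      rintro rfl
      exact h2.ne1 rfl
    rcases lt_or_gt_of_ne huw with hlt | hlt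
    · rcases third3 hC hu hlt hw2 h3.symm h2 h1.symm.flip with h | ⟨g, g1, g2⟩ | ⟨g, g1, g2⟩
      · exact Or.inl h
      · exact Or.inr (Or.inr ⟨g, g1, g2⟩)
      · exact Or.inr (Or.inl ⟨g, g2, g1⟩)
    · -- the other order: corners at `0`, `w`, `u`
      rcases third3 hC hw1 hlt u1 h1.symm h2.flip h3.symm.flip with
        ⟨g, g1, g2⟩ | ⟨g, g1, g2⟩ | ⟨g, g1, g2⟩
      · exact Or.inr (Or.inl ⟨g, g1, g2⟩)
      · exact Or.inr (Or.inr ⟨g, g2, g1⟩)
      · exact Or.inl ⟨g, g2, g1⟩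
  rcases key with ⟨g, g1, g2⟩ | ⟨g, g1, g2⟩ | ⟨g, g1, g2⟩
  · left
    refine ⟨g, ?_, ?_⟩
    · -- from `kb ky kp g` and `ka kx kb ky`
      rcases r1V hC g1.symm h1.symm with h4 | ⟨h4, _⟩
      · exact h4
      · exact absurd h4.symm hap
    · rcases r1V hC g2.symm h2 with h4 | ⟨h4, _⟩
      · exact h4
      · exact absurd h4.symm hbq
  · right; left
    refine ⟨g, ?_, ?_⟩
    · rcases r1V hC h3 g1 with h4 | ⟨h4, _⟩
      · exact h4
      · exact absurd h4.symm hap
    · rcases r1V hC g2.flip.symm h2 with h4 | ⟨_, h4⟩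
      · exact h4
      · exact absurd h4 hxz
  · right; right
    refine ⟨g, ?_, ?_⟩
    · rcases r1V hC h3 g1.flip with h4 | ⟨_, h4⟩
      · exact h4
      · exact absurd h4.symm hbq
    · rcases r1V hC h1 g2.flip with h4 | ⟨_, h4⟩
      · exact h4
      · exact absurd h4 hxz

end Fl

end Pool.Agent.H169Q
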