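import Pool.Agent.helper169_quad.Core

/-!
# Modular graphs without isometric 6-cycles: the father map and the two-step projection
-/

set_option autoImplicit false

namespace Pool.Agent.H169Q

open SimpleGraph Pool.Agent.Q255.Bridged Pool.Agent.Helper556_sys

variable {V : Type*} {G : SimpleGraph V}

namespace Qd

theorem fa_sp (_hG : Qd G) {o : V} (R : {r : V → V → Prop // IsWellOrder V r}) {k : ℕ} {v : V}
    (hv : G.dist o v = k + 1) : G.Adj (fa G (G.dist o) R k v) v ∧
      G.dist o (fa G (G.dist o) R k v) = k ∧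
      ∀ w, G.Adj w v → G.dist o w = k → ¬ R.1 w (fa G (G.dist o) R k v) := by
  have hne : {w | G.Adj w v ∧ G.dist o w = k}.Nonempty := by
    obtain ⟨u, hu⟩ := exists_parent (G := G) hv
    exact ⟨u, hu⟩
  have h : fa G (G.dist o) R k v = R.2.toIsWellFounded.wf.min _ hne := by
    unfold fa
    rw [dif_pos hne]
  rw [h]
  have h1 := R.2.toIsWellFounded.wf.min_mem _ hne
  refine ⟨h1.1, h1.2, fun w hw1 hw2 => ?_⟩
  exact R.2.toIsWellFounded.wf.not_lt_min _
    (show w ∈ {w | G.Adj w v ∧ G.dist o w = k} from ⟨hw1, hw2⟩)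

theorem fth_adj (hG : Qd G) {o v : V} (h : 0 < G.dist o v) : G.Adj (fth G o v) v := by
  obtain ⟨k, hk⟩ : ∃ k, G.dist o v = k + 1 := ⟨G.dist o v - 1, by omega⟩
  have h1 := hG.fa_sp (ord G (G.dist o) k) hk
  rw [← father_eq (G := G) (lev := G.dist o) hk] at h1
  exact h1.1

theorem fth_zero (hG : Qd G) {o v : V} (h : G.dist o v = 0) : fth G o v = v := by
  unfold fth father fa
  rw [dif_neg]
  rintro ⟨w, hw, hw2⟩
  rcases hG.lev hw o with h1 | h1 <;> omega

theorem fth_lev (hG : Qd G) (o v : V) : G.dist o (fth G o v) = G.dist o v - 1 := by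
  rcases Nat.eq_zero_or_pos (G.dist o v) with h | h
  · rw [hG.fth_zero h]
    omega
  · obtain ⟨k, hk⟩ : ∃ k, G.dist o v = k + 1 := ⟨G.dist o v - 1, by omega⟩
    have h1 := hG.fa_sp (ord G (G.dist o) k) hk
    rw [← father_eq (G := G) (lev := G.dist o) hk] at h1
    rw [hk]
    exact h1.2.1

theorem fth_min (hG : Qd G) {o v w : V} (hw : G.Adj w v) (h : G.dist o w + 1 = G.dist o v) :
    ¬ lt G o (G.dist o w) w (fth G o v) := by
  have h1 := (hG.fa_sp (ord G (G.dist o) (G.dist o w)) (k := G.dist o w) (v := v)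
    h.symm).2.2 w hw rfl
  have h2 := father_eq (G := G) (lev := G.dist o) (k := G.dist o w) (v := v) h.symm
  unfold lt fth
  rw [h2]
  exact h1

/-- The order on the next level. -/
theorem lt_succ (_hG : Qd G) {o u v : V} {k : ℕ} (hu : G.dist o u = k + 1)
    (hv : G.dist o v = k + 1) (h : lt G o (k + 1) u v) :
    lt G o k (fth G o u) (fth G o v) ∨ fth G o u = fth G o v := by
  have hlex : Prod.Lex (ord G (G.dist o) k).1 WellOrderingRel
    (fa G (G.dist o) (ord G (G.dist o) k) k u, u) (fa G (G.dist o) (ord G (G.dist o) k) k v, v) := h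
  rw [Prod.lex_def] at hlex
  unfold fth
  rw [father_eq (G := G) (lev := G.dist o) hu, father_eq (G := G) (lev := G.dist o) hv]
  rcases hlex with h1 | ⟨h1, _⟩
  · exact Or.inl h1
  · exact Or.inr h1

/-- The father is a homomorphism, from domination on the level below. -/
theorem hom_of_dom (hG : Qd G) {o : V} {k : ℕ} (hk : 1 ≤ k)
    (hd : ∀ a v y, G.dist o a = k → G.dist o v = k → lt G o k a v → G.Adj y a → G.Adj y v →
      G.dist o y = k + 1 → G.Adj a (fth G o v)) {u x : V} (hux : G.Adj u x)
    (hu : G.dist o u = k) (hx : G.dist o x = k + 1) : G.Adj (fth G o u) (fth G o x) := by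
  have h1 := hG.fth_adj (o := o) (v := x) (by omega)
  have h2 := hG.fth_lev o x
  have h3 := hG.fth_adj (o := o) (v := u) (by omega)
  have h4 := hG.fth_min (o := o) hux (by omega)
  rw [hu] at h4
  rcases lt_tri (G := G) o k (fth G o x) u with h | h | h
  · exact (hd _ _ x (by omega) hu h h1.symm hux.symm hx).symm
  · rw [h]
    exact h3
  · exact absurd h h4

/-- Domination: if `a < v` have a common upper neighbour, then `a` is adjacent to the father
of `v`. -/
theorem dom (hG : Qd G) {o : V} : ∀ (k : ℕ) (a v y : V), G.dist o a = k → G.dist o v = k →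
    lt G o k a v → G.Adj y a → G.Adj y v → G.dist o y = k + 1 → G.Adj a (fth G o v) := by
  intro k
  induction k with
  | zero =>
    intro a v y ha hv hlt _ _ _
    have h1 := hG.eq_zero ha
    have h2 := hG.eq_zero hv
    rw [← h1, ← h2] at hlt
    exact (lt_irrefl' hlt).elim
  | succ k ih =>
    intro a v y ha hv hlt hya hyv hy
    have fa1 := hG.fth_adj (o := o) (v := a) (by omega)
    have fv1 := hG.fth_adj (o := o) (v := v) (by omega)
    have fa2 := hG.fth_lev o a
    have fv2 := hG.fth_lev o v
    rcases hG.lt_succ ha hv hlt with h1 | h1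
    swap
    · rw [← h1]
      exact fa1.symm
    have hne : a ≠ v := by
      rintro rfl
      exact lt_irrefl' hlt
    have hff : fth G o a ≠ fth G o v := by
      intro h
      rw [h] at h1
      exact lt_irrefl' h1
    obtain ⟨t, ht1, ht2, ht3⟩ := hG.qc o y a v hya hyv (by omega) (by omega) hne
    have hk : 1 ≤ k := by
      by_contra hk
      have e1 := hG.eq_zero (a := o) (b := fth G o a) (by omega)
      have e2 := hG.eq_zero (a := o) (b := fth G o v) (by omega)
      exact hff (e1.symm.trans e2)
    have k1 := hG.hom_of_dom hk ih ht1 (by omega) ha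
    have k2 := hG.hom_of_dom hk ih ht2 (by omega) hv
    have k3 := hG.fth_lev o t
    have hnv : ¬ G.Adj (fth G o a) v := by
      intro h
      have h2 := hG.fth_min (o := o) h (by omega)
      have e : G.dist o (fth G o a) = k := by omega
      rw [e] at h2
      exact h2 h1
    have hl : ∀ p q : V, G.dist o p ≠ G.dist o q → p ≠ q := by
      rintro p q h rfl
      exact h rfl
    rcases hG.c6 y a (fth G o a) (fth G o t) (fth G o v) v hya fa1.symm k1.symm k2 fv1 hyv.symm
      (hl _ _ (by omega)) (hl _ _ (by omega)) hff (hl _ _ (by omega)) (hl _ _ (by omega))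
      hne.symm with h | h | h
    · rcases hG.lev h o with h2 | h2 <;> omega
    · exact h
    · exact absurd h hnv

theorem fth_hom (hG : Qd G) {o u x : V} (hux : G.Adj u x) (h : G.dist o u + 1 = G.dist o x)
    (hu : 1 ≤ G.dist o u) : G.Adj (fth G o u) (fth G o x) :=
  hG.hom_of_dom hu (hG.dom _) hux rfl h.symm

/-- Maps that move neighbours to distance at most one are short. -/
theorem lip_of (hG : Qd G) {g : V → V} (hg : ∀ u v, G.Adj u v → G.dist (g u) (g v) ≤ 1) (u v : V) :
    G.dist (g u) (g v) ≤ G.dist u v := by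
  refine (dist_weak (H := G) (F := G) g (fun x y h => ?_) (hG.conn.preconnected u v)).2
  have h1 := hg x y h
  rcases Nat.eq_zero_or_pos (G.dist (g x) (g y)) with h0 | h0
  · exact Or.inl (hG.eq_zero h0)
  · exact Or.inr (hG.adj_of_one (by omega))

theorem fth_lip (hG : Qd G) (o u v : V) : G.dist (fth G o u) (fth G o v) ≤ G.dist u v := by
  refine hG.lip_of (fun u v h => ?_) u v
  wlog hle : G.dist o u + 1 = G.dist o v generalizing u v
  · rw [dist_comm]
    refine this v u h.symm ?_
    rcases hG.lev h o with h1 | h1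
    · exact absurd h1 hle
    · exact h1
  rcases Nat.eq_zero_or_pos (G.dist o u) with h0 | h0
  · have h1 := hG.fth_lev o v
    rw [hG.fth_zero h0, ← hG.eq_zero h0, ← hG.eq_zero (a := o) (b := fth G o v) (by omega),
      dist_self]
    omega
  · exact (hG.one (hG.fth_hom h hle h0)).le

theorem phi_spec (hG : Qd G) (hf : ∀ v, (G.neighborSet v).Finite) {o v : V}
    (h : 2 ≤ G.dist o v) : G.dist o (phi G o v) + 2 = G.dist o v ∧
      ∀ z, G.Adj z v → G.dist o z + 1 = G.dist o v → G.Adj (phi G o v) z := by
  have hex : ∃ y, G.dist o y + 2 = G.dist o v ∧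
      ∀ z, G.Adj z v → G.dist o z + 1 = G.dist o v → G.Adj y z := by
    classical
    have hfin : {z | G.Adj z v ∧ G.dist o z + 1 = G.dist o v}.Finite :=
      (hf v).subset (fun z hz => hz.1.symm)
    have hne : hfin.toFinset.Nonempty := by
      refine ⟨fth G o v, ?_⟩
      rw [Set.Finite.mem_toFinset]
      have := hG.fth_lev o v
      exact ⟨hG.fth_adj (by omega), by omega⟩
    obtain ⟨w, hw, _, hw2⟩ := exists_last (G := G) (lev := G.dist o) hfin.toFinset hne
    rw [Set.Finite.mem_toFinset] at hw
    have lw := hG.fth_lev o w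
    refine ⟨fth G o w, by have := hw.2; omega, fun z hz1 hz2 => ?_⟩
    rcases lt_tri (G := G) o (G.dist o w) z w with h1 | h1 | h1
    · exact (hG.dom (G.dist o w) z w v (by have := hw.2; omega) rfl h1 hz1.symm hw.1.symm
        hw.2.symm).symm
    · rw [h1]
      exact hG.fth_adj (by have := hw.2; omega)
    · refine absurd h1 (hw2 z ?_ (by have := hw.2; omega))
      rw [Set.Finite.mem_toFinset]
      exact ⟨hz1, hz2⟩
  unfold phi
  rw [dif_pos hex]
  exact hex.choose_spec

theorem phi_low {o v : V} (h : G.dist o v ≤ 1) : phi G o v = o := by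
  unfold phi
  rw [dif_neg]
  rintro ⟨y, hy, _⟩
  omega

theorem phi_lev (hG : Qd G) (hf : ∀ v, (G.neighborSet v).Finite) (o v : V) :
    G.dist o (phi G o v) = G.dist o v - 2 := by
  rcases Nat.lt_or_ge (G.dist o v) 2 with h | h
  · rw [phi_low (by omega), dist_self]
    omega
  · have := (hG.phi_spec hf h).1
    omega

/-- The projection of an upper vertex is adjacent to the lower vertex. -/
theorem phi_up (hG : Qd G) (hf : ∀ v, (G.neighborSet v).Finite) {o u v : V} (h : G.Adj u v)
    (hl : G.dist o u + 1 = G.dist o v) (hu : 1 ≤ G.dist o u) : G.Adj (phi G o v) u :=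
  (hG.phi_spec hf (o := o) (v := v) (by omega)).2 u h hl

theorem phi_hom (hG : Qd G) (hf : ∀ v, (G.neighborSet v).Finite) {o u v : V} (h : G.Adj u v)
    (hl : G.dist o u + 1 = G.dist o v) (hu : 2 ≤ G.dist o u) :
    G.Adj (phi G o u) (phi G o v) := by
  have h1 := hG.phi_up hf h hl (by omega)
  have h2 := (hG.phi_spec hf (o := o) (v := v) (by omega)).1
  exact hG.phi_up hf h1 (by omega) (by omega)

theorem phi_lip (hG : Qd G) (hf : ∀ v, (G.neighborSet v).Finite) (o u v : V) :
    G.dist (phi G o u) (phi G o v) ≤ G.dist u v := by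
  refine hG.lip_of (fun u v h => ?_) u v
  wlog hle : G.dist o u + 1 = G.dist o v generalizing u v
  · rw [dist_comm]
    refine this v u h.symm ?_
    rcases hG.lev h o with h1 | h1
    · exact absurd h1 hle
    · exact h1
  rcases Nat.lt_or_ge (G.dist o u) 2 with h0 | h0
  · rcases Nat.lt_or_ge (G.dist o u) 1 with h1 | h1
    · rw [phi_low (by omega), phi_low (by omega), dist_self]
      omega
    · have h2 := hG.phi_up hf h hle h1
      have h3 := hG.phi_lev hf o v
      rw [← hG.eq_zero (a := o) (b := phi G o v) (by omega), phi_low (by omega), dist_self]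
      omega
  · exact (hG.one (hG.phi_hom hf h hle h0)).le

end Qd

end Pool.Agent.H169Q
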