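import Pool.Agent.helper169_quad.Flat

/-!
# Levels of cells and vertices in a C(4)-T(4) complex
-/

set_option autoImplicit false

namespace Pool.Agent.H169Q

namespace Fl

variable {V E Φ K C : Type*} {F : Fl V E Φ K C}

/-- the first vertex of a flag -/
def vx (F : Fl V E Φ K C) (φ : Φ) : V := F.src (F.fst φ)

theorem vx_rev (φ : Φ) : F.vx (F.rev φ) = F.vx φ := src_rev φ

theorem vx_next (φ : Φ) : F.vx (F.adv 1 φ) = F.src (F.inv (F.fst φ)) := (F.next φ).symm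

theorem vx_agr {φ ψ : Φ} {n : ℤ} (h : F.Agr φ ψ n) (hn : 0 < n) {t : ℤ} (h0 : 0 ≤ t)
    (h1 : t ≤ n) : F.vx (F.adv t φ) = F.vx (F.adv t ψ) := by
  rcases lt_or_eq_of_le h1 with h2 | rfl
  · unfold vx
    rw [h t h0 h2]
  · have e : ∀ χ : Φ, F.vx (F.adv t χ) = F.src (F.inv (F.fst (F.adv (t - 1) χ))) := by
      intro χ
      rw [← vx_next, F.adv_add]
      congr 2
      ring
    rw [e, e, h (t - 1) (by omega) (by omega)]

/-- the data of a developed complex with a base vertex -/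
structure Dev (F : Fl V E Φ K C) where
  hC : F.C4
  hT : F.T4
  k : Cor F
  hF : ∀ o, (F.sqs' hC hT k).FlatAt o
  hk : ∀ c, ∃ φ, F.cl φ = c
  z : V

namespace Dev

variable (D : Dev F)

/-- the incidence graph -/
def Y : SimpleGraph (V ⊕ C' F) := (F.sqs' D.hC D.hT D.k).gr

/-- levels of vertices -/
noncomputable def lv (v : V) : ℕ := D.Y.dist (Sum.inl D.z) (Sum.inl v)

/-- levels of cells -/
noncomputable def lc (c : C) : ℕ := D.Y.dist (Sum.inl D.z) (Sum.inr (Sum.inl c))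

/-- levels of isolated edges -/
noncomputable def li (e : {e : E // Iso F e}) : ℕ :=
  D.Y.dist (Sum.inl D.z) (Sum.inr (Sum.inr ⟨{e.1, F.inv e.1}, e.1, e.2, rfl⟩))

theorem qd : Qd D.Y := by
  have : Nonempty (V ⊕ C' F) := ⟨Sum.inl D.z⟩
  exact SqS.qd D.hF

theorem adj (κ : K' F) : D.Y.Adj (Sum.inl (D.k.vk' κ)) (Sum.inr (D.k.ck' κ)) :=
  SqS.adj_of D.hF (κ, true)

theorem vk_cn (φ : Φ) : D.k.vk' (Sum.inl (F.cn φ)) = F.vx φ := D.k.hv φ

theorem ck_cn (φ : Φ) : D.k.ck' (Sum.inl (F.cn φ)) = Sum.inl (F.cl φ) :=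
  congrArg Sum.inl (D.k.hc φ)

theorem adj_cn (φ : Φ) : D.Y.Adj (Sum.inl (F.vx φ)) (Sum.inr (Sum.inl (F.cl φ))) := by
  have := D.adj (Sum.inl (F.cn φ))
  rwa [D.vk_cn, D.ck_cn] at this

/-- neighbours of vertices -/
theorem of_adj {v : V} {w : V ⊕ C' F} (h : D.Y.Adj (Sum.inl v) w) :
    ∃ κ : K' F, D.k.vk' κ = v ∧ w = Sum.inr (D.k.ck' κ) := by
  obtain ⟨_, ⟨κ, b⟩, h1, h2⟩ := h
  cases b with
  | true =>
    have h3 : (Sum.inl (D.k.vk' κ) : V ⊕ C' F) = Sum.inl v := h1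
    have h4 : (Sum.inr (D.k.ck' κ) : V ⊕ C' F) = w := h2
    exact ⟨κ, Sum.inl_injective h3, h4.symm⟩
  | false =>
    have h3 : (Sum.inr (D.k.ck' κ) : V ⊕ C' F) = Sum.inl v := h1
    cases h3

/-- neighbours of cells -/
theorem of_adj' {c : C' F} {w : V ⊕ C' F} (h : D.Y.Adj w (Sum.inr c)) :
    ∃ κ : K' F, D.k.ck' κ = c ∧ w = Sum.inl (D.k.vk' κ) := by
  obtain ⟨_, ⟨κ, b⟩, h1, h2⟩ := h
  cases b with
  | true =>
    have h3 : (Sum.inl (D.k.vk' κ) : V ⊕ C' F) = w := h1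
    have h4 : (Sum.inr (D.k.ck' κ) : V ⊕ C' F) = Sum.inr c := h2
    exact ⟨κ, Sum.inr_injective h4, h3.symm⟩
  | false =>
    have h3 : (Sum.inl (D.k.vk' κ) : V ⊕ C' F) = Sum.inr c := h2
    cases h3

/-- a cell passes at most once through a vertex -/
theorem uniq {κ κ' : K' F} (h : D.k.vk' κ = D.k.vk' κ') (h' : D.k.ck' κ = D.k.ck' κ') :
    κ = κ' := by
  have : Nonempty (V ⊕ C' F) := ⟨Sum.inl D.z⟩
  have h1 := SqS.uniq D.hF (e := (κ, true)) (e' := (κ', true))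
    (show (Sum.inl (D.k.vk' κ) : V ⊕ C' F) = Sum.inl (D.k.vk' κ') by rw [h])
    (show (Sum.inr (D.k.ck' κ) : V ⊕ C' F) = Sum.inr (D.k.ck' κ') by rw [h'])
  exact congrArg Prod.fst h1

include D in
theorem uniq_cn {φ ψ : Φ} (h : F.vx φ = F.vx ψ) (h' : F.cl φ = F.cl ψ) : F.cn φ = F.cn ψ := by
  have := D.uniq (κ := Sum.inl (F.cn φ)) (κ' := Sum.inl (F.cn ψ))
    (by rw [D.vk_cn, D.vk_cn, h]) (by rw [D.ck_cn, D.ck_cn, h'])
  exact Sum.inl_injective this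

theorem lev (φ : Φ) : D.lv (F.vx φ) + 1 = D.lc (F.cl φ) ∨ D.lc (F.cl φ) + 1 = D.lv (F.vx φ) :=
  D.qd.lev (D.adj_cn φ) (Sum.inl D.z)

/-- two common edges of vertices with one cell below -/
theorem sq_dn0 {ψ ψ' : Φ} (hc : F.cl ψ = F.cl ψ') (hne : F.cn ψ ≠ F.cn ψ')
    (h1 : D.lv (F.vx ψ) + 1 = D.lc (F.cl ψ)) (h2 : D.lv (F.vx ψ') + 1 = D.lc (F.cl ψ)) :
    ∃ (χ ψ1 : Φ) (n : ℤ), 0 < n ∧ n < F.len χ ∧ n < F.len ψ1 ∧ F.cn ψ = F.cn ψ1 ∧
      F.cn ψ' = F.cn (F.adv n ψ1) ∧ F.Agr χ ψ1 n ∧ D.lc (F.cl χ) + 2 = D.lc (F.cl ψ) := by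
  have : Nonempty (V ⊕ C' F) := ⟨Sum.inl D.z⟩
  obtain ⟨p, q, h3, h4⟩ := SqS.qcs D.hF (Sum.inl D.z)
    (e := (Sum.inl (F.cn ψ), true)) (e' := (Sum.inl (F.cn ψ'), true))
    (by
      show (Sum.inr (D.k.ck' (Sum.inl (F.cn ψ))) : V ⊕ C' F) =
        Sum.inr (D.k.ck' (Sum.inl (F.cn ψ')))
      rw [D.ck_cn, D.ck_cn, hc])
    (by
      show D.Y.dist _ (Sum.inl (D.k.vk' (Sum.inl (F.cn ψ)))) + 1 =
        D.Y.dist _ (Sum.inr (D.k.ck' (Sum.inl (F.cn ψ))))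
      rw [D.vk_cn, D.ck_cn]
      exact h1)
    (by
      show D.Y.dist _ (Sum.inl (D.k.vk' (Sum.inl (F.cn ψ')))) + 1 =
        D.Y.dist _ (Sum.inr (D.k.ck' (Sum.inl (F.cn ψ'))))
      rw [D.vk_cn, D.ck_cn, ← hc]
      exact h2)
    (by
      intro h
      apply hne
      have := congrArg Prod.fst h
      exact Sum.inl_injective this)
  obtain ⟨a, b, c, d, rfl, hb, rfl, hd, hsq⟩ := h3
  have hb' : (F.cn ψ, true) = b := emb_inj hb
  have hd' : (F.cn ψ', true) = d := emb_inj hd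
  subst hb' hd'
  rcases hsq with ⟨_, h5, _⟩ | ⟨h5, h6, h7, h8, h9⟩
  · cases h5
  · obtain ⟨_, χ, ψ1, n, hn, n1, n2, k1, k2, k3, k4, hA⟩ := h9
    refine ⟨χ, ψ1, n, hn, n1, n2, k3, k4, hA, ?_⟩
    have h10 : D.Y.dist (Sum.inl D.z) (Sum.inr (D.k.ck' (Sum.inl a.1))) + 1 =
        D.Y.dist (Sum.inl D.z) (Sum.inl (D.k.vk' (Sum.inl (F.cn ψ)))) := by
      have e1 : (F.sqs' D.hC D.hT D.k).src (emb F a) = Sum.inr (D.k.ck' (Sum.inl a.1)) := by
        show (if a.2 then _ else _) = _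
        rw [h5]
        rfl
      rw [← e1]
      exact h4
    rw [k1, D.ck_cn, D.vk_cn] at h10
    have h11 : D.lc (F.cl χ) + 1 = D.lv (F.vx ψ) := h10
    omega

/-- two vertices below a cell are joined by a path in a lower cell -/
theorem sq_dn {φ : Φ} {i j : ℤ} (h1 : D.lv (F.vx (F.adv i φ)) + 1 = D.lc (F.cl φ))
    (h2 : D.lv (F.vx (F.adv j φ)) + 1 = D.lc (F.cl φ)) (hne : F.adv i φ ≠ F.adv j φ) :
    ∃ (χ : Φ) (n : ℤ), 0 < n ∧ n < F.len φ ∧ D.lc (F.cl χ) + 2 = D.lc (F.cl φ) ∧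
      ((F.Agr (F.adv i φ) χ n ∧ F.adv (i + n) φ = F.adv j φ) ∨
        (F.Agr (F.adv j φ) χ n ∧ F.adv (j + n) φ = F.adv i φ)) := by
  obtain ⟨χ, ψ, n, hn, n1, n2, k1, k2, hA, hl⟩ := D.sq_dn0 (ψ := F.adv i φ) (ψ' := F.adv j φ)
    (by rw [F.cl_adv, F.cl_adv]) (fun h => hne (cn_adv h)) (by rw [F.cl_adv]; exact h1)
    (by rw [F.cl_adv]; exact h2)
  rw [F.cl_adv] at hl
  rcases F.cn_eq _ _ k1.symm with h | h
  · -- forward
    subst h
    refine ⟨χ, n, hn, by rw [F.len_adv] at n2; exact n2, hl, Or.inl ⟨hA.symm, ?_⟩⟩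
    rw [F.adv_add] at k2
    rw [add_comm]
    exact (cn_adv k2).symm
  · -- backward
    subst h
    have e1 : F.adv n (F.rev (F.adv i φ)) = F.rev (F.adv (i - n) φ) := by
      rw [← neg_neg n, ← F.rev_adv, F.adv_add]
      congr 2
      ring
    rw [e1, F.cn_rev] at k2
    have k3 := cn_adv k2
    refine ⟨F.rev (F.adv n χ), n, hn, by rw [F.len_rev, F.len_adv] at n2; exact n2,
      by rw [F.cl_rev, F.cl_adv]; exact hl, Or.inr ⟨?_, ?_⟩⟩
    · have h3 := hA.rev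
      rw [e1, F.rev_rev, ← k3] at h3
      exact h3.symm
    · rw [add_comm, ← F.adv_add, k3, F.adv_add]
      congr 1
      ring

/-- two cells below a vertex have a common path to a lower vertex -/
theorem sq_up {φ γ : Φ} (hv : F.vx φ = F.vx γ) (hne : F.cl φ ≠ F.cl γ)
    (h1 : D.lc (F.cl φ) + 1 = D.lv (F.vx φ)) (h2 : D.lc (F.cl γ) + 1 = D.lv (F.vx φ)) :
    ∃ (φ2 γ2 : Φ) (n : ℤ), (φ2 = φ ∨ φ2 = F.rev φ) ∧ (γ2 = γ ∨ γ2 = F.rev γ) ∧ 0 < n ∧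
      n < F.len φ ∧ n < F.len γ ∧ F.Agr φ2 γ2 n ∧
      D.lv (F.vx (F.adv n φ2)) + 1 = D.lc (F.cl φ) := by
  have : Nonempty (V ⊕ C' F) := ⟨Sum.inl D.z⟩
  obtain ⟨p, q, h3, h4⟩ := SqS.qcs D.hF (Sum.inl D.z)
    (e := (Sum.inl (F.cn φ), false)) (e' := (Sum.inl (F.cn γ), false))
    (by
      show (Sum.inl (D.k.vk' (Sum.inl (F.cn φ))) : V ⊕ C' F) =
        Sum.inl (D.k.vk' (Sum.inl (F.cn γ)))
      rw [D.vk_cn, D.vk_cn, hv])
    (by
      show D.Y.dist _ (Sum.inr (D.k.ck' (Sum.inl (F.cn φ)))) + 1 =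
        D.Y.dist _ (Sum.inl (D.k.vk' (Sum.inl (F.cn φ))))
      rw [D.vk_cn, D.ck_cn]
      exact h1)
    (by
      show D.Y.dist _ (Sum.inr (D.k.ck' (Sum.inl (F.cn γ)))) + 1 =
        D.Y.dist _ (Sum.inl (D.k.vk' (Sum.inl (F.cn γ))))
      rw [D.vk_cn, D.ck_cn, ← hv]
      exact h2)
    (by
      intro h
      apply hne
      have h5 := Sum.inl_injective (congrArg Prod.fst h)
      rw [← D.k.hc, ← D.k.hc, h5])
  obtain ⟨a, b, c, d, rfl, hb, rfl, hd, hsq⟩ := h3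
  have hb' : (F.cn φ, false) = b := emb_inj hb
  have hd' : (F.cn γ, false) = d := emb_inj hd
  subst hb' hd'
  rcases hsq with ⟨h5, h6, h7, h8, h9⟩ | ⟨_, h5, _⟩
  · obtain ⟨_, φ1, γ1, n, hn, n1, n2, k1, k2, k3, k4, hA⟩ := h9
    have k2' : F.cn (F.adv n φ1) = F.cn φ := k2.symm
    have k4' : F.cn (F.adv n γ1) = F.cn γ := k4.symm
    have e0 : ∀ χ : Φ, F.adv n (F.rev (F.adv n χ)) = F.rev χ := by
      intro χ
      rw [F.rev_adv, F.adv_add, add_neg_cancel, F.adv_zero]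
    have hor : ∀ {α β : Φ}, F.cn α = F.cn β → F.rev α = β ∨ F.rev α = F.rev β := by
      intro α β h
      rcases F.cn_eq _ _ h with h | h
      · right
        rw [h]
      · left
        rw [h, F.rev_rev]
    have hlen : ∀ {α β : Φ}, F.cn (F.adv n α) = F.cn β → F.len α = F.len β := by
      intro α β h
      rcases F.cn_eq _ _ h with h | h
      · rw [← h, F.len_adv]
      · rw [← F.len_rev β, ← h, F.len_adv]
    refine ⟨F.rev (F.adv n φ1), F.rev (F.adv n γ1), n, hor k2', hor k4', hn, ?_, ?_, hA.rev, ?_⟩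
    · rw [← hlen k2']
      exact n1
    · rw [← hlen k4']
      exact n2
    · rw [e0, vx_rev]
      have e1 : (F.sqs' D.hC D.hT D.k).src (emb F a) = Sum.inl (D.k.vk' (Sum.inl a.1)) := by
        show (if a.2 then _ else _) = _
        rw [h5]
        rfl
      rw [e1, k1, D.vk_cn] at h4
      exact h4.trans (by
        show D.Y.dist _ (Sum.inr (D.k.ck' (Sum.inl (F.cn φ)))) = _
        rw [D.ck_cn]
        rfl)
  · cases h5

/-- isolated edges are in no square -/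
theorem iso_dn {e : {e : E // Iso F e}} {κ : K' F} (hv : F.src e.1 = D.k.vk' κ)
    (hne : κ ≠ Sum.inr e) (h1 : D.li e + 1 = D.lv (F.src e.1))
    (h2 : D.Y.dist (Sum.inl D.z) (Sum.inr (D.k.ck' κ)) + 1 = D.lv (F.src e.1)) : False := by
  have : Nonempty (V ⊕ C' F) := ⟨Sum.inl D.z⟩
  obtain ⟨p, q, h3, h4⟩ := SqS.qcs D.hF (Sum.inl D.z)
    (e := (Sum.inr e, false)) (e' := (κ, false))
    (by
      show (Sum.inl (F.src e.1) : V ⊕ C' F) = Sum.inl (D.k.vk' κ)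
      rw [hv]) h1
    (by
      show D.Y.dist _ (Sum.inr (D.k.ck' κ)) + 1 = D.Y.dist _ (Sum.inl (D.k.vk' κ))
      rw [← hv]
      exact h2)
    (by
      intro h
      exact hne (congrArg Prod.fst h).symm)
  obtain ⟨a, b, c, d, _, hb, _⟩ := h3
  have := congrArg Prod.fst hb
  cases this

/-- isolated edges are in no square -/
theorem iso_up {e : {e : E // Iso F e}} (h1 : D.lv (F.src e.1) + 1 = D.li e)
    (h2 : D.lv (F.src (F.inv e.1)) + 1 = D.li e) : False := by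
  have : Nonempty (V ⊕ C' F) := ⟨Sum.inl D.z⟩
  have hcell : D.k.ck' (Sum.inr ⟨F.inv e.1, e.2.inv⟩) = D.k.ck' (Sum.inr e) := by
    show Sum.inr _ = Sum.inr _
    congr 1
    apply Subtype.ext
    show ({F.inv e.1, F.inv (F.inv e.1)} : Set E) = {e.1, F.inv e.1}
    rw [F.ii, Set.pair_comm]
  obtain ⟨p, q, h3, h4⟩ := SqS.qcs D.hF (Sum.inl D.z)
    (e := (Sum.inr e, true)) (e' := (Sum.inr ⟨F.inv e.1, e.2.inv⟩, true))
    (by
      show (Sum.inr (D.k.ck' (Sum.inr e)) : V ⊕ C' F) =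
        Sum.inr (D.k.ck' (Sum.inr ⟨F.inv e.1, e.2.inv⟩))
      rw [hcell]) h1
    (by
      show D.lv (F.src (F.inv e.1)) + 1 =
        D.Y.dist _ (Sum.inr (D.k.ck' (Sum.inr ⟨F.inv e.1, e.2.inv⟩)))
      rw [hcell]
      exact h2)
    (by
      intro h
      have h5 := Sum.inr_injective (congrArg Prod.fst h)
      exact F.inv_ne e.1 (congrArg Subtype.val h5).symm)
  obtain ⟨a, b, c, d, _, hb, _⟩ := h3
  have := congrArg Prod.fst hb
  cases this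

end Dev

end Fl

end Pool.Agent.H169Q
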