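import Pool.Agent.helper169_quad.Geo

/-!
# Every cell has an edge in no other cell of lower or equal level
-/

set_option autoImplicit false

namespace Pool.Agent.H169Q

namespace Fl

variable {V E Φ K C : Type*} {F : Fl V E Φ K C}

theorem adv_eq_iff {i j : ℤ} {φ : Φ} : F.adv i φ = F.adv j φ ↔ (F.len φ : ℤ) ∣ i - j := adv_eq_adv

theorem agr_one {φ ψ : Φ} (h : F.fst φ = F.fst ψ) : F.Agr φ ψ 1 := by
  intro t h1 h2
  have : t = 0 := by omega
  rw [this, F.adv_zero, F.adv_zero, h]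

namespace Dev

variable (D : Dev F)

/-- the first edge of the flag is in no other cell of lower or equal level -/
def Free (φ : Φ) : Prop := ∀ χ, F.fst χ = F.fst φ → D.lc (F.cl χ) ≤ D.lc (F.cl φ) → χ = φ

/-- every cell at a positive level has a vertex below -/
theorem ex_below {φ : Φ} (h : 0 < D.lc (F.cl φ)) :
    ∃ i : ℤ, D.lv (F.vx (F.adv i φ)) + 1 = D.lc (F.cl φ) := by
  obtain ⟨n, hn⟩ : ∃ n, D.lc (F.cl φ) = n + 1 := ⟨D.lc (F.cl φ) - 1, by omega⟩
  obtain ⟨u, hu1, hu2⟩ := Pool.Agent.Q255.Bridged.exists_parent (G := D.Y) hn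
  obtain ⟨κ, h1, rfl⟩ := D.of_adj' hu1
  rcases κ with κ | e
  · obtain ⟨ψ, rfl⟩ := D.k.sur κ
    rw [D.ck_cn] at h1
    have h2 : F.cl ψ = F.cl φ := Sum.inl_injective h1
    rw [D.vk_cn] at hu2
    have h3 : D.lv (F.vx ψ) = n := hu2
    obtain ⟨m, h4 | h4⟩ := F.cl_eq φ ψ h2.symm
    · exact ⟨m, by rw [← h4]; omega⟩
    · refine ⟨-m, ?_⟩
      have : F.vx (F.adv (-m) φ) = F.vx ψ := by
        rw [← vx_rev, F.rev_adv, neg_neg, h4]
      rw [this]
      omega
  · cases h1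

/-- adjacency in one cell, forward or backward -/
theorem dir {φ χ : Φ} (h : F.fst φ = F.fst χ) {γ : Φ} (h1 : γ = F.adv 1 χ ∨ γ = F.rev (F.adv 1 χ))
    (h2 : F.fst γ = F.fst (F.adv 1 φ)) : γ = F.adv 1 χ := by
  rcases h1 with h1 | h1
  · exact h1
  · exfalso
    rw [h1, F.fst_rev, F.adv_add, neg_add_cancel, F.adv_zero, ← h] at h2
    apply F.imm (F.adv 1 φ)
    rw [F.fst_rev, F.adv_add, neg_add_cancel, F.adv_zero]
    exact h2

theorem exists_free {φ0 : Φ} (hpos : 0 < D.lc (F.cl φ0)) : ∃ m : ℤ, D.Free (F.adv m φ0) := by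
  classical
  by_contra hcon
  push Not at hcon
  -- every edge is in another cell
  have hE0 : ∀ m : ℤ, ∃ χ, F.cl χ ≠ F.cl φ0 ∧ D.lc (F.cl χ) ≤ D.lc (F.cl φ0) ∧
      F.fst (F.adv m φ0) = F.fst χ := by
    intro m
    have h := hcon m
    unfold Free at h
    push Not at h
    obtain ⟨χ, h1, h2, h3⟩ := h
    rw [F.cl_adv] at h2
    refine ⟨χ, fun h4 => h3 ?_, h2, h1.symm⟩
    have h5 : F.cn χ = F.cn (F.adv m φ0) := D.uniq_cn (by unfold vx; rw [h1])
      (by rw [F.cl_adv, h4])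
    exact eq_of_fst h5 h1
  set l := D.lc (F.cl φ0) with hl
  -- the longest base path
  let P : ℕ → Prop := fun s => ∃ i : ℤ, D.lv (F.vx (F.adv i φ0)) + 1 = l ∧
    D.lv (F.vx (F.adv (i + s) φ0)) + 1 = l ∧
    (s = 0 ∨ ∃ χ, D.lc (F.cl χ) + 2 = l ∧ F.Agr (F.adv i φ0) χ s)
  have hL : 0 < F.len φ0 := F.len_pos φ0
  have hP0 : P 0 := by
    obtain ⟨i, hi⟩ := D.ex_below hpos
    exact ⟨i, hi, by rw [show i + ((0 : ℕ) : ℤ) = i by simp]; exact hi, Or.inl rfl⟩
  obtain ⟨i0, hs0, hs1, hs2⟩ := Nat.findGreatest_spec (P := P) (n := F.len φ0 - 1)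
    (Nat.zero_le _) hP0
  have hsle : Nat.findGreatest P (F.len φ0 - 1) ≤ F.len φ0 - 1 := Nat.findGreatest_le _
  have hmax0 : ∀ s', Nat.findGreatest P (F.len φ0 - 1) < s' → s' ≤ F.len φ0 - 1 → ¬ P s' :=
    fun s' h1 h2 => Nat.findGreatest_is_greatest h1 h2
  set s := Nat.findGreatest P (F.len φ0 - 1) with hs
  -- shift
  obtain ⟨φ, hφ⟩ : ∃ φ, φ = F.adv i0 φ0 := ⟨_, rfl⟩
  have hsh : ∀ m : ℤ, F.adv m φ = F.adv (m + i0) φ0 := fun m => by rw [hφ, F.adv_add]
  have hlen : F.len φ = F.len φ0 := by rw [hφ, F.len_adv]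
  have hcl : F.cl φ = F.cl φ0 := by rw [hφ, F.cl_adv]
  have hE : ∀ m : ℤ, ∃ χ, F.cl χ ≠ F.cl φ ∧ D.lc (F.cl χ) ≤ l ∧
      F.fst (F.adv m φ) = F.fst χ := by
    intro m
    rw [hcl, hsh]
    exact hE0 _
  set n := F.len φ with hn
  have hsn : s < n := by omega
  have hlvl : D.lc (F.cl φ) = l := by rw [hcl]
  have b0 : D.lv (F.vx φ) + 1 = l := by
    rw [hφ]
    exact hs0
  have b1 : D.lv (F.vx (F.adv s φ)) + 1 = l := by
    rw [hsh, add_comm (s : ℤ) i0]
    exact hs1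
  have hmax : ∀ s' : ℤ, s < s' → s' < n → ∀ i : ℤ, D.lv (F.vx (F.adv i φ)) + 1 = l →
      D.lv (F.vx (F.adv (i + s') φ)) + 1 = l →
      ∀ χ, D.lc (F.cl χ) + 2 = l → F.Agr (F.adv i φ) χ s' → False := by
    intro s' h1 h2 i h3 h4 χ h5 h6
    obtain ⟨t, rfl⟩ := Int.eq_ofNat_of_zero_le (show 0 ≤ s' by omega)
    refine hmax0 t (by omega) (by omega) ⟨i + i0, ?_, ?_, Or.inr ⟨χ, h5, ?_⟩⟩
    · rw [← hsh]
      exact h3
    · rw [show i + i0 + (t : ℤ) = i + t + i0 by ring, ← hsh]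
      exact h4
    · rw [← hsh]
      exact h6
  -- shared paths
  let Sh : ℤ → ℤ → Prop := fun i t => t = 0 ∨ ∃ χ, F.cl χ ≠ F.cl φ ∧ F.Agr (F.adv i φ) χ t
  have hpc : ∀ i t, Sh i t → F.Pc (F.adv i φ) t := by
    rintro i t (h | ⟨χ, h1, h2⟩)
    · exact Or.inl h
    · refine Or.inr ⟨χ, fun h3 => h1 ?_, h2⟩
      rw [← h3.1, F.cl_adv]
  have hC4 : ∀ a b : ℤ, 0 ≤ a → a ≤ b → b ≤ n → Sh 0 a → Sh a (b - a) → Sh b (n - b) →
      False := by
    intro a b ha hab hb h1 h2 h3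
    have h1' := hpc _ _ h1
    rw [F.adv_zero] at h1'
    exact D.hC φ a b ha hab hb h1' (hpc _ _ h2) (hpc _ _ h3)
  have hlow : ∀ χ, D.lc (F.cl χ) + 2 = l → F.cl χ ≠ F.cl φ := by
    intro χ h1 h2
    rw [h2, hlvl] at h1
    omega
  have hShs : Sh 0 s := by
    rcases hs2 with h | ⟨χ, h1, h2⟩
    · exact Or.inl (by exact_mod_cast h)
    · refine Or.inr ⟨χ, hlow χ h1, ?_⟩
      rw [F.adv_zero, hφ]
      exact h2
  have hdvd : ∀ m : ℤ, (n : ℤ) ∣ m → -(n : ℤ) < m → m < n → m = 0 := by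
    intro m h1 h2 h3
    exact Int.eq_zero_of_abs_lt_dvd h1 (abs_lt.2 ⟨h2, h3⟩)
  -- no other vertex below
  have hA : ∀ j : ℤ, s < j → j < n → D.lv (F.vx (F.adv j φ)) + 1 ≠ l := by
    intro j hj1 hj2 hj
    have hne1 : F.adv 0 φ ≠ F.adv j φ := by
      intro h
      have := hdvd _ (adv_eq_iff.1 h) (by omega) (by omega)
      omega
    have hne2 : F.adv s φ ≠ F.adv j φ := by
      intro h
      have := hdvd _ (adv_eq_iff.1 h) (by omega) (by omega)
      omega
    obtain ⟨χ, t, ht0, ht1, hχ, h1⟩ := D.sq_dn (φ := φ) (i := 0) (j := j)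
      (by rw [F.adv_zero, hlvl]; exact b0) (by rw [hlvl]; exact hj) hne1
    obtain ⟨χ', t', ht0', ht1', hχ', h2⟩ := D.sq_dn (φ := φ) (i := s) (j := j)
      (by rw [hlvl]; exact b1) (by rw [hlvl]; exact hj) hne2
    rw [hlvl] at hχ hχ'
    have k1 : Sh j (n - j) := by
      rcases h1 with ⟨h3, h4⟩ | ⟨h3, h4⟩
      · exfalso
        have h5 := hdvd _ (adv_eq_iff.1 h4) (by omega) (by omega)
        have e : t = j := by omega
        subst e
        exact hmax t hj1 hj2 0 (by rw [F.adv_zero]; exact b0) (by rw [zero_add]; exact hj) χ hχ h3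
      · have h5 := adv_eq_iff.1 h4
        rw [sub_zero] at h5
        have h6 := hdvd (j + t - n) (dvd_sub h5 (dvd_refl _)) (by omega) (by omega)
        have e : t = n - j := by omega
        rw [e] at h3
        exact Or.inr ⟨χ, hlow χ hχ, h3⟩
    have k2 : Sh s (j - s) := by
      rcases h2 with ⟨h3, h4⟩ | ⟨h3, h4⟩
      · have h5 := adv_eq_iff.1 h4
        have h6 : t' = j - s := by
          rcases lt_or_ge (s + t' - j) n with h | h
          · have := hdvd _ h5 (by omega) h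
            omega
          · omega
        rw [h6] at h3
        exact Or.inr ⟨χ', hlow χ' hχ', h3⟩
      · exfalso
        have h5 := adv_eq_iff.1 h4
        have h6 := hdvd (j + t' - s - n) (dvd_sub h5 (dvd_refl _)) (by omega) (by omega)
        refine hmax t' (by omega) ht1' j hj ?_ χ' hχ' h3
        rw [h4]
        exact b1
    exact hC4 s j (by omega) (by omega) (by omega) hShs k2 k1
  have hB : ∀ j : ℤ, s < j → j < n → l + 1 = D.lv (F.vx (F.adv j φ)) := by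
    intro j h1 h2
    have h3 := D.lev (F.adv j φ)
    rw [F.cl_adv, hlvl] at h3
    rcases h3 with h3 | h3
    · exact absurd h3 (hA j h1 h2)
    · exact h3
  -- the longest shared path on the left
  let Q : ℕ → Prop := fun j => s ≤ j ∧ Sh s (j - s)
  have hQs : Q s := ⟨le_rfl, Or.inl (sub_self _)⟩
  obtain ⟨q1, q2⟩ := Nat.findGreatest_spec (P := Q) (n := n - 1) (by omega) hQs
  have q3 : Nat.findGreatest Q (n - 1) ≤ n - 1 := Nat.findGreatest_le _
  have q4 : ∀ j, Nat.findGreatest Q (n - 1) < j → j ≤ n - 1 → ¬ Q j :=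
    fun j h1 h2 => Nat.findGreatest_is_greatest h1 h2
  set j := Nat.findGreatest Q (n - 1) with hj
  obtain ⟨χ, hχ1, hχ2, hχ3⟩ := hE j
  rcases Nat.lt_or_ge (j + 1) n with hjn | hjn
  swap
  · -- the last edge
    have e : (n : ℤ) - j = 1 := by omega
    refine hC4 s j (by omega) (by omega) (by omega) hShs q2 (Or.inr ⟨χ, hχ1, ?_⟩)
    rw [e]
    exact agr_one hχ3
  · have hl1 : l + 1 = D.lv (F.vx (F.adv (j + 1 : ℤ) φ)) := hB _ (by omega) (by omega)
    have hvx : F.vx (F.adv (j + 1 : ℤ) φ) = F.vx (F.adv 1 χ) := by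
      rw [add_comm (j : ℤ) 1, ← F.adv_add, vx_next, vx_next, hχ3]
    have hlχ : D.lc (F.cl χ) = l := by
      have h1 := D.lev (F.adv 1 χ)
      rw [F.cl_adv, ← hvx, ← hl1] at h1
      omega
    obtain ⟨φ2, γ2, t, k1, k2, k3, k4, k5, k6, k7⟩ := D.sq_up (φ := F.adv (j + 1 : ℤ) φ)
      (γ := F.adv 1 χ) hvx (by rw [F.cl_adv, F.cl_adv]; exact hχ1.symm)
      (by rw [F.cl_adv, hlvl]; exact hl1) (by rw [F.cl_adv, hlχ]; exact hl1)
    rw [F.len_adv] at k4
    rw [F.cl_adv, hlvl] at k7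
    rcases k1 with k1 | k1
    · -- forward
      subst k1
      have h1 : n ≤ j + 1 + t := by
        by_contra h2
        apply hA (j + 1 + t) (by omega) (by omega)
        rw [F.adv_add] at k7
        rw [show (j : ℤ) + 1 + t = t + (j + 1) by ring]
        exact k7
      have h2 : γ2 = F.adv 1 χ := by
        refine dir hχ3 k2 ?_
        rw [← k6.fst k3, F.adv_add, add_comm (1 : ℤ) (j : ℤ)]
      subst h2
      refine hC4 s j (by omega) (by omega) (by omega) hShs q2 (Or.inr ⟨χ, hχ1, ?_⟩)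
      have h3 := (agr_one hχ3).add (n := n - j - 1) (by
        rw [F.adv_add, add_comm (1 : ℤ) (j : ℤ)]
        exact k6.mono (by omega))
      rw [show (n : ℤ) - j = 1 + (n - j - 1) by ring]
      exact h3
    · -- backward
      subst k1
      have e1 : ∀ t : ℤ, F.adv t (F.rev (F.adv (j + 1 : ℤ) φ)) =
          F.rev (F.adv (j + 1 - t : ℤ) φ) := by
        intro t
        rw [← neg_neg t, ← F.rev_adv, F.adv_add]
        congr 2
        ring
      rw [e1, vx_rev] at k7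
      have h1 : (j : ℤ) + 1 - t ≤ s := by
        by_contra h2
        exact hA (j + 1 - t) (by omega) (by omega) k7
      refine q4 (j + 1) (by omega) (by omega) ⟨by omega, Or.inr
        ⟨F.rev (F.adv (j + 1 - s : ℤ) γ2), ?_, ?_⟩⟩
      · rw [F.cl_rev, F.cl_adv]
        rcases k2 with k2 | k2
        · rw [k2, F.cl_adv]
          exact hχ1
        · rw [k2, F.cl_rev, F.cl_adv]
          exact hχ1
      · have h2 := (k6.mono (show (j : ℤ) + 1 - s ≤ t by omega)).rev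
        rw [e1, F.rev_rev] at h2
        rw [show (j : ℤ) + 1 - (j + 1 - s) = s by ring] at h2
        push_cast
        exact h2

end Dev

end Fl

end Pool.Agent.H169Q
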