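import Pool.Agent.helper169_quad.Geo2

/-!
# The way down in a cell, avoiding the free edge
-/

set_option autoImplicit false

namespace Pool.Agent.H169Q

namespace Fl

variable {V E Φ K C : Type*} {F : Fl V E Φ K C}

namespace Dev

variable (D : Dev F)

theorem lc_pos (c : C) : 0 < D.lc c := D.qd.conn.pos_dist_of_ne (by simp)

theorem ex_sf (c : C) : ∃ φ, F.cl φ = c ∧ D.Free φ := by
  obtain ⟨φ, rfl⟩ := D.hk c
  obtain ⟨m, hm⟩ := D.exists_free (φ0 := φ) (D.lc_pos _)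
  exact ⟨_, F.cl_adv m φ, hm⟩

/-- the free edge of a cell -/
noncomputable def sf (c : C) : Φ := (D.ex_sf c).choose

theorem sf_cl (c : C) : F.cl (D.sf c) = c := (D.ex_sf c).choose_spec.1

theorem sf_free (c : C) : D.Free (D.sf c) := (D.ex_sf c).choose_spec.2

/-- the flag starts with the free edge of its cell -/
def Cr (φ : Φ) : Prop := φ = D.sf (F.cl φ) ∨ φ = F.rev (F.adv 1 (D.sf (F.cl φ)))

theorem adv_rev' (t : ℤ) (φ : Φ) : F.adv t (F.rev φ) = F.rev (F.adv (-t) φ) := by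
  rw [F.rev_adv, neg_neg]

theorem cr_rev {φ : Φ} (h : D.Cr φ) : D.Cr (F.rev (F.adv 1 φ)) := by
  have e : F.cl (F.rev (F.adv 1 φ)) = F.cl φ := by rw [F.cl_rev, F.cl_adv]
  unfold Cr
  rw [e]
  rcases h with h | h
  · right
    rw [← h]
  · left
    have h1 : F.adv 1 φ = F.rev (D.sf (F.cl φ)) := by
      conv_lhs => rw [h]
      rw [adv_rev', F.adv_add, neg_add_cancel, F.adv_zero]
    rw [h1, F.rev_rev]

theorem cr_rev' {φ : Φ} (h : D.Cr (F.rev (F.adv 1 φ))) : D.Cr φ := by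
  have h1 := D.cr_rev h
  have e : F.rev (F.adv 1 (F.rev (F.adv 1 φ))) = φ := by
    rw [adv_rev', F.adv_add, neg_add_cancel, F.adv_zero, F.rev_rev]
  rwa [e] at h1

theorem cr_ex (φ : Φ) (a : ℤ) : ∃ t, a ≤ t ∧ t < a + F.len φ ∧ D.Cr (F.adv t φ) := by
  have h1 : ∃ t, D.Cr (F.adv t φ) := by
    obtain ⟨m, hm | hm⟩ := F.cl_eq φ (D.sf (F.cl φ)) (D.sf_cl _).symm
    · refine ⟨m, Or.inl ?_⟩
      rw [F.cl_adv, ← hm]
    · refine ⟨-(m + 1), Or.inr ?_⟩
      rw [F.cl_adv, hm, F.adv_add, adv_rev', F.rev_rev]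
      congr 1
      ring
  obtain ⟨t, ht⟩ := h1
  have hL : (0 : ℤ) < F.len φ := by exact_mod_cast F.len_pos φ
  refine ⟨a + (t - a) % F.len φ, ?_, ?_, ?_⟩
  · have := Int.emod_nonneg (t - a) hL.ne'
    omega
  · have := Int.emod_lt_of_pos (t - a) hL
    omega
  · have e : F.adv (a + (t - a) % F.len φ) φ = F.adv t φ := by
      rw [adv_eq_adv]
      refine ⟨-((t - a) / F.len φ), ?_⟩
      have := Int.emod_add_mul_ediv (t - a) (F.len φ)
      linarith
    rw [e]
    exact ht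

theorem rev_ne' {t t' : ℤ} {φ : Φ} (h : F.adv t' φ = F.rev (F.adv 1 (F.adv t φ))) : False := by
  rw [F.adv_add, F.rev_adv] at h
  have h1 := congrArg (F.adv (1 + t)) h
  rw [F.adv_add, F.adv_add, add_neg_cancel, F.adv_zero] at h1
  exact F.rev_ne _ _ h1

theorem cr_uniq {φ : Φ} {t t' : ℤ} (h : D.Cr (F.adv t φ)) (h' : D.Cr (F.adv t' φ)) :
    (F.len φ : ℤ) ∣ t - t' := by
  rw [← adv_eq_adv]
  unfold Cr at h h'
  rw [F.cl_adv] at h h'
  rcases h with h | h
  · rcases h' with h' | h'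
    · rw [h, h']
    · exfalso
      rw [← h] at h'
      exact rev_ne' h'
  · rcases h' with h' | h'
    · exfalso
      rw [← h'] at h
      exact rev_ne' h
    · rw [h, h']

theorem cr_free {φ χ : Φ} (h : D.Cr φ) (h1 : F.fst χ = F.fst φ)
    (h2 : D.lc (F.cl χ) ≤ D.lc (F.cl φ)) : F.cl χ = F.cl φ := by
  have hf := D.sf_free (F.cl φ)
  have hc := D.sf_cl (F.cl φ)
  rcases h with h | h
  · have h3 := hf χ (by rw [h1]; exact congrArg F.fst h) (by rw [hc]; exact h2)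
    rw [h3, hc]
  · have e : F.fst φ = F.inv (F.fst (D.sf (F.cl φ))) := by
      conv_lhs => rw [h]
      rw [F.fst_rev, F.adv_add, neg_add_cancel, F.adv_zero]
    have h3 := hf (F.rev (F.adv 1 χ)) (by
      rw [F.fst_rev, F.adv_add, neg_add_cancel, F.adv_zero, h1, e, F.ii]) (by
      rw [F.cl_rev, F.cl_adv, hc]
      exact h2)
    have h4 := congrArg F.cl h3
    rwa [F.cl_rev, F.cl_adv, hc] at h4

/-- `m` steps in the direction of the flag lead to the lower level, without crossing the free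
edge -/
def Good (φ : Φ) (m : ℕ) : Prop := 0 < m ∧ D.lv (F.vx (F.adv m φ)) + 1 = D.lc (F.cl φ) ∧
  (∀ t : ℤ, 0 < t → t < m → D.lv (F.vx (F.adv t φ)) + 1 ≠ D.lc (F.cl φ)) ∧
  ∀ t : ℤ, 0 ≤ t → t < m → ¬ D.Cr (F.adv t φ)

theorem ex_good_of {φ : Φ} {i : ℤ} (hi : 0 < i)
    (h : D.lv (F.vx (F.adv i φ)) + 1 = D.lc (F.cl φ))
    (hc : ∀ t : ℤ, 0 ≤ t → t < i → ¬ D.Cr (F.adv t φ)) : ∃ m : ℕ, D.Good φ m ∧ (m : ℤ) ≤ i := by
  classical
  obtain ⟨j, rfl⟩ := Int.eq_ofNat_of_zero_le hi.le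
  have hex : ∃ m : ℕ, 0 < m ∧ D.lv (F.vx (F.adv (m : ℤ) φ)) + 1 = D.lc (F.cl φ) :=
    ⟨j, by omega, h⟩
  have h1 := Nat.find_spec hex
  have h2 : Nat.find hex ≤ j := Nat.find_min' hex ⟨by omega, h⟩
  refine ⟨Nat.find hex, ⟨h1.1, h1.2, ?_, ?_⟩, by exact_mod_cast h2⟩
  · intro t ht0 ht1 ht2
    obtain ⟨s, rfl⟩ := Int.eq_ofNat_of_zero_le ht0.le
    exact Nat.find_min hex (by omega) ⟨by omega, ht2⟩
  · intro t ht0 ht1
    exact hc t ht0 (by omega)

theorem ex_good {φ : Φ} (h : D.lc (F.cl φ) + 1 = D.lv (F.vx φ)) :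
    ∃ m : ℕ, D.Good φ m ∨ D.Good (F.rev φ) m := by
  obtain ⟨i0, hi0⟩ := D.ex_below (φ := φ) (D.lc_pos _)
  have hL : (0 : ℤ) < F.len φ := by exact_mod_cast F.len_pos φ
  -- `0 < i < len`
  obtain ⟨i, hi1, hi2, hi3⟩ : ∃ i : ℤ, 0 < i ∧ i < F.len φ ∧
      D.lv (F.vx (F.adv i φ)) + 1 = D.lc (F.cl φ) := by
    have e : F.adv (i0 % F.len φ) φ = F.adv i0 φ := by
      rw [adv_eq_adv]
      refine ⟨-(i0 / F.len φ), ?_⟩
      have := Int.emod_add_mul_ediv i0 (F.len φ)
      linarith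
    have h1 := Int.emod_nonneg i0 hL.ne'
    have h2 := Int.emod_lt_of_pos i0 hL
    refine ⟨i0 % F.len φ, ?_, h2, by rw [e]; exact hi0⟩
    rcases lt_or_eq_of_le h1 with h3 | h3
    · exact h3
    · exfalso
      rw [← h3, F.adv_zero] at e
      rw [← e] at hi0
      omega
  obtain ⟨t0, ht0, ht1, ht2⟩ := D.cr_ex φ 0
  rw [zero_add] at ht1
  rcases lt_or_ge t0 i with h1 | h1
  · -- backward
    have e1 : F.vx (F.adv (F.len φ - i) (F.rev φ)) = F.vx (F.adv i φ) := by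
      rw [adv_rev', vx_rev]
      congr 1
      rw [adv_eq_adv]
      exact ⟨-1, by ring⟩
    obtain ⟨m, hm, _⟩ := D.ex_good_of (φ := F.rev φ) (i := F.len φ - i) (by omega)
      (by rw [e1, F.cl_rev]; exact hi3) (by
        intro t k0 k1 k2
        rw [adv_rev'] at k2
        have e2 : F.adv (-t) φ = F.adv 1 (F.adv (-t - 1) φ) := by
          rw [F.adv_add]
          congr 1
          ring
        rw [e2] at k2
        have k3 := D.cr_rev' k2
        obtain ⟨q, hq⟩ := D.cr_uniq k3 ht2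
        have hq1 : q = -1 := by
          have q1 : (F.len φ : ℤ) * q < 0 := by omega
          have q2 : (F.len φ : ℤ) * (-2) < F.len φ * q := by omega
          have q3 : q < 0 := by
            by_contra hcon
            have : 0 ≤ (F.len φ : ℤ) * q := mul_nonneg hL.le (by omega)
            omega
          have q4 : -2 < q := lt_of_mul_lt_mul_left q2 hL.le
          omega
        rw [hq1] at hq
        omega)
    exact ⟨m, Or.inr hm⟩
  · -- forward
    obtain ⟨m, hm, _⟩ := D.ex_good_of (φ := φ) hi1 hi3 (by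
      intro t k0 k1 k2
      obtain ⟨q, hq⟩ := D.cr_uniq k2 ht2
      have q1 : (F.len φ : ℤ) * q < 0 := by omega
      have q2 : (F.len φ : ℤ) * (-1) < F.len φ * q := by omega
      have q3 : q < 0 := by
        by_contra hcon
        have : 0 ≤ (F.len φ : ℤ) * q := mul_nonneg hL.le (by omega)
        omega
      have q4 : -1 < q := lt_of_mul_lt_mul_left q2 hL.le
      omega)
    exact ⟨m, Or.inl hm⟩

theorem good_rev {φ : Φ} (h : D.lc (F.cl φ) + 1 = D.lv (F.vx φ)) {m m' : ℕ}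
    (h1 : D.Good φ m) (h2 : D.Good (F.rev φ) m') : False := by
  obtain ⟨a1, a2, a3, a4⟩ := h1
  obtain ⟨b1, b2, b3, b4⟩ := h2
  rw [adv_rev', vx_rev, F.cl_rev] at b2
  have hcr : ∀ t : ℤ, -(m' : ℤ) ≤ t → t < m → ¬ D.Cr (F.adv t φ) := by
    intro t k1 k2 k3
    rcases lt_or_ge t 0 with k4 | k4
    · apply b4 (-t - 1) (by omega) (by omega)
      rw [adv_rev']
      have := D.cr_rev k3
      rw [F.adv_add] at this
      rw [show -(-t - 1) = 1 + t by ring]
      exact this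
    · exact a4 t k4 k2 k3
  have hlt : (m : ℤ) + m' < F.len φ := by
    by_contra hcon
    obtain ⟨t, t1, t2, t3⟩ := D.cr_ex φ (-(m' : ℤ))
    exact hcr t t1 (by omega) t3
  have hne : F.adv (-(m' : ℤ)) φ ≠ F.adv m φ := by
    intro h3
    have h4 := Int.eq_zero_of_abs_lt_dvd (adv_eq_adv.1 h3) (by
      rw [abs_lt]
      constructor <;> omega)
    omega
  obtain ⟨χ, n, n1, n2, n3, ⟨n4, n5⟩ | ⟨n4, n5⟩⟩ := D.sq_dn b2 a2 hne
  · have h4 := Int.eq_zero_of_abs_lt_dvd (adv_eq_adv.1 n5) (by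
      rw [abs_lt]
      constructor <;> omega)
    have h5 := vx_agr n4 n1 (t := m') (by omega) (by omega)
    rw [F.adv_add, add_neg_cancel, F.adv_zero] at h5
    have h6 := D.lev (F.adv m' χ)
    rw [← h5, F.cl_adv] at h6
    omega
  · have h4 := adv_eq_adv.1 n5
    have h5 := Int.eq_zero_of_abs_lt_dvd (dvd_sub h4 (dvd_refl _)) (by
      rw [abs_lt]
      constructor <;> omega)
    obtain ⟨t, t1, t2, t3⟩ := D.cr_ex φ (-(m' : ℤ))
    have t4 : (m : ℤ) ≤ t := by
      by_contra hcon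
      exact hcr t t1 (by omega) t3
    have h6 := n4 (t - m) (by omega) (by omega)
    rw [F.adv_add, show t - (m : ℤ) + m = t by ring] at h6
    have h7 := D.cr_free t3 h6.symm (by rw [F.cl_adv, F.cl_adv]; omega)
    rw [F.cl_adv, F.cl_adv] at h7
    rw [h7] at n3
    omega

theorem good_uniq_m {φ : Φ} {m m' : ℕ} (h1 : D.Good φ m) (h2 : D.Good φ m') : m = m' := by
  obtain ⟨a1, a2, a3, a4⟩ := h1
  obtain ⟨b1, b2, b3, b4⟩ := h2
  rcases lt_trichotomy m m' with h | h | h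
  · exact absurd a2 (b3 m (by omega) (by omega))
  · exact h
  · exact absurd b2 (a3 m' (by omega) (by omega))

/-- the way down does not depend on the cell -/
theorem good_uniq {φ γ : Φ} (hv : F.vx φ = F.vx γ) (h : D.lc (F.cl φ) + 1 = D.lv (F.vx φ))
    (h' : D.lc (F.cl γ) + 1 = D.lv (F.vx φ)) {m m' : ℕ} (h1 : D.Good φ m) (h2 : D.Good γ m') :
    m = m' ∧ F.fst φ = F.fst γ ∧ F.vx (F.adv m φ) = F.vx (F.adv m' γ) := by
  by_cases hc : F.cl φ = F.cl γ
  · rcases F.cn_eq _ _ (D.uniq_cn hv hc) with h3 | h3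
    · subst h3
      have := D.good_uniq_m h1 h2
      subst this
      exact ⟨rfl, rfl, rfl⟩
    · exfalso
      rw [h3] at h1
      exact D.good_rev (by rw [← hv]; exact h') h2 h1
  · obtain ⟨φ2, γ2, n, k1, k2, k3, k4, k5, k6, k7⟩ := D.sq_up hv hc h h'
    have e1 : F.cl φ2 = F.cl φ := by
      rcases k1 with rfl | rfl
      · rfl
      · rw [F.cl_rev]
    have e2 : F.cl γ2 = F.cl γ := by
      rcases k2 with rfl | rfl
      · rfl
      · rw [F.cl_rev]
    have k7' : D.lv (F.vx (F.adv n γ2)) + 1 = D.lc (F.cl γ) := by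
      rw [← vx_agr k6 k3 k3.le le_rfl]
      omega
    obtain ⟨m2, g1, g2⟩ := D.ex_good_of (φ := φ2) k3 (by rw [e1]; exact k7) (by
      intro t t1 t2 t3
      have h3 := D.cr_free t3 (k6 t t1 t2).symm (by rw [F.cl_adv, F.cl_adv, e1, e2]; omega)
      rw [F.cl_adv, F.cl_adv, e1, e2] at h3
      exact hc h3.symm)
    obtain ⟨m3, g3, g4⟩ := D.ex_good_of (φ := γ2) k3 (by rw [e2]; exact k7') (by
      intro t t1 t2 t3
      have h3 := D.cr_free t3 (k6 t t1 t2) (by rw [F.cl_adv, F.cl_adv, e1, e2]; omega)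
      rw [F.cl_adv, F.cl_adv, e1, e2] at h3
      exact hc h3)
    have f1 : φ2 = φ := by
      rcases k1 with h3 | h3
      · exact h3
      · exfalso
        rw [h3] at g1
        exact D.good_rev h h1 g1
    have f2 : γ2 = γ := by
      rcases k2 with h3 | h3
      · exact h3
      · exfalso
        rw [h3] at g3
        exact D.good_rev (by rw [← hv]; exact h') h2 g3
    subst f1 f2
    have hm := D.good_uniq_m h1 g1
    have hm' := D.good_uniq_m h2 g3
    subst hm hm'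
    have hvt : ∀ t : ℤ, 0 ≤ t → t ≤ n → F.vx (F.adv t φ2) = F.vx (F.adv t γ2) := fun t t1 t2 =>
      vx_agr k6 k3 t1 t2
    have hmm : m = m' := by
      obtain ⟨a1, a2, a3, a4⟩ := h1
      obtain ⟨b1, b2, b3, b4⟩ := h2
      rcases lt_trichotomy m m' with h3 | h3 | h3
      · exfalso
        apply b3 m (by omega) (by omega)
        rw [← hvt m (by omega) g2]
        omega
      · exact h3
      · exfalso
        apply a3 m' (by omega) (by omega)
        rw [hvt m' (by omega) g4]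
        omega
    subst hmm
    exact ⟨rfl, k6.fst k3, hvt m (by omega) g2⟩

end Dev

end Fl

end Pool.Agent.H169Q
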