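import Pool.Agent.helper169_quad.Inc

/-!
# The holonomy of the incidence square structure
-/

set_option autoImplicit false

namespace Pool.Agent.H169Q

namespace Fl

variable {V E Φ K C : Type*} {F : Fl V E Φ K C}

/-- `p` is a path from `v` to `w` -/
def IsP (src : E → V) (inv : E → E) : V → List E → V → Prop
  | v, [], w => v = w
  | v, e :: p, w => src e = v ∧ IsP src inv (src (inv e)) p w

theorem isP_append {src : E → V} {inv : E → E} {v w : V} : ∀ (p q : List E),
    IsP src inv v (p ++ q) w ↔ ∃ u, IsP src inv v p u ∧ IsP src inv u q w := by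
  intro p
  induction p generalizing v with
  | nil =>
    intro q
    constructor
    · intro h
      exact ⟨v, rfl, h⟩
    · rintro ⟨u, rfl, h⟩
      exact h
  | cons e p ih =>
    intro q
    constructor
    · rintro ⟨h1, h2⟩
      obtain ⟨u, h3, h4⟩ := (ih q).1 h2
      exact ⟨u, ⟨h1, h3⟩, h4⟩
    · rintro ⟨u, ⟨h1, h2⟩, h3⟩
      exact ⟨h1, (ih q).2 ⟨u, h2, h3⟩⟩

theorem IsP.rev {src : E → V} {inv : E → E} (ii : ∀ e, inv (inv e) = e) {v w : V} {p : List E}
    (h : IsP src inv v p w) : IsP src inv w (p.reverse.map inv) v := by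
  induction p generalizing v with
  | nil => exact h.symm
  | cons e p ih =>
    obtain ⟨h1, h2⟩ := h
    rw [List.reverse_cons, List.map_append]
    refine (isP_append _ _).2 ⟨_, ih h2, rfl, ?_⟩
    rw [ii]
    exact h1

/-- the boundary path starting at the flag `φ` -/
def bdy (F : Fl V E Φ K C) (φ : Φ) (n : ℕ) : List E :=
  (List.range n).map fun t : ℕ => F.fst (F.adv (t : ℤ) φ)

theorem bdy_isP (φ : Φ) (n : ℕ) :
    IsP F.src F.inv (F.src (F.fst φ)) (bdy F φ n) (F.src (F.fst (F.adv n φ))) := by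
  induction n with
  | zero =>
    rw [show ((0 : ℕ) : ℤ) = 0 from rfl, F.adv_zero]
    exact rfl
  | succ n ih =>
    have e : bdy F φ (n + 1) = bdy F φ n ++ [F.fst (F.adv n φ)] := by
      unfold bdy
      rw [List.range_succ, List.map_append]
      rfl
    rw [e]
    refine (isP_append _ _).2 ⟨_, ih, rfl, ?_⟩
    rw [F.next, F.adv_add, show (1 : ℤ) + (n : ℤ) = ((n + 1 : ℕ) : ℤ) by push_cast; ring]
    rfl

section Hol

variable (hC : F.C4) (hT : F.T4) (k : Cor F)

/-- states over the vertex `v` -/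
def Over (o : V ⊕ C' F) (v : V) (ω : List (K' F × Bool)) : Prop :=
  (F.sqs' hC hT k).Red ω ∧ (F.sqs' hC hT k).Vd o ω ∧ (F.sqs' hC hT k).en o ω = Sum.inl v

/-- moving from one corner of a cell to another one -/
noncomputable def mv (κ κ' : K' F) (ω : List (K' F × Bool)) : List (K' F × Bool) :=
  (F.sqs' hC hT k).tl (κ', false) ((F.sqs' hC hT k).tl (κ, true) ω)

variable {hC hT k}

theorem tl_in {o : V ⊕ C' F} {κ : K' F} {ω : List (K' F × Bool)}
    (h : Over hC hT k o (k.vk' κ) ω) :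
    (F.sqs' hC hT k).Red ((F.sqs' hC hT k).tl (κ, true) ω) ∧
    (F.sqs' hC hT k).Vd o ((F.sqs' hC hT k).tl (κ, true) ω) ∧
    (F.sqs' hC hT k).en o ((F.sqs' hC hT k).tl (κ, true) ω) = Sum.inr (k.ck' κ) := by
  have h1 := SqS.tl_vd (S := F.sqs' hC hT k) (e := (κ, true)) h.1 h.2.1
    (by rw [h.2.2]; simp [sqs'])
  refine ⟨SqS.tl_red h.1, h1.1, ?_⟩
  rw [h1.2]
  simp [sqs']

theorem mv_over {o : V ⊕ C' F} {κ κ' : K' F} {ω : List (K' F × Bool)}
    (h : Over hC hT k o (k.vk' κ) ω)
    (hc : k.ck' κ = k.ck' κ') : Over hC hT k o (k.vk' κ') (mv hC hT k κ κ' ω) := by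
  obtain ⟨h1, h2, h3⟩ := tl_in h
  have h4 := SqS.tl_vd (S := F.sqs' hC hT k) (e := (κ', false)) h1 h2
    (by rw [h3, hc]; simp [sqs'])
  refine ⟨SqS.tl_red h1, h4.1, ?_⟩
  show (F.sqs' hC hT k).en o ((F.sqs' hC hT k).tl (κ', false)
    ((F.sqs' hC hT k).tl (κ, true) ω)) = _
  rw [h4.2]
  simp [sqs']

theorem mv_congr {κ κ' : K' F} {ω ω' : List (K' F × Bool)} (h : (F.sqs' hC hT k).Red ω)
    (h' : (F.sqs' hC hT k).Eqv ω ω') :
    (F.sqs' hC hT k).Eqv (mv hC hT k κ κ' ω) (mv hC hT k κ κ' ω') :=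
  SqS.tl_congr (SqS.tl_red h) (SqS.tl_congr h h')

theorem mv_self {κ : K' F} {ω : List (K' F × Bool)} (h : (F.sqs' hC hT k).Red ω) :
    (F.sqs' hC hT k).Eqv (mv hC hT k κ κ ω) ω :=
  SqS.tl_inv (e := (κ, true)) h

theorem mv_mv {κ κ' κ'' : K' F} {ω : List (K' F × Bool)} (h : (F.sqs' hC hT k).Red ω) :
    (F.sqs' hC hT k).Eqv (mv hC hT k κ' κ'' (mv hC hT k κ κ' ω)) (mv hC hT k κ κ'' ω) := by
  unfold mv
  refine SqS.tl_congr (SqS.tl_red (SqS.tl_red (SqS.tl_red h))) ?_
  have := SqS.tl_inv (S := F.sqs' hC hT k) (e := (κ', false)) (SqS.tl_red (e := (κ, true)) h)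
  exact this

theorem red_mv {κ κ' : K' F} {ω : List (K' F × Bool)} (h : (F.sqs' hC hT k).Red ω) :
    (F.sqs' hC hT k).Red (mv hC hT k κ κ' ω) := SqS.tl_red (SqS.tl_red h)

/-- the move along an edge does not depend on the cell -/
theorem mv_edge {φ ψ : Φ} (h : F.fst φ = F.fst ψ) {ω : List (K' F × Bool)}
    (hr : (F.sqs' hC hT k).Red ω) :
    (F.sqs' hC hT k).Eqv (mv hC hT k (Sum.inl (F.cn φ)) (Sum.inl (F.cn (F.adv 1 φ))) ω)
      (mv hC hT k (Sum.inl (F.cn ψ)) (Sum.inl (F.cn (F.adv 1 ψ))) ω) := by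
  by_cases hne : F.cn φ = F.cn ψ
  · have := eq_of_fst hne h
    rw [this]
    exact SqS.Eqv.refl _ _
  · exact SqS.tl_sq hr ⟨(F.cn φ, true), (F.cn (F.adv 1 φ), false), (F.cn ψ, true),
      (F.cn (F.adv 1 ψ), false), rfl, rfl, rfl, rfl, Or.inl ⟨rfl, rfl, rfl, rfl, sq1 hC h hne⟩⟩

/-- the two corners of an edge in one cell, or the two ends of an isolated edge -/
theorem ex_k12 (F : Fl V E Φ K C) (e : E) : ∃ κ : K' F × K' F,
    (∃ φ, F.fst φ = e ∧ κ = (Sum.inl (F.cn φ), Sum.inl (F.cn (F.adv 1 φ)))) ∨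
    (∃ h : Iso F e, κ = (Sum.inr ⟨e, h⟩, Sum.inr ⟨F.inv e, h.inv⟩)) := by
  by_cases h : ∃ φ, F.fst φ = e
  · obtain ⟨φ, hφ⟩ := h
    exact ⟨_, Or.inl ⟨φ, hφ, rfl⟩⟩
  · push Not at h
    exact ⟨_, Or.inr ⟨h, rfl⟩⟩

/-- the two corners of an edge -/
noncomputable def k12 (F : Fl V E Φ K C) (e : E) : K' F × K' F := (ex_k12 F e).choose

theorem k12_spec (F : Fl V E Φ K C) (e : E) :
    (∃ φ, F.fst φ = e ∧ k12 F e = (Sum.inl (F.cn φ), Sum.inl (F.cn (F.adv 1 φ)))) ∨
    (∃ h : Iso F e, k12 F e = (Sum.inr ⟨e, h⟩, Sum.inr ⟨F.inv e, h.inv⟩)) :=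
  (ex_k12 F e).choose_spec

theorem k12_vk (k : Cor F) (e : E) : k.vk' (k12 F e).1 = F.src e := by
  rcases k12_spec F e with ⟨φ, h1, h2⟩ | ⟨h1, h2⟩
  · rw [h2]
    show k.vk (F.cn φ) = _
    rw [k.hv, h1]
  · rw [h2]
    rfl

theorem k12_vk2 (k : Cor F) (e : E) : k.vk' (k12 F e).2 = F.src (F.inv e) := by
  rcases k12_spec F e with ⟨φ, h1, h2⟩ | ⟨h1, h2⟩
  · rw [h2]
    show k.vk (F.cn (F.adv 1 φ)) = _
    rw [k.hv, ← F.next, h1]
  · rw [h2]
    rfl

theorem k12_ck (k : Cor F) (e : E) : k.ck' (k12 F e).1 = k.ck' (k12 F e).2 := by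
  rcases k12_spec F e with ⟨φ, h1, h2⟩ | ⟨h1, h2⟩
  · rw [h2]
    show Sum.inl (k.ck (F.cn φ)) = Sum.inl (k.ck (F.cn (F.adv 1 φ)))
    rw [k.hc, k.hc, F.cl_adv]
  · rw [h2]
    show Sum.inr _ = Sum.inr _
    congr 1
    apply Subtype.ext
    show ({e, F.inv e} : Set E) = {F.inv e, F.inv (F.inv e)}
    rw [F.ii, Set.pair_comm]

/-- moves along a list of edges -/
noncomputable def hol (hC : F.C4) (hT : F.T4) (k : Cor F) :
    List E → List (K' F × Bool) → List (K' F × Bool)
  | [], ω => ω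
  | e :: p, ω => hol hC hT k p (mv hC hT k (k12 F e).1 (k12 F e).2 ω)

theorem hol_append (p q : List E) (ω : List (K' F × Bool)) :
    hol hC hT k (p ++ q) ω = hol hC hT k q (hol hC hT k p ω) := by
  induction p generalizing ω with
  | nil => rfl
  | cons e p ih => exact ih _

theorem hol_red (p : List E) {ω : List (K' F × Bool)} (h : (F.sqs' hC hT k).Red ω) :
    (F.sqs' hC hT k).Red (hol hC hT k p ω) := by
  induction p generalizing ω with
  | nil => exact h
  | cons e p ih => exact ih (red_mv h)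

theorem hol_congr (p : List E) {ω ω' : List (K' F × Bool)} (h : (F.sqs' hC hT k).Red ω)
    (h' : (F.sqs' hC hT k).Eqv ω ω') :
    (F.sqs' hC hT k).Eqv (hol hC hT k p ω) (hol hC hT k p ω') := by
  induction p generalizing ω ω' with
  | nil => exact h'
  | cons e p ih => exact ih (red_mv h) (mv_congr h h')

theorem hol_over {o : V ⊕ C' F} (p : List E) {v w : V} {ω : List (K' F × Bool)}
    (h : Over hC hT k o v ω) (hp : IsP F.src F.inv v p w) :
    Over hC hT k o w (hol hC hT k p ω) := by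
  induction p generalizing v ω with
  | nil =>
    have : v = w := hp
    rw [← this]
    exact h
  | cons e p ih =>
    obtain ⟨h1, h2⟩ := hp
    refine ih ?_ h2
    rw [← k12_vk2 k e]
    refine mv_over (by rw [k12_vk k e, h1]; exact h) (k12_ck k e)

/-- the move along an edge, in a given cell -/
theorem mv_k12 {φ : Φ} {e : E} (h : F.fst φ = e) {ω : List (K' F × Bool)}
    (hr : (F.sqs' hC hT k).Red ω) :
    (F.sqs' hC hT k).Eqv (mv hC hT k (k12 F e).1 (k12 F e).2 ω)
      (mv hC hT k (Sum.inl (F.cn φ)) (Sum.inl (F.cn (F.adv 1 φ))) ω) := by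
  rcases k12_spec F e with ⟨ψ, h1, h2⟩ | ⟨h1, h2⟩
  · rw [h2]
    exact mv_edge (h1.trans h.symm) hr
  · exact absurd h (h1 φ)

/-- the holonomy along a boundary path -/
theorem hol_bdy (φ : Φ) (n : ℕ) {ω : List (K' F × Bool)} (hr : (F.sqs' hC hT k).Red ω) :
    (F.sqs' hC hT k).Eqv (hol hC hT k (bdy F φ n) ω)
      (mv hC hT k (Sum.inl (F.cn φ)) (Sum.inl (F.cn (F.adv n φ))) ω) := by
  induction n with
  | zero =>
    rw [show ((0 : ℕ) : ℤ) = 0 from rfl, F.adv_zero]
    exact (mv_self hr).symm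
  | succ n ih =>
    have e : bdy F φ (n + 1) = bdy F φ n ++ [F.fst (F.adv n φ)] := by
      unfold bdy
      rw [List.range_succ, List.map_append]
      rfl
    rw [e, hol_append]
    show (F.sqs' hC hT k).Eqv (mv hC hT k (k12 F (F.fst (F.adv n φ))).1
      (k12 F (F.fst (F.adv n φ))).2 (hol hC hT k (bdy F φ n) ω)) _
    have h1 := mv_k12 (hC := hC) (hT := hT) (k := k) (φ := F.adv n φ) rfl
      (hol_red (bdy F φ n) hr)
    have h2 := mv_congr (κ := Sum.inl (F.cn (F.adv n φ)))
      (κ' := Sum.inl (F.cn (F.adv 1 (F.adv n φ)))) (hol_red (bdy F φ n) hr) ih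
    refine h1.trans (h2.trans ((mv_mv hr).trans ?_))
    rw [F.adv_add, show (1 : ℤ) + (n : ℤ) = ((n + 1 : ℕ) : ℤ) by push_cast; ring]
    exact SqS.Eqv.refl _ _

/-- the holonomy along a backtrack -/
theorem hol_back (e : E) {ω : List (K' F × Bool)} (hr : (F.sqs' hC hT k).Red ω) :
    (F.sqs' hC hT k).Eqv (hol hC hT k [e, F.inv e] ω) ω := by
  show (F.sqs' hC hT k).Eqv (mv hC hT k (k12 F (F.inv e)).1 (k12 F (F.inv e)).2
    (mv hC hT k (k12 F e).1 (k12 F e).2 ω)) ω
  rcases k12_spec F e with ⟨φ, h1, h2⟩ | ⟨h1, h2⟩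
  · have h0 : F.fst (F.rev (F.adv 1 φ)) = F.inv e := by
      rw [F.fst_rev, F.adv_add, neg_add_cancel, F.adv_zero, h1]
    have h3 := mv_k12 (hC := hC) (hT := hT) (k := k) h0
      (red_mv (κ := (k12 F e).1) (κ' := (k12 F e).2) hr)
    refine h3.trans ?_
    have e1 : F.adv 1 (F.rev (F.adv 1 φ)) = F.rev φ := by
      rw [F.rev_adv, F.adv_add, add_neg_cancel, F.adv_zero]
    rw [e1, F.cn_rev, F.cn_rev, h2]
    exact (mv_mv hr).trans (mv_self hr)
  · rcases k12_spec F (F.inv e) with ⟨φ, h3, h4⟩ | ⟨h3, h4⟩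
    · exact absurd h3 (h1.inv φ)
    · rw [h2, h4]
      have e1 : (⟨F.inv (F.inv e), h3.inv⟩ : {e : E // Iso F e}) = ⟨e, h1⟩ := by
        apply Subtype.ext
        exact F.ii e
      rw [e1]
      exact (mv_mv hr).trans (mv_self hr)

/-- trivial holonomy -/
def Tr (hC : F.C4) (hT : F.T4) (k : Cor F) (p : List E) : Prop :=
  ∀ ω, (F.sqs' hC hT k).Red ω → (F.sqs' hC hT k).Eqv (hol hC hT k p ω) ω

theorem tr_bdy (φ : Φ) : Tr hC hT k (bdy F φ (F.len φ)) := by
  intro ω hr
  refine (hol_bdy φ (F.len φ) hr).trans ?_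
  have : F.adv (F.len φ) φ = φ := by
    rw [F.adv_eq]
  rw [this]
  exact mv_self hr

/-- homotopy of paths from `v` to `w` with respect to closed paths `R` -/
inductive Htp (src : E → V) (inv : E → E) (R : List E → Prop) (v w : V) :
    List E → List E → Prop
  | refl (p : List E) : Htp src inv R v w p p
  | symm {p q : List E} : Htp src inv R v w p q → Htp src inv R v w q p
  | trans {p q r : List E} : Htp src inv R v w p q → Htp src inv R v w q r →
      Htp src inv R v w p r
  | back (p : List E) (e : E) (q : List E) : IsP src inv v (p ++ ([e, inv e] ++ q)) w →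
      Htp src inv R v w (p ++ ([e, inv e] ++ q)) (p ++ q)
  | cell (p r q : List E) : R r → IsP src inv v (p ++ (r ++ q)) w →
      Htp src inv R v w (p ++ (r ++ q)) (p ++ q)

/-- homotopic paths have the same holonomy -/
theorem hol_htp {R : List E → Prop} (hR : ∀ r, R r → Tr hC hT k r) {v w : V} {p q : List E}
    (h : Htp F.src F.inv R v w p q) {ω : List (K' F × Bool)}
    (hr : (F.sqs' hC hT k).Red ω) :
    (F.sqs' hC hT k).Eqv (hol hC hT k p ω) (hol hC hT k q ω) := by
  induction h with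
  | refl p => exact SqS.Eqv.refl _ _
  | symm _ ih => exact ih.symm
  | trans _ _ ih1 ih2 => exact ih1.trans ih2
  | back p e q _ =>
    rw [hol_append, hol_append, hol_append]
    exact hol_congr q (hol_red _ (hol_red _ hr)) (hol_back e (hol_red _ hr))
  | cell p r q h1 _ =>
    rw [hol_append, hol_append, hol_append]
    exact hol_congr q (hol_red _ (hol_red _ hr)) (hR r h1 _ (hol_red _ hr))

/-- the reversed path -/
theorem hol_rev (p : List E) {ω : List (K' F × Bool)} (hr : (F.sqs' hC hT k).Red ω) :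
    (F.sqs' hC hT k).Eqv (hol hC hT k p (hol hC hT k (p.reverse.map F.inv) ω)) ω := by
  induction p generalizing ω with
  | nil => exact SqS.Eqv.refl _ _
  | cons e p ih =>
    rw [List.reverse_cons, List.map_append, hol_append]
    show (F.sqs' hC hT k).Eqv (hol hC hT k p (hol hC hT k [e]
      (hol hC hT k [F.inv e] (hol hC hT k (p.reverse.map F.inv) ω)))) ω
    have h1 := hol_back (hC := hC) (hT := hT) (k := k) (F.inv e)
      (hol_red (p.reverse.map F.inv) hr)
    rw [F.ii] at h1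
    have h2 := hol_congr p (hol_red [F.inv e, e] (hol_red _ hr)) h1
    exact h2.trans (ih hr)

/-- rotations of paths with trivial holonomy -/
theorem Tr.rotate {p q : List E} (h : Tr hC hT k (p ++ q)) : Tr hC hT k (q ++ p) := by
  intro ω hr
  rw [hol_append]
  have h1 := hol_rev (hC := hC) (hT := hT) (k := k) p hr
  set ω' := hol hC hT k (p.reverse.map F.inv) ω with hω
  have hr' : (F.sqs' hC hT k).Red ω' := hol_red _ hr
  have h2 := h ω' hr'
  rw [hol_append] at h2
  -- `hol p ω' ~ ω`, `hol q (hol p ω') ~ ω'`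
  have h3 := hol_congr q (hol_red p hr') h1
  have h4 := h3.symm.trans h2
  have h5 := hol_congr p (hol_red q hr) h4
  exact h5.trans h1

/-- palindromes have trivial holonomy -/
theorem tr_pal : ∀ (n : ℕ) (p : List E), p.length = n → p.reverse.map F.inv = p →
    Tr hC hT k p := by
  intro n
  induction n using Nat.strong_induction_on with
  | _ n ih =>
    intro p hn hp
    rcases p with _ | ⟨e, p⟩
    · intro ω _
      exact SqS.Eqv.refl _ _
    · rcases List.eq_nil_or_concat p with rfl | ⟨q, f, rfl⟩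
      · exfalso
        simp only [List.reverse_cons, List.reverse_nil, List.nil_append, List.map_cons,
          List.map_nil, List.cons.injEq, and_true] at hp
        exact F.inv_ne e hp
      · simp only [List.concat_eq_append, List.reverse_cons, List.reverse_append,
          List.reverse_nil, List.nil_append, List.cons_append, List.map_cons, List.map_append,
          List.map_nil, List.cons.injEq] at hp
        obtain ⟨h1, h2⟩ := hp
        have h3 := List.append_inj' h2 (by simp)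
        have h4 : F.inv e = f := by
          have := h3.2
          simpa using this
        have h5 := ih q.length (by rw [← hn]; simp) q rfl h3.1
        intro ω hr
        rw [List.concat_eq_append, ← List.cons_append, hol_append]
        show (F.sqs' hC hT k).Eqv (hol hC hT k [f] (hol hC hT k q (hol hC hT k [e] ω))) ω
        have h6 := hol_congr [f] (hol_red q (hol_red [e] hr)) (h5 _ (hol_red [e] hr))
        refine h6.trans ?_
        have h7 := hol_back (hC := hC) (hT := hT) (k := k) e hr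
        rw [h4] at h7
        exact h7

end Hol

end Fl

end Pool.Agent.H169Q
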