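import Pool.Agent.helper169_quad.Sq

/-!
# Square structures: the transport of reduced paths along edges
-/

set_option autoImplicit false

namespace Pool.Agent.H169Q

namespace SqS

variable {V E : Type*} {S : SqS V E}

open Classical in
/-- The transport of the path `γ` along the edge `e`. -/
noncomputable def tl (S : SqS V E) (e : E) (γ : List E) : List E :=
  if h : ∃ γ', S.Eqv γ (S.inv e :: γ') then h.choose else e :: γ

theorem tl_cancel {e : E} {γ γ' : List E} (hr : S.Red γ) (h : S.Eqv γ (S.inv e :: γ')) :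
    S.Eqv (S.tl e γ) γ' := by
  have hex : ∃ γ', S.Eqv γ (S.inv e :: γ') := ⟨γ', h⟩
  unfold tl
  rw [dif_pos hex]
  have h1 := hex.choose_spec
  exact qc_same (hr.eqv h1) (h1.symm.trans h)

theorem tl_ext {e : E} {γ : List E} (h : S.Red (e :: γ)) : S.tl e γ = e :: γ := by
  unfold tl
  rw [dif_neg]
  rintro ⟨γ', h1⟩
  exact not_red h h1

/-- The two cases of the transport. -/
theorem tl_cases {e : E} {γ : List E} (hr : S.Red γ) :
    (∃ γ', S.Eqv γ (S.inv e :: γ') ∧ S.Eqv (S.tl e γ) γ') ∨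
      (S.Red (e :: γ) ∧ S.tl e γ = e :: γ) := by
  rcases ext _ γ e rfl hr with ⟨γ', h⟩ | h
  · exact Or.inl ⟨γ', h, tl_cancel hr h⟩
  · exact Or.inr ⟨h, tl_ext h⟩

theorem tl_red {e : E} {γ : List E} (hr : S.Red γ) : S.Red (S.tl e γ) := by
  rcases tl_cases (e := e) hr with ⟨γ', h1, h2⟩ | ⟨h1, h2⟩
  · exact (hr.eqv h1).tail.eqv h2.symm
  · rw [h2]
    exact h1

theorem tl_congr {e : E} {γ γ' : List E} (hr : S.Red γ) (h : S.Eqv γ γ') :
    S.Eqv (S.tl e γ) (S.tl e γ') := by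
  rcases tl_cases (e := e) (hr.eqv h) with ⟨δ, h1, h2⟩ | ⟨h1, h2⟩
  · exact (tl_cancel hr (h.trans h1)).trans h2.symm
  · rw [h2, tl_ext (h1.eqv (h.symm.cons e))]
    exact h.cons e

theorem tl_inv {e : E} {γ : List E} (hr : S.Red γ) : S.Eqv (S.tl (S.inv e) (S.tl e γ)) γ := by
  rcases tl_cases (e := e) hr with ⟨δ, h1, h2⟩ | ⟨h1, h2⟩
  · have h3 := tl_congr (e := S.inv e) (tl_red hr) h2
    refine h3.trans ?_
    rw [tl_ext (hr.eqv h1)]
    exact h1.symm
  · rw [h2]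
    refine tl_cancel h1 ?_
    rw [S.ii]
    exact Eqv.refl S _

theorem tl_length {e : E} {γ : List E} (hr : S.Red γ) :
    (S.tl e γ).length + 1 = γ.length ∨ (S.tl e γ).length = γ.length + 1 := by
  rcases tl_cases (e := e) hr with ⟨δ, h1, h2⟩ | ⟨h1, h2⟩
  · left
    rw [h2.length, h1.length]
    rfl
  · right
    rw [h2]
    rfl

/-- The second case of the square lemma. -/
theorem tl_sq_aux {a b c d : E} {γ γ' : List E} (hr : S.Red γ) (h : S.Sq a b c d)
    (h1 : S.Red (a :: γ)) (h2 : S.Eqv (a :: γ) (S.inv b :: γ')) :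
    S.Eqv (S.tl d (S.tl c γ)) γ' := by
  rcases qc _ γ γ' a (S.inv b) rfl h1 h2 with ⟨h3, _⟩ | ⟨δ, p, q, m1, m2, m3⟩
  · exact absurd (by rw [h3, S.ii]) (S.nd_ab h)
  -- `a b ~ p⁻¹ q`
  have q1 : S.Sq a b (S.inv p) q := by
    have := S.s4 m3
    rwa [S.ii] at this
  have hrδ : S.Red (p :: δ) := hr.eqv m1
  have hrq : S.Red (q :: δ) := by
    have h4 : S.Red γ' := (h1.eqv h2).tail
    exact h4.eqv m2
  rcases S.r1 (S.s1 q1) h with h4 | ⟨h4, h5⟩
  · -- `p⁻¹ q ~ c d`, so `p c ~ q d⁻¹`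
    have q2 : S.Sq p c q (S.inv d) := by
      have := S.s2 h4
      rwa [S.ii] at this
    have e1 : S.Eqv (c :: γ) (S.inv d :: q :: δ) := (m1.cons c).trans (Eqv.sq q2 δ)
    rcases tl_cases (e := c) hr with ⟨ζ, k1, k2⟩ | ⟨k1, k2⟩
    · -- `γ ~ ζ c⁻¹`
      rcases ext _ (q :: δ) (S.inv d) rfl hrq with ⟨κ, h6⟩ | h6
      · rw [S.ii] at h6
        rcases qc _ δ κ q d rfl hrq h6 with ⟨h7, _⟩ | ⟨η, s, t, n1, n2, n3⟩
        · exact absurd (by rw [h7]) (S.nd_cd q2)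
        · -- `q d⁻¹ ~ s⁻¹ t`
          have q3 : S.Sq q (S.inv d) (S.inv s) t := S.s4 n3
          rcases S.r1 q2 q3 with h8 | ⟨h8, _⟩
          · have q4 : S.Sq s p t (S.inv c) := by
              have := S.s2 (S.s1 h8)
              rwa [S.ii] at this
            have e2 : S.Eqv γ (S.inv c :: κ) :=
              (m1.trans (n1.cons p)).trans ((Eqv.sq q4 η).trans (n2.cons _).symm)
            have e3 := tl_cancel hr e2
            have e4 := tl_congr (e := d) (tl_red hr) e3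
            have e5 : S.Red (d :: κ) := hrq.eqv h6
            rw [tl_ext e5] at e4
            exact (e4.trans h6.symm).trans m2.symm
          · exfalso
            rw [h8] at m1
            exact not_red' hr (m1.trans (n1.cons _))
      · exfalso
        refine (h6.eqv e1.symm) _ (k1.cons c) ?_
        have := Back.here (S := S) (S.inv c) ζ
        rwa [S.ii] at this
    · rw [k2]
      exact (tl_cancel k1 e1).trans m2.symm
  · -- `c = p⁻¹`, `d = q`
    rw [← h4, ← h5]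
    have e2 : S.Eqv γ (S.inv (S.inv p) :: δ) := by
      rw [S.ii]
      exact m1
    have e3 := tl_cancel hr e2
    have e4 := tl_congr (e := q) (tl_red hr) e3
    rw [tl_ext hrq] at e4
    exact e4.trans m2.symm

/-- Case A of the square lemma: `a γ` is reduced. -/
theorem tl_sq_A {a b c d : E} {γ : List E} (hr : S.Red γ) (h : S.Sq a b c d)
    (h1 : S.Red (a :: γ)) : S.Eqv (S.tl b (S.tl a γ)) (S.tl d (S.tl c γ)) := by
  rw [tl_ext h1]
  rcases tl_cases (e := b) h1 with ⟨γ', h2, h3⟩ | ⟨h2, h3⟩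
  · exact h3.trans (tl_sq_aux hr h h1 h2).symm
  · rw [h3]
    have h4 : S.Eqv (b :: a :: γ) (d :: c :: γ) := Eqv.sq h γ
    have h5 := h2.eqv h4
    rw [tl_ext h5.tail, tl_ext h5]
    exact h4

/-- The transport is compatible with squares. -/
theorem tl_sq {a b c d : E} {γ : List E} (hr : S.Red γ) (h : S.Sq a b c d) :
    S.Eqv (S.tl b (S.tl a γ)) (S.tl d (S.tl c γ)) := by
  rcases tl_cases (e := a) hr with ⟨γ1, k1, k2⟩ | ⟨h1, _⟩
  swap
  · exact tl_sq_A hr h h1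
  rcases tl_cases (e := c) hr with ⟨γ2, l1, l2⟩ | ⟨h1, _⟩
  swap
  · exact (tl_sq_A hr (S.s1 h) h1).symm
  -- both cancel
  have c1 := tl_congr (e := b) (tl_red hr) k2
  have c2 := tl_congr (e := d) (tl_red hr) l2
  refine c1.trans (Eqv.trans ?_ c2.symm)
  rcases qc _ γ1 γ2 (S.inv a) (S.inv c) rfl (hr.eqv k1) (k1.symm.trans l1) with
    ⟨h3, _⟩ | ⟨δ, p, q, m1, m2, m3⟩
  · exact absurd (S.inv_inj h3) (S.nd h)
  have hrp : S.Red (p :: δ) := (hr.eqv k1).tail.eqv m1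
  have hrq : S.Red (q :: δ) := (hr.eqv l1).tail.eqv m2
  have d1 := tl_congr (e := b) (hr.eqv k1).tail m1
  have d2 := tl_congr (e := d) (hr.eqv l1).tail m2
  refine d1.trans (Eqv.trans ?_ d2.symm)
  -- `a⁻¹ c ~ b d⁻¹`, `a⁻¹ c ~ p⁻¹ q`
  have q1 : S.Sq (S.inv a) c b (S.inv d) := S.s2 h
  have q2 : S.Sq (S.inv a) c (S.inv p) q := by
    have := S.s4 m3
    rwa [S.ii] at this
  rcases S.r1 (S.s1 q1) q2 with h4 | ⟨h4, h5⟩
  · have q3 : S.Sq p b q d := by
      have := S.s2 (S.s1 h4)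
      rwa [S.ii, S.ii] at this
    have := tl_sq_A hrp.tail q3 hrp
    rwa [tl_ext hrp, tl_ext hrq] at this
  · rw [h4]
    have h5' : d = S.inv q := by rw [← h5, S.ii]
    rw [h5']
    refine (tl_cancel hrp (γ' := δ) ?_).trans (tl_cancel hrq (γ' := δ) ?_).symm
    · rw [S.ii]
      exact Eqv.refl S _
    · rw [S.ii]
      exact Eqv.refl S _

/-- end point of a path starting at `o` -/
def en (S : SqS V E) (o : V) : List E → V
  | [] => o
  | e :: _ => S.src (S.inv e)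

/-- paths starting at `o` -/
def Vd (S : SqS V E) (o : V) : List E → Prop
  | [] => True
  | e :: γ => S.src e = S.en o γ ∧ Vd S o γ

theorem Vd.mv {o : V} {γ γ' : List E} (h : S.Mv γ γ') :
    S.Vd o γ → S.Vd o γ' ∧ S.en o γ = S.en o γ' := by
  induction h with
  | sq γ h =>
    rintro ⟨h1, h2, h3⟩
    refine ⟨⟨?_, ?_, h3⟩, S.e_bd h⟩
    · exact (S.e_cd h).symm
    · rw [← S.e1 h]
      exact h2
  | cons e _ ih =>
    rintro ⟨h1, h2⟩
    obtain ⟨h3, h4⟩ := ih h2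
    exact ⟨⟨by rw [h1, h4], h3⟩, rfl⟩

theorem Vd.eqv {o : V} {γ γ' : List E} (h : S.Eqv γ γ') :
    S.Vd o γ → S.Vd o γ' ∧ S.en o γ = S.en o γ' := by
  intro h1
  induction h with
  | refl => exact ⟨h1, rfl⟩
  | tail _ h2 ih =>
    obtain ⟨h3, h4⟩ := ih
    obtain ⟨h5, h6⟩ := Vd.mv h2 h3
    exact ⟨h5, h4.trans h6⟩

theorem tl_vd {o : V} {e : E} {γ : List E} (hr : S.Red γ) (hv : S.Vd o γ)
    (he : S.src e = S.en o γ) : S.Vd o (S.tl e γ) ∧ S.en o (S.tl e γ) = S.src (S.inv e) := by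
  rcases tl_cases (e := e) hr with ⟨δ, h1, h2⟩ | ⟨h1, h2⟩
  · have h3 := (Vd.eqv h1 hv).1
    have h4 := Vd.eqv h2.symm h3.2
    exact ⟨h4.1, by rw [← h4.2, ← h3.1]⟩
  · rw [h2]
    exact ⟨⟨he, hv⟩, rfl⟩

end SqS

end Pool.Agent.H169Q
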