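import Pool.Agent.helper169_quad.FlagR2
import Pool.Agent.helper169_quad.Tl

/-!
# The incidence square structure of a C(4)-T(4) complex and its holonomy
-/

set_option autoImplicit false

namespace Pool.Agent.H169Q

namespace Fl

variable {V E Φ K C : Type*}

/-- vertices and cells of the corners -/
structure Cor (F : Fl V E Φ K C) where
  vk : K → V
  ck : K → C
  hv : ∀ φ, vk (F.cn φ) = F.src (F.fst φ)
  hc : ∀ φ, ck (F.cn φ) = F.cl φ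
  sur : Function.Surjective F.cn

variable {F : Fl V E Φ K C}

theorem SqV.vk (k : Cor F) {a b c d : K} (h : F.SqV a b c d) : k.vk a = k.vk c := by
  obtain ⟨_, φ, ψ, n, hn, _, _, rfl, _, rfl, _, hA⟩ := h
  rw [k.hv, k.hv, hA.fst hn]

theorem SqV.ck (k : Cor F) {a b c d : K} (h : F.SqV a b c d) : k.ck a = k.ck b := by
  obtain ⟨_, φ, ψ, n, _, _, _, rfl, rfl, _, _, _⟩ := h
  rw [k.hc, k.hc, F.cl_adv]

/-- The incidence square structure: an edge `(k, true)` goes from the vertex to the cell of the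
corner `k`, the edge `(k, false)` goes back. -/
def sqs (hC : F.C4) (hT : F.T4) (k : Cor F) : SqS (V ⊕ C) (K × Bool) where
  src d := if d.2 then Sum.inl (k.vk d.1) else Sum.inr (k.ck d.1)
  inv d := (d.1, !d.2)
  ii := by
    rintro ⟨a, b⟩
    simp
  Sq a b c d := (a.2 = true ∧ b.2 = false ∧ c.2 = true ∧ d.2 = false ∧ F.SqV a.1 b.1 c.1 d.1) ∨
    (a.2 = false ∧ b.2 = true ∧ c.2 = false ∧ d.2 = true ∧ F.SqV a.1 c.1 b.1 d.1)
  s1 := by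
    rintro a b c d (⟨h1, h2, h3, h4, h⟩ | ⟨h1, h2, h3, h4, h⟩)
    · exact Or.inl ⟨h3, h4, h1, h2, h.symm⟩
    · exact Or.inr ⟨h3, h4, h1, h2, h.flip⟩
  s2 := by
    rintro a b c d (⟨h1, h2, h3, h4, h⟩ | ⟨h1, h2, h3, h4, h⟩)
    · exact Or.inr ⟨by simp [h1], h3, h2, by simp [h4], h⟩
    · exact Or.inl ⟨by simp [h1], h3, h2, by simp [h4], h⟩
  nd := by
    rintro a b c d (⟨h1, h2, h3, h4, h⟩ | ⟨h1, h2, h3, h4, h⟩) rfl
    · exact h.ne rfl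
    · exact h.ne1 rfl
  e1 := by
    rintro a b c d (⟨h1, h2, h3, h4, h⟩ | ⟨h1, h2, h3, h4, h⟩)
    · simp only [h1, h3, if_true, h.vk k]
    · have h5 := SqV.ck k h
      simp [h1, h3, h5]
  r1 := by
    rintro ⟨a, a'⟩ ⟨b, b'⟩ ⟨c, c'⟩ ⟨d, d'⟩ ⟨e, e'⟩ ⟨f, f'⟩ h h'
    rcases h with ⟨h1, h2, h3, h4, h⟩ | ⟨h1, h2, h3, h4, h⟩
    · rcases h' with ⟨k1, k2, k3, k4, h'⟩ | ⟨k1, k2, k3, k4, h'⟩
      · simp only at h1 h2 h3 h4 h k1 k2 k3 k4 h'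
        subst h1 h2 h3 h4 k3 k4
        rcases r1V hC h h' with h5 | ⟨rfl, rfl⟩
        · exact Or.inl (Or.inl ⟨rfl, rfl, rfl, rfl, h5⟩)
        · exact Or.inr ⟨rfl, rfl⟩
      · simp only at h3 k1
        rw [h3] at k1
        cases k1
    · rcases h' with ⟨k1, k2, k3, k4, h'⟩ | ⟨k1, k2, k3, k4, h'⟩
      · simp only at h3 k1
        rw [h3] at k1
        cases k1
      · simp only at h1 h2 h3 h4 h k1 k2 k3 k4 h'
        subst h1 h2 h3 h4 k3 k4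
        rcases r1C hC h h' with h5 | ⟨rfl, rfl⟩
        · exact Or.inl (Or.inr ⟨rfl, rfl, rfl, rfl, h5⟩)
        · exact Or.inr ⟨rfl, rfl⟩
  r2 := by
    rintro ⟨a, a1⟩ ⟨b, b1⟩ ⟨a', a1'⟩ ⟨b', b1'⟩ ⟨p, p1⟩ ⟨q, q1⟩ ⟨x, x1⟩ ⟨y, y1⟩ ⟨z, z1⟩ h1 h2 h3 n1 n2 n3
    rcases h1 with ⟨u1, u2, u3, u4, h1⟩ | ⟨u1, u2, u3, u4, h1⟩
    · simp only at u1 u2 u3 u4 h1
      subst u1 u2 u3 u4
      rcases h2 with ⟨v1, v2, v3, v4, h2⟩ | ⟨v1, v2, v3, v4, h2⟩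
      swap
      · simp at v2
      simp only at v1 v3 v4 h2
      subst v1 v3 v4
      rcases h3 with ⟨w1, w2, w3, w4, h3⟩ | ⟨w1, w2, w3, w4, h3⟩
      · simp at w2
      simp only at w1 w3 h3
      subst w1 w3
      rcases r2C hC h1 h2 h3 (fun h => n1 (by rw [h])) (fun h => n2 (by rw [h]; rfl))
        (fun h => n3 (by rw [h]; rfl)) with ⟨g, g1, g2⟩ | ⟨g, g1, g2⟩ | ⟨g, g1, g2⟩
      · exact Or.inl ⟨(g, false), Or.inr ⟨rfl, rfl, rfl, rfl, g1⟩, Or.inr ⟨rfl, rfl, rfl, rfl, g2⟩⟩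
      · exact Or.inr (Or.inl ⟨(g, true), Or.inr ⟨rfl, rfl, rfl, rfl, g1⟩,
          Or.inl ⟨rfl, rfl, rfl, rfl, g2⟩⟩)
      · exact Or.inr (Or.inr ⟨(g, true), Or.inr ⟨rfl, rfl, rfl, rfl, g1⟩,
          Or.inl ⟨rfl, rfl, rfl, rfl, g2⟩⟩)
    · simp only at u1 u2 u3 u4 h1
      subst u1 u2 u3 u4
      rcases h2 with ⟨v1, v2, v3, v4, h2⟩ | ⟨v1, v2, v3, v4, h2⟩
      · simp at v2
      simp only at v1 v3 v4 h2
      subst v1 v3 v4
      rcases h3 with ⟨w1, w2, w3, w4, h3⟩ | ⟨w1, w2, w3, w4, h3⟩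
      swap
      · simp at w2
      simp only at w1 w3 h3
      subst w1 w3
      rcases r2V hC hT h1 h2 h3 (fun h => n1 (by rw [h])) (fun h => n2 (by rw [h]; rfl))
        (fun h => n3 (by rw [h]; rfl)) with ⟨g, g1, g2⟩ | ⟨g, g1, g2⟩ | ⟨g, g1, g2⟩
      · exact Or.inl ⟨(g, true), Or.inl ⟨rfl, rfl, rfl, rfl, g1⟩, Or.inl ⟨rfl, rfl, rfl, rfl, g2⟩⟩
      · exact Or.inr (Or.inl ⟨(g, false), Or.inl ⟨rfl, rfl, rfl, rfl, g1⟩,
          Or.inr ⟨rfl, rfl, rfl, rfl, g2⟩⟩)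
      · exact Or.inr (Or.inr ⟨(g, false), Or.inl ⟨rfl, rfl, rfl, rfl, g1⟩,
          Or.inr ⟨rfl, rfl, rfl, rfl, g2⟩⟩)

/-- one common edge -/
theorem sq1 (hC : F.C4) {φ ψ : Φ} (h : F.fst φ = F.fst ψ) (hne : F.cn φ ≠ F.cn ψ) :
    F.SqV (F.cn φ) (F.cn (F.adv 1 φ)) (F.cn ψ) (F.cn (F.adv 1 ψ)) := by
  have hA : F.Agr φ ψ 1 := by
    intro t h1 h2
    have : t = 0 := by omega
    rw [this, F.adv_zero, F.adv_zero, h]
  have key : ∀ {φ ψ : Φ}, F.Agr φ ψ 1 → F.cn φ ≠ F.cn ψ → (1 : ℤ) < F.len φ := by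
    intro φ ψ hA hne
    by_contra hcon
    have hpos := F.len_pos φ
    have h1 : (F.len φ : ℤ) = 1 := by omega
    by_cases hs : F.Sym φ ψ
    · obtain ⟨m, hm⟩ := hs.rot
      apply hne
      rw [hm]
      congr 1
      symm
      rw [F.adv_eq, h1]
      exact one_dvd m
    · exact hC φ 1 1 (by omega) le_rfl (by omega) (Or.inr ⟨ψ, hs, hA⟩) (Or.inl (by ring))
        (Or.inl (by omega))
  exact SqV.mk' hne one_pos (key hA hne) (key hA.symm hne.symm) hA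

/-- an edge in no cell -/
def Iso (F : Fl V E Φ K C) (e : E) : Prop := ∀ φ, F.fst φ ≠ e

theorem Iso.inv {e : E} (h : Iso F e) : Iso F (F.inv e) := by
  intro φ hφ
  apply h (F.rev (F.adv 1 φ))
  rw [F.fst_rev, F.adv_add, neg_add_cancel, F.adv_zero, hφ, F.ii]

/-- corners, together with the ends of the isolated edges -/
abbrev K' (F : Fl V E Φ K C) := K ⊕ {e : E // Iso F e}

/-- cells, together with the isolated edges without orientation -/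
abbrev C' (F : Fl V E Φ K C) := C ⊕ {s : Set E // ∃ e, Iso F e ∧ s = {e, F.inv e}}

/-- the vertex of a corner -/
def Cor.vk' (k : Cor F) : K' F → V
  | Sum.inl κ => k.vk κ
  | Sum.inr e => F.src e.1

/-- the cell of a corner -/
def Cor.ck' (k : Cor F) : K' F → C' F
  | Sum.inl κ => Sum.inl (k.ck κ)
  | Sum.inr e => Sum.inr ⟨{e.1, F.inv e.1}, e.1, e.2, rfl⟩

/-- the inclusion of the edges -/
def emb (F : Fl V E Φ K C) (a : K × Bool) : K' F × Bool := (Sum.inl a.1, a.2)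

theorem emb_inj {a b : K × Bool} (h : emb F a = emb F b) : a = b := by
  obtain ⟨a, a'⟩ := a
  obtain ⟨b, b'⟩ := b
  unfold emb at h
  simp only [Prod.mk.injEq, Sum.inl.injEq] at h
  rw [h.1, h.2]

/-- The incidence square structure with the isolated edges. -/
def sqs' (hC : F.C4) (hT : F.T4) (k : Cor F) : SqS (V ⊕ C' F) (K' F × Bool) where
  src d := if d.2 then Sum.inl (k.vk' d.1) else Sum.inr (k.ck' d.1)
  inv d := (d.1, !d.2)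
  ii := by
    rintro ⟨a, b⟩
    simp
  Sq a b c d := ∃ a' b' c' d', a = emb F a' ∧ b = emb F b' ∧ c = emb F c' ∧ d = emb F d' ∧
    (F.sqs hC hT k).Sq a' b' c' d'
  s1 := by
    rintro _ _ _ _ ⟨a, b, c, d, rfl, rfl, rfl, rfl, h⟩
    exact ⟨c, d, a, b, rfl, rfl, rfl, rfl, (F.sqs hC hT k).s1 h⟩
  s2 := by
    rintro _ _ _ _ ⟨a, b, c, d, rfl, rfl, rfl, rfl, h⟩
    exact ⟨_, _, _, _, rfl, rfl, rfl, rfl, (F.sqs hC hT k).s2 h⟩
  nd := by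
    rintro _ _ _ _ ⟨a, b, c, d, rfl, rfl, rfl, rfl, h⟩ h1
    exact (F.sqs hC hT k).nd h (emb_inj h1)
  e1 := by
    rintro _ _ _ _ ⟨a, b, c, d, rfl, rfl, rfl, rfl, h⟩
    have h1 := (F.sqs hC hT k).e1 h
    obtain ⟨a, a'⟩ := a
    obtain ⟨c, c'⟩ := c
    cases a' <;> cases c' <;> simp_all [sqs, emb, Cor.vk', Cor.ck']
  r1 := by
    rintro _ _ _ _ _ _ ⟨a, b, c, d, rfl, rfl, rfl, rfl, h⟩ ⟨c', d', e, f, h1, h2, rfl, rfl, h'⟩
    have := emb_inj h1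
    have := emb_inj h2
    subst c' d'
    rcases (F.sqs hC hT k).r1 h h' with h3 | ⟨rfl, rfl⟩
    · exact Or.inl ⟨a, b, e, f, rfl, rfl, rfl, rfl, h3⟩
    · exact Or.inr ⟨rfl, rfl⟩
  r2 := by
    rintro _ _ _ _ _ _ _ _ _ ⟨a, x, b, y, rfl, rfl, rfl, rfl, h1⟩
      ⟨a', y', b', z, rfl, h12, rfl, rfl, h2⟩ ⟨p, b1, q, a1, rfl, h13, rfl, h14, h3⟩ n1 n2 n3
    have := emb_inj h12
    have := emb_inj h13
    have := emb_inj h14
    subst y' b1 a1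
    rcases (F.sqs hC hT k).r2 h1 h2 h3 (fun h => n1 (by rw [h])) (fun h => n2 (by rw [h]; rfl))
      (fun h => n3 (by rw [h]; rfl)) with ⟨g, g1, g2⟩ | ⟨g, g1, g2⟩ | ⟨g, g1, g2⟩
    · exact Or.inl ⟨emb F g, ⟨_, _, _, _, rfl, rfl, rfl, rfl, g1⟩,
        ⟨_, _, _, _, rfl, rfl, rfl, rfl, g2⟩⟩
    · exact Or.inr (Or.inl ⟨emb F g, ⟨_, _, _, _, rfl, rfl, rfl, rfl, g1⟩,
        ⟨_, _, _, _, rfl, rfl, rfl, rfl, g2⟩⟩)
    · exact Or.inr (Or.inr ⟨emb F g, ⟨_, _, _, _, rfl, rfl, rfl, rfl, g1⟩,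
        ⟨_, _, _, _, rfl, rfl, rfl, rfl, g2⟩⟩)


end Fl

end Pool.Agent.H169Q
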