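import Mathlib

/-!
# Graphs with small separators: a level function with small slabs
-/

set_option autoImplicit false

namespace Pool.Agent.H169Q

open Classical

variable {U : Type*} {G : SimpleGraph U}

/-- reachability inside the set `D` -/
def Rch (G : SimpleGraph U) (D : Set U) : U → U → Prop :=
  Relation.ReflTransGen fun x y => G.Adj x y ∧ x ∈ D ∧ y ∈ D

/-- connected sets -/
def Cnd (G : SimpleGraph U) (D : Set U) : Prop := ∀ u ∈ D, ∀ v ∈ D, Rch G D u v

theorem Rch.symm {D : Set U} {u v : U} (h : Rch G D u v) : Rch G D v u := by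
  induction h with
  | refl => exact Relation.ReflTransGen.refl
  | tail _ h2 ih => exact Relation.ReflTransGen.head ⟨h2.1.symm, h2.2.2, h2.2.1⟩ ih

theorem Rch.mono {D D' : Set U} (hD : D ⊆ D') {u v : U} (h : Rch G D u v) : Rch G D' u v := by
  induction h with
  | refl => exact Relation.ReflTransGen.refl
  | tail _ h2 ih => exact ih.tail ⟨h2.1, hD h2.2.1, hD h2.2.2⟩

theorem Rch.mem {D : Set U} {u v : U} (h : Rch G D u v) (hu : u ∈ D) : v ∈ D := by
  induction h with
  | refl => exact hu
  | tail _ h2 _ => exact h2.2.2

/-- a property which is inherited by neighbours in `D` -/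
theorem Rch.ind {D : Set U} {u v : U} (h : Rch G D u v) {P : U → Prop}
    (hP : ∀ x y, G.Adj x y → x ∈ D → y ∈ D → P x → P y) (hu : P u) : P v := by
  induction h with
  | refl => exact hu
  | tail _ h2 ih => exact hP _ _ h2.1 h2.2.1 h2.2.2 ih

/-- the component of `u` in `D` -/
def cmp (G : SimpleGraph U) (D : Set U) (u : U) : Set U := {v | v ∈ D ∧ Rch G D u v}

theorem cmp_sub (D : Set U) (u : U) : cmp G D u ⊆ D := fun _ h => h.1

theorem self_mem_cmp {D : Set U} {u : U} (h : u ∈ D) : u ∈ cmp G D u :=
  ⟨h, Relation.ReflTransGen.refl⟩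

theorem cmp_closed {D : Set U} {u v w : U} (hv : v ∈ cmp G D u) (hw : w ∈ D) (h : G.Adj v w) :
    w ∈ cmp G D u := ⟨hw, hv.2.tail ⟨h, hv.1, hw⟩⟩

theorem cmp_cnd (D : Set U) {u : U} (hu : u ∈ D) : Cnd G (cmp G D u) := by
  have key : ∀ v, Rch G D u v → Rch G (cmp G D u) u v := by
    intro v h
    induction h with
    | refl => exact Relation.ReflTransGen.refl
    | tail h1 h2 ih => exact ih.tail ⟨h2.1, ⟨h2.2.1, h1⟩, ⟨h2.2.2, h1.tail h2⟩⟩
  intro v hv w hw
  exact (key v hv.2).symm.trans (key w hw.2)

/-- every finite family of points has a balanced separator of size at most `s` -/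
def Sep (s : ℕ) (G : SimpleGraph U) : Prop :=
  ∀ (n : ℕ) (a : Fin n → U), ∃ X : Finset U, X.card ≤ s ∧ ∀ D : Set U, (∀ u ∈ D, u ∉ X) →
    Cnd G D → 2 * (Finset.univ.filter fun i => a i ∈ D).card ≤ n

theorem Sep.finset {s : ℕ} (h : Sep s G) (B : Finset U) : ∃ X : Finset U, X.card ≤ s ∧
    ∀ D : Set U, (∀ u ∈ D, u ∉ X) → Cnd G D → 2 * (B.filter fun b => b ∈ D).card ≤ B.card := by
  obtain ⟨X, h1, h2⟩ := h B.card fun i => (B.equivFin.symm i).1
  refine ⟨X, h1, fun D hD hc => ?_⟩
  have h3 := h2 D hD hc
  have h4 : (B.filter fun b => b ∈ D).card ≤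
      (Finset.univ.filter fun i : Fin B.card => (B.equivFin.symm i).1 ∈ D).card := by
    refine Finset.card_le_card_of_surjOn (fun i => (B.equivFin.symm i).1) ?_
    intro b hb
    simp only [Finset.coe_filter, Set.mem_ofPred_eq] at hb
    refine ⟨B.equivFin ⟨b, hb.1⟩, ?_, ?_⟩
    · simp [hb.2]
    · simp
  omega

/-- grouping the components into two sides -/
theorem group {F B X : Finset U}
    (hX : ∀ D : Set U, (∀ u ∈ D, u ∉ X) → Cnd G D →
      2 * (B.filter fun b => b ∈ D).card ≤ B.card) :
    ∃ A : Finset U, A ⊆ F \ X ∧ (∀ u ∈ A, ∀ v ∈ F \ X, G.Adj u v → v ∈ A) ∧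
      3 * (B ∩ A).card ≤ 2 * B.card ∧ 3 * (B ∩ ((F \ X) \ A)).card ≤ 2 * B.card := by
  let 𝒞 : Finset (Finset U) := (F \ X).powerset.filter fun A =>
    (∀ u ∈ A, ∀ v ∈ F \ X, G.Adj u v → v ∈ A) ∧ 3 * (B ∩ A).card ≤ 2 * B.card
  have hne : 𝒞.Nonempty := by
    refine ⟨∅, ?_⟩
    simp [𝒞]
  obtain ⟨A, hA, hmax⟩ := Finset.exists_max_image 𝒞 (fun A => (B ∩ A).card) hne
  simp only [𝒞, Finset.mem_filter, Finset.mem_powerset] at hA hmax
  obtain ⟨hA1, hA2, hA3⟩ := hA
  refine ⟨A, hA1, hA2, hA3, ?_⟩
  have hdisj : (B ∩ A).card + (B ∩ ((F \ X) \ A)).card ≤ B.card := by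
    rw [← Finset.card_union_of_disjoint]
    · apply Finset.card_le_card
      intro u hu
      rcases Finset.mem_union.1 hu with h | h
      · exact (Finset.mem_inter.1 h).1
      · exact (Finset.mem_inter.1 h).1
    · rw [Finset.disjoint_left]
      intro u h1 h2
      exact (Finset.mem_sdiff.1 (Finset.mem_inter.1 h2).2).2 (Finset.mem_inter.1 h1).2
  by_contra hcon
  push Not at hcon
  -- a point of the other side
  have hpos : 0 < (B ∩ ((F \ X) \ A)).card := by omega
  obtain ⟨b, hb⟩ := Finset.card_pos.1 hpos
  rw [Finset.mem_inter, Finset.mem_sdiff] at hb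
  obtain ⟨hbB, hbF, hbA⟩ := hb
  let D : Finset U := (F \ X).filter fun v => v ∈ cmp G (↑(F \ X)) b
  have hDmem : ∀ v, v ∈ D ↔ v ∈ cmp G (↑(F \ X) : Set U) b := by
    intro v
    simp only [D, Finset.mem_filter]
    exact ⟨fun h => h.2, fun h => ⟨by exact_mod_cast h.1, h⟩⟩
  have hbD : b ∈ D := by
    rw [hDmem]
    exact self_mem_cmp (by exact_mod_cast hbF)
  have hDF : D ⊆ F \ X := Finset.filter_subset _ _
  have hDcl : ∀ u ∈ D, ∀ v ∈ F \ X, G.Adj u v → v ∈ D := by
    intro u hu v hv huv
    rw [hDmem] at hu ⊢
    exact cmp_closed hu (by exact_mod_cast hv) huv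
  have hDA : Disjoint A D := by
    rw [Finset.disjoint_left]
    intro v hv1 hv2
    rw [hDmem] at hv2
    apply hbA
    exact hv2.2.symm.ind (P := fun x => x ∈ A) (fun x y hxy hx hy hxA =>
      hA2 x hxA y (by exact_mod_cast hy) hxy) hv1
  have h2D : 2 * (B ∩ D).card ≤ B.card := by
    have h1 := hX (cmp G (↑(F \ X)) b) (by
      intro u hu
      have : u ∈ F \ X := by exact_mod_cast hu.1
      exact (Finset.mem_sdiff.1 this).2) (cmp_cnd _ (by exact_mod_cast hbF))
    have h2 : (B ∩ D).card ≤ (B.filter fun b' => b' ∈ cmp G (↑(F \ X) : Set U) b).card := by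
      apply Finset.card_le_card
      intro u hu
      rw [Finset.mem_inter, hDmem] at hu
      rw [Finset.mem_filter]
      exact hu
    omega
  have hBD : 0 < (B ∩ D).card := Finset.card_pos.2 ⟨b, Finset.mem_inter.2 ⟨hbB, hbD⟩⟩
  have hun : (B ∩ (A ∪ D)).card = (B ∩ A).card + (B ∩ D).card := by
    rw [Finset.inter_union_distrib_left, Finset.card_union_of_disjoint]
    exact hDA.mono Finset.inter_subset_right Finset.inter_subset_right
  have hAD : ¬ 3 * (B ∩ (A ∪ D)).card ≤ 2 * B.card := by
    intro h
    have := hmax (A ∪ D) ⟨Finset.union_subset hA1 hDF, by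
      intro u hu v hv huv
      rcases Finset.mem_union.1 hu with h1 | h1
      · exact Finset.mem_union_left _ (hA2 u h1 v hv huv)
      · exact Finset.mem_union_right _ (hDcl u h1 v hv huv), h⟩
    omega
  have hD' := hmax D ⟨hDF, hDcl, by omega⟩
  omega

/-- The level function. -/
theorem slab {s Δ : ℕ} (hs : 1 ≤ s) (hS : Sep s G)
    (hΔ : ∀ (v : U) (T : Finset U), (∀ t ∈ T, G.Adj v t) → T.card ≤ Δ) :
    ∀ (n : ℕ) (F B : Finset U), F.card = n → B ⊆ F → B.card ≤ 12 * s * (Δ + 1) →
      ∃ dep : U → ℕ, (∀ b ∈ B, dep b = 0) ∧
        ((F.filter fun u => dep u = 0).card + 4 * s ≤ 2 * max B.card (4 * s)) ∧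
        (∀ u ∈ F, ∀ v ∈ F, G.Adj u v → dep u ≤ dep v + 1) ∧
        ∀ (m : ℕ) (D : Finset U), D ⊆ F → Cnd G (↑D) → (∀ u ∈ D, m ≤ dep u) →
          (D.filter fun u => dep u = m).card ≤ 24 * s * (Δ + 1) := by
  intro n
  induction n using Nat.strong_induction_on with
  | _ n ih =>
    -- first with `4 * s ≤ B.card`
    have main : ∀ (F B : Finset U), F.card = n → B ⊆ F → B.card ≤ 12 * s * (Δ + 1) →
        4 * s ≤ B.card → ∃ dep : U → ℕ, (∀ b ∈ B, dep b = 0) ∧
        ((F.filter fun u => dep u = 0).card + 4 * s ≤ 2 * B.card) ∧
        (∀ u ∈ F, ∀ v ∈ F, G.Adj u v → dep u ≤ dep v + 1) ∧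
        ∀ (m : ℕ) (D : Finset U), D ⊆ F → Cnd G (↑D) → (∀ u ∈ D, m ≤ dep u) →
          (D.filter fun u => dep u = m).card ≤ 24 * s * (Δ + 1) := by
      intro F B hF hBF hBL hB4
      have hΔs : 12 * s ≤ 12 * s * (Δ + 1) := Nat.le_mul_of_pos_right _ (by omega)
      have h24 : 24 * s * (Δ + 1) = 2 * (12 * s * (Δ + 1)) := by ring
      rcases Nat.lt_or_ge (12 * s) B.card with hB | hB
      · -- large `B`: a separator
        obtain ⟨X, hX1, hX2⟩ := hS.finset B
        obtain ⟨A, hA1, hA2, hA3, hA4⟩ := group (F := F) hX2
        set X' := X ∩ F with hX'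
        set A' := (F \ X) \ A with hA'
        have hX'card : X'.card ≤ s := (Finset.card_le_card Finset.inter_subset_left).trans hX1
        have hXs : F \ X = F \ X' := by
          ext u
          simp only [X', Finset.mem_sdiff, Finset.mem_inter]
          tauto
        have hmem : ∀ u ∈ F, u ∈ A ∨ u ∈ A' ∨ u ∈ X' := by
          intro u hu
          by_cases h1 : u ∈ X
          · exact Or.inr (Or.inr (Finset.mem_inter.2 ⟨h1, hu⟩))
          · by_cases h2 : u ∈ A
            · exact Or.inl h2
            · exact Or.inr (Or.inl (Finset.mem_sdiff.2 ⟨Finset.mem_sdiff.2 ⟨hu, h1⟩, h2⟩))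
        have hAX : ∀ u ∈ A, u ∉ X' := by
          intro u hu h
          exact (Finset.mem_sdiff.1 (hA1 hu)).2 (Finset.mem_inter.1 h).1
        have hA'X : ∀ u ∈ A', u ∉ X' := by
          intro u hu h
          exact (Finset.mem_sdiff.1 (Finset.mem_sdiff.1 hu).1).2 (Finset.mem_inter.1 h).1
        have hAA' : ∀ u ∈ A, u ∉ A' := by
          intro u hu h
          exact (Finset.mem_sdiff.1 h).2 hu
        have hAF : A ⊆ F := hA1.trans Finset.sdiff_subset
        have hA'F : A' ⊆ F := Finset.sdiff_subset.trans Finset.sdiff_subset
        have hX'F : X' ⊆ F := Finset.inter_subset_right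
        have hnoedge : ∀ u ∈ A, ∀ v ∈ A', ¬ G.Adj u v := by
          intro u hu v hv h
          have hv' := Finset.mem_sdiff.1 hv
          exact hv'.2 (hA2 u hu v hv'.1 h)
        -- sizes
        have hsum : (B ∩ A).card + (B ∩ A').card + (B ∩ X').card = B.card := by
          have e1 : B = (B ∩ A) ∪ (B ∩ A') ∪ (B ∩ X') := by
            ext u
            simp only [Finset.mem_union, Finset.mem_inter]
            constructor
            · intro hu
              rcases hmem u (hBF hu) with h | h | h
              · exact Or.inl (Or.inl ⟨hu, h⟩)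
              · exact Or.inl (Or.inr ⟨hu, h⟩)
              · exact Or.inr ⟨hu, h⟩
            · rintro ((h | h) | h) <;> exact h.1
          rw [← Finset.card_union_of_disjoint, ← Finset.card_union_of_disjoint, ← e1]
          · rw [Finset.disjoint_left]
            intro u h1 h2
            have h3 := (Finset.mem_inter.1 h2).2
            rcases Finset.mem_union.1 h1 with h | h
            · exact hAX u (Finset.mem_inter.1 h).2 h3
            · exact hA'X u (Finset.mem_inter.1 h).2 h3
          · rw [Finset.disjoint_left]
            intro u h1 h2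
            exact hAA' u (Finset.mem_inter.1 h1).2 (Finset.mem_inter.1 h2).2
        have hBX : (B ∩ X').card ≤ s := (Finset.card_le_card Finset.inter_subset_right).trans
          hX'card
        let F1 := A ∪ X'
        let F2 := A' ∪ X'
        let B1 := (B ∩ A) ∪ X'
        let B2 := (B ∩ A') ∪ X'
        have hF1 : F1.card < n := by
          rw [← hF]
          apply Finset.card_lt_card
          refine ⟨Finset.union_subset hAF hX'F, fun h => ?_⟩
          have : 0 < (B ∩ A').card := by omega
          obtain ⟨u, hu⟩ := Finset.card_pos.1 this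
          rw [Finset.mem_inter] at hu
          rcases Finset.mem_union.1 (h (hA'F hu.2)) with h1 | h1
          · exact hAA' u h1 hu.2
          · exact hA'X u hu.2 h1
        have hF2 : F2.card < n := by
          rw [← hF]
          apply Finset.card_lt_card
          refine ⟨Finset.union_subset hA'F hX'F, fun h => ?_⟩
          have : 0 < (B ∩ A).card := by omega
          obtain ⟨u, hu⟩ := Finset.card_pos.1 this
          rw [Finset.mem_inter] at hu
          rcases Finset.mem_union.1 (h (hAF hu.2)) with h1 | h1
          · exact hAA' u hu.2 h1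
          · exact hAX u hu.2 h1
        have hB1c : B1.card ≤ (B ∩ A).card + s :=
          (Finset.card_union_le _ _).trans (by omega)
        have hB2c : B2.card ≤ (B ∩ A').card + s :=
          (Finset.card_union_le _ _).trans (by omega)
        obtain ⟨d1, p1, p2, p3, p4⟩ := ih F1.card hF1 F1 B1 rfl
          (Finset.union_subset_union Finset.inter_subset_right (Finset.Subset.refl _)) (by omega)
        obtain ⟨d2, q1, q2, q3, q4⟩ := ih F2.card hF2 F2 B2 rfl
          (Finset.union_subset_union Finset.inter_subset_right (Finset.Subset.refl _)) (by omega)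
        have hz1 : ∀ u ∈ X', d1 u = 0 := fun u hu => p1 u (Finset.mem_union_right _ hu)
        have hz2 : ∀ u ∈ X', d2 u = 0 := fun u hu => q1 u (Finset.mem_union_right _ hu)
        let dep : U → ℕ := fun u => if u ∈ F1 then d1 u else d2 u
        have e1 : ∀ u ∈ F1, dep u = d1 u := fun u hu => if_pos hu
        have e2 : ∀ u ∈ F2, dep u = d2 u := by
          intro u hu
          by_cases h : u ∈ F1
          · rw [e1 u h]
            have hX : u ∈ X' := by
              rcases Finset.mem_union.1 hu with h1 | h1
              · rcases Finset.mem_union.1 h with h2 | h2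
                · exact absurd h1 (hAA' u h2)
                · exact h2
              · exact h1
            rw [hz1 u hX, hz2 u hX]
          · exact if_neg h
        have hF12 : ∀ u ∈ F, u ∈ F1 ∨ u ∈ F2 := by
          intro u hu
          rcases hmem u hu with h | h | h
          · exact Or.inl (Finset.mem_union_left _ h)
          · exact Or.inr (Finset.mem_union_left _ h)
          · exact Or.inl (Finset.mem_union_right _ h)
        have hzero : (F.filter fun u => dep u = 0).card + 4 * s ≤ 2 * B.card := by
          have h1 : (F.filter fun u => dep u = 0) ⊆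
              (F1.filter fun u => d1 u = 0) ∪ (F2.filter fun u => d2 u = 0) := by
            intro u hu
            rw [Finset.mem_filter] at hu
            rw [Finset.mem_union, Finset.mem_filter, Finset.mem_filter]
            rcases hF12 u hu.1 with h | h
            · left
              exact ⟨h, by rw [← e1 u h]; exact hu.2⟩
            · right
              exact ⟨h, by rw [← e2 u h]; exact hu.2⟩
          have h2 := (Finset.card_le_card h1).trans (Finset.card_union_le _ _)
          omega
        refine ⟨dep, ?_, hzero, ?_, ?_⟩
        · intro b hb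
          rcases hmem b (hBF hb) with h | h | h
          · rw [e1 b (Finset.mem_union_left _ h)]
            exact p1 b (Finset.mem_union_left _ (Finset.mem_inter.2 ⟨hb, h⟩))
          · rw [e2 b (Finset.mem_union_left _ h)]
            exact q1 b (Finset.mem_union_left _ (Finset.mem_inter.2 ⟨hb, h⟩))
          · rw [e1 b (Finset.mem_union_right _ h)]
            exact hz1 b h
        · intro u hu v hv huv
          have hcase : (u ∈ F1 ∧ v ∈ F1) ∨ (u ∈ F2 ∧ v ∈ F2) := by
            rcases hmem u hu with h1 | h1 | h1
            · rcases hmem v hv with h2 | h2 | h2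
              · exact Or.inl ⟨Finset.mem_union_left _ h1, Finset.mem_union_left _ h2⟩
              · exact absurd huv (hnoedge u h1 v h2)
              · exact Or.inl ⟨Finset.mem_union_left _ h1, Finset.mem_union_right _ h2⟩
            · rcases hmem v hv with h2 | h2 | h2
              · exact absurd huv.symm (hnoedge v h2 u h1)
              · exact Or.inr ⟨Finset.mem_union_left _ h1, Finset.mem_union_left _ h2⟩
              · exact Or.inr ⟨Finset.mem_union_left _ h1, Finset.mem_union_right _ h2⟩
            · rcases hF12 v hv with h2 | h2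
              · exact Or.inl ⟨Finset.mem_union_right _ h1, h2⟩
              · exact Or.inr ⟨Finset.mem_union_right _ h1, h2⟩
          rcases hcase with ⟨h1, h2⟩ | ⟨h1, h2⟩
          · rw [e1 u h1, e1 v h2]
            exact p3 u h1 v h2 huv
          · rw [e2 u h1, e2 v h2]
            exact q3 u h1 v h2 huv
        · intro m D hDF hDc hDm
          rcases Nat.eq_zero_or_pos m with rfl | hm
          · have h1 : (D.filter fun u => dep u = 0) ⊆ F.filter fun u => dep u = 0 :=
              Finset.filter_subset_filter _ hDF
            have h2 := Finset.card_le_card h1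
            omega
          · have hDX : ∀ u ∈ D, u ∉ X' := by
              intro u hu h
              have h1 := hDm u hu
              rw [e1 u (Finset.mem_union_right _ h), hz1 u h] at h1
              omega
            rcases D.eq_empty_or_nonempty with rfl | ⟨u0, hu0⟩
            · simp
            rcases hmem u0 (hDF hu0) with h0 | h0 | h0
            · have hDA : D ⊆ A := by
                intro v hv
                exact (hDc u0 hu0 v hv).ind (P := fun x => x ∈ A) (fun x y hxy hx hy hxA => by
                  have hy' : y ∈ D := by exact_mod_cast hy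
                  rcases hmem y (hDF hy') with h | h | h
                  · exact h
                  · exact absurd hxy (hnoedge x hxA y h)
                  · exact absurd h (hDX y hy')) h0
              have hDF1 : D ⊆ F1 := hDA.trans Finset.subset_union_left
              have h1 := p4 m D hDF1 hDc (fun u hu => by
                rw [← e1 u (hDF1 hu)]
                exact hDm u hu)
              have h2 : (D.filter fun u => dep u = m) = D.filter fun u => d1 u = m :=
                Finset.filter_congr fun u hu => by rw [e1 u (hDF1 hu)]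
              rw [h2]
              exact h1
            · have hDA : D ⊆ A' := by
                intro v hv
                exact (hDc u0 hu0 v hv).ind (P := fun x => x ∈ A') (fun x y hxy hx hy hxA => by
                  have hy' : y ∈ D := by exact_mod_cast hy
                  rcases hmem y (hDF hy') with h | h | h
                  · exact absurd hxy.symm (hnoedge y h x hxA)
                  · exact h
                  · exact absurd h (hDX y hy')) h0
              have hDF2 : D ⊆ F2 := hDA.trans Finset.subset_union_left
              have h1 := q4 m D hDF2 hDc (fun u hu => by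
                rw [← e2 u (hDF2 hu)]
                exact hDm u hu)
              have h2 : (D.filter fun u => dep u = m) = D.filter fun u => d2 u = m :=
                Finset.filter_congr fun u hu => by rw [e2 u (hDF2 hu)]
              rw [h2]
              exact h1
            · exact absurd h0 (hDX u0 hu0)
      · -- small `B`
        let F' := F \ B
        let B' := F'.filter fun v => ∃ b ∈ B, G.Adj b v
        have hB'c : B'.card ≤ 12 * s * (Δ + 1) := by
          have h1 : B' ⊆ B.biUnion fun b => F'.filter fun v => G.Adj b v := by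
            intro v hv
            simp only [B', Finset.mem_filter] at hv
            obtain ⟨hv1, b, hb, hbv⟩ := hv
            rw [Finset.mem_biUnion]
            exact ⟨b, hb, Finset.mem_filter.2 ⟨hv1, hbv⟩⟩
          have h2 := (Finset.card_le_card h1).trans (Finset.card_biUnion_le_card_mul _ _ Δ
            (fun b _ => hΔ b _ fun t ht => (Finset.mem_filter.1 ht).2))
          have h3 : B.card * Δ ≤ 12 * s * (Δ + 1) := Nat.mul_le_mul hB (by omega)
          omega
        have hF' : F'.card < n := by
          rw [← hF]
          apply Finset.card_lt_card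
          refine ⟨Finset.sdiff_subset, fun h => ?_⟩
          have : 0 < B.card := by omega
          obtain ⟨b, hb⟩ := Finset.card_pos.1 this
          exact (Finset.mem_sdiff.1 (h (hBF hb))).2 hb
        obtain ⟨d, p1, p2, p3, p4⟩ := ih F'.card hF' F' B' rfl (Finset.filter_subset _ _) hB'c
        let dep : U → ℕ := fun u => if u ∈ B then 0 else d u + 1
        have e1 : ∀ u ∈ B, dep u = 0 := fun u hu => if_pos hu
        have e2 : ∀ u ∈ F, u ∉ B → dep u = d u + 1 := fun u _ hu => if_neg hu
        have e3 : ∀ u, dep u = 0 → u ∈ B := by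
          intro u hu
          by_contra h
          have : dep u = d u + 1 := if_neg h
          omega
        refine ⟨dep, e1, ?_, ?_, ?_⟩
        · have h1 : (F.filter fun u => dep u = 0) ⊆ B := by
            intro u hu
            exact e3 u (Finset.mem_filter.1 hu).2
          have h2 := Finset.card_le_card h1
          omega
        · intro u hu v hv huv
          by_cases hub : u ∈ B
          · rw [e1 u hub]
            omega
          · rw [e2 u hu hub]
            have huF : u ∈ F' := Finset.mem_sdiff.2 ⟨hu, hub⟩
            by_cases hvb : v ∈ B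
            · have : u ∈ B' := Finset.mem_filter.2 ⟨huF, v, hvb, huv.symm⟩
              rw [p1 u this]
              omega
            · rw [e2 v hv hvb]
              have := p3 u huF v (Finset.mem_sdiff.2 ⟨hv, hvb⟩) huv
              omega
        · intro m D hDF hDc hDm
          rcases Nat.eq_zero_or_pos m with rfl | hm
          · have h1 : (D.filter fun u => dep u = 0) ⊆ B := by
              intro u hu
              exact e3 u (Finset.mem_filter.1 hu).2
            have h2 := Finset.card_le_card h1
            omega
          · have hDB : ∀ u ∈ D, u ∉ B := by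
              intro u hu h
              have := hDm u hu
              rw [e1 u h] at this
              omega
            have hDF' : D ⊆ F' := fun u hu => Finset.mem_sdiff.2 ⟨hDF hu, hDB u hu⟩
            have h1 := p4 (m - 1) D hDF' hDc (fun u hu => by
              have := hDm u hu
              rw [e2 u (hDF hu) (hDB u hu)] at this
              omega)
            have h2 : (D.filter fun u => dep u = m) = D.filter fun u => d u = m - 1 :=
              Finset.filter_congr fun u hu => by
                rw [e2 u (hDF hu) (hDB u hu)]
                omega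
            rw [h2]
            exact h1
    -- the general case
    intro F B hF hBF hBL
    rcases Nat.lt_or_ge F.card (4 * s) with hF4 | hF4
    · refine ⟨fun _ => 0, fun _ _ => rfl, ?_, fun _ _ _ _ _ => Nat.zero_le _, ?_⟩
      · have h1 : (F.filter fun u => (fun _ : U => 0) u = 0).card ≤ F.card :=
          Finset.card_le_card (Finset.filter_subset _ _)
        have h2 := le_max_right B.card (4 * s)
        omega
      · intro m D hDF _ _
        have h1 : (D.filter fun u => (fun _ : U => 0) u = m).card ≤ D.card :=
          Finset.card_le_card (Finset.filter_subset _ _)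
        have h2 := Finset.card_le_card hDF
        have h3 : 24 * s ≤ 24 * s * (Δ + 1) := Nat.le_mul_of_pos_right _ (by omega)
        omega
    · rcases Nat.lt_or_ge B.card (4 * s) with hB4 | hB4
      · obtain ⟨B', h1, h2, h3⟩ := Finset.exists_subsuperset_card_eq hBF hB4.le hF4
        have h4 : 4 * s ≤ 12 * s * (Δ + 1) := by
          have : 12 * s ≤ 12 * s * (Δ + 1) := Nat.le_mul_of_pos_right _ (by omega)
          omega
        obtain ⟨d, p1, p2, p3, p4⟩ := main F B' hF h2 (by omega) (by omega)
        refine ⟨d, fun b hb => p1 b (h1 hb), ?_, p3, p4⟩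
        rw [max_eq_right hB4.le]
        omega
      · obtain ⟨d, p1, p2, p3, p4⟩ := main F B hF hBF hBL hB4
        refine ⟨d, p1, ?_, p3, p4⟩
        rw [max_eq_left hB4]
        omega

end Pool.Agent.H169Q
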