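import Mathlib

/-!
# Square structures: local rules and reduced paths
-/

set_option autoImplicit false

namespace Pool.Agent.H169Q

/-- Oriented edges with squares `Sq a b c d`: the paths `a b` and `c d` bound a square. The rules
`r1` (two squares with two consecutive common edges) and `r2` (three squares around a vertex) are
those of locally quadric complexes. -/
structure SqS (V E : Type*) where
  src : E → V
  inv : E → E
  ii : ∀ e, inv (inv e) = e
  Sq : E → E → E → E → Prop
  s1 : ∀ {a b c d}, Sq a b c d → Sq c d a b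
  s2 : ∀ {a b c d}, Sq a b c d → Sq (inv a) c b (inv d)
  nd : ∀ {a b c d}, Sq a b c d → a ≠ c
  e1 : ∀ {a b c d}, Sq a b c d → src a = src c
  r1 : ∀ {a b c d e f}, Sq a b c d → Sq c d e f → Sq a b e f ∨ (a = e ∧ b = f)
  r2 : ∀ {a b a' b' p q x y z}, Sq a x b y → Sq a' y b' z → Sq p b q a' → x ≠ z →
    a ≠ inv p → b' ≠ inv q →
    (∃ g, Sq p a g (inv x) ∧ Sq q b' g (inv z)) ∨ (∃ g, Sq p a q g ∧ Sq g x b' z) ∨
      (∃ g, Sq p g q b' ∧ Sq a x g z)

variable {V E : Type*} (S : SqS V E)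

namespace SqS

theorem inv_inj {a b : E} (h : S.inv a = S.inv b) : a = b := by
  rw [← S.ii a, h, S.ii]

/-- the reversed square -/
theorem s3 {a b c d : E} (h : S.Sq a b c d) : S.Sq (S.inv b) (S.inv a) (S.inv d) (S.inv c) := by
  have h1 := S.s2 (S.s1 (S.s2 h))
  exact h1

/-- the other rotation -/
theorem s4 {a b c d : E} (h : S.Sq a b c d) : S.Sq b (S.inv d) (S.inv a) c := S.s1 (S.s2 h)

theorem nd_bd {a b c d : E} (h : S.Sq a b c d) : b ≠ d := fun h1 => S.nd (S.s3 h) (by rw [h1])

theorem nd_ab {a b c d : E} (h : S.Sq a b c d) : b ≠ S.inv a := fun h1 => S.nd (S.s2 h) h1.symm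

theorem nd_cd {a b c d : E} (h : S.Sq a b c d) : d ≠ S.inv c := S.nd_ab (S.s1 h)

theorem e_ab {a b c d : E} (h : S.Sq a b c d) : S.src (S.inv a) = S.src b := S.e1 (S.s2 h)

theorem e_cd {a b c d : E} (h : S.Sq a b c d) : S.src (S.inv c) = S.src d := S.e_ab (S.s1 h)

theorem e_bd {a b c d : E} (h : S.Sq a b c d) : S.src (S.inv b) = S.src (S.inv d) :=
  S.e1 (S.s3 h)

/-- elementary moves of paths; a path is the list of its edges, the last edge first -/
inductive Mv : List E → List E → Prop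
  | sq {a b c d : E} (γ : List E) : S.Sq a b c d → Mv (b :: a :: γ) (d :: c :: γ)
  | cons (e : E) {γ γ' : List E} : Mv γ γ' → Mv (e :: γ) (e :: γ')

theorem Mv.symm {γ γ' : List E} (h : S.Mv γ γ') : S.Mv γ' γ := by
  induction h with
  | sq γ h => exact Mv.sq γ (S.s1 h)
  | cons e _ ih => exact Mv.cons e ih

theorem Mv.length {γ γ' : List E} (h : S.Mv γ γ') : γ.length = γ'.length := by
  induction h with
  | sq γ h => simp
  | cons e _ ih => simp [ih]

/-- equivalence of paths -/
def Eqv (γ γ' : List E) : Prop := Relation.ReflTransGen S.Mv γ γ'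

theorem Eqv.refl (γ : List E) : S.Eqv γ γ := Relation.ReflTransGen.refl

variable {S}

theorem Eqv.trans {γ γ' γ'' : List E} (h : S.Eqv γ γ') (h' : S.Eqv γ' γ'') : S.Eqv γ γ'' :=
  Relation.ReflTransGen.trans h h'

theorem Eqv.symm {γ γ' : List E} (h : S.Eqv γ γ') : S.Eqv γ' γ := by
  induction h with
  | refl => exact Eqv.refl S _
  | tail _ h2 ih => exact Relation.ReflTransGen.head h2.symm ih

theorem Eqv.length {γ γ' : List E} (h : S.Eqv γ γ') : γ.length = γ'.length := by
  induction h with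
  | refl => rfl
  | tail _ h2 ih => rw [ih, h2.length]

theorem Eqv.cons (e : E) {γ γ' : List E} (h : S.Eqv γ γ') : S.Eqv (e :: γ) (e :: γ') := by
  induction h with
  | refl => exact Eqv.refl S _
  | tail _ h2 ih => exact ih.tail (Mv.cons e h2)

theorem Eqv.sq {a b c d : E} (h : S.Sq a b c d) (γ : List E) :
    S.Eqv (b :: a :: γ) (d :: c :: γ) := Relation.ReflTransGen.single (Mv.sq γ h)

theorem Eqv.of_mv {γ γ' : List E} (h : S.Mv γ γ') : S.Eqv γ γ' := Relation.ReflTransGen.single h

/-- the equivalence changes the last two edges -/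
theorem Eqv.sq' {a b c d : E} (h : S.Sq a b c d) {γ γ1 γ2 : List E} (h1 : S.Eqv γ1 (a :: γ))
    (h2 : S.Eqv γ2 (c :: γ)) : S.Eqv (b :: γ1) (d :: γ2) :=
  ((h1.cons b).trans (Eqv.sq h γ)).trans (h2.cons d).symm

/-- paths with a backtrack -/
inductive Back (S : SqS V E) : List E → Prop
  | here (e : E) (γ : List E) : Back S (S.inv e :: e :: γ)
  | cons (e : E) {γ : List E} : Back S γ → Back S (e :: γ)

/-- reduced paths -/
def Red (S : SqS V E) (γ : List E) : Prop := ∀ γ', S.Eqv γ γ' → ¬ S.Back γ'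

theorem Red.tail {e : E} {γ : List E} (h : S.Red (e :: γ)) : S.Red γ :=
  fun _ h1 h2 => h _ (h1.cons e) (Back.cons e h2)

theorem Red.eqv {γ γ' : List E} (h : S.Red γ) (h1 : S.Eqv γ γ') : S.Red γ' :=
  fun _ h2 => h _ (h1.trans h2)

theorem red_nil : S.Red [] := by
  intro γ h1 h2
  have := h1.length
  cases h2 with
  | here e γ => simp at this
  | cons e _ => simp at this

/-- not reduced: equivalent to a path with a backtrack at the end -/
theorem not_red {e : E} {γ γ' : List E} (h : S.Red (e :: γ)) : ¬ S.Eqv γ (S.inv e :: γ') := by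
  intro h1
  refine h _ (h1.cons e) ?_
  have := Back.here (S := S) (S.inv e) γ'
  rwa [S.ii] at this

theorem not_red' {e : E} {γ γ' : List E} (h : S.Red γ) (h1 : S.Eqv γ (S.inv e :: e :: γ')) :
    False := h _ h1 (Back.here e γ')

/-- the relation of two equivalent paths with last edges `e`, `e'` -/
def St (S : SqS V E) (e : E) (γ : List E) (e' : E) (γ' : List E) : Prop :=
  (e = e' ∧ S.Eqv γ γ') ∨ ∃ δ a b, S.Eqv γ (a :: δ) ∧ S.Eqv γ' (b :: δ) ∧ S.Sq a e b e'

theorem St.of_mv {e e' : E} {γ γ' : List E} (h : S.Mv (e :: γ) (e' :: γ')) : S.St e γ e' γ' := by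
  cases h with
  | sq γ h => exact Or.inr ⟨_, _, _, Eqv.refl S _, Eqv.refl S _, h⟩
  | cons _ h => exact Or.inl ⟨rfl, Eqv.of_mv h⟩

theorem St.eqv {e e' : E} {γ γ' : List E} (h : S.St e γ e' γ') : S.Eqv (e :: γ) (e' :: γ') := by
  rcases h with ⟨rfl, h⟩ | ⟨δ, a, b, h1, h2, h3⟩
  · exact h.cons e
  · exact Eqv.sq' h3 h1 h2

/-- composition -/
theorem St.comp {n : ℕ} (ih : ∀ (δ δ' : List E) (e e' : E), δ.length = n → S.Red (e :: δ) →
    S.Eqv (e :: δ) (e' :: δ') → S.St e δ e' δ') {x y z : E} {γ1 γ2 γ3 : List E}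
    (hn : γ1.length = n + 1) (hr : S.Red (x :: γ1)) (h : S.St x γ1 y γ2) (h' : S.St y γ2 z γ3) :
    S.St x γ1 z γ3 := by
  have hr2 := hr.eqv h.eqv
  have hr3 := hr2.eqv h'.eqv
  rcases h with ⟨rfl, h⟩ | ⟨δ, a, b, h1, h2, h3⟩
  · rcases h' with ⟨rfl, h'⟩ | ⟨δ', a', b', k1, k2, k3⟩
    · exact Or.inl ⟨rfl, h.trans h'⟩
    · exact Or.inr ⟨δ', a', b', h.trans k1, k2, k3⟩
  rcases h' with ⟨rfl, h'⟩ | ⟨δ', a', b', k1, k2, k3⟩
  · exact Or.inr ⟨δ, a, b, h1, h'.symm.trans h2, h3⟩
  -- `b δ ~ γ2 ~ a' δ'`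
  have hlen : δ.length = n := by
    have := h1.length
    simp at this
    omega
  have h4 : S.Eqv (b :: δ) (a' :: δ') := h2.symm.trans k1
  have hrb : S.Red (b :: δ) := hr2.tail.eqv h2
  rcases ih δ δ' b a' hlen hrb h4 with ⟨rfl, h5⟩ | ⟨η, p, q, m1, m2, m3⟩
  · rcases S.r1 h3 k3 with h6 | ⟨h6, h7⟩
    · exact Or.inr ⟨δ, a, b', h1, k2.trans (h5.symm.cons b'), h6⟩
    · refine Or.inl ⟨h7, h1.trans ?_⟩
      rw [h6]
      exact (h5.cons b').trans k2.symm
  · have n1 : a ≠ S.inv p := by
      rintro rfl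
      exact not_red' hr.tail (h1.trans (m1.cons _))
    have n2 : b' ≠ S.inv q := by
      rintro rfl
      exact not_red' hr3.tail (k2.trans (m2.cons _))
    rcases eq_or_ne x z with rfl | hxz
    · -- the two squares at the end share two edges
      left
      refine ⟨rfl, ?_⟩
      -- `x y⁻¹ ~ a⁻¹ b`, `x y⁻¹ ~ b'⁻¹ a'`
      have q1 : S.Sq x (S.inv y) (S.inv a) b := S.s4 h3
      have q2 : S.Sq (S.inv b') a' x (S.inv y) := S.s1 (S.s4 (S.s1 k3))
      have hba : b ≠ a' := S.nd_bd m3
      rcases S.r1 q2 q1 with h6 | ⟨_, h6⟩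
      · -- `b'⁻¹ a' ~ a⁻¹ b`
        have q3 : S.Sq b' (S.inv a) a' (S.inv b) := by
          have := S.s2 h6
          rwa [S.ii] at this
        -- `a' b⁻¹ ~ q⁻¹ p`
        have q4 : S.Sq a' (S.inv b) (S.inv q) p := S.s4 (S.s1 m3)
        rcases S.r1 q3 q4 with h7 | ⟨h7, h8⟩
        · have q5 : S.Sq q b' p a := by
            have := S.s1 (S.s2 (S.s1 h7))
            have h9 := S.s2 h7
            -- h7 : Sq b' (inv a) (inv q) p
            have h10 := S.s2 (S.s1 h7)
            -- Sq (inv (inv q)) b' p (inv (inv a))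
            rwa [S.ii, S.ii] at h10
          exact ((h1.trans (m1.cons a)).trans (Eqv.sq (S.s1 q5) η)).trans
            ((m2.cons b').symm.trans k2.symm)
        · exact absurd h7 n2
      · exact absurd h6.symm hba
    · rcases S.r2 h3 k3 m3 hxz n1 n2 with ⟨g, g1, g2⟩ | ⟨g, g1, g2⟩ | ⟨g, g1, g2⟩
      · exfalso
        have h5 : S.Eqv γ1 (S.inv x :: g :: η) := (h1.trans (m1.cons a)).trans (Eqv.sq g1 η)
        exact not_red hr h5
      · exact Or.inr ⟨δ', g, b', (h1.trans (m1.cons a)).trans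
          ((Eqv.sq g1 η).trans (m2.cons g).symm), k2, g2⟩
      · exact Or.inr ⟨δ, a, g, h1, (k2.trans (m2.cons b')).trans
          ((Eqv.sq (S.s1 g1) η).trans (m1.cons g).symm), g2⟩

/-- Equivalent reduced paths. -/
theorem qc : ∀ (n : ℕ) (γ γ' : List E) (e e' : E), γ.length = n → S.Red (e :: γ) →
    S.Eqv (e :: γ) (e' :: γ') → S.St e γ e' γ' := by
  intro n
  induction n with
  | zero =>
    intro γ γ' e e' hn _ h
    have h0 : γ = [] := List.length_eq_zero_iff.1 hn
    subst h0
    have : ∀ w, S.Eqv [e] w → w = [e] := by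
      intro w hw
      induction hw with
      | refl => rfl
      | tail _ h2 ih =>
        subst ih
        cases h2 with
        | cons _ h3 => cases h3
    have := this _ h
    simp only [List.cons.injEq] at this
    obtain ⟨rfl, rfl⟩ := this
    exact Or.inl ⟨rfl, Eqv.refl S _⟩
  | succ n ih =>
    intro γ γ' e e' hn hr h
    have : ∀ w, S.Eqv (e :: γ) w → ∃ e' γ', w = e' :: γ' ∧ S.St e γ e' γ' := by
      intro w hw
      induction hw with
      | refl => exact ⟨e, γ, rfl, Or.inl ⟨rfl, Eqv.refl S _⟩⟩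
      | @tail b c _ h2 ih2 =>
        obtain ⟨e1, γ1, rfl, h3⟩ := ih2
        obtain ⟨e2, γ2, rfl⟩ : ∃ e2 γ2, c = e2 :: γ2 := by
          cases h2 with
          | sq γ _ => exact ⟨_, _, rfl⟩
          | cons _ _ => exact ⟨_, _, rfl⟩
        exact ⟨e2, γ2, rfl, St.comp ih hn hr h3 (St.of_mv h2)⟩
    obtain ⟨e2, γ2, h1, h2⟩ := this _ h
    simp only [List.cons.injEq] at h1
    obtain ⟨rfl, rfl⟩ := h1
    exact h2

theorem qc_same {γ γ' : List E} {e : E} (hr : S.Red (e :: γ)) (h : S.Eqv (e :: γ) (e :: γ')) :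
    S.Eqv γ γ' := by
  rcases qc _ γ γ' e e rfl hr h with ⟨_, h1⟩ | ⟨δ, a, b, _, _, h3⟩
  · exact h1
  · exact absurd rfl (S.nd_bd h3)

/-- Extension of a reduced path. -/
theorem ext : ∀ (n : ℕ) (γ : List E) (e : E), γ.length = n → S.Red γ →
    (∃ γ', S.Eqv γ (S.inv e :: γ')) ∨ S.Red (e :: γ) := by
  intro n
  induction n with
  | zero =>
    intro γ e hn _
    have h0 : γ = [] := List.length_eq_zero_iff.1 hn
    subst h0
    right
    intro γ' h1 h2
    have := h1.length
    cases h2 with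
    | here e γ => simp at this
    | cons e h3 =>
      cases h3 with
      | here e γ => simp at this
      | cons e h3 => simp at this
  | succ n ih =>
    intro γ e hn hr
    by_cases hcan : ∃ γ', S.Eqv γ (S.inv e :: γ')
    · exact Or.inl hcan
    right
    have key : ∀ w, S.Eqv (e :: γ) w → ∃ e' γ', w = e' :: γ' ∧ γ'.length = n + 1 ∧ S.Red γ' ∧
        ¬ ∃ γ'', S.Eqv γ' (S.inv e' :: γ'') := by
      intro w hw
      induction hw with
      | refl => exact ⟨e, γ, rfl, hn, hr, hcan⟩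
      | @tail b c _ h2 ih2 =>
        obtain ⟨x, γ1, rfl, l1, r1, c1⟩ := ih2
        cases h2 with
        | cons _ h3 =>
          exact ⟨_, _, rfl, by rw [← h3.length, l1], r1.eqv (Eqv.of_mv h3), fun ⟨γ'', h4⟩ =>
            c1 ⟨γ'', (Eqv.of_mv h3).trans h4⟩⟩
        | @sq a _ b y δ h3 =>
          refine ⟨y, b :: δ, rfl, by simpa using l1, ?_, ?_⟩
          · rcases ih δ b (by simpa using l1) r1.tail with ⟨κ, h4⟩ | h4
            · exfalso
              -- `b⁻¹ a ~ y x⁻¹`
              have q1 : S.Sq (S.inv b) a y (S.inv x) := by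
                have := S.s2 (S.s1 h3)
                exact this
              exact c1 ⟨y :: κ, (h4.cons a).trans (Eqv.sq q1 κ)⟩
            · exact h4
          · rintro ⟨κ, h4⟩
            have hrb : S.Red (b :: δ) := by
              rcases ih δ b (by simpa using l1) r1.tail with ⟨κ, h4⟩ | h4
              · exfalso
                have q1 : S.Sq (S.inv b) a y (S.inv x) := by
                  have := S.s2 (S.s1 h3)
                  exact this
                exact c1 ⟨y :: κ, (h4.cons a).trans (Eqv.sq q1 κ)⟩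
              · exact h4
            rcases qc _ δ κ b (S.inv y) rfl hrb h4 with ⟨h5, _⟩ | ⟨η, p, q, m1, m2, m3⟩
            · have := S.nd_cd h3
              rw [h5, S.ii] at this
              exact this rfl
            · -- `b y ~ p⁻¹ q`
              have q2 : S.Sq b y (S.inv p) q := by
                have := S.s4 m3
                rwa [S.ii] at this
              rcases S.r1 h3 q2 with h6 | ⟨h6, _⟩
              · -- `a x ~ p⁻¹ q`, so `p a ~ q x⁻¹`
                have q3 : S.Sq p a q (S.inv x) := by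
                  have := S.s2 (S.s1 h6)
                  rwa [S.ii] at this
                exact c1 ⟨q :: η, (m1.cons a).trans (Eqv.sq q3 η)⟩
              · rw [h6] at r1
                exact not_red' r1 (m1.cons _)
    intro γ' h1 h2
    obtain ⟨e', γ'', rfl, _, r2, c2⟩ := key _ h1
    cases h2 with
    | here x δ => exact c2 ⟨δ, by rw [S.ii]; exact Eqv.refl S _⟩
    | cons _ h3 => exact r2 _ (Eqv.refl S _) h3

end SqS

end Pool.Agent.H169Q
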